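import Pool.Agent.ZC.HS
import Pool.Agent.ZC.ZEB

/-!
# SI: Leibniz rule and symmetry for the Hasse derivatives of power series
-/

namespace Pool.Agent.SI

open Finset Pool.Agent.ZC

variable {K : Type*} [Field K]

theorem hs_coe (k : ℕ) (f : Polynomial K) :
    hs K k (f : PowerSeries K) = ((Polynomial.hasseDeriv k f : Polynomial K) : PowerSeries K) := by
  ext r
  rw [coeff_hs, Polynomial.coeff_coe, Polynomial.coeff_coe, Polynomial.hasseDeriv_coeff]

theorem hs_zero_ord (f : PowerSeries K) : hs K 0 f = f := by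
  ext r
  rw [coeff_hs]; simp

/-- Leibniz rule -/
theorem hs_mul (k : ℕ) (f g : PowerSeries K) :
    hs K k (f * g) = ∑ ij ∈ antidiagonal k, hs K ij.1 f * hs K ij.2 g := by
  ext r
  set N := r + k + 1 with hN
  have hf : ∀ i < N, (PowerSeries.trunc N f).coeff i = PowerSeries.coeff i f := by
    intro i hi
    rw [PowerSeries.coeff_trunc, if_pos hi]
  have hg : ∀ i < N, (PowerSeries.trunc N g).coeff i = PowerSeries.coeff i g := by
    intro i hi
    rw [PowerSeries.coeff_trunc, if_pos hi]
  have h1 := congrArg (fun p : Polynomial K => p.coeff r)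
    (Polynomial.hasseDeriv_mul k (PowerSeries.trunc N f) (PowerSeries.trunc N g))
  simp only [Polynomial.hasseDeriv_coeff, Polynomial.finsetSum_coeff, Polynomial.coeff_mul] at h1
  rw [coeff_hs, PowerSeries.coeff_mul, map_sum]
  simp only [PowerSeries.coeff_mul, coeff_hs]
  have h2 : ∑ x ∈ antidiagonal (r + k), (PowerSeries.coeff x.1) f * (PowerSeries.coeff x.2) g =
      ∑ x ∈ antidiagonal (r + k), (PowerSeries.trunc N f).coeff x.1 * (PowerSeries.trunc N g).coeff x.2 := by
    refine Finset.sum_congr rfl fun x hx => ?_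
    rw [HasAntidiagonal.mem_antidiagonal] at hx
    rw [hf _ (by omega), hg _ (by omega)]
  rw [h2, h1]
  refine Finset.sum_congr rfl fun ij hij => Finset.sum_congr rfl fun x hx => ?_
  rw [HasAntidiagonal.mem_antidiagonal] at hij hx
  rw [hf _ (by omega), hg _ (by omega)]

theorem hasseDeriv_comp_shift [CharZero K] (k : ℕ) (f : Polynomial K) (c : K) :
    Polynomial.hasseDeriv k (f.comp (Polynomial.X + Polynomial.C c)) =
      (Polynomial.hasseDeriv k f).comp (Polynomial.X + Polynomial.C c) := by
  have h1 : ∀ (n : ℕ) (f : Polynomial K), (Polynomial.derivative^[n]) (f.comp (Polynomial.X + Polynomial.C c)) =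
      ((Polynomial.derivative^[n]) f).comp (Polynomial.X + Polynomial.C c) := by
    intro n
    induction n with
    | zero => intro f; rfl
    | succ n ih =>
      intro f
      rw [Function.iterate_succ_apply, Function.iterate_succ_apply, Polynomial.derivative_comp]
      simp only [Polynomial.derivative_add, Polynomial.derivative_X, Polynomial.derivative_C, add_zero, one_mul]
      exact ih _
  have h2 : ∀ g : Polynomial K, (k.factorial : ℕ) • Polynomial.hasseDeriv k g = (Polynomial.derivative^[k]) g := by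
    intro g
    have := Polynomial.factorial_smul_hasseDeriv (R := K) k
    have h3 := congrFun this g
    simpa using h3
  have h3 : (k.factorial : ℕ) • Polynomial.hasseDeriv k (f.comp (Polynomial.X + Polynomial.C c)) =
      (k.factorial : ℕ) • (Polynomial.hasseDeriv k f).comp (Polynomial.X + Polynomial.C c) := by
    rw [h2, h1, ← h2]
    simp only [nsmul_eq_mul, Polynomial.mul_comp, Polynomial.natCast_comp]
  have h4 : (k.factorial : ℕ) ≠ 0 := Nat.factorial_ne_zero k
  exact smul_right_injective (Polynomial K) h4 h3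

theorem hs_loc [CharZero K] (k l : ℕ) (f : Polynomial K) :
    hs K k (loc K l f) = loc K l (Polynomial.hasseDeriv k f) := by
  rw [loc_apply, loc_apply, hs_coe]
  congr 1
  have h1 := hasseDeriv_comp_shift k f (-(l : K))
  rw [Polynomial.C_neg, ← sub_eq_add_neg] at h1
  exact h1

/-- Leibniz with a polynomial factor -/
theorem hs_loc_mul [CharZero K] (k l : ℕ) (f : Polynomial K) (g : PowerSeries K) :
    hs K k (loc K l f * g) = ∑ i ∈ range (k + 1), loc K l (Polynomial.hasseDeriv (k - i) f) * hs K i g := by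
  rw [hs_mul]
  simp only [hs_loc]
  rw [← Finset.Nat.sum_antidiagonal_swap]
  simp only [Prod.fst_swap, Prod.snd_swap]
  rw [Finset.Nat.sum_antidiagonal_eq_sum_range_succ
    (fun i j => loc K l (Polynomial.hasseDeriv j f) * hs K i g)]

theorem hs_inv_add_gen (h : ℕ) (c : K) (hc : c ≠ 0) :
    hs K h (PowerSeries.C c + PowerSeries.X)⁻¹ =
      PowerSeries.C ((-1) ^ h) * (PowerSeries.C c + PowerSeries.X)⁻¹ ^ (h + 1) := by
  have h1 : (PowerSeries.C c + PowerSeries.X : PowerSeries K)⁻¹ ^ (h + 1) =
      PowerSeries.C (c⁻¹ ^ (h + 1)) *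
        PowerSeries.rescale (-c⁻¹) (PowerSeries.mk fun n => ((h + n).choose h : K)) := by
    rw [inv_C_add_X c hc, mul_pow, ← map_pow, ← map_pow, PowerSeries.mk_one_pow_eq_mk_choose_add]
  rw [h1]
  ext r
  rw [coeff_hs, coeff_inv_C_add_X c hc, PowerSeries.coeff_C_mul, PowerSeries.coeff_C_mul,
    PowerSeries.coeff_rescale, PowerSeries.coeff_mk, add_comm h r, pow_add, neg_pow c⁻¹ r]
  ring

/-- the symmetry `X ↦ -X` and Hasse derivatives -/
theorem sg_hs (k : ℕ) (f : PowerSeries K) : PowerSeries.evalNegHom (hs K k f) =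
    PowerSeries.C ((-1) ^ k) * hs K k (PowerSeries.evalNegHom f) := by
  ext r
  have h1 : ((-1 : K) ^ k) * (-1) ^ (r + k) = (-1) ^ r := by
    rw [pow_add, mul_comm ((-1 : K) ^ r), ← mul_assoc, ← mul_pow]
    simp
  rw [PowerSeries.coeff_C_mul, coeff_hs, PowerSeries.evalNegHom, PowerSeries.coeff_rescale,
    PowerSeries.coeff_rescale, coeff_hs, ← h1]
  ring

end Pool.Agent.SI
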