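import Pool.Agent.SI.Defs
import Pool.Agent.SI.HSL

/-!
# SI: Hasse derivatives of `h^σ f(y)`
-/

namespace Pool.Agent.SI

open Finset Pool.Agent.ZC

variable {K : Type*} [Field K]

theorem POL_coeff_lin (c : K) (N r : ℕ) :
    PowerSeries.coeff r ((PowerSeries.C c + PowerSeries.C (2 : K) * PowerSeries.X) ^ N) =
      2 ^ r * c ^ (N - r) * ((N.choose r : ℕ) : K) := by
  have h1 : (PowerSeries.C c + PowerSeries.C (2 : K) * PowerSeries.X : PowerSeries K) ^ N =
      ((((Polynomial.X + Polynomial.C c) ^ N).comp (Polynomial.C 2 * Polynomial.X) :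
        Polynomial K) : PowerSeries K) := by
    rw [Polynomial.pow_comp, Polynomial.add_comp, Polynomial.X_comp, Polynomial.C_comp,
      Polynomial.coe_pow, Polynomial.coe_add, Polynomial.coe_mul, Polynomial.coe_C,
      Polynomial.coe_C, Polynomial.coe_X]
    ring
  rw [h1, Polynomial.coeff_coe, Polynomial.comp_C_mul_X_coeff, Polynomial.coeff_X_add_C_pow]
  ring

theorem POL_hs_lin (c : K) (i N : ℕ) :
    hs K i ((PowerSeries.C c + PowerSeries.C (2 : K) * PowerSeries.X) ^ N) =
      PowerSeries.C (((N.choose i : ℕ) : K) * 2 ^ i) *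
        (PowerSeries.C c + PowerSeries.C (2 : K) * PowerSeries.X) ^ (N - i) := by
  ext r
  rw [coeff_hs, POL_coeff_lin, PowerSeries.coeff_C_mul, POL_coeff_lin]
  by_cases h : r + i ≤ N
  · have h1 : N.choose (r + i) * (r + i).choose i = N.choose i * (N - i).choose r := by
      have := Nat.choose_mul (n := N) (Nat.le_add_left i r)
      rwa [Nat.add_sub_cancel] at this
    have h2 : ((N.choose (r + i) : ℕ) : K) * (((r + i).choose i : ℕ) : K) =
        ((N.choose i : ℕ) : K) * (((N - i).choose r : ℕ) : K) := by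
      exact_mod_cast congrArg (Nat.cast (R := K)) h1
    have h3 : N - (r + i) = N - i - r := by omega
    rw [h3, pow_add]
    linear_combination (2 ^ r * 2 ^ i * c ^ (N - i - r)) * h2
  · have h4 : N.choose (r + i) = 0 := Nat.choose_eq_zero_of_lt (by omega)
    rw [h4]
    by_cases h5 : i ≤ N
    · have h6 : (N - i).choose r = 0 := Nat.choose_eq_zero_of_lt (by omega)
      rw [h6]; simp
    · have h6 : N.choose i = 0 := Nat.choose_eq_zero_of_lt (by omega)
      rw [h6]; simp

theorem hs_hl_pow (p l i N : ℕ) :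
    hs K i (hl K p l ^ N) = PowerSeries.C (((N.choose i : ℕ) : K) * 2 ^ i) * hl K p l ^ (N - i) :=
  POL_hs_lin _ i N

theorem POL_ev_sum (p l n : ℕ) (a : ℕ → K) (e : ℕ → ℕ) :
    ev K p l (∑ j ∈ range n, Polynomial.C (a j) * Polynomial.X ^ e j) =
      ∑ j ∈ range n, PowerSeries.C (a j) * hl K p l ^ (2 * e j) := by
  rw [ev, map_sum]
  refine sum_congr rfl fun j _ => ?_
  rw [map_mul, map_pow, Polynomial.aeval_X, Polynomial.aeval_C, yl_eq_hl_sq, ← pow_mul]
  rfl

theorem hs_hl_ev (n σ i : ℕ) (hσ : σ ≤ 1) (f : Polynomial K) (hf : f ∈ Polynomial.degreeLT K n) :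
    ∃ f' ∈ Polynomial.degreeLT K n, ∀ p l, hs K i (hl K p l ^ σ * ev K p l f) =
      hl K p l ^ ((σ + i) % 2) * ev K p l f' := by
  refine ⟨∑ j ∈ range n, Polynomial.C (f.coeff j * ((((2 * j + σ).choose i : ℕ) : K) * 2 ^ i)) *
    Polynomial.X ^ ((2 * j + σ - i) / 2), ?_, ?_⟩
  · refine Submodule.sum_mem _ fun j hj => ?_
    rw [mem_range] at hj
    rw [Polynomial.mem_degreeLT]
    refine lt_of_le_of_lt (Polynomial.degree_C_mul_X_pow_le _ _) ?_
    have : (2 * j + σ - i) / 2 < n := by omega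
    exact_mod_cast this
  · intro p l
    have hf1 : f = ∑ j ∈ range n, Polynomial.C (f.coeff j) * Polynomial.X ^ j := by
      rcases eq_or_ne f 0 with h0 | h0
      · rw [h0]; simp
      · have h1 : f.natDegree < n := by
          rw [Polynomial.mem_degreeLT, Polynomial.degree_eq_natDegree h0] at hf
          exact_mod_cast hf
        exact Polynomial.as_sum_range_C_mul_X_pow' f h1
    rw [POL_ev_sum]
    conv_lhs => rw [hf1, POL_ev_sum p l n (fun j => f.coeff j) (fun j => j)]
    rw [Finset.mul_sum, Finset.mul_sum, hs_sum]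
    refine sum_congr rfl fun j _ => ?_
    have h2 : hl K p l ^ σ * (PowerSeries.C (f.coeff j) * hl K p l ^ (2 * j)) =
        PowerSeries.C (f.coeff j) * hl K p l ^ (2 * j + σ) := by
      rw [pow_add]; ring
    rw [h2, hs_C_mul, hs_hl_pow]
    by_cases h : i ≤ 2 * j + σ
    · have h3 : 2 * j + σ - i = (σ + i) % 2 + 2 * ((2 * j + σ - i) / 2) := by omega
      rw [← mul_assoc, ← map_mul]
      conv_lhs => rw [h3, pow_add]
      ring
    · have h4 : (2 * j + σ).choose i = 0 := Nat.choose_eq_zero_of_lt (by omega)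
      rw [h4]; simp

end Pool.Agent.SI
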