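import Pool.Agent.SI.Defs
import Pool.Agent.ZC.BDG

/-!
# SI: bound for the companion rows
-/

namespace Pool.Agent.SI

open Finset Pool.Agent.ZC

private theorem bdsa_Cn (p l M i G A : ℕ) (hl : l < p) (hM : 0 < M) (hG : 1 ≤ G) (hA : 1 ≤ A)
    (hp : p ≤ G * (A * M)) (hi : i < G * (A * M)) (r : ℕ) :
    |PowerSeries.coeff r (ev ℝ p l (Cn ℝ M i))| ≤
      (13 * (G : ℝ) * A) ^ (2 * i) * Real.exp M := by
  set n := 4 * (G * (A * M)) with hn
  have hAM : 1 ≤ G * (A * M) := Nat.mul_pos hG (Nat.mul_pos hA hM)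
  have h1 := bd_Cp p l n i hl (by omega) (by omega) r
  rw [Cn, ev_C_mul, PowerSeries.coeff_C_mul, abs_mul]
  have hb : (0 : ℝ) < ((4 ^ i * bf M (2 * i) : ℕ) : ℝ) := by
    exact_mod_cast Nat.mul_pos (by positivity) (bf_pos _ _)
  rw [abs_of_pos (inv_pos.2 hb), inv_mul_le_iff₀ hb]
  refine h1.trans ?_
  have h2 := le_bf hM (2 * i)
  have hMR : (0 : ℝ) < M := by exact_mod_cast hM
  have hGR : (1 : ℝ) ≤ G := by exact_mod_cast hG
  have hAR : (1 : ℝ) ≤ A := by exact_mod_cast hA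
  have hnR : (n : ℝ) = 4 * (G * (A * M)) := by rw [hn]; push_cast; ring
  have hn1 : (1 : ℝ) ≤ G * (A * M) := by exact_mod_cast hAM
  have h3 : (2 * (M : ℝ)) ^ (2 * i) * Real.exp (-(2 * i + M)) ≤
      ((4 ^ i * bf M (2 * i) : ℕ) : ℝ) := by
    push_cast at h2 ⊢
    rw [mul_pow, pow_mul, mul_assoc]
    have : ((2 : ℝ) ^ 2) ^ i = 4 ^ i := by norm_num
    rw [this]
    exact mul_le_mul_of_nonneg_left h2 (by positivity)
  have h4 : (2 * (n : ℝ) + 1) ^ (2 * i) ≤
      ((2 * (M : ℝ)) ^ (2 * i) * Real.exp (-(2 * i + M))) *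
        ((13 * (G : ℝ) * A) ^ (2 * i) * Real.exp M) := by
    have e1 : Real.exp (-(2 * (i : ℝ) + M)) * Real.exp M = (Real.exp (-1)) ^ (2 * i) := by
      rw [← Real.exp_add, ← Real.exp_nat_mul]
      congr 1; push_cast; ring
    have e2 : (2 * (M : ℝ)) ^ (2 * i) * Real.exp (-(2 * i + M)) *
        ((13 * (G : ℝ) * A) ^ (2 * i) * Real.exp M) =
        (2 * (M : ℝ) * Real.exp (-1) * (13 * G * A)) ^ (2 * i) := by
      rw [mul_pow (2 * (M : ℝ) * Real.exp (-1)), mul_pow (2 * (M : ℝ)) (Real.exp (-1)), ← e1]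
      ring
    rw [e2]
    apply pow_le_pow_left₀ (by positivity)
    have e4 : (1 : ℝ) / 2.7182818286 ≤ Real.exp (-1) := by
      rw [Real.exp_neg, one_div]
      exact inv_anti₀ (Real.exp_pos _) Real.exp_one_lt_d9.le
    have e5 : 2 * (n : ℝ) + 1 ≤ 2 * M * (1 / 2.7182818286) * (13 * G * A) := by
      rw [hnR]
      have : 2 * (M : ℝ) * (1 / 2.7182818286) * (13 * G * A) =
          (26 / 2.7182818286) * (G * (A * M)) := by ring
      rw [this]
      have h9 : (9 : ℝ) ≤ 26 / 2.7182818286 := by norm_num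
      nlinarith
    refine e5.trans ?_
    apply mul_le_mul_of_nonneg_right _ (by positivity)
    exact mul_le_mul_of_nonneg_left e4 (by positivity)
  refine h4.trans ?_
  exact mul_le_mul_of_nonneg_right h3 (by positivity)

private theorem bdsa_hl (p l s : ℕ) (hlp : l < p) (hs : s ≤ 1) (F : PowerSeries ℝ) (B : ℝ)
    (hB : ∀ r, |PowerSeries.coeff r F| ≤ B) (r : ℕ) :
    |PowerSeries.coeff r (hl ℝ p l ^ s * F)| ≤ (2 * (p : ℝ) + 1) * B := by
  have hB0 : 0 ≤ B := (abs_nonneg _).trans (hB 0)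
  have h1 : (l : ℝ) + 1 ≤ p := by exact_mod_cast hlp
  have h0 : (0 : ℝ) ≤ l := by positivity
  have hp0 : (0 : ℝ) ≤ p := by positivity
  interval_cases s
  · rw [pow_zero, one_mul]
    refine (hB r).trans ?_
    nlinarith
  · rw [pow_one, hl, add_mul, map_add, PowerSeries.coeff_C_mul, mul_assoc,
      PowerSeries.coeff_C_mul]
    have hX : |PowerSeries.coeff r (PowerSeries.X * F)| ≤ B := by
      rcases r with _ | r
      · rw [PowerSeries.coeff_zero_X_mul]; simpa using hB0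
      · rw [PowerSeries.coeff_succ_X_mul]; exact hB r
    refine (abs_add_le _ _).trans ?_
    rw [abs_mul, abs_mul, abs_of_nonneg (by linarith : (0 : ℝ) ≤ 2 * (p : ℝ) - 1 - 2 * l),
      abs_of_nonneg (by norm_num : (0 : ℝ) ≤ 2)]
    have h5 := hB r
    have h6 : (2 * (p : ℝ) - 1 - 2 * l) * |PowerSeries.coeff r F| ≤ (2 * (p : ℝ) - 1) * B :=
      mul_le_mul (by linarith) h5 (abs_nonneg _) (by linarith)
    linarith

/-- companion rows -/
theorem bd_cRow (g S a : ℕ) (hg : 1 ≤ g) (ha : 1 ≤ a) {J : Type} [Fintype J]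
    (ψ : J → PowerSeries ℝ) (σ : J → ℕ) (hσ : ∀ j, σ j ≤ 1) :
    ∃ M0 : ℕ, ∀ M ≥ M0, ∀ l < g * ((a + S + 1) * M), ∀ i < (g + 2) * ((a + S + 1) * M), ∀ j,
      ∀ m < a, |PowerSeries.coeff m (cRow ℝ M (g * ((a + S + 1) * M)) ψ σ l j i)| ≤
        (100 * ((g : ℝ) + 2) * (a + S + 1)) ^ (4 * ((g + 2) * ((a + S + 1) * M))) := by
  classical
  set K : ℝ := ∑ j, ∑ x ∈ range a, |PowerSeries.coeff x (ψ j)| with hK
  refine ⟨⌈K⌉₊ + 1, fun M hM l hl i hi j m hm => ?_⟩
  have hM0 : 0 < M := by omega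
  have hMR : (0 : ℝ) < M := by exact_mod_cast hM0
  set p := g * ((a + S + 1) * M) with hp
  set N := (g + 2) * ((a + S + 1) * M) with hN
  have hpN : p ≤ N := by rw [hp, hN]; exact Nat.mul_le_mul_right _ (by omega)
  have hAM : M ≤ (a + S + 1) * M := Nat.le_mul_of_pos_left _ (by omega)
  have hMN : M ≤ N := hAM.trans (Nat.le_mul_of_pos_left _ (by omega))
  have hN1 : 1 ≤ N := le_trans hM0 hMN
  set D : ℝ := 100 * ((g : ℝ) + 2) * (a + S + 1) with hD
  have hgR : (1 : ℝ) ≤ g := by exact_mod_cast hg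
  have haR : (1 : ℝ) ≤ a := by exact_mod_cast ha
  have hSR : (0 : ℝ) ≤ S := by positivity
  have hD100 : 100 ≤ D := by rw [hD]; nlinarith
  have hD1 : 1 ≤ D := by linarith
  -- the bound for `ev Cn`
  set B : ℝ := D ^ (2 * N) * D ^ N with hB
  have hB0 : 0 ≤ B := by rw [hB]; positivity
  have hev : ∀ r, |PowerSeries.coeff r (ev ℝ p l (Cn ℝ M i))| ≤ B := by
    intro r
    have h1 := bdsa_Cn p l M i (g + 2) (a + S + 1) hl hM0 (by omega) (by omega) hpN hi r
    refine h1.trans ?_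
    rw [hB]
    apply mul_le_mul _ _ (Real.exp_pos _).le (by positivity)
    · have h2 : (13 * ((g + 2 : ℕ) : ℝ) * ((a + S + 1 : ℕ) : ℝ)) ≤ D := by
        rw [hD]; push_cast; nlinarith
      refine (pow_le_pow_left₀ (by positivity) h2 _).trans ?_
      exact pow_le_pow_right₀ hD1 (by omega)
    · have h3 : Real.exp M = Real.exp 1 ^ M := by
        rw [← Real.exp_nat_mul, mul_one]
      rw [h3]
      have h4 : Real.exp 1 ≤ D := by
        have := Real.exp_one_lt_d9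
        linarith
      refine (pow_le_pow_left₀ (Real.exp_pos _).le h4 _).trans ?_
      exact pow_le_pow_right₀ hD1 hMN
  have hcoef := bdsa_hl p l (σ j) hl (hσ j) (ev ℝ p l (Cn ℝ M i)) B hev
  -- the product with `ψ j`
  have hK1 : ∑ x ∈ range a, |PowerSeries.coeff x (ψ j)| ≤ K := by
    rw [hK]
    exact single_le_sum (f := fun j => ∑ x ∈ range a, |PowerSeries.coeff x (ψ j)|)
      (fun j _ => sum_nonneg fun x _ => abs_nonneg _) (mem_univ j)
  have hsum : |PowerSeries.coeff m (cRow ℝ M p ψ σ l j i)| ≤ K * ((2 * (p : ℝ) + 1) * B) := by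
    rw [cRow, PowerSeries.coeff_mul]
    refine (abs_sum_le_sum_abs _ _).trans ?_
    have h5 : ∑ x ∈ antidiagonal m, |PowerSeries.coeff x.1 (ψ j) *
        PowerSeries.coeff x.2 (Pool.Agent.SI.hl ℝ p l ^ σ j * ev ℝ p l (Cn ℝ M i))| ≤
        ∑ x ∈ antidiagonal m, |PowerSeries.coeff x.1 (ψ j)| * ((2 * (p : ℝ) + 1) * B) := by
      apply sum_le_sum
      intro x _
      rw [abs_mul]
      exact mul_le_mul_of_nonneg_left (hcoef _) (abs_nonneg _)
    refine h5.trans ?_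
    rw [← sum_mul]
    apply mul_le_mul_of_nonneg_right _ (by positivity)
    refine le_trans ?_ hK1
    rw [Finset.Nat.sum_antidiagonal_eq_sum_range_succ_mk]
    exact sum_le_sum_of_subset_of_nonneg (range_subset_range.2 (by omega))
      fun x _ _ => abs_nonneg _
  refine hsum.trans ?_
  -- `K (2p+1) ≤ 6^N ≤ D^N`
  have hK0 : 0 ≤ K := by rw [hK]; positivity
  have hKN : K ≤ 2 ^ N := by
    have h6 : K ≤ (⌈K⌉₊ : ℝ) := Nat.le_ceil _
    have h7 : (⌈K⌉₊ : ℝ) ≤ N := by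
      have : ⌈K⌉₊ ≤ N := by omega
      exact_mod_cast this
    have h8 : (N : ℝ) ≤ 2 ^ N := by exact_mod_cast Nat.lt_two_pow_self.le
    linarith
  have hpN2 : 2 * (p : ℝ) + 1 ≤ 3 ^ N := by
    have h9 : (p : ℝ) ≤ N := by exact_mod_cast hpN
    have h10 : 1 + (N : ℝ) * 2 ≤ (1 + 2) ^ N := one_add_mul_le_pow (by norm_num) N
    have h11 : ((1 : ℝ) + 2) ^ N = 3 ^ N := by norm_num
    rw [h11] at h10
    linarith
  have h12 : K * (2 * (p : ℝ) + 1) ≤ D ^ N := by
    calc K * (2 * (p : ℝ) + 1) ≤ 2 ^ N * 3 ^ N :=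
          mul_le_mul hKN hpN2 (by positivity) (by positivity)
      _ = 6 ^ N := by rw [← mul_pow]; norm_num
      _ ≤ D ^ N := pow_le_pow_left₀ (by norm_num) (by linarith) _
  calc K * ((2 * (p : ℝ) + 1) * B) = (K * (2 * (p : ℝ) + 1)) * B := by ring
    _ ≤ D ^ N * B := mul_le_mul_of_nonneg_right h12 hB0
    _ = D ^ (4 * N) := by
        rw [hB, ← pow_add, ← pow_add]
        congr 1
        ring

end Pool.Agent.SI
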