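import Pool.Agent.SI.Defs
import Pool.Agent.ZC.BDG

/-!
# SI: bound for the terms of the F rows
-/

namespace Pool.Agent.SI

open Finset Pool.Agent.ZC

private theorem bs_uv (p n k l κ m : ℕ) (hlp : l < p) :
    |PowerSeries.coeff m (uvec p n k l κ)| ≤ (2 * (p : ℝ) + 1) ^ (2 * (n + κ) + 1) := by
  have h1 : (l : ℝ) + 1 ≤ p := by exact_mod_cast hlp
  have h0 : (0 : ℝ) ≤ l := by positivity
  have hb : ∀ r, |PowerSeries.coeff r (hl ℝ p l ^ (k % 2) * yl ℝ p l ^ (n + κ))| ≤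
      (2 * (p : ℝ) + 1) ^ (2 * (n + κ) + 1) := by
    intro r
    have hd : BDom (hl ℝ p l)
        (Polynomial.C |2 * (p : ℝ) - 1 - 2 * (l : ℝ)| + Polynomial.C (2 : ℝ) * Polynomial.X) :=
      BDom.lin _
    refine (((hd.pow (k % 2)).mul ((yl_dom p l).pow (n + κ))).coeff_le r).trans ?_
    rw [abs_of_nonneg (by linarith)]
    simp only [Polynomial.eval_pow, Polynomial.eval_add, Polynomial.eval_C, Polynomial.eval_mul,
      Polynomial.eval_X, mul_one]
    rw [← pow_mul, ← pow_add]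
    have hk : k % 2 < 2 := Nat.mod_lt _ (by norm_num)
    calc (2 * (p : ℝ) - 1 - 2 * l + 2) ^ (k % 2 + 2 * (n + κ))
        ≤ (2 * (p : ℝ) + 1) ^ (k % 2 + 2 * (n + κ)) :=
          pow_le_pow_left₀ (by linarith) (by linarith) _
      _ ≤ (2 * (p : ℝ) + 1) ^ (2 * (n + κ) + 1) :=
          pow_le_pow_right₀ (by linarith) (by omega)
  rw [uvec, PowerSeries.coeff_X_pow_mul']
  split_ifs
  · exact hb _
  · rw [abs_zero]; positivity

private theorem bs_inv {M : ℕ} (hM : 0 < M) (z : ℕ) :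
    ((bf M z : ℕ) : ℝ)⁻¹ ≤ (Real.exp 1 / M) ^ z * Real.exp M := by
  have hMR : (0 : ℝ) < M := by exact_mod_cast hM
  have hb : (0 : ℝ) < ((bf M z : ℕ) : ℝ) := by exact_mod_cast bf_pos _ _
  have h := le_bf hM z
  rw [inv_le_iff_one_le_mul₀ hb]
  have e : (Real.exp 1 / M) ^ z * Real.exp M * ((M : ℝ) ^ z * Real.exp (-(z + M : ℕ))) = 1 := by
    have e1 : Real.exp (-((z + M : ℕ) : ℝ)) * Real.exp M * (Real.exp 1) ^ z = 1 := by
      rw [← Real.exp_add, ← Real.exp_nat_mul, ← Real.exp_add]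
      have e0 : -((z + M : ℕ) : ℝ) + M + (z : ℝ) * 1 = 0 := by push_cast; ring
      rw [e0, Real.exp_zero]
    rw [div_pow]
    have hMz : (M : ℝ) ^ z ≠ 0 := by positivity
    calc (Real.exp 1) ^ z / (M : ℝ) ^ z * Real.exp M * ((M : ℝ) ^ z * Real.exp (-(z + M : ℕ)))
        = Real.exp (-((z + M : ℕ) : ℝ)) * Real.exp M * (Real.exp 1) ^ z := by
          field_simp
      _ = 1 := e1
  calc (1 : ℝ) = (Real.exp 1 / M) ^ z * Real.exp M *
        ((M : ℝ) ^ z * Real.exp (-(z + M : ℕ))) := e.symm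
    _ ≤ (Real.exp 1 / M) ^ z * Real.exp M * ((bf M z : ℕ) : ℝ) :=
        mul_le_mul_of_nonneg_left h (by positivity)

private theorem bs_A (M q : ℕ) (hM : 0 < M) (hq : 1 ≤ q) (s P : ℝ) (hs0 : 0 < s)
    (hsq : 2 * (q : ℝ) ≤ s) (hP : 0 < P) :
    |(Am ℝ M q).eval (s ^ 2)| * (P / s) ^ (2 * q - 1) ≤
      s * ((2 * P * Real.exp 1 / M) ^ (2 * q - 1) * Real.exp M) := by
  have hb : (0 : ℝ) < ((bf M (2 * q - 1) : ℕ) : ℝ) := by exact_mod_cast bf_pos _ _
  have h1 : |(Am ℝ M q).eval (s ^ 2)| ≤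
      2 ^ (2 * q - 1) * ((bf M (2 * q - 1) : ℕ) : ℝ)⁻¹ * s ^ (2 * q) := by
    rw [Am, Ap, Polynomial.eval_mul, Polynomial.eval_C, Polynomial.eval_prod, abs_mul,
      abs_of_nonneg (by positivity)]
    apply mul_le_mul_of_nonneg_left _ (by positivity)
    rw [abs_prod]
    have h3 : ∏ k ∈ range q, (s ^ 2) = s ^ (2 * q) := by
      rw [prod_const, card_range, ← pow_mul]
    rw [← h3]
    apply prod_le_prod (fun _ _ => abs_nonneg _)
    intro k hk
    have hk1 : (k : ℝ) ≤ q := by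
      have := (mem_range.1 hk).le
      exact_mod_cast this
    simp only [Polynomial.eval_sub, Polynomial.eval_X, Polynomial.eval_C]
    have h4 : (2 * (k : ℝ)) ^ 2 ≤ s ^ 2 := pow_le_pow_left₀ (by positivity) (by linarith) 2
    have h5 : 0 ≤ (2 * (k : ℝ)) ^ 2 := by positivity
    rw [abs_of_nonneg (by linarith)]
    linarith
  have h2 := bs_inv hM (2 * q - 1)
  set z := 2 * q - 1 with hz
  have hz2 : 2 * q = z + 1 := by omega
  calc |(Am ℝ M q).eval (s ^ 2)| * (P / s) ^ z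
      ≤ (2 ^ z * ((bf M z : ℕ) : ℝ)⁻¹ * s ^ (2 * q)) * (P / s) ^ z :=
        mul_le_mul_of_nonneg_right h1 (by positivity)
    _ = s * ((2 * P) ^ z * ((bf M z : ℕ) : ℝ)⁻¹) := by
        rw [hz2, div_pow, mul_pow, pow_succ]
        have : s ^ z ≠ 0 := by positivity
        field_simp
    _ ≤ s * ((2 * P) ^ z * ((Real.exp 1 / M) ^ z * Real.exp M)) := by
        apply mul_le_mul_of_nonneg_left _ hs0.le
        exact mul_le_mul_of_nonneg_left h2 (by positivity)
    _ = s * ((2 * P * Real.exp 1 / M) ^ z * Real.exp M) := by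
        rw [show 2 * P * Real.exp 1 / M = (2 * P) * (Real.exp 1 / M) by ring, mul_pow (2 * P)]
        ring

private theorem bs_C (M j : ℕ) (hM : 0 < M) (s P : ℝ) (hs0 : 0 < s)
    (hsj : 2 * (j : ℝ) ≤ s) (hP : 0 < P) :
    |(Cn ℝ M j).eval (s ^ 2)| * (P / s) ^ (2 * j) ≤
      (P * Real.exp 1 / (2 * M)) ^ (2 * j) * Real.exp M := by
  have h1 : |(Cn ℝ M j).eval (s ^ 2)| ≤
      (((4 ^ j * bf M (2 * j) : ℕ) : ℝ))⁻¹ * (s ^ 2) ^ j := by
    rw [cn_eval, abs_mul, abs_of_nonneg (by positivity)]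
    apply mul_le_mul_of_nonneg_left _ (by positivity)
    rw [abs_prod]
    have h3 : ∏ k ∈ range j, (s ^ 2) = (s ^ 2) ^ j := by
      rw [prod_const, card_range]
    rw [← h3]
    apply prod_le_prod (fun _ _ => abs_nonneg _)
    intro k hk
    have hk1 : 2 * (k : ℝ) + 1 ≤ 2 * j := by
      have h4 := mem_range.1 hk
      have : 2 * k + 1 ≤ 2 * j := by omega
      exact_mod_cast this
    have h4 : (2 * (k : ℝ) + 1) ^ 2 ≤ s ^ 2 := pow_le_pow_left₀ (by positivity) (by linarith) 2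
    have h5 : 0 ≤ (2 * (k : ℝ) + 1) ^ 2 := by positivity
    rw [abs_of_nonneg (by linarith)]
    linarith
  have h2 := div_bf_le hM j P
  calc |(Cn ℝ M j).eval (s ^ 2)| * (P / s) ^ (2 * j)
      ≤ ((((4 ^ j * bf M (2 * j) : ℕ) : ℝ))⁻¹ * (s ^ 2) ^ j) * (P / s) ^ (2 * j) :=
        mul_le_mul_of_nonneg_right h1 (by positivity)
    _ = (((4 ^ j * bf M (2 * j) : ℕ) : ℝ))⁻¹ * (P ^ 2) ^ j := by
        rw [div_pow, ← pow_mul, ← pow_mul, mul_assoc]
        have : s ^ (2 * j) ≠ 0 := by positivity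
        congr 1
        field_simp
    _ ≤ ((P * Real.exp 1 / (2 * M)) ^ 2) ^ j * Real.exp M := h2
    _ = _ := by rw [← pow_mul]

private theorem bs_choose (m r : ℕ) (x : ℝ) (hx : 0 < x) :
    (m.choose r : ℝ) ≤ (1 + x) ^ m * (1 / x) ^ r := by
  rcases Nat.lt_or_ge m r with h | h
  · rw [Nat.choose_eq_zero_of_lt h]
    push_cast
    positivity
  · have h1 : x ^ r * 1 ^ (m - r) * (m.choose r : ℝ) ≤ (x + 1) ^ m := by
      rw [add_pow]
      exact single_le_sum (f := fun i => x ^ i * 1 ^ (m - i) * (m.choose i : ℝ))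
        (fun i _ => by positivity) (mem_range.2 (by omega))
    rw [one_pow, mul_one] at h1
    rw [one_div, inv_pow, ← div_eq_mul_inv, le_div_iff₀ (by positivity)]
    calc (m.choose r : ℝ) * x ^ r = x ^ r * (m.choose r : ℝ) := by ring
      _ ≤ (x + 1) ^ m := h1
      _ = (1 + x) ^ m := by rw [add_comm]

/-- the series: all terms -/
private theorem bs_gamh (M q n j δ κ : ℕ) (P ρ : ℝ) (hM : 0 < M) (hq : 1 ≤ q) (hjq : j ≤ q)
    (hn : q + j + 1 ≤ n) (hP : 1 ≤ P) (hρ : ρ ≤ 1) (hPq : P ≤ ρ * (2 * (q : ℝ))) :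
    |gamh q (n + δ) (Am ℝ M q * Cn ℝ M j) κ| * P ^ (2 * (n + κ) + 1) ≤
      8 * (((2 * P * Real.exp 1 / M) ^ (2 * q - 1) * Real.exp M) *
        ((P * Real.exp 1 / (2 * M)) ^ (2 * j) * Real.exp M)) * P ^ 3 * ρ ^ (2 * κ) := by
  set W := ((2 * P * Real.exp 1 / M) ^ (2 * q - 1) * Real.exp M) *
        ((P * Real.exp 1 / (2 * M)) ^ (2 * j) * Real.exp M) with hW
  have hMR : (0 : ℝ) < M := by exact_mod_cast hM
  have hW0 : 0 < W := by positivity
  have hP0 : 0 < P := by linarith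
  have hqR : (1 : ℝ) ≤ q := by exact_mod_cast hq
  have hρ0 : 0 < ρ := by
    by_contra hcon
    push Not at hcon
    nlinarith
  have hterm : ∀ i : ℕ, ‖8 * ((q + i : ℕ) : ℝ) *
      (Am ℝ M q * Cn ℝ M j).eval ((2 * ((q + i : ℕ) : ℝ)) ^ 2) /
        ((2 * ((q + i : ℕ) : ℝ)) ^ 2) ^ (n + δ + κ + 1)‖ ≤
      (4 * W * P ^ 3 * ρ ^ (2 * κ) / P ^ (2 * (n + κ) + 1)) *
        (1 / ((i : ℝ) + 1) ^ 2) := by
    intro i
    set s := 2 * ((q + i : ℕ) : ℝ) with hs
    have hi0 : (0 : ℝ) ≤ i := by positivity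
    have hsv : s = 2 * (q : ℝ) + 2 * i := by rw [hs]; push_cast; ring
    have hsq : 2 * (q : ℝ) ≤ s := by rw [hsv]; linarith
    have hs0 : 0 < s := by linarith
    have hs1 : 1 ≤ s := by linarith
    have hsi : (i : ℝ) + 1 ≤ s := by rw [hsv]; linarith
    have hsj : 2 * (j : ℝ) ≤ s := by
      have : (j : ℝ) ≤ q := by exact_mod_cast hjq
      linarith
    have h8 : 8 * ((q + i : ℕ) : ℝ) = 4 * s := by rw [hs]; ring
    rw [h8]
    set F := (Am ℝ M q * Cn ℝ M j).eval (s ^ 2) with hF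
    have hA := bs_A M q hM hq s P hs0 hsq hP0
    have hC := bs_C M j hM s P hs0 hsj hP0
    have hFW : |F| * (P / s) ^ (2 * q - 1 + 2 * j) ≤ s * W := by
      rw [hF, Polynomial.eval_mul, abs_mul, pow_add]
      calc |(Am ℝ M q).eval (s ^ 2)| * |(Cn ℝ M j).eval (s ^ 2)| *
            ((P / s) ^ (2 * q - 1) * (P / s) ^ (2 * j))
          = (|(Am ℝ M q).eval (s ^ 2)| * (P / s) ^ (2 * q - 1)) *
            (|(Cn ℝ M j).eval (s ^ 2)| * (P / s) ^ (2 * j)) := by ring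
        _ ≤ (s * ((2 * P * Real.exp 1 / M) ^ (2 * q - 1) * Real.exp M)) *
            ((P * Real.exp 1 / (2 * M)) ^ (2 * j) * Real.exp M) :=
            mul_le_mul hA hC (by positivity) (by positivity)
        _ = s * W := by rw [hW]; ring
    have ht : P / s ≤ ρ := by
      rw [div_le_iff₀ hs0]
      exact hPq.trans (mul_le_mul_of_nonneg_left hsq hρ0.le)
    have ht1 : P / s ≤ 1 := ht.trans hρ
    have ht0 : 0 < P / s := by positivity
    obtain ⟨d, hd⟩ := Nat.exists_eq_add_of_le hn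
    obtain ⟨q', hq'⟩ : ∃ q', q = q' + 1 := ⟨q - 1, by omega⟩
    rw [Real.norm_eq_abs, abs_div, abs_mul, abs_of_pos (show (0 : ℝ) < 4 * s by positivity),
      abs_of_pos (show (0 : ℝ) < (s ^ 2) ^ (n + δ + κ + 1) by positivity)]
    have key : 4 * s * |F| / (s ^ 2) ^ (n + δ + κ + 1) =
        (|F| * (P / s) ^ (2 * q - 1 + 2 * j)) * (P / s) ^ (2 * κ) *
          (4 * (P / s) ^ (4 + 2 * d) * (1 / s) ^ (2 * δ)) / P ^ (2 * (n + κ) + 1) := by
      have e0 : (P / s) ^ (2 * (n + κ) + 1) = (P / s) ^ (2 * q - 1 + 2 * j) * (P / s) ^ (2 * κ) *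
          (P / s) ^ (4 + 2 * d) := by
        rw [← pow_add, ← pow_add]
        congr 1
        omega
      have e1 : (|F| * (P / s) ^ (2 * q - 1 + 2 * j)) * (P / s) ^ (2 * κ) *
          (4 * (P / s) ^ (4 + 2 * d) * (1 / s) ^ (2 * δ)) / P ^ (2 * (n + κ) + 1) =
          4 * |F| * (1 / s) ^ (2 * δ) * ((P / s) ^ (2 * (n + κ) + 1) / P ^ (2 * (n + κ) + 1)) := by
        rw [e0]; ring
      rw [e1, div_pow P s]
      have e2 : P ^ (2 * (n + κ) + 1) ≠ 0 := by positivity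
      have e3 : (s ^ 2) ^ (n + δ + κ + 1) = s ^ (2 * (n + κ) + 1) * s ^ (2 * δ) * s := by
        rw [← pow_mul, ← pow_add, ← pow_succ]
        congr 1
        ring
      rw [e3, one_div, inv_pow]
      have e4 : s ^ (2 * (n + κ) + 1) ≠ 0 := by positivity
      have e5 : s ^ (2 * δ) ≠ 0 := by positivity
      field_simp
    rw [key]
    have h1 : (P / s) ^ (2 * κ) ≤ ρ ^ (2 * κ) := pow_le_pow_left₀ ht0.le ht _
    have h2 : 4 * (P / s) ^ (4 + 2 * d) * (1 / s) ^ (2 * δ) ≤ 4 * (P / s) ^ 4 := by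
      have e1 : (P / s) ^ (4 + 2 * d) ≤ (P / s) ^ 4 :=
        pow_le_pow_of_le_one ht0.le ht1 (by omega)
      have e2 : (1 / s) ^ (2 * δ) ≤ 1 := by
        apply pow_le_one₀ (by positivity)
        rw [div_le_one hs0]
        exact hs1
      calc 4 * (P / s) ^ (4 + 2 * d) * (1 / s) ^ (2 * δ)
          ≤ 4 * (P / s) ^ 4 * 1 :=
            mul_le_mul (mul_le_mul_of_nonneg_left e1 (by norm_num)) e2 (by positivity)
              (by positivity)
        _ = _ := mul_one _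
    have h3 : s * (P / s) ^ 4 ≤ P ^ 3 * (1 / ((i : ℝ) + 1) ^ 2) := by
      have e1 : s * (P / s) ^ 4 = P ^ 3 * ((P / s) * (1 / s ^ 2)) := by
        field_simp
      rw [e1]
      apply mul_le_mul_of_nonneg_left _ (by positivity)
      calc (P / s) * (1 / s ^ 2) ≤ 1 * (1 / ((i : ℝ) + 1) ^ 2) := by
            apply mul_le_mul ht1 _ (by positivity) (by norm_num)
            apply one_div_le_one_div_of_le (by positivity)
            exact pow_le_pow_left₀ (by positivity) hsi 2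
        _ = _ := one_mul _
    have h4 : |F| * (P / s) ^ (2 * q - 1 + 2 * j) * (P / s) ^ (2 * κ) *
        (4 * (P / s) ^ (4 + 2 * d) * (1 / s) ^ (2 * δ)) ≤
        (s * W) * ρ ^ (2 * κ) * (4 * (P / s) ^ 4) := by
      apply mul_le_mul _ h2 (by positivity) (by positivity)
      exact mul_le_mul hFW h1 (by positivity) (by positivity)
    calc |F| * (P / s) ^ (2 * q - 1 + 2 * j) * (P / s) ^ (2 * κ) *
          (4 * (P / s) ^ (4 + 2 * d) * (1 / s) ^ (2 * δ)) / P ^ (2 * (n + κ) + 1)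
        ≤ ((s * W) * ρ ^ (2 * κ) * (4 * (P / s) ^ 4)) / P ^ (2 * (n + κ) + 1) :=
          div_le_div_of_nonneg_right h4 (by positivity)
      _ = (4 * W * ρ ^ (2 * κ) * (s * (P / s) ^ 4)) / P ^ (2 * (n + κ) + 1) := by ring
      _ ≤ (4 * W * ρ ^ (2 * κ) * (P ^ 3 * (1 / ((i : ℝ) + 1) ^ 2))) / P ^ (2 * (n + κ) + 1) := by
          apply div_le_div_of_nonneg_right _ (by positivity)
          exact mul_le_mul_of_nonneg_left h3 (by positivity)
      _ = _ := by ring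
  have hsum := hasSum_inv_sq.mul_left (4 * W * P ^ 3 * ρ ^ (2 * κ) / P ^ (2 * (n + κ) + 1))
  have hg : |gamh q (n + δ) (Am ℝ M q * Cn ℝ M j) κ| ≤
      (4 * W * P ^ 3 * ρ ^ (2 * κ) / P ^ (2 * (n + κ) + 1)) * (Real.pi ^ 2 / 6) := by
    have := tsum_of_norm_bounded hsum hterm
    rwa [Real.norm_eq_abs] at this
  have hpi : Real.pi ^ 2 / 6 ≤ 2 := by
    have h1 := Real.pi_lt_d2
    have h2 := Real.pi_pos
    nlinarith
  have hPn : P ^ (2 * (n + κ) + 1) ≠ 0 := by positivity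
  calc |gamh q (n + δ) (Am ℝ M q * Cn ℝ M j) κ| * P ^ (2 * (n + κ) + 1)
      ≤ ((4 * W * P ^ 3 * ρ ^ (2 * κ) / P ^ (2 * (n + κ) + 1)) * (Real.pi ^ 2 / 6)) *
          P ^ (2 * (n + κ) + 1) := mul_le_mul_of_nonneg_right hg (by positivity)
    _ = (4 * W * P ^ 3 * ρ ^ (2 * κ)) * (Real.pi ^ 2 / 6) := by
        field_simp
    _ ≤ (4 * W * P ^ 3 * ρ ^ (2 * κ)) * 2 :=
        mul_le_mul_of_nonneg_left hpi (by positivity)
    _ = _ := by ring

/-- terms of the expansion of the `F` rows -/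
theorem bd_lam (g S k0 a : ℕ) (hg : 1 ≤ g) (ha : 1 ≤ a) :
    ∃ M0 : ℕ, ∀ M ≥ M0, ∀ l < g * ((a + S + 1) * M), ∀ j < (a + S + 1) * M, ∀ k ≤ k0, ∀ r ≤ S,
      ∀ κ m : ℕ, |lam ((g + 1) * ((a + S + 1) * M)) ((g + 2) * ((a + S + 1) * M)) k r
          (Am ℝ M ((g + 1) * ((a + S + 1) * M)) * Cn ℝ M j) κ *
        PowerSeries.coeff m (uvec (g * ((a + S + 1) * M)) ((g + 2) * ((a + S + 1) * M)) k l κ)| ≤
        (100 * ((g : ℝ) + 2) * (a + S + 1)) ^ (4 * ((g + 2) * ((a + S + 1) * M))) *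
          (1 - 1 / (2 * ((g : ℝ) + 1))) ^ (2 * κ) := by
  refine ⟨1, fun M hM l hl' j hj k _ r hr κ m => ?_⟩
  have hM0 : 0 < M := hM
  set T := (a + S + 1) * M with hT
  have hT2 : 2 ≤ T := by
    have h1 : (a + S + 1) * 1 ≤ (a + S + 1) * M := Nat.mul_le_mul_left _ hM
    omega
  have hTS : S + 2 ≤ T := by
    have h1 : (a + S + 1) * 1 ≤ (a + S + 1) * M := Nat.mul_le_mul_left _ hM
    omega
  have hTM : 2 * M ≤ T := by
    have h1 : 2 * M ≤ (a + S + 1) * M := Nat.mul_le_mul_right _ (by omega)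
    exact h1
  set p := g * T with hp
  set q := (g + 1) * T with hq
  set n := (g + 2) * T with hn
  have hqn : q + T = n := by rw [hq, hn]; ring
  have hpq : p + T = q := by rw [hp, hq]; ring
  set A : ℝ := ((g : ℝ) + 2) * (a + S + 1) with hA
  have hgR : (1 : ℝ) ≤ g := by exact_mod_cast hg
  have haR : (1 : ℝ) ≤ a := by exact_mod_cast ha
  have hSR : (0 : ℝ) ≤ S := by positivity
  have hMR : (1 : ℝ) ≤ M := by exact_mod_cast hM
  have hA1 : (g : ℝ) + 2 ≤ A := by rw [hA]; nlinarith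
  have hA0 : 0 < A := by linarith
  have hTR : (T : ℝ) = (a + S + 1) * M := by rw [hT]; push_cast; ring
  have hT2R : (2 : ℝ) ≤ T := by exact_mod_cast hT2
  have hpR : (p : ℝ) = g * T := by rw [hp]; push_cast; ring
  have hqR : (q : ℝ) = (g + 1) * T := by rw [hq]; push_cast; ring
  have hnR : (n : ℝ) = A * M := by rw [hn, hA]; push_cast; rw [hTR]; ring
  set P : ℝ := 2 * (p : ℝ) + 1 with hP
  have hP1 : 1 ≤ P := by
    have : (0 : ℝ) ≤ p := by positivity
    rw [hP]; linarith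
  have hP0 : 0 < P := by linarith
  have hPAM : P ≤ 2 * A * M := by
    have h1 : 2 * A * M = 2 * (p : ℝ) + 4 * T := by
      rw [hpR, hA, hTR]; ring
    rw [h1, hP]
    linarith
  set ρ : ℝ := 1 - 3 / (4 * ((g : ℝ) + 1)) with hρ
  have hg1 : (0 : ℝ) < (g : ℝ) + 1 := by linarith
  have hρ1 : ρ ≤ 1 := by
    have : 0 < 3 / (4 * ((g : ℝ) + 1)) := by positivity
    rw [hρ]; linarith
  have hρ0 : 0 < ρ := by
    have : 3 / (4 * ((g : ℝ) + 1)) < 1 := by
      rw [div_lt_one (by positivity)]; linarith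
    rw [hρ]; linarith
  have hPq : P ≤ ρ * (2 * (q : ℝ)) := by
    have e1 : ρ * (2 * (q : ℝ)) = 2 * (g : ℝ) * T + T / 2 := by
      rw [hρ, hqR]
      field_simp
      ring
    rw [e1, hP, hpR]
    linarith
  have hgam := bs_gamh M q n j (dl k r) κ P ρ hM0 (by omega) (by omega) (by omega) hP1 hρ1 hPq
  have huv := bs_uv p n k l κ m hl'
  rw [← hP] at huv
  set x : ℝ := 1 / (8 * ((g : ℝ) + 1)) with hx
  have hx0 : 0 < x := by positivity
  have hch := bs_choose (2 * (n + dl k r + κ) + (k + r) % 2) r x hx0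
  have hx1 : 1 / x = 8 * ((g : ℝ) + 1) := by rw [hx, one_div_one_div]
  rw [hx1] at hch
  have hxs : x ≤ 1 / 16 := by
    rw [hx]
    apply one_div_le_one_div_of_le (by norm_num)
    linarith
  have hdl : 2 * dl k r + (k + r) % 2 ≤ n := by
    have h1 : k % 2 < 2 := Nat.mod_lt _ (by norm_num)
    have h2 : (k + r) % 2 < 2 := Nat.mod_lt _ (by norm_num)
    have h3 : 2 * dl k r ≤ k % 2 + r - (k + r) % 2 := by
      rw [dl]; exact Nat.mul_div_le _ _
    omega
  -- the coefficient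
  have hlam : |lam q n k r (Am ℝ M q * Cn ℝ M j) κ *
      PowerSeries.coeff m (uvec p n k l κ)| ≤
      (|gamh q (n + dl k r) (Am ℝ M q * Cn ℝ M j) κ| * P ^ (2 * (n + κ) + 1)) *
        (((2 * (n + dl k r + κ) + (k + r) % 2).choose r : ℝ) * 2 ^ r) := by
    rw [lam, abs_mul, abs_mul, abs_of_nonneg (show (0 : ℝ) ≤
      (((2 * (n + dl k r + κ) + (k + r) % 2).choose r : ℝ) * 2 ^ r) by positivity)]
    calc |gamh q (n + dl k r) (Am ℝ M q * Cn ℝ M j) κ| *
          (((2 * (n + dl k r + κ) + (k + r) % 2).choose r : ℝ) * 2 ^ r) *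
          |PowerSeries.coeff m (uvec p n k l κ)|
        ≤ |gamh q (n + dl k r) (Am ℝ M q * Cn ℝ M j) κ| *
          (((2 * (n + dl k r + κ) + (k + r) % 2).choose r : ℝ) * 2 ^ r) *
          P ^ (2 * (n + κ) + 1) := mul_le_mul_of_nonneg_left huv (by positivity)
      _ = _ := by ring
  refine hlam.trans ?_
  set W := ((2 * P * Real.exp 1 / M) ^ (2 * q - 1) * Real.exp M) *
        ((P * Real.exp 1 / (2 * M)) ^ (2 * j) * Real.exp M) with hW
  have hW0 : 0 < W := by positivity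
  -- size of W
  have hWle : W ≤ (363 * A ^ 2) ^ n := by
    have he : Real.exp 1 ≤ 2.7182818286 := Real.exp_one_lt_d9.le
    have he0 : 0 < Real.exp 1 := Real.exp_pos _
    have h11 : (1 : ℝ) ≤ 11 * A := by linarith
    have b1 : 2 * P * Real.exp 1 / M ≤ 11 * A := by
      rw [div_le_iff₀ (by linarith)]
      calc 2 * P * Real.exp 1 ≤ 2 * (2 * A * M) * 2.7182818286 :=
            mul_le_mul (mul_le_mul_of_nonneg_left hPAM (by norm_num)) he he0.le (by positivity)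
        _ ≤ 11 * A * M := by
            have : 0 ≤ A * M := by positivity
            linarith
    have b2 : P * Real.exp 1 / (2 * M) ≤ 11 * A := by
      have e1 : P * Real.exp 1 / (2 * M) = (2 * P * Real.exp 1 / M) / 4 := by
        field_simp; ring
      have e2 : 0 < 2 * P * Real.exp 1 / M := by positivity
      rw [e1]; linarith
    have b3 : Real.exp M * Real.exp M ≤ 3 ^ n := by
      rw [← Real.exp_add]
      have e1 : (M : ℝ) + M ≤ n := by
        have : M + M ≤ n := by omega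
        exact_mod_cast this
      calc Real.exp (M + M) ≤ Real.exp (n : ℝ) := Real.exp_le_exp.2 e1
        _ = (Real.exp 1) ^ n := by rw [← Real.exp_nat_mul, mul_one]
        _ ≤ 3 ^ n := pow_le_pow_left₀ he0.le (by linarith) n
    have b4 : (2 * P * Real.exp 1 / M) ^ (2 * q - 1) * (P * Real.exp 1 / (2 * M)) ^ (2 * j) ≤
        (11 * A) ^ (2 * n) := by
      calc (2 * P * Real.exp 1 / M) ^ (2 * q - 1) * (P * Real.exp 1 / (2 * M)) ^ (2 * j)
          ≤ (11 * A) ^ (2 * q - 1) * (11 * A) ^ (2 * j) :=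
            mul_le_mul (pow_le_pow_left₀ (by positivity) b1 _)
              (pow_le_pow_left₀ (by positivity) b2 _) (by positivity) (by positivity)
        _ = (11 * A) ^ (2 * q - 1 + 2 * j) := by rw [pow_add]
        _ ≤ (11 * A) ^ (2 * n) := pow_le_pow_right₀ h11 (by omega)
    calc W = ((2 * P * Real.exp 1 / M) ^ (2 * q - 1) * (P * Real.exp 1 / (2 * M)) ^ (2 * j)) *
          (Real.exp M * Real.exp M) := by rw [hW]; ring
      _ ≤ (11 * A) ^ (2 * n) * 3 ^ n := mul_le_mul b4 b3 (by positivity) (by positivity)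
      _ = (363 * A ^ 2) ^ n := by
          rw [pow_mul, ← mul_pow]
          congr 1
          ring
  have hn1 : 1 ≤ n := by omega
  have hP3 : 8 * P ^ 3 ≤ 512 ^ n := by
    have h1 : P ≤ 2 * 2 ^ n := by
      have h2 : (n : ℝ) ≤ 2 ^ n := by exact_mod_cast (Nat.lt_two_pow_self (n := n)).le
      have h3 : 2 * A * M = 2 * (n : ℝ) := by rw [hnR]; ring
      linarith
    have h4 : P ^ 3 ≤ (2 * 2 ^ n) ^ 3 := pow_le_pow_left₀ hP0.le h1 3
    have h5 : (8 : ℝ) ≤ 8 ^ n := by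
      calc (8 : ℝ) = 8 ^ 1 := by norm_num
        _ ≤ 8 ^ n := pow_le_pow_right₀ (by norm_num) hn1
    have h6 : ((2 : ℝ) * 2 ^ n) ^ 3 = 8 * 8 ^ n := by
      rw [mul_pow, ← pow_mul, mul_comm n 3, pow_mul]; norm_num
    have h7 : (512 : ℝ) ^ n = 8 ^ n * 8 ^ n * 8 ^ n := by
      rw [← mul_pow, ← mul_pow]; norm_num
    rw [h6] at h4
    rw [h7]
    have h8 : (0 : ℝ) < 8 ^ n := by positivity
    nlinarith [mul_le_mul h5 h5 (by norm_num) h8.le]
  have hpoly : ((2 * (n + dl k r + κ) + (k + r) % 2).choose r : ℝ) * 2 ^ r ≤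
      (20 * A) ^ n * (1 + x) ^ (2 * κ) := by
    have e1 : (1 + x) ^ (2 * (n + dl k r + κ) + (k + r) % 2) ≤
        (1.2 : ℝ) ^ n * (1 + x) ^ (2 * κ) := by
      have e2 : (1 + x) ^ (2 * (n + dl k r + κ) + (k + r) % 2) =
          (1 + x) ^ (2 * n + (2 * dl k r + (k + r) % 2)) * (1 + x) ^ (2 * κ) := by
        rw [← pow_add]; congr 1; ring
      rw [e2]
      apply mul_le_mul_of_nonneg_right _ (by positivity)
      calc (1 + x) ^ (2 * n + (2 * dl k r + (k + r) % 2)) ≤ (1 + x) ^ (3 * n) :=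
            pow_le_pow_right₀ (by linarith) (by omega)
        _ = ((1 + x) ^ 3) ^ n := by rw [pow_mul]
        _ ≤ (1.2 : ℝ) ^ n := by
            apply pow_le_pow_left₀ (by positivity)
            calc (1 + x) ^ 3 ≤ (1 + 1 / 16) ^ 3 := pow_le_pow_left₀ (by positivity) (by linarith) 3
              _ ≤ 1.2 := by norm_num
    have e3 : (8 * ((g : ℝ) + 1)) ^ r * 2 ^ r ≤ (16 * A) ^ n := by
      rw [← mul_pow]
      calc (8 * ((g : ℝ) + 1) * 2) ^ r ≤ (16 * A) ^ r :=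
            pow_le_pow_left₀ (by positivity) (by linarith) r
        _ ≤ (16 * A) ^ n := pow_le_pow_right₀ (by linarith) (by omega)
    calc ((2 * (n + dl k r + κ) + (k + r) % 2).choose r : ℝ) * 2 ^ r
        ≤ ((1 + x) ^ (2 * (n + dl k r + κ) + (k + r) % 2) * (8 * ((g : ℝ) + 1)) ^ r) * 2 ^ r :=
          mul_le_mul_of_nonneg_right hch (by positivity)
      _ = (1 + x) ^ (2 * (n + dl k r + κ) + (k + r) % 2) *
          ((8 * ((g : ℝ) + 1)) ^ r * 2 ^ r) := by ring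
      _ ≤ ((1.2 : ℝ) ^ n * (1 + x) ^ (2 * κ)) * (16 * A) ^ n :=
          mul_le_mul e1 e3 (by positivity) (by positivity)
      _ = (1.2 * (16 * A)) ^ n * (1 + x) ^ (2 * κ) := by rw [mul_pow 1.2 (16 * A)]; ring
      _ ≤ (20 * A) ^ n * (1 + x) ^ (2 * κ) := by
          apply mul_le_mul_of_nonneg_right _ (by positivity)
          exact pow_le_pow_left₀ (by positivity) (by linarith) n
  have hρx : ρ ^ (2 * κ) * (1 + x) ^ (2 * κ) ≤ (1 - 1 / (2 * ((g : ℝ) + 1))) ^ (2 * κ) := by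
    rw [← mul_pow]
    apply pow_le_pow_left₀ (by positivity)
    have e1 : ρ = 1 - 6 * x := by
      rw [hρ, hx]; field_simp; ring
    have e2 : 1 - 1 / (2 * ((g : ℝ) + 1)) = 1 - 4 * x := by
      rw [hx]; field_simp; ring
    rw [e1, e2]
    nlinarith
  calc (|gamh q (n + dl k r) (Am ℝ M q * Cn ℝ M j) κ| * P ^ (2 * (n + κ) + 1)) *
        (((2 * (n + dl k r + κ) + (k + r) % 2).choose r : ℝ) * 2 ^ r)
      ≤ (8 * W * P ^ 3 * ρ ^ (2 * κ)) * ((20 * A) ^ n * (1 + x) ^ (2 * κ)) :=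
        mul_le_mul hgam hpoly (by positivity) (by positivity)
    _ = (W * (8 * P ^ 3) * (20 * A) ^ n) * (ρ ^ (2 * κ) * (1 + x) ^ (2 * κ)) := by ring
    _ ≤ ((363 * A ^ 2) ^ n * 512 ^ n * (20 * A) ^ n) *
        (1 - 1 / (2 * ((g : ℝ) + 1))) ^ (2 * κ) := by
        apply mul_le_mul _ hρx (by positivity) (by positivity)
        apply mul_le_mul_of_nonneg_right _ (by positivity)
        exact mul_le_mul hWle hP3 (by positivity) (by positivity)
    _ ≤ (100 * ((g : ℝ) + 2) * (a + S + 1)) ^ (4 * n) *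
        (1 - 1 / (2 * ((g : ℝ) + 1))) ^ (2 * κ) := by
        apply mul_le_mul_of_nonneg_right _ _
        · have e1 : 100 * ((g : ℝ) + 2) * (a + S + 1) = 100 * A := by rw [hA]; ring
          rw [e1, pow_mul (100 * A) 4 n, ← mul_pow, ← mul_pow]
          apply pow_le_pow_left₀ (by positivity)
          have e2 : 363 * A ^ 2 * 512 * (20 * A) = 3717120 * A ^ 3 := by ring
          have e3 : (100 * A) ^ 4 = 100000000 * A * A ^ 3 := by ring
          rw [e2, e3]
          apply mul_le_mul_of_nonneg_right _ (by positivity)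
          linarith
        · apply pow_nonneg
          have : 1 / (2 * ((g : ℝ) + 1)) ≤ 1 := by
            rw [div_le_one (by positivity)]; linarith
          linarith

end Pool.Agent.SI
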