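import Pool.Agent.SI.ENTA
import Pool.Agent.SI.POL
import Pool.Agent.ZC.ENT

/-!
# SI: integrality of the entries
-/

namespace Pool.Agent.SI

open Finset Pool.Agent.ZC

private theorem ents_hl_mem (d p l : ℕ) : hl ℚ p l ∈ dR d := by
  have h : hl ℚ p l = PowerSeries.C ((2 * (p : ℤ) - 1 - 2 * l : ℤ) : ℚ) +
      PowerSeries.C ((2 : ℕ) : ℚ) * PowerSeries.X := by
    unfold hl
    push_cast
    rfl
  rw [h]
  exact add_mem (C_int_mem _ _) (mul_mem (C_nat_mem d 2) (X_mem _))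

private theorem ents_ev_mul (p l : ℕ) (f g : Polynomial ℚ) :
    ev ℚ p l (f * g) = ev ℚ p l f * ev ℚ p l g := by
  simp [ev]

private theorem ents_hs_C_mul (r : ℕ) (c : ℚ) (f : PowerSeries ℚ) :
    hs ℚ r (PowerSeries.C c * f) = PowerSeries.C c * hs ℚ r f := by
  ext m
  simp only [hs, PowerSeries.coeff_mk, PowerSeries.coeff_C_mul]
  ring

/-- Hasse derivatives cost one power of `d` per order -/
private theorem ents_hs_mem {d : ℕ} {f : PowerSeries ℚ} (hf : f ∈ dR d) (r : ℕ) :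
    PowerSeries.C ((d ^ r : ℕ) : ℚ) * hs ℚ r f ∈ dR d := by
  rw [mem_dR] at hf ⊢
  intro m
  obtain ⟨w, hw⟩ := hf (m + r)
  refine ⟨((m + r).choose r : ℤ) * w, ?_⟩
  rw [PowerSeries.coeff_C_mul, hs, PowerSeries.coeff_mk]
  push_cast
  rw [← hw, pow_add]
  ring

private theorem ents_zp_mem (d T : ℕ) (z : ℕ → ℚ) (D0 : ℕ)
    (hz : ∀ i ∈ oddS T, ∃ w : ℤ, (D0 : ℚ) * z i = w) :
    PowerSeries.C (D0 : ℚ) * zp ℚ T z ∈ dR d := by
  rw [zp, mul_sum]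
  refine sum_mem fun i hi => ?_
  obtain ⟨w, hw⟩ := hz i hi
  have e : PowerSeries.C (D0 : ℚ) * (PowerSeries.C (2 * ((2 : ℚ) ^ i - 1) * z i) *
      PowerSeries.X ^ (i - 1)) =
      PowerSeries.C ((2 * (2 ^ i - 1) * w : ℤ) : ℚ) * PowerSeries.X ^ (i - 1) := by
    rw [← mul_assoc, ← map_mul]
    congr 2
    push_cast
    rw [← hw]
    ring
  rw [e]
  exact mul_mem (C_int_mem _ _) (pow_mem (X_mem _) _)

/-- entries of the companion rows -/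
theorem cRow_int {d M a : ℕ} (hM : 0 < M) (hd : ∀ q : ℕ, 1 ≤ q → q ≤ 2 * M → q ∣ d) {J : Type}
    (ψ : J → PowerSeries ℚ) (σ : J → ℕ) (D0 : ℕ) (p l : ℕ) (j : J)
    (hψ : ∀ m < a, ∃ w : ℤ, (D0 : ℚ) * PowerSeries.coeff m (ψ j) = w) (i m : ℕ) (hm : m < a) :
    ∃ w : ℤ, ((D0 * d ^ a : ℕ) : ℚ) * PowerSeries.coeff m (cRow ℚ M p ψ σ l j i) = w := by
  have hB : hl ℚ p l ^ σ j * ev ℚ p l (Cn ℚ M i) ∈ dR d :=
    mul_mem (pow_mem (ents_hl_mem d p l) _)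
      (ev_Cn_mem hM (fun q h1 h2 => hd q h1 (by omega)) _ _ _)
  rw [cRow, PowerSeries.coeff_mul, mul_sum]
  have key : ∀ u ∈ antidiagonal m, ∃ w : ℤ, ((D0 * d ^ a : ℕ) : ℚ) *
      (PowerSeries.coeff u.1 (ψ j) *
        PowerSeries.coeff u.2 (hl ℚ p l ^ σ j * ev ℚ p l (Cn ℚ M i))) = w := by
    intro u hu
    rw [HasAntidiagonal.mem_antidiagonal] at hu
    obtain ⟨w1, h1⟩ := hψ u.1 (by omega)
    obtain ⟨w2, h2⟩ := coeff_int_of_mem (a := a) hB (r := u.2) (by omega)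
    refine ⟨w1 * w2, ?_⟩
    push_cast
    rw [← h1, ← h2]
    ring
  choose! w hw using key
  refine ⟨∑ u ∈ antidiagonal m, w u, ?_⟩
  push_cast
  refine sum_congr rfl fun u hu => ?_
  have := hw u hu
  push_cast at this
  exact this

/-- entries of the `F` rows -/
theorem fRow_int {d M a S : ℕ} (hM : 0 < M) (hd : ∀ q : ℕ, 1 ≤ q → q ≤ 2 * M → q ∣ d)
    (T : ℕ) (z : ℕ → ℚ) (D0 : ℕ) (hz : ∀ i ∈ oddS T, ∃ w : ℤ, (D0 : ℚ) * z i = w) (p l q : ℕ)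
    (hl : l < p) (hq : p ≤ q) (k r j m : ℕ) (hr : r ≤ S) (hm : m < a) :
    ∃ w : ℤ, ((D0 * d ^ (a + S + 1) : ℕ) : ℚ) *
      PowerSeries.coeff m (fRow ℚ M p q T z l k r j) = w := by
  have hC : ev ℚ p l (Cn ℚ M j) ∈ dR d :=
    ev_Cn_mem hM (fun q h1 h2 => hd q h1 (by omega)) _ _ _
  have hH : SI.hl ℚ p l ^ ((k + r) % 2) ∈ dR d := pow_mem (ents_hl_mem d p l) _
  have hA : ev ℚ p l (Am ℚ M q) ∈ dR d := ev_Am_mem hM hd p l q (by omega)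
  have hAg := ev_Am_gh_mem hM hd p l q hl hq
  have hZ := ents_zp_mem d T z D0 hz
  have h1 : PowerSeries.C ((D0 : ℚ) * d) * (SI.hl ℚ p l ^ ((k + r) % 2) *
      ev ℚ p l (Am ℚ M q * Cn ℚ M j) * Gh ℚ p l T z) ∈ dR d := by
    have e : PowerSeries.C ((D0 : ℚ) * d) * (SI.hl ℚ p l ^ ((k + r) % 2) *
        ev ℚ p l (Am ℚ M q * Cn ℚ M j) * Gh ℚ p l T z) =
        SI.hl ℚ p l ^ ((k + r) % 2) * ev ℚ p l (Cn ℚ M j) *
          (PowerSeries.C ((d : ℕ) : ℚ) * (ev ℚ p l (Am ℚ M q) *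
            (PowerSeries.C (D0 : ℚ) * zp ℚ T z)) -
          PowerSeries.C ((D0 : ℕ) : ℚ) * (PowerSeries.C (d : ℚ) *
            (ev ℚ p l (Am ℚ M q) * gh ℚ p l))) := by
      rw [Gh, ents_ev_mul, map_mul]
      ring
    rw [e]
    exact mul_mem (mul_mem hH hC) (sub_mem (mul_mem (C_nat_mem _ _) (mul_mem hA hZ))
      (mul_mem (C_nat_mem _ _) hAg))
  have h2 := ents_hs_mem h1 r
  rw [ents_hs_C_mul] at h2
  have h3 : PowerSeries.C ((D0 * d ^ (S + 1) : ℕ) : ℚ) * fRow ℚ M p q T z l k r j ∈ dR d := by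
    have e : PowerSeries.C ((D0 * d ^ (S + 1) : ℕ) : ℚ) * fRow ℚ M p q T z l k r j =
        PowerSeries.C ((d ^ (S - r) : ℕ) : ℚ) * (PowerSeries.X ^ k *
          (PowerSeries.C ((d ^ r : ℕ) : ℚ) * (PowerSeries.C ((D0 : ℚ) * d) *
            hs ℚ r (SI.hl ℚ p l ^ ((k + r) % 2) *
              ev ℚ p l (Am ℚ M q * Cn ℚ M j) * Gh ℚ p l T z)))) := by
      have e1 : S + 1 = (S - r) + r + 1 := by omega
      rw [fRow, e1]
      push_cast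
      simp only [map_mul, map_pow, pow_add, pow_one]
      ring
    rw [e]
    exact mul_mem (C_nat_mem _ _) (mul_mem (pow_mem (X_mem _) _) h2)
  obtain ⟨w, hw⟩ := coeff_int_of_mem (a := a) h3 hm.le
  refine ⟨w, ?_⟩
  rw [← hw, PowerSeries.coeff_C_mul, add_assoc, pow_add]
  push_cast
  ring

end Pool.Agent.SI
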