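import Pool.Agent.SI.ANS
import Pool.Agent.SI.POL

/-!
# SI: expansion of the `F` rows of level `k` and order `r`
-/

namespace Pool.Agent.SI

open Finset Pool.Agent.ZC

private theorem ser_dl (k r : ℕ) : 2 * dl k r + (k + r) % 2 = k % 2 + r := by
  unfold dl; omega

/-- coefficientwise sums pass through a multiplication -/
private theorem ser_mul (A : PowerSeries ℝ) (T : ℕ) (g : ℕ → ℝ) (u : ℕ → PowerSeries ℝ)
    (F : PowerSeries ℝ)
    (h : ∀ r < T, HasSum (fun κ => g κ * PowerSeries.coeff r (u κ)) (PowerSeries.coeff r F)) :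
    ∀ N < T, HasSum (fun κ => g κ * PowerSeries.coeff N (A * u κ))
      (PowerSeries.coeff N (A * F)) := by
  intro N hN
  have h1 : (fun κ => g κ * PowerSeries.coeff N (A * u κ)) = fun κ =>
      ∑ x ∈ antidiagonal N, PowerSeries.coeff x.1 A * (g κ * PowerSeries.coeff x.2 (u κ)) := by
    funext κ
    rw [PowerSeries.coeff_mul, Finset.mul_sum]
    exact Finset.sum_congr rfl fun x _ => by ring
  rw [h1, PowerSeries.coeff_mul]
  refine hasSum_sum fun x hx => ?_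
  rw [HasAntidiagonal.mem_antidiagonal] at hx
  exact (h x.2 (by omega)).mul_left _

/-- coefficientwise sums pass through a Hasse derivative -/
private theorem ser_hs (i T : ℕ) (g : ℕ → ℝ) (u : ℕ → PowerSeries ℝ) (F : PowerSeries ℝ)
    (h : ∀ r < T, HasSum (fun κ => g κ * PowerSeries.coeff r (u κ)) (PowerSeries.coeff r F)) :
    ∀ N, N + i < T → HasSum (fun κ => g κ * PowerSeries.coeff N (hs ℝ i (u κ)))
      (PowerSeries.coeff N (hs ℝ i F)) := by
  intro N hN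
  have h1 : (fun κ => g κ * PowerSeries.coeff N (hs ℝ i (u κ))) = fun κ =>
      (((N + i).choose i : ℕ) : ℝ) * (g κ * PowerSeries.coeff (N + i) (u κ)) := by
    funext κ
    rw [coeff_hs]; ring
  rw [h1, coeff_hs]
  exact (h _ hN).mul_left _

private theorem ser_poly {N : ℕ} {f : Polynomial ℝ} (hf : f ∈ Polynomial.degreeLT ℝ N) :
    f = ∑ i ∈ range N, Polynomial.C (f.coeff i) * Polynomial.X ^ i := by
  rw [Polynomial.mem_degreeLT] at hf
  ext j
  rw [Polynomial.finsetSum_coeff]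
  simp only [Polynomial.coeff_C_mul, Polynomial.coeff_X_pow, mul_ite, mul_one, mul_zero]
  rw [Finset.sum_ite_eq]
  split_ifs with h
  · rfl
  · rw [Finset.mem_range, not_lt] at h
    exact Polynomial.coeff_eq_zero_of_degree_lt (lt_of_lt_of_le hf (by exact_mod_cast h))

/-- the polynomial part -/
private theorem ser_Q (n k r : ℕ) (Q0 : Polynomial ℝ)
    (hQ0 : Q0 ∈ Polynomial.degreeLT ℝ (n + dl k r)) :
    ∃ Q ∈ Polynomial.degreeLT ℝ n, ∀ p l, hs ℝ r (hl ℝ p l ^ ((k + r) % 2) * ev ℝ p l Q0) =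
      hl ℝ p l ^ (k % 2) * ev ℝ p l Q := by
  have hd := ser_dl k r
  set δ := dl k r with hδ
  set σ := (k + r) % 2 with hσ
  refine ⟨∑ i ∈ range n, Polynomial.C (Q0.coeff (δ + i) *
    ((((2 * (δ + i) + σ).choose r : ℕ) : ℝ) * 2 ^ r)) * Polynomial.X ^ i, ?_, ?_⟩
  · refine Submodule.sum_mem _ fun i hi => ?_
    rw [Polynomial.mem_degreeLT]
    refine lt_of_le_of_lt (Polynomial.degree_C_mul_X_pow_le _ _) ?_
    exact_mod_cast Finset.mem_range.mp hi
  · intro p l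
    have h0 : ∀ (N : ℕ) (c : ℕ → ℝ), ev ℝ p l (∑ i ∈ range N, Polynomial.C (c i) * Polynomial.X ^ i) =
        ∑ i ∈ range N, PowerSeries.C (c i) * hl ℝ p l ^ (2 * i) := by
      intro N c
      simp only [ev, map_sum, map_mul, map_pow, Polynomial.aeval_X, Polynomial.aeval_C]
      refine Finset.sum_congr rfl fun i _ => ?_
      rw [yl_eq_hl_sq, ← pow_mul]
      rfl
    have h1 : ev ℝ p l Q0 = ∑ i ∈ range (n + δ), PowerSeries.C (Q0.coeff i) * hl ℝ p l ^ (2 * i) := by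
      conv_lhs => rw [ser_poly hQ0]
      exact h0 _ _
    have h2 := h0 n (fun i => Q0.coeff (δ + i) * ((((2 * (δ + i) + σ).choose r : ℕ) : ℝ) * 2 ^ r))
    rw [h1, h2, Finset.mul_sum, Finset.mul_sum, hs_sum]
    have h3 : ∀ i, hs ℝ r (hl ℝ p l ^ σ * (PowerSeries.C (Q0.coeff i) * hl ℝ p l ^ (2 * i))) =
        PowerSeries.C (Q0.coeff i * ((((2 * i + σ).choose r : ℕ) : ℝ) * 2 ^ r)) *
          hl ℝ p l ^ (2 * i + σ - r) := by
      intro i
      have : hl ℝ p l ^ σ * (PowerSeries.C (Q0.coeff i) * hl ℝ p l ^ (2 * i)) =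
          PowerSeries.C (Q0.coeff i) * hl ℝ p l ^ (2 * i + σ) := by rw [pow_add]; ring
      rw [this, hs_C_mul, hs_hl_pow, ← mul_assoc, ← map_mul]
    rw [Finset.sum_congr rfl fun i _ => h3 i, add_comm n δ, Finset.sum_range_add]
    have h4 : ∑ i ∈ range δ, PowerSeries.C (Q0.coeff i * ((((2 * i + σ).choose r : ℕ) : ℝ) * 2 ^ r)) *
          hl ℝ p l ^ (2 * i + σ - r) = 0 := by
      refine Finset.sum_eq_zero fun i hi => ?_
      rw [Finset.mem_range] at hi
      rw [Nat.choose_eq_zero_of_lt (by omega)]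
      simp
    rw [h4, zero_add]
    refine Finset.sum_congr rfl fun i _ => ?_
    have h5 : 2 * (δ + i) + σ - r = k % 2 + 2 * i := by omega
    rw [h5, pow_add]
    ring

theorem si_level (p q n T S k r : ℕ) (hp : 1 ≤ p) (hq : p < q) (hr : r ≤ S) (f : Polynomial ℝ)
    (hf : f ∈ Polynomial.degreeLT ℝ n)
    (hz : ∀ ν : ℕ, ν < q → f.eval ((2 * (ν : ℝ)) ^ 2) = 0) :
    ∃ Q ∈ Polynomial.degreeLT ℝ n, ∀ l < p, ∀ m, m + S < T →
      HasSum (fun κ : ℕ => lam q n k r f κ * PowerSeries.coeff m (uvec p n k l κ))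
        (PowerSeries.coeff m (PowerSeries.X ^ k *
          hs ℝ r (hl ℝ p l ^ ((k + r) % 2) * ev ℝ p l f * Gh ℝ p l T zr)) -
          PowerSeries.coeff m (PowerSeries.X ^ k * (hl ℝ p l ^ (k % 2) * ev ℝ p l Q))) := by
  have hd := ser_dl k r
  have hf' : f ∈ Polynomial.degreeLT ℝ (n + dl k r) := by
    rw [Polynomial.mem_degreeLT] at hf ⊢
    refine lt_of_lt_of_le hf ?_
    exact_mod_cast Nat.le_add_right n (dl k r)
  obtain ⟨Q0, hQ0, hser⟩ := si_series p q (n + dl k r) T hp hq f hf' hz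
  obtain ⟨Q, hQ, hQe⟩ := ser_Q n k r Q0 hQ0
  refine ⟨Q, hQ, fun l hl' m hm => ?_⟩
  have h1 : ∀ i < T, HasSum (fun κ : ℕ => gamh q (n + dl k r) f κ *
      PowerSeries.coeff i (yl ℝ p l ^ (n + dl k r + κ)))
      (PowerSeries.coeff i (ev ℝ p l f * Gh ℝ p l T zr - ev ℝ p l Q0)) := by
    intro i hi
    rw [map_sub]
    exact hser l hl' i hi
  have h2 := ser_mul (hl ℝ p l ^ ((k + r) % 2)) T _ _ _ h1
  have h3 := ser_hs r T _ _ _ h2
  have h4 := ser_mul (PowerSeries.X ^ k) (T - S) _ _ _ (fun N hN => h3 N (by omega)) m (by omega)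
  have h5 : (fun κ : ℕ => lam q n k r f κ * PowerSeries.coeff m (uvec p n k l κ)) =
      fun κ : ℕ => gamh q (n + dl k r) f κ * PowerSeries.coeff m (PowerSeries.X ^ k *
        hs ℝ r (hl ℝ p l ^ ((k + r) % 2) * yl ℝ p l ^ (n + dl k r + κ))) := by
    funext κ
    have e1 : hl ℝ p l ^ ((k + r) % 2) * yl ℝ p l ^ (n + dl k r + κ) =
        hl ℝ p l ^ (2 * (n + dl k r + κ) + (k + r) % 2) := by
      rw [yl_eq_hl_sq, ← pow_mul, ← pow_add, add_comm]
    have e2 : 2 * (n + dl k r + κ) + (k + r) % 2 - r = k % 2 + 2 * (n + κ) := by omega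
    rw [e1, hs_hl_pow, e2, pow_add, pow_mul, ← yl_eq_hl_sq, uvec, lam]
    rw [show (PowerSeries.X : PowerSeries ℝ) ^ k *
        (PowerSeries.C ((((2 * (n + dl k r + κ) + (k + r) % 2).choose r : ℕ) : ℝ) * 2 ^ r) *
          (hl ℝ p l ^ (k % 2) * yl ℝ p l ^ (n + κ))) =
        PowerSeries.C ((((2 * (n + dl k r + κ) + (k + r) % 2).choose r : ℕ) : ℝ) * 2 ^ r) *
          (PowerSeries.X ^ k * (hl ℝ p l ^ (k % 2) * yl ℝ p l ^ (n + κ))) by ring]
    rw [PowerSeries.coeff_C_mul]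
    ring
  rw [h5]
  convert h4 using 1
  rw [mul_sub, hs_sub, hQe, mul_sub, map_sub, mul_assoc]

end Pool.Agent.SI
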