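import Pool.Agent.SI.ZES
import Pool.Agent.SI.ENTS
import Pool.Agent.SI.SER
import Pool.Agent.SI.BDSA
import Pool.Agent.SI.BDSB
import Pool.Agent.ZC.LA4
import Pool.Agent.ZC.CORA
import Pool.Agent.ZC.COR

/-!
# SI: the determinant inequality for large M
-/

namespace Pool.Agent.SI

open Finset Pool.Agent.ZC

/-! ### casts -/

theorem ONE_map_hs (h : ℕ) (f : PowerSeries ℚ) :
    PowerSeries.map (algebraMap ℚ ℝ) (hs ℚ h f) = hs ℝ h (PowerSeries.map (algebraMap ℚ ℝ) f) := by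
  ext r
  simp [hs]

theorem ONE_map_hl (p l : ℕ) : PowerSeries.map (algebraMap ℚ ℝ) (hl ℚ p l) = hl ℝ p l := by
  simp [hl]

theorem ONE_map_Ap (q : ℕ) : (Ap ℚ q).map (algebraMap ℚ ℝ) = Ap ℝ q := by
  simp [Ap, Polynomial.map_prod]

theorem ONE_map_Am (M q : ℕ) : (Am ℚ M q).map (algebraMap ℚ ℝ) = Am ℝ M q := by
  simp [Am, ONE_map_Ap]

theorem ONE_map_gh (p l : ℕ) : PowerSeries.map (algebraMap ℚ ℝ) (gh ℚ p l) = gh ℝ p l := by
  have h0 : ∀ k : ℕ, (2 * (k : ℚ) + 1) / 2 ≠ 0 := fun k => by positivity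
  rw [gh, gh, map_add, map_sum, map_sum]
  congr 1
  · refine sum_congr rfl fun k _ => ?_
    rw [map_inv_ps _ (by simpa using h0 k)]
    simp
  · refine sum_congr rfl fun k _ => ?_
    rw [map_inv_ps _ (by simpa using h0 k)]
    simp

theorem ONE_map_zp (T : ℕ) (z : ℕ → ℚ) :
    PowerSeries.map (algebraMap ℚ ℝ) (zp ℚ T z) = zp ℝ T (fun i => (z i : ℝ)) := by
  simp [zp]

theorem ONE_map_Gh (p l T : ℕ) (z : ℕ → ℚ) :
    PowerSeries.map (algebraMap ℚ ℝ) (Gh ℚ p l T z) = Gh ℝ p l T (fun i => (z i : ℝ)) := by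
  rw [Gh, Gh, map_sub, ONE_map_gh, ONE_map_zp]

theorem ONE_Gh_split (p l T : ℕ) (z : ℕ → ℝ) :
    Gh ℝ p l T zr = Gh ℝ p l T z + zp ℝ T (fun i => zr i - z i) := by
  have : zp ℝ T zr = zp ℝ T z + zp ℝ T (fun i => zr i - z i) := by
    rw [zp, zp, zp, ← sum_add_distrib]
    refine sum_congr rfl fun i _ => ?_
    rw [← add_mul, ← map_add]
    congr 2
    ring
  rw [Gh, Gh, this]
  ring

theorem ONE_map_cRow {J : Type} (M p : ℕ) (ψ : J → PowerSeries ℚ) (σ : J → ℕ) (l : ℕ) (j : J)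
    (i : ℕ) : PowerSeries.map (algebraMap ℚ ℝ) (cRow ℚ M p ψ σ l j i) =
      PowerSeries.map (algebraMap ℚ ℝ) (ψ j) * (hl ℝ p l ^ σ j * ev ℝ p l (Cn ℝ M i)) := by
  rw [cRow, map_mul, map_mul, map_pow, ONE_map_hl, map_ev, map_Cn]

theorem ONE_map_fRow (M p q T : ℕ) (z : ℕ → ℚ) (l k r j : ℕ) :
    PowerSeries.map (algebraMap ℚ ℝ) (fRow ℚ M p q T z l k r j) =
      PowerSeries.X ^ k * hs ℝ r (hl ℝ p l ^ ((k + r) % 2) * ev ℝ p l (Am ℝ M q * Cn ℝ M j) *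
        Gh ℝ p l T (fun i => (z i : ℝ))) := by
  rw [fRow, map_mul, map_pow, PowerSeries.map_X, ONE_map_hs, map_mul, map_mul, map_pow, ONE_map_hl,
    map_ev, Polynomial.map_mul, ONE_map_Am, map_Cn, ONE_map_Gh]

theorem ONE_ev_mul (K : Type*) [Field K] (p l : ℕ) (f g : Polynomial K) :
    ev K p l (f * g) = ev K p l f * ev K p l g := by
  unfold ev
  rw [map_mul]

theorem ONE_ev_C (K : Type*) [Field K] (p l : ℕ) (c : K) :
    ev K p l (Polynomial.C c) = PowerSeries.C c := by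
  unfold ev
  rw [Polynomial.aeval_C]
  rfl

theorem ONE_ev_sum (K : Type*) [Field K] {ι : Type*} (s : Finset ι) (p l : ℕ)
    (f : ι → Polynomial K) : ev K p l (∑ i ∈ s, f i) = ∑ i ∈ s, ev K p l (f i) := by
  unfold ev
  rw [map_sum]

/-! ### jets and the real span of the companions -/

/-- the jet vector of a family of power series -/
noncomputable def ONE_jet (p a : ℕ) (F : ℕ → PowerSeries ℝ) : Fin p × Fin a → ℝ :=
  fun c => PowerSeries.coeff (c.2 : ℕ) (F c.1)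

/-- real span of the companion vectors -/
noncomputable def ONE_span {J : Type} [Fintype J] (M p a n : ℕ) (ψ : J → PowerSeries ℚ) (σ : J → ℕ) :
    Submodule ℝ (Fin p × Fin a → ℝ) :=
  Submodule.span ℝ (Set.range fun x : J × Fin n => ONE_jet p a (fun l =>
    PowerSeries.map (algebraMap ℚ ℝ) (cRow ℚ M p ψ σ l x.1 x.2)))

theorem ONE_jet_add (p a : ℕ) (F G : ℕ → PowerSeries ℝ) :
    ONE_jet p a (fun l => F l + G l) = ONE_jet p a F + ONE_jet p a G := by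
  funext c; simp [ONE_jet]

theorem ONE_jet_sum {ι : Type*} (p a : ℕ) (s : Finset ι) (F : ι → ℕ → PowerSeries ℝ) :
    ONE_jet p a (fun l => ∑ i ∈ s, F i l) = ∑ i ∈ s, ONE_jet p a (F i) := by
  funext c; simp [ONE_jet, Finset.sum_apply]

theorem ONE_jet_smul (p a : ℕ) (t : ℝ) (F : ℕ → PowerSeries ℝ) :
    ONE_jet p a (fun l => PowerSeries.C t * F l) = t • ONE_jet p a F := by
  funext c; simp [ONE_jet, PowerSeries.coeff_C_mul]

theorem ONE_mem_psi {J : Type} [Fintype J] (M p a n : ℕ) (ψ : J → PowerSeries ℚ) (σ : J → ℕ) (j : J)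
    (Q : Polynomial ℝ) (hQ : Q ∈ Polynomial.degreeLT ℝ n) :
    ONE_jet p a (fun l => PowerSeries.map (algebraMap ℚ ℝ) (ψ j) * (hl ℝ p l ^ σ j * ev ℝ p l Q)) ∈
      ONE_span M p a n ψ σ := by
  obtain ⟨β, rfl⟩ := exists_comb ℝ M n Q hQ
  have e : (fun l => PowerSeries.map (algebraMap ℚ ℝ) (ψ j) * (hl ℝ p l ^ σ j *
      ev ℝ p l (∑ i, Polynomial.C (β i) * Cn ℝ M i))) =
      fun l => ∑ i : Fin n, PowerSeries.C (β i) *
        PowerSeries.map (algebraMap ℚ ℝ) (cRow ℚ M p ψ σ l j i) := by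
    funext l
    rw [ONE_ev_sum, mul_sum, mul_sum]
    refine sum_congr rfl fun i _ => ?_
    rw [ONE_map_cRow, ONE_ev_mul, ONE_ev_C]
    ring
  rw [e, ONE_jet_sum]
  refine Submodule.sum_mem _ fun i _ => ?_
  rw [ONE_jet_smul]
  exact Submodule.smul_mem _ _ (Submodule.subset_span ⟨(j, i), rfl⟩)

/-- product with a series that is a combination of the `ψ j` modulo `X^a` -/
theorem ONE_mem_comb {J : Type} [Fintype J] (M p a n : ℕ) (ψ : J → PowerSeries ℚ) (σ : J → ℕ)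
    (s : ℕ) (Q : Polynomial ℝ) (hQ : Q ∈ Polynomial.degreeLT ℝ n) (F : PowerSeries ℝ) (α : J → ℝ)
    (hα : ∀ j, α j ≠ 0 → σ j = s)
    (hF : ∀ m < a, PowerSeries.coeff m F = ∑ j, α j * ((PowerSeries.coeff m (ψ j) : ℚ) : ℝ)) :
    ONE_jet p a (fun l => F * (hl ℝ p l ^ s * ev ℝ p l Q)) ∈ ONE_span M p a n ψ σ := by
  have e : ONE_jet p a (fun l => F * (hl ℝ p l ^ s * ev ℝ p l Q)) =
      ONE_jet p a (fun l => ∑ j, PowerSeries.C (α j) *
        (PowerSeries.map (algebraMap ℚ ℝ) (ψ j) * (hl ℝ p l ^ σ j * ev ℝ p l Q))) := by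
    funext c
    simp only [ONE_jet]
    have e1 : ∑ j, PowerSeries.C (α j) *
        (PowerSeries.map (algebraMap ℚ ℝ) (ψ j) * (hl ℝ p c.1 ^ σ j * ev ℝ p c.1 Q)) =
        (∑ j, PowerSeries.C (α j) * PowerSeries.map (algebraMap ℚ ℝ) (ψ j)) *
          (hl ℝ p c.1 ^ s * ev ℝ p c.1 Q) := by
      rw [sum_mul]
      refine sum_congr rfl fun j _ => ?_
      rcases eq_or_ne (α j) 0 with h | h
      · simp [h]
      · rw [hα j h, mul_assoc]
    rw [e1, PowerSeries.coeff_mul, PowerSeries.coeff_mul]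
    refine sum_congr rfl fun x hx => ?_
    rw [HasAntidiagonal.mem_antidiagonal] at hx
    have hc := c.2.2
    rw [hF x.1 (by omega), map_sum]
    congr 1
    refine sum_congr rfl fun j _ => ?_
    rw [PowerSeries.coeff_C_mul, PowerSeries.coeff_map]
    rfl
  rw [e, ONE_jet_sum]
  refine Submodule.sum_mem _ fun j _ => ?_
  rw [ONE_jet_smul]
  exact Submodule.smul_mem _ _ (ONE_mem_psi M p a n ψ σ j Q hQ)

/-- the rows with `E` instead of the functional lie in the span of the companions -/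
theorem ONE_mem_E {J : Type} [Fintype J] (M p a n k r : ℕ) (ψ : J → PowerSeries ℚ) (σ : J → ℕ)
    (E : PowerSeries ℝ)
    (H1 : ∀ r' ≤ r, ∃ α : J → ℝ, (∀ j, α j ≠ 0 → σ j = (k + r') % 2) ∧ ∀ m < a,
      PowerSeries.coeff m (PowerSeries.X ^ k * hs ℝ r' E) =
        ∑ j, α j * ((PowerSeries.coeff m (ψ j) : ℚ) : ℝ))
    (f : Polynomial ℝ) (hf : f ∈ Polynomial.degreeLT ℝ n) :
    ONE_jet p a (fun l => PowerSeries.X ^ k *
      hs ℝ r (hl ℝ p l ^ ((k + r) % 2) * ev ℝ p l f * E)) ∈ ONE_span M p a n ψ σ := by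
  have hex : ∀ i, ∃ f' ∈ Polynomial.degreeLT ℝ n, ∀ p l,
      hs ℝ i (hl ℝ p l ^ ((k + r) % 2) * ev ℝ p l f) =
        hl ℝ p l ^ (((k + r) % 2 + i) % 2) * ev ℝ p l f' := fun i =>
    hs_hl_ev n _ i (by omega) f hf
  choose f' hf' hff' using hex
  have e : (fun l => PowerSeries.X ^ k * hs ℝ r (hl ℝ p l ^ ((k + r) % 2) * ev ℝ p l f * E)) =
      fun l => ∑ x ∈ antidiagonal r, (PowerSeries.X ^ k * hs ℝ x.2 E) *
        (hl ℝ p l ^ (((k + r) % 2 + x.1) % 2) * ev ℝ p l (f' x.1)) := by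
    funext l
    rw [hs_mul, mul_sum]
    refine sum_congr rfl fun x _ => ?_
    rw [hff' x.1 p l]
    ring
  rw [e, ONE_jet_sum]
  refine Submodule.sum_mem _ fun x hx => ?_
  rw [HasAntidiagonal.mem_antidiagonal] at hx
  obtain ⟨α, hα, hF⟩ := H1 x.2 (by omega)
  exact ONE_mem_comb M p a n ψ σ _ (f' x.1) (hf' _) _ α (fun j hj => by
    rw [hα j hj]; omega) hF

/-! ### the multiplier -/

theorem ONE_Am_mem (K : Type*) [Field K] [CharZero K] (M q P : ℕ) (f : Polynomial K)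
    (hf : f ∈ Polynomial.degreeLT K P) : Am K M q * f ∈ Polynomial.degreeLT K (q + P) := by
  rw [Polynomial.mem_degreeLT] at hf ⊢
  have h1 : (Am K M q).degree ≤ (q : WithBot ℕ) := by
    rw [Am]
    refine (Polynomial.degree_mul_le _ _).trans ?_
    have h2 : (Ap K q).degree = q := by
      rw [Polynomial.degree_eq_natDegree (ZES_Ap_ne_zero q), ZES_Ap_natDegree]
    rw [h2]
    have h3 : (Polynomial.C ((2 : K) ^ (2 * q - 1) * ((bf M (2 * q - 1) : ℕ) : K)⁻¹)).degree ≤ 0 :=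
      Polynomial.degree_C_le
    calc (Polynomial.C ((2 : K) ^ (2 * q - 1) * ((bf M (2 * q - 1) : ℕ) : K)⁻¹)).degree + (q : WithBot ℕ)
        ≤ 0 + (q : WithBot ℕ) := by gcongr
      _ = q := zero_add _
  by_cases h0 : f = 0
  · subst h0
    rw [mul_zero, Polynomial.degree_zero]
    exact WithBot.bot_lt_coe _
  · rw [Polynomial.degree_mul, Nat.cast_add]
    have h4 : (Am K M q) ≠ 0 := by
      rw [Am]
      refine mul_ne_zero (Polynomial.C_ne_zero.2 ?_) (ZES_Ap_ne_zero q)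
      have := bf_pos M (2 * q - 1)
      have h5 : ((bf M (2 * q - 1) : ℕ) : K) ≠ 0 := Nat.cast_ne_zero.2 this.ne'
      exact mul_ne_zero (pow_ne_zero _ two_ne_zero) (inv_ne_zero h5)
    rw [Polynomial.degree_eq_natDegree h4] at h1 ⊢
    rw [Polynomial.degree_eq_natDegree h0] at hf ⊢
    have h6 : (Am K M q).natDegree ≤ q := by exact_mod_cast h1
    have h7 : f.natDegree < P := by exact_mod_cast hf
    have h8 : (Am K M q).natDegree + f.natDegree < q + P := by omega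
    exact_mod_cast h8

theorem ONE_Cn_mem (K : Type*) [Field K] [CharZero K] (M j P : ℕ) (hj : j < P) :
    Cn K M j ∈ Polynomial.degreeLT K P := by
  rw [Polynomial.mem_degreeLT, Cn_degree]
  exact_mod_cast hj

theorem ONE_Am_eval (M q : ℕ) (f : Polynomial ℝ) (ν : ℕ) (hν : ν < q) :
    (Am ℝ M q * f).eval ((2 * (ν : ℝ)) ^ 2) = 0 := by
  rw [Polynomial.eval_mul, Am, Polynomial.eval_mul, ZES_Ap_eval q ν hν]
  ring

theorem ONE_Am_const_ne (M q : ℕ) :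
    (2 : ℚ) ^ (2 * q - 1) * ((bf M (2 * q - 1) : ℕ) : ℚ)⁻¹ ≠ 0 := by
  have := bf_pos M (2 * q - 1)
  positivity

/-! ### independence modulo the companions -/

/-- `F` rows independent modulo the companions -/
theorem ONE_mod (g S k0 a T : ℕ) (hg : 1 ≤ g) {J : Type} [Fintype J]
    (ψ : J → PowerSeries ℚ) (σ : J → ℕ) (hσ : ∀ j, σ j ≤ 1)
    (hψ : ∀ j, PowerSeries.evalNegHom (ψ j) = PowerSeries.C ((-1 : ℚ) ^ σ j) * ψ j) (z : ℕ → ℚ)
    (hi : (g + 2) * (k0 + 1 + Fintype.card J) + (k0 + 1) * (S + 1) + 1 ≤ g * (a - k0)) :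
    ∃ P0 : ℕ, ∀ P ≥ P0, ∀ M, ∀ (c : J × Fin ((g + 2) * P) → ℚ)
      (f : Fin (k0 + 1) × Fin (S + 1) × Fin P → ℚ),
      (∀ l < g * P, ∀ m < a, ∑ x, c x * PowerSeries.coeff m (cRow ℚ M (g * P) ψ σ l x.1 x.2) +
        ∑ x, f x * PowerSeries.coeff m
          (fRow ℚ M (g * P) ((g + 1) * P) T z l x.1 x.2.1 x.2.2) = 0) → ∀ x, f x = 0 := by
  obtain ⟨P0, hP0⟩ := si_ze g S k0 a T hg ψ σ hσ hψ z hi
  refine ⟨P0, fun P hP M c f hrel => ?_⟩
  set e0 : ℚ := (2 : ℚ) ^ (2 * ((g + 1) * P) - 1) * ((bf M (2 * ((g + 1) * P) - 1) : ℕ) : ℚ)⁻¹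
    with he0
  have he0' : e0 ≠ 0 := ONE_Am_const_ne _ _
  set fk : Fin (k0 + 1) → Fin (S + 1) → Polynomial ℚ := fun k r =>
    ∑ j : Fin P, Polynomial.C (e0 * f (k, r, j)) * Cn ℚ M j with hfk
  have h1 := hP0 P hP
    (fun j => ∑ i : Fin ((g + 2) * P), Polynomial.C (c (j, i)) * Cn ℚ M i)
    (fun j => LI_sum_mem M _ _)
    fk
    (fun k r => LI_sum_mem M _ _)
    (by
      intro l hl m hm
      rw [← hrel l hl m hm]
      rw [map_add]
      congr 1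
      · rw [map_sum, Fintype.sum_prod_type]
        refine sum_congr rfl fun j _ => ?_
        rw [ONE_ev_sum, mul_sum, mul_sum, map_sum]
        refine sum_congr rfl fun i _ => ?_
        rw [ONE_ev_mul, ONE_ev_C, ← PowerSeries.coeff_C_mul, cRow]
        congr 1
        ring
      · rw [map_sum, Fintype.sum_prod_type]
        refine sum_congr rfl fun k _ => ?_
        rw [map_sum, Fintype.sum_prod_type]
        refine sum_congr rfl fun r _ => ?_
        have e1 : SI.hl ℚ (g * P) l ^ (((k : ℕ) + r) % 2) *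
            ev ℚ (g * P) l (Ap ℚ ((g + 1) * P) * fk k r) * Gh ℚ (g * P) l T z =
            ∑ j : Fin P, PowerSeries.C (f (k, r, j)) * (SI.hl ℚ (g * P) l ^ (((k : ℕ) + r) % 2) *
              ev ℚ (g * P) l (Am ℚ M ((g + 1) * P) * Cn ℚ M j) * Gh ℚ (g * P) l T z) := by
          rw [hfk, mul_sum, ONE_ev_sum, mul_sum, sum_mul]
          refine sum_congr rfl fun j _ => ?_
          rw [Am, ← he0]
          simp only [ONE_ev_mul, ONE_ev_C]
          rw [map_mul]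
          ring
        rw [e1, hs_sum, mul_sum, map_sum]
        refine sum_congr rfl fun j _ => ?_
        rw [hs_C_mul, ← PowerSeries.coeff_C_mul, fRow]
        congr 1
        ring)
  rintro ⟨k, r, j⟩
  have h2 := LI_sum_eq_zero M P _ (h1 k r) j
  exact (mul_eq_zero.1 h2).resolve_left he0'

/-! ### the common denominator -/

theorem ONE_den_int (q : ℚ) (N : ℕ) (h : q.den ∣ N) : ∃ w : ℤ, (N : ℚ) * q = w := by
  obtain ⟨e, rfl⟩ := h
  refine ⟨e * q.num, ?_⟩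
  have := Rat.mul_den_eq_num q
  push_cast
  linear_combination (e : ℚ) * this

theorem ONE_den (a T : ℕ) {J : Type} [Fintype J] (ψ : J → PowerSeries ℚ) (z : ℕ → ℚ) :
    ∃ D0 : ℕ, 0 < D0 ∧ (∀ i ∈ oddS T, ∃ w : ℤ, (D0 : ℚ) * z i = w) ∧
      ∀ j, ∀ m < a, ∃ w : ℤ, (D0 : ℚ) * PowerSeries.coeff m (ψ j) = w := by
  classical
  refine ⟨(∏ i ∈ oddS T, (z i).den) * ∏ j, ∏ r ∈ range a, (PowerSeries.coeff r (ψ j)).den,
    ?_, ?_, ?_⟩
  · exact Nat.mul_pos (prod_pos fun i _ => (z i).den_pos)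
      (prod_pos fun j _ => prod_pos fun r _ => (PowerSeries.coeff r (ψ j)).den_pos)
  · intro i hi
    exact ONE_den_int _ _ ((dvd_prod_of_mem (fun i => (z i).den) hi).mul_right _)
  · intro j r hr
    exact ONE_den_int _ _ (((dvd_prod_of_mem (fun r => (PowerSeries.coeff r (ψ j)).den)
      (mem_range.2 hr)).trans (dvd_prod_of_mem
        (fun j => ∏ r ∈ range a, (PowerSeries.coeff r (ψ j)).den) (mem_univ j))).mul_left _)

/-! ### merging the levels -/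

theorem ONE_rate (t0 t N0 : ℝ) (k0 k κ : ℕ) (hk : k ≤ k0) (h0 : 1 / 2 ≤ t0) (ht0 : 0 ≤ t) (ht1 : t ≤ 1)
    (ht : t ^ (k0 + 1) = t0) (hN : 0 ≤ N0) :
    N0 * t0 ^ (2 * κ) ≤ 4 * N0 * t ^ (2 * (κ * (k0 + 1) + k)) := by
  have e1 : t ^ (2 * (κ * (k0 + 1) + k)) = t0 ^ (2 * κ) * t ^ (2 * k) := by
    rw [← ht, ← pow_mul, ← pow_add]
    congr 1
    ring
  have e2 : (1 : ℝ) / 4 ≤ t ^ (2 * k) := by
    have e3 : t ^ (2 * (k0 + 1)) ≤ t ^ (2 * k) := pow_le_pow_of_le_one ht0 ht1 (by omega)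
    have e4 : t ^ (2 * (k0 + 1)) = t0 ^ 2 := by rw [← ht, ← pow_mul]; congr 1; ring
    rw [e4] at e3
    nlinarith
  rw [e1]
  have h3 : 0 ≤ t0 ^ (2 * κ) := by positivity
  have h4 : N0 * t0 ^ (2 * κ) * 1 ≤ N0 * t0 ^ (2 * κ) * (4 * t ^ (2 * k)) :=
    mul_le_mul_of_nonneg_left (by linarith) (by positivity)
  linarith

theorem ONE_hasSum (k0 k : ℕ) (hk : k ≤ k0) (f : ℕ → ℝ) (s : ℝ) (h : HasSum f s) :
    HasSum (fun κ' : ℕ => if κ' % (k0 + 1) = k then f (κ' / (k0 + 1)) else 0) s := by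
  have hinj : Function.Injective (fun κ : ℕ => κ * (k0 + 1) + k) := by
    intro x y hxy
    simp only at hxy
    exact Nat.eq_of_mul_eq_mul_right (Nat.succ_pos k0) (Nat.add_right_cancel hxy)
  rw [← hinj.hasSum_iff]
  · convert h using 1
    funext κ
    simp only [Function.comp]
    have e1 : (κ * (k0 + 1) + k) % (k0 + 1) = k := by
      rw [Nat.add_comm, Nat.add_mul_mod_self_right, Nat.mod_eq_of_lt (by omega)]
    have e2 : (κ * (k0 + 1) + k) / (k0 + 1) = κ := by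
      rw [Nat.add_comm, Nat.add_mul_div_right _ _ (Nat.succ_pos k0), Nat.div_eq_of_lt (by omega),
        zero_add]
    rw [if_pos e1, e2]
  · intro x hx
    rw [if_neg]
    intro hxk
    exact hx ⟨x / (k0 + 1), by
      simp only
      have := Nat.div_add_mod x (k0 + 1)
      rw [hxk] at this
      linarith [mul_comm (k0 + 1) (x / (k0 + 1))]⟩

/-- for fixed data and `M` large: the determinant inequality -/
theorem si_one (g S k0 a : ℕ) (hg : 1 ≤ g) (ha : 1 ≤ a) {J : Type} [Fintype J]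
    (ψ : J → PowerSeries ℚ) (σ : J → ℕ) (hσ : ∀ j, σ j ≤ 1)
    (hψ : ∀ j, PowerSeries.evalNegHom (ψ j) = PowerSeries.C ((-1 : ℚ) ^ σ j) * ψ j) (z : ℕ → ℚ)
    (hi : (g + 2) * (k0 + 1 + Fintype.card J) + (k0 + 1) * (S + 1) + 1 ≤ g * (a - k0))
    (H0 : ∀ k ≤ k0, ∃ j, σ j = k % 2 ∧ ψ j = PowerSeries.X ^ k)
    (H1 : ∀ k ≤ k0, ∀ r ≤ S, ∃ α : J → ℝ, (∀ j, α j ≠ 0 → σ j = (k + r) % 2) ∧ ∀ m < a,
      PowerSeries.coeff m (PowerSeries.X ^ k *
        hs ℝ r (zp ℝ (a + S) (fun i => zr i - (z i : ℝ)))) =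
          ∑ j, α j * ((PowerSeries.coeff m (ψ j) : ℚ) : ℝ)) :
    ∃ D0 : ℕ, 0 < D0 ∧ ∃ M0 : ℕ, ∀ M ≥ M0, ∃ R : ℕ, 1 ≤ R ∧
      R ≤ 2 * a * ((g + 2) * ((a + S + 1) * M)) ∧
      1 ≤ ((D0 * Nat.lcmUpto (2 * M) ^ (a + S + 1) : ℕ) : ℝ) ^ R * ((R.factorial : ℝ) *
        (4 * (100 * ((g : ℝ) + 2) * (a + S + 1)) ^ (4 * ((g + 2) * ((a + S + 1) * M)))) ^ R *
        ((1 - 1 / (2 * ((g : ℝ) + 1))) ^ ((1 : ℝ) / (k0 + 1))) ^
          (((k0 + 1) * ((S + 1) * ((a + S + 1) * M))) *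
            ((k0 + 1) * ((S + 1) * ((a + S + 1) * M)) - 1) / 2) *
        (1 / (1 - (1 - 1 / (2 * ((g : ℝ) + 1))) ^ ((1 : ℝ) / (k0 + 1)))) ^
          ((k0 + 1) * ((S + 1) * ((a + S + 1) * M)))) := by
  classical
  obtain ⟨D0, hD0, hDz, hDψ⟩ := ONE_den a (a + S) ψ z
  obtain ⟨P0, hP0⟩ := ONE_mod g S k0 a (a + S) hg ψ σ hσ hψ z hi
  obtain ⟨M1, hM1⟩ := bd_cRow g S a hg ha
    (fun j => PowerSeries.map (algebraMap ℚ ℝ) (ψ j)) σ hσ
  obtain ⟨M2, hM2⟩ := bd_lam g S k0 a hg ha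
  refine ⟨D0, hD0, P0 + M1 + M2 + 1, fun M hM => ?_⟩
  have hMP0 : P0 ≤ M := by omega
  have hMM1 : M1 ≤ M := by omega
  have hMM2 : M2 ≤ M := by omega
  have hMpos : 0 < M := by omega
  obtain ⟨P, hP⟩ : ∃ P, P = (a + S + 1) * M := ⟨_, rfl⟩
  have hPM : M ≤ P := by rw [hP]; exact Nat.le_mul_of_pos_left _ (by omega)
  have hPpos : 0 < P := by omega
  have hcr := hM1 M hMM1
  have hlam := hM2 M hMM2
  have hmod := hP0 P (by omega) M
  rw [← hP] at hcr hlam ⊢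
  set d := Nat.lcmUpto (2 * M) with hd
  have hd0 : 0 < d := Nat.lcmUpto_pos _
  have hdd : ∀ q : ℕ, 1 ≤ q → q ≤ 2 * M → q ∣ d := fun q h1 h2 => dvd_lcmUpto h1 h2
  set p := g * P with hp
  set q := (g + 1) * P with hq
  set n := (g + 2) * P with hn
  have hpq : q = p + P := by rw [hq, hp]; ring
  have hqn : n = q + P := by rw [hn, hq]; ring
  have hp1 : 1 ≤ p := Nat.mul_pos (by omega) hPpos
  set N0 : ℝ := (100 * ((g : ℝ) + 2) * (a + S + 1)) ^ (4 * n) with hN0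
  have hN0pos : 0 ≤ N0 := by positivity
  set t0 : ℝ := 1 - 1 / (2 * ((g : ℝ) + 1)) with ht0
  have hg' : (1 : ℝ) ≤ g := by exact_mod_cast hg
  have ht0a : 1 / 2 ≤ t0 := by
    rw [ht0]
    have : 1 / (2 * ((g : ℝ) + 1)) ≤ 1 / 2 := by
      apply one_div_le_one_div_of_le (by norm_num)
      linarith
    linarith
  have ht0b : t0 < 1 := by
    rw [ht0]
    have : 0 < 1 / (2 * ((g : ℝ) + 1)) := by positivity
    linarith
  set t : ℝ := t0 ^ ((1 : ℝ) / (k0 + 1)) with ht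
  have htpos : 0 ≤ t := Real.rpow_nonneg (by linarith) _
  have ht1 : t < 1 := Real.rpow_lt_one (by linarith) ht0b (by positivity)
  have htk : t ^ (k0 + 1) = t0 := by
    rw [ht, ← Real.rpow_natCast, ← Real.rpow_mul (by linarith)]
    have : (1 : ℝ) / (k0 + 1) * ((k0 + 1 : ℕ) : ℝ) = 1 := by
      push_cast
      field_simp
    rw [this, Real.rpow_one]
  -- series data
  have hf : ∀ j < P, (Am ℝ M q * Cn ℝ M j) ∈ Polynomial.degreeLT ℝ n := fun j hj => by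
    rw [hqn]
    exact ONE_Am_mem ℝ M q P _ (ONE_Cn_mem ℝ M j P hj)
  obtain ⟨R, hR1, hR2, hR3⟩ := det_ineq (Cc := J × Fin n)
    (Fi := Fin (k0 + 1) × Fin (S + 1) × Fin P) (Col := Fin p × Fin a)
    (fun r c => match r with
      | .inl x => PowerSeries.coeff (c.2 : ℕ) (cRow ℚ M p ψ σ c.1 x.1 x.2)
      | .inr x => PowerSeries.coeff (c.2 : ℕ) (fRow ℚ M p q (a + S) z c.1 x.1 x.2.1 x.2.2))
    (fun c f hcf => hmod c f fun l hl m hm => hcf (⟨l, hl⟩, ⟨m, hm⟩))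
    (D0 * d ^ (a + S + 1)) (by positivity)
    (by
      rintro (x | x) c
      · obtain ⟨w, hw⟩ := cRow_int hMpos hdd ψ σ D0 p c.1 x.1 (hDψ x.1) x.2 c.2 c.2.2
        refine ⟨w * (d ^ (S + 1) : ℕ), ?_⟩
        show ((D0 * d ^ (a + S + 1) : ℕ) : ℚ) *
          PowerSeries.coeff (c.2 : ℕ) (cRow ℚ M p ψ σ c.1 x.1 x.2) = _
        push_cast at hw ⊢
        rw [← hw]
        ring
      · exact fRow_int hMpos hdd (a + S) z D0 hDz p c.1 q c.1.2 (by omega) x.1 x.2.1 x.2.2 c.2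
          (Nat.lt_succ_iff.1 x.2.1.2) c.2.2)
    (4 * N0) t (by positivity) htpos ht1
    (fun x κ' => if κ' % (k0 + 1) = (x.1 : ℕ) then
      lam q n x.1 x.2.1 (Am ℝ M q * Cn ℝ M x.2.2) (κ' / (k0 + 1)) else 0)
    (fun κ' c => PowerSeries.coeff (c.2 : ℕ) (uvec p n (κ' % (k0 + 1)) c.1 (κ' / (k0 + 1))))
    (by
      intro x c
      have h1 := hcr c.1 c.1.2 x.2 x.2.2 x.1 c.2 c.2.2
      have h2 : cRow ℝ M p (fun j => PowerSeries.map (algebraMap ℚ ℝ) (ψ j)) σ c.1 x.1 x.2 =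
          PowerSeries.map (algebraMap ℚ ℝ) (cRow ℚ M p ψ σ c.1 x.1 x.2) := by
        rw [ONE_map_cRow, cRow]
      rw [h2, PowerSeries.coeff_map] at h1
      refine le_trans h1 ?_
      linarith)
    (by
      intro x κ' c
      split_ifs with hκ
      · rw [hκ]
        refine (hlam c.1 c.1.2 x.2.2 x.2.2.2 x.1 (Nat.lt_succ_iff.1 x.1.2) x.2.1
          (Nat.lt_succ_iff.1 x.2.1.2) (κ' / (k0 + 1)) c.2).trans ?_
        have h3 := ONE_rate t0 t N0 k0 x.1 (κ' / (k0 + 1)) (Nat.lt_succ_iff.1 x.1.2) ht0a htpos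
          ht1.le htk hN0pos
        have h4 : κ' / (k0 + 1) * (k0 + 1) + (x.1 : ℕ) = κ' := by
          have := Nat.div_add_mod κ' (k0 + 1)
          rw [hκ] at this
          linarith [mul_comm (k0 + 1) (κ' / (k0 + 1))]
        rw [h4] at h3
        exact h3
      · rw [zero_mul, abs_zero]
        positivity)
    (by
      intro x
      obtain ⟨Q, hQ, hser⟩ := si_level p q n (a + S) S x.1 x.2.1 hp1 (by omega)
        (Nat.lt_succ_iff.1 x.2.1.2) (Am ℝ M q * Cn ℝ M x.2.2) (hf _ x.2.2.2)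
        (fun ν hν => ONE_Am_eval M q _ ν hν)
      -- the companion part
      have hE := ONE_mem_E M p a n x.1 x.2.1 ψ σ (zp ℝ (a + S) (fun i => zr i - (z i : ℝ)))
        (fun r' hr' => H1 x.1 (Nat.lt_succ_iff.1 x.1.2) r' (hr'.trans (Nat.lt_succ_iff.1 x.2.1.2)))
        (Am ℝ M q * Cn ℝ M x.2.2) (hf _ x.2.2.2)
      obtain ⟨j0, hj0, hj0'⟩ := H0 x.1 (Nat.lt_succ_iff.1 x.1.2)
      have hQm := ONE_mem_psi M p a n ψ σ j0 Q hQ
      rw [hj0, hj0'] at hQm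
      have hV := Submodule.sub_mem _ hQm hE
      rw [ONE_span, Submodule.mem_span_range_iff_exists_fun] at hV
      obtain ⟨α, hα⟩ := hV
      refine ⟨α, fun c => ?_⟩
      have hαc := congrFun hα c
      rw [Finset.sum_apply] at hαc
      simp only [Pi.smul_apply, smul_eq_mul, Pi.sub_apply, ONE_jet, map_pow, PowerSeries.map_X,
        PowerSeries.coeff_map] at hαc
      have h5 := ONE_hasSum k0 x.1 (Nat.lt_succ_iff.1 x.1.2) _ _ (hser c.1 c.1.2 c.2 (by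
        have := c.2.2; omega))
      have h6 : (fun κ' : ℕ => (if κ' % (k0 + 1) = (x.1 : ℕ) then
          lam q n x.1 x.2.1 (Am ℝ M q * Cn ℝ M x.2.2) (κ' / (k0 + 1)) else 0) *
          PowerSeries.coeff (c.2 : ℕ) (uvec p n (κ' % (k0 + 1)) c.1 (κ' / (k0 + 1)))) =
          fun κ' : ℕ => if κ' % (k0 + 1) = (x.1 : ℕ) then
            lam q n x.1 x.2.1 (Am ℝ M q * Cn ℝ M x.2.2) (κ' / (k0 + 1)) *
            PowerSeries.coeff (c.2 : ℕ) (uvec p n x.1 c.1 (κ' / (k0 + 1))) else 0 := by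
        funext κ'
        split_ifs with hκ
        · rw [hκ]
        · rw [zero_mul]
      rw [h6]
      convert h5 using 1
      have h7 : ((PowerSeries.coeff (c.2 : ℕ)
          (fRow ℚ M p q (a + S) z c.1 x.1 x.2.1 x.2.2) : ℚ) : ℝ) =
          PowerSeries.coeff (c.2 : ℕ) (PowerSeries.X ^ (x.1 : ℕ) * hs ℝ x.2.1
            (hl ℝ p c.1 ^ (((x.1 : ℕ) + x.2.1) % 2) * ev ℝ p c.1 (Am ℝ M q * Cn ℝ M x.2.2) *
              Gh ℝ p c.1 (a + S) (fun i => (z i : ℝ)))) := by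
        rw [← ONE_map_fRow, PowerSeries.coeff_map]
        rfl
      have h8 : PowerSeries.coeff (c.2 : ℕ) (PowerSeries.X ^ (x.1 : ℕ) * hs ℝ x.2.1
            (hl ℝ p c.1 ^ (((x.1 : ℕ) + x.2.1) % 2) * ev ℝ p c.1 (Am ℝ M q * Cn ℝ M x.2.2) *
              Gh ℝ p c.1 (a + S) zr)) =
          PowerSeries.coeff (c.2 : ℕ) (PowerSeries.X ^ (x.1 : ℕ) * hs ℝ x.2.1
            (hl ℝ p c.1 ^ (((x.1 : ℕ) + x.2.1) % 2) * ev ℝ p c.1 (Am ℝ M q * Cn ℝ M x.2.2) *
              Gh ℝ p c.1 (a + S) (fun i => (z i : ℝ)))) +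
          PowerSeries.coeff (c.2 : ℕ) (PowerSeries.X ^ (x.1 : ℕ) * hs ℝ x.2.1
            (hl ℝ p c.1 ^ (((x.1 : ℕ) + x.2.1) % 2) * ev ℝ p c.1 (Am ℝ M q * Cn ℝ M x.2.2) *
              zp ℝ (a + S) (fun i => zr i - (z i : ℝ)))) := by
        rw [ONE_Gh_split p c.1 (a + S) (fun i => (z i : ℝ)), mul_add, hs_add, mul_add, map_add]
      rw [h8]
      show ((PowerSeries.coeff (c.2 : ℕ)
          (fRow ℚ M p q (a + S) z c.1 x.1 x.2.1 x.2.2) : ℚ) : ℝ) -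
        ∑ y : J × Fin n, α y * ((PowerSeries.coeff (c.2 : ℕ)
          (cRow ℚ M p ψ σ c.1 y.1 y.2) : ℚ) : ℝ) = _
      rw [h7]
      have h9 : ∑ y : J × Fin n, α y * ((PowerSeries.coeff (c.2 : ℕ)
          (cRow ℚ M p ψ σ c.1 y.1 y.2) : ℚ) : ℝ) =
          PowerSeries.coeff (c.2 : ℕ) (PowerSeries.X ^ (x.1 : ℕ) *
            (hl ℝ p c.1 ^ ((x.1 : ℕ) % 2) * ev ℝ p c.1 Q)) -
          PowerSeries.coeff (c.2 : ℕ) (PowerSeries.X ^ (x.1 : ℕ) * hs ℝ x.2.1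
            (hl ℝ p c.1 ^ (((x.1 : ℕ) + x.2.1) % 2) * ev ℝ p c.1 (Am ℝ M q * Cn ℝ M x.2.2) *
              zp ℝ (a + S) (fun i => zr i - (z i : ℝ)))) := by
        rw [← hαc]
        rfl
      rw [h9]
      ring)
  have hcardF : Fintype.card (Fin (k0 + 1) × Fin (S + 1) × Fin P) = (k0 + 1) * ((S + 1) * P) := by
    simp only [Fintype.card_prod, Fintype.card_fin]
  have hcardC : Fintype.card (J × Fin n) = Fintype.card J * n := by
    simp only [Fintype.card_prod, Fintype.card_fin]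
  rw [hcardF] at hR1 hR2 hR3
  rw [hcardC] at hR2
  refine ⟨R, ?_, ?_, hR3⟩
  · have : 0 < (k0 + 1) * ((S + 1) * P) := by positivity
    omega
  · refine hR2.trans ?_
    have h10 : Fintype.card J * (g + 2) + (k0 + 1) * (S + 1) ≤ g * a := by
      have h11 : g * (a - k0) ≤ g * a := Nat.mul_le_mul_left _ (Nat.sub_le _ _)
      have h12 : (g + 2) * (k0 + 1 + Fintype.card J) =
        (g + 2) * (k0 + 1) + Fintype.card J * (g + 2) := by ring
      omega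
    calc Fintype.card J * n + (k0 + 1) * ((S + 1) * P)
        = (Fintype.card J * (g + 2) + (k0 + 1) * (S + 1)) * P := by rw [hn]; ring
      _ ≤ (g * a) * P := Nat.mul_le_mul_right _ h10
      _ ≤ (2 * a * (g + 2)) * P := by
          apply Nat.mul_le_mul_right
          nlinarith
      _ = 2 * a * n := by rw [hn]; ring

end Pool.Agent.SI
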