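import Pool.Agent.ZC.ZE
import Pool.Agent.ZC.NSQ
import Pool.Agent.ZC.LY

/-!
# SI: the determinant with several inhomogeneous columns
-/

namespace Pool.Agent.SI

open Polynomial Matrix Pool.Agent.ZC

variable {K : Type*} [Field K]

/-- the inhomogeneous column, row `s` -/
noncomputable def bcol (den : K[X]) {d : ℕ} (u num : Fin d → K[X]) (N s : ℕ) : K[X] :=
  ∑ z, (u z).comp (X + C (s : K)) * ∑ r ∈ Finset.range s, numK den (num z) N r

/-- the matrix -/
noncomputable def wMat (den : K[X]) {d m : ℕ} (u : Fin d → K[X]) (num : Fin m → Fin d → K[X]) :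
    Matrix (Fin m ⊕ Fin d) (Fin m ⊕ Fin d) K[X] :=
  Matrix.of fun i j => Sum.elim
    (fun e => bcol den u (num e) (m + d) ((finSumFinEquiv i : Fin (m + d)) : ℕ))
    (fun z => (u z).comp (X + C (((finSumFinEquiv i : Fin (m + d)) : ℕ) : K))) j

theorem comp_shift_ne_zero {den : K[X]} (hden : den ≠ 0) (r : K) : den.comp (X + C r) ≠ 0 := by
  intro h0
  rw [Polynomial.comp_eq_zero_iff] at h0
  rcases h0 with h0 | ⟨_, h0⟩
  · exact hden h0
  · have := congrArg Polynomial.natDegree h0
    rw [natDegree_X_add_C, natDegree_C] at this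
    omega

theorem wMat_det [CharZero K] {d m : ℕ} (u : Fin d → K[X]) (hu : LinearIndependent K u) (den : K[X])
    (hden : den ≠ 0) (num : Fin m → Fin d → K[X]) (h0 : (wMat den u num).det = 0) :
    ∃ (c : Fin m → K) (β : Fin d → FractionRing K[X]), c ≠ 0 ∧
      ∀ z, ∑ e, emb K (C (c e)) * (emb K (num e z) / emb K den) = β z - shf K (β z) := by
  classical
  have hD0 : emb K (denK den (m + d)) ≠ 0 := emb_ne_zero (denK_ne_zero hden _)
  have hden0 : ∀ r : ℕ, emb K (den.comp (X + C (r : K))) ≠ 0 := fun r =>
    emb_ne_zero (comp_shift_ne_zero hden _)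
  set ρ : Fin m → Fin d → FractionRing K[X] := fun e z => emb K (num e z) / emb K den with hρ
  have hmat : (emb K).mapMatrix (wMat den u num) =
      yMat (shf K) (fun z => emb K (u z)) (fun _ : Fin m => (0 : FractionRing K[X])) ρ *
      Matrix.diagonal (fun j : Fin m ⊕ Fin d => Sum.elim (fun _ : Fin m => emb K (denK den (m + d)))
        (fun _ => (1 : FractionRing K[X])) j) := by
    ext i j
    rw [Matrix.mul_diagonal]
    rcases j with e | z
    · simp only [RingHom.mapMatrix_apply, Matrix.map_apply, wMat, Matrix.of_apply, Sum.elim_inl, yMat, psi, bcol,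
        map_mul, map_sum]
      set s : ℕ := ((finSumFinEquiv i : Fin (m + d)) : ℕ) with hs
      have hsN : s < m + d := (finSumFinEquiv i : Fin (m + d)).2
      have hz0 : ((shf K)^[s]) (0 : FractionRing K[X]) = 0 := by
        clear_value s
        clear hs hsN
        induction s with
        | zero => rfl
        | succ s ih => rw [Function.iterate_succ_apply', ih, map_zero]
      rw [hz0, zero_add, Finset.sum_mul]
      refine Finset.sum_congr rfl fun z _ => ?_
      rw [mul_assoc, iterate_shf (u z) s]
      congr 1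
      rw [Finset.sum_mul]
      refine Finset.sum_congr rfl fun r hr => ?_
      rw [Finset.mem_range] at hr
      have h1 := congrArg (emb K) (denK_mul den (show r < m + d by omega) (num e z))
      rw [map_mul, map_mul] at h1
      have h2 : ((shf K)^[r]) (ρ e z) =
          emb K ((num e z).comp (X + C (r : K))) / emb K (den.comp (X + C (r : K))) := by
        rw [hρ]
        simp only
        rw [iter_div, emb, iterate_shf, iterate_shf]
      rw [h2, div_mul_eq_mul_div, eq_div_iff (hden0 r)]
      linear_combination -h1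
    · simp only [RingHom.mapMatrix_apply, Matrix.map_apply, wMat, Matrix.of_apply, Sum.elim_inr, yMat,
        mul_one]
      rw [emb, iterate_shf]
  have h1 : emb K ((wMat den u num).det) = 0 := by rw [h0, map_zero]
  rw [RingHom.map_det, hmat, Matrix.det_mul, Matrix.det_diagonal] at h1
  have h2 : (yMat (shf K) (fun z => emb K (u z)) (fun _ : Fin m => (0 : FractionRing K[X])) ρ).det = 0 := by
    rcases mul_eq_zero.1 h1 with h1 | h1
    · exact h1
    · exfalso
      rw [Fintype.prod_sum_type] at h1
      simp only [Sum.elim_inl, Sum.elim_inr, Finset.prod_const_one, mul_one] at h1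
      exact (Finset.prod_ne_zero_iff.2 fun _ _ => hD0) h1
  obtain ⟨α, β, hα, hσ, hβ, _⟩ := lemmaY_abs (shf K) (fun z => emb K (u z)) (fun _ : Fin m => (0 : FractionRing K[X])) ρ
    (indep_const u hu) h2
  choose c hc using fun e => const_of_periodic (hσ e)
  refine ⟨c, β, ?_, fun z => ?_⟩
  · rintro rfl
    apply hα
    funext e
    rw [hc e]
    simp
  · rw [← hβ z]
    exact Finset.sum_congr rfl fun e _ => by rw [hc e]

theorem natDegree_bcol_le (den : K[X]) {d : ℕ} (u num : Fin d → K[X]) (N s D : ℕ) (hs : s ≤ N)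
    (hD : ∀ z, (u z).natDegree ≤ D) (hnum : ∀ z, (num z).natDegree ≤ den.natDegree) :
    (bcol den u num N s).natDegree ≤ N * den.natDegree + D := by
  unfold bcol
  refine Polynomial.natDegree_sum_le_of_forall_le _ _ fun z _ => ?_
  refine Polynomial.natDegree_mul_le.trans ?_
  rw [natDegree_comp_shift, add_comm]
  refine Nat.add_le_add ?_ (hD z)
  refine Polynomial.natDegree_sum_le_of_forall_le _ _ fun r hr => ?_
  rw [Finset.mem_range] at hr
  exact natDegree_numK_le (hnum z) (by omega)

theorem natDegree_wMat_le (den : K[X]) {d m : ℕ} (u : Fin d → K[X]) (num : Fin m → Fin d → K[X]) (D : ℕ)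
    (hD : ∀ z, (u z).natDegree ≤ D) (hnum : ∀ e z, (num e z).natDegree ≤ den.natDegree) :
    (wMat den u num).det.natDegree ≤ m * ((m + d) * den.natDegree + D) + d * D := by
  classical
  have h4 : (wMat den u num).det.natDegree ≤ ∑ j : Fin m ⊕ Fin d, Sum.elim
      (fun _ => (m + d) * den.natDegree + D) (fun _ => D) j := by
    refine natDegree_det_le _ _ fun i j => ?_
    have hs := (finSumFinEquiv i : Fin (m + d)).2
    rcases j with e | z
    · simp only [wMat, Matrix.of_apply, Sum.elim_inl]
      exact natDegree_bcol_le den u (num e) _ _ D hs.le hD (hnum e)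
    · simp only [wMat, Matrix.of_apply, Sum.elim_inr]
      rw [natDegree_comp_shift]
      exact hD z
  refine h4.trans (le_of_eq ?_)
  rw [Fintype.sum_sum_type]
  simp only [Sum.elim_inl, Sum.elim_inr, Finset.sum_const, Finset.card_univ, Fintype.card_fin, smul_eq_mul]

theorem wMat_dvd [CharZero K] {d m : ℕ} (u : Fin d → K[X]) (den : K[X]) (num : Fin m → Fin d → K[X])
    (η : Fin d → ℕ → PowerSeries K) (v : Fin m → PowerSeries K) (a L : ℕ)
    (hrel : ∀ l ≤ L, (PowerSeries.X : PowerSeries K) ^ a ∣ ∑ z, loc K l (u z) * η z l)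
    (hshift : ∀ l < L, ∀ z, loc K (l + 1) den * (η z l - η z (l + 1)) =
      ∑ e, v e * loc K (l + 1) (num e z))
    (e : Fin m) (l : ℕ) (hl : m + d ≤ l + 1) (hlL : l ≤ L) :
    (PowerSeries.X : PowerSeries K) ^ a ∣ loc K l (wMat den u num).det * v e := by
  classical
  set w : Fin m ⊕ Fin d → PowerSeries K := Sum.elim v (fun z => loc K l (denK den (m + d)) * η z l) with hw
  have h1 : v e = w (Sum.inl e) := rfl
  rw [h1, RingHom.map_det]
  refine dvd_det_mul _ w _ (fun i => ?_) _
  set s : ℕ := ((finSumFinEquiv i : Fin (m + d)) : ℕ) with hs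
  have hsN : s < m + d := (finSumFinEquiv i : Fin (m + d)).2
  -- the shift of `η`
  have hη : ∀ z, ∀ s : ℕ, s < m + d → loc K l (denK den (m + d)) * η z (l - s) =
      loc K l (denK den (m + d)) * η z l +
        ∑ r ∈ Finset.range s, ∑ e, v e * loc K l (numK den (num e z) (m + d) r) := by
    intro z s
    induction s with
    | zero => intro _; simp
    | succ s ih =>
      intro hsk
      rw [Finset.sum_range_succ, ← add_assoc, ← ih (by omega)]
      have h2 := hshift (l - (s + 1)) (by omega) z
      have h3 : l - (s + 1) + 1 = l - s := by omega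
      rw [h3] at h2
      have h4 : loc K l (denK den (m + d)) = loc K (l - s) den *
          loc K l (∏ r' ∈ (Finset.range (m + d)).erase s, den.comp (X + C (r' : K))) := by
        rw [← loc_shift l s (by omega), ← map_mul]
        unfold denK
        rw [Finset.mul_prod_erase (Finset.range (m + d)) (fun r' => den.comp (X + C (r' : K)))
          (Finset.mem_range.2 (by omega))]
      have h5 : ∑ e, v e * loc K l (numK den (num e z) (m + d) s) =
          loc K l (∏ r' ∈ (Finset.range (m + d)).erase s, den.comp (X + C (r' : K))) *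
            ∑ e, v e * loc K (l - s) (num e z) := by
        rw [Finset.mul_sum]
        refine Finset.sum_congr rfl fun e _ => ?_
        unfold numK
        rw [map_mul, loc_shift l s (by omega)]
        ring
      rw [h5, ← h2, h4]
      ring
  have h6 : ((loc K l).mapMatrix (wMat den u num)).mulVec w i = loc K l (denK den (m + d)) *
      ∑ z, loc K (l - s) (u z) * η z (l - s) := by
    simp only [Matrix.mulVec, dotProduct, RingHom.mapMatrix_apply, Matrix.map_apply, Fintype.sum_sum_type,
      wMat, Matrix.of_apply, Sum.elim_inl, Sum.elim_inr, hw, bcol, map_sum, map_mul]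
    rw [← hs]
    have h7 : ∑ e, (∑ z, loc K l ((u z).comp (X + C (s : K))) *
        ∑ r ∈ Finset.range s, loc K l (numK den (num e z) (m + d) r)) * v e =
        ∑ z, loc K l ((u z).comp (X + C (s : K))) *
          ∑ r ∈ Finset.range s, ∑ e, v e * loc K l (numK den (num e z) (m + d) r) := by
      simp only [Finset.sum_mul, Finset.mul_sum]
      rw [Finset.sum_comm]
      refine Finset.sum_congr rfl fun z _ => ?_
      rw [Finset.sum_comm]
      refine Finset.sum_congr rfl fun r _ => Finset.sum_congr rfl fun e _ => ?_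
      ring
    rw [h7, ← Finset.sum_add_distrib, Finset.mul_sum]
    refine Finset.sum_congr rfl fun z _ => ?_
    have h8 := hη z s hsN
    rw [loc_shift l s (by omega)]
    linear_combination (-(loc K (l - s) (u z))) * h8
  rw [h6]
  exact Dvd.dvd.mul_left (hrel _ (by omega)) _

/-- zeros of prescribed orders at distinct points -/
theorem sum_le_natDegree {V : K[X]} (hV : V ≠ 0) (S : Finset K) (e : K → ℕ)
    (h : ∀ x ∈ S, (X - C x) ^ e x ∣ V) : ∑ x ∈ S, e x ≤ V.natDegree := by
  have hcop : (S : Set K).Pairwise (Function.onFun IsCoprime fun x => (X - C x) ^ e x) := by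
    intro x _ y _ hne
    apply IsCoprime.pow
    exact Polynomial.isCoprime_X_sub_C_of_isUnit_sub (sub_ne_zero.2 hne).isUnit
  have h1 : ∏ x ∈ S, (X - C x) ^ e x ∣ V := Finset.prod_dvd_of_coprime hcop fun x hx => h x hx
  have h2 := Polynomial.natDegree_le_of_dvd h1 hV
  rw [Polynomial.natDegree_prod_of_monic _ _ (fun x _ => (monic_X_sub_C _).pow _)] at h2
  simpa only [(monic_X_sub_C _).natDegree_pow, natDegree_X_sub_C, mul_one] using h2

/-- zeros at the poles (order `e1`) and at other points (order `e2`) -/
theorem count_two [CharZero K] {V : K[X]} (hV : V ≠ 0) (S : Finset ℕ) (T : Finset K) (e1 e2 : ℕ)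
    (hST : ∀ l ∈ S, -(l : K) ∉ T)
    (h1 : ∀ l ∈ S, (PowerSeries.X : PowerSeries K) ^ e1 ∣ loc K l V)
    (h2 : ∀ x ∈ T, (X - C x) ^ e2 ∣ V) : e1 * S.card + e2 * T.card ≤ V.natDegree := by
  classical
  set S' : Finset K := S.image fun l : ℕ => -(l : K) with hS'
  have hinj : Set.InjOn (fun l : ℕ => -(l : K)) S := by
    intro a _ b _ hab
    simp only [neg_inj] at hab
    exact_mod_cast hab
  have hcard : S'.card = S.card := Finset.card_image_of_injOn hinj
  have hdisj : Disjoint S' T := by
    rw [Finset.disjoint_left]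
    intro x hx
    rw [hS', Finset.mem_image] at hx
    obtain ⟨l, hl, rfl⟩ := hx
    exact hST l hl
  have h3 := sum_le_natDegree hV (S' ∪ T) (fun x => if x ∈ S' then e1 else e2) (fun x hx => by
    by_cases hxS : x ∈ S'
    · simp only [if_pos hxS]
      rw [hS', Finset.mem_image] at hxS
      obtain ⟨l, hl, rfl⟩ := hxS
      have := pow_dvd_of_loc (h1 l hl)
      simpa using this
    · simp only [if_neg hxS]
      rcases Finset.mem_union.1 hx with hx | hx
      · exact absurd hx hxS
      · exact h2 x hx)
  rw [Finset.sum_union hdisj] at h3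
  have h4 : ∑ x ∈ S', (if x ∈ S' then e1 else e2) = e1 * S.card := by
    rw [Finset.sum_congr rfl fun x hx => if_pos hx, Finset.sum_const, smul_eq_mul, hcard, mul_comm]
  have h5 : ∑ x ∈ T, (if x ∈ S' then e1 else e2) = e2 * T.card := by
    rw [Finset.sum_congr rfl fun x hx => if_neg (Finset.disjoint_right.1 hdisj hx), Finset.sum_const, smul_eq_mul,
      mul_comm]
  rw [h4, h5] at h3
  exact h3

end Pool.Agent.SI
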