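import Pool.Agent.SI.ZEC
import Pool.Agent.SI.HSL

/-!
# SI: the zero estimate in terms of the local expansions
-/

namespace Pool.Agent.SI

open Polynomial Pool.Agent.ZC

variable {K : Type*} [Field K]

theorem loc_lin (l : ℕ) (y : K) : loc K l (X - C y) = PowerSeries.X - PowerSeries.C ((l : K) + y) := by
  rw [loc_apply]
  simp only [Polynomial.sub_comp, Polynomial.X_comp, Polynomial.C_comp, Polynomial.coe_sub, Polynomial.coe_X,
    Polynomial.coe_C, map_add]
  ring

/-- the shift of the Hasse derivatives of `G` -/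
theorem shift_hs [CharZero K] (L S : ℕ) (G : ℕ → PowerSeries K)
    (hG : ∀ l < L, G l - G (l + 1) = (PowerSeries.C ((2 * (l : K) + 1) / 2) - PowerSeries.X)⁻¹ -
      (PowerSeries.C ((2 * ((L : K) - l - 1) + 1) / 2) + PowerSeries.X)⁻¹) :
    ∀ l < L, ∀ k ≤ S, loc K (l + 1) (dnS K L S) * (hs K k (G l) - hs K k (G (l + 1))) =
      loc K (l + 1) (nmS K L S k) := by
  intro l hl k hk
  obtain ⟨m, rfl⟩ : ∃ m, L = l + 1 + m := ⟨L - (l + 1), by omega⟩
  have hc1 : (2 * (l : K) + 1) / 2 ≠ 0 := by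
    have : ((2 * l + 1 : ℕ) : K) ≠ 0 := Nat.cast_ne_zero.2 (by omega)
    push_cast at this
    exact div_ne_zero this two_ne_zero
  have hc2 : (2 * (((l + 1 + m : ℕ) : K) - l - 1) + 1) / 2 ≠ 0 := by
    have h0 : ((2 * m + 1 : ℕ) : K) ≠ 0 := Nat.cast_ne_zero.2 (by omega)
    have h1 : (2 * (((l + 1 + m : ℕ) : K) - l - 1) + 1) = ((2 * m + 1 : ℕ) : K) := by
      push_cast; ring
    rw [h1]
    exact div_ne_zero h0 two_ne_zero
  rw [← hs_sub, hG l hl, hs_sub, hs_inv_sub k _ hc1, hs_inv_add_gen k _ hc2]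
  set U : PowerSeries K := PowerSeries.C ((2 * (l : K) + 1) / 2) - PowerSeries.X with hU
  set V : PowerSeries K := PowerSeries.C ((2 * (((l + 1 + m : ℕ) : K) - l - 1) + 1) / 2) + PowerSeries.X with hV
  have hUi : U * U⁻¹ = 1 := PowerSeries.mul_inv_cancel _ (by
    simp only [hU, map_sub, PowerSeries.constantCoeff_C, PowerSeries.constantCoeff_X, sub_zero]; exact hc1)
  have hVi : V * V⁻¹ = 1 := PowerSeries.mul_inv_cancel _ (by
    simp only [hV, map_add, PowerSeries.constantCoeff_C, PowerSeries.constantCoeff_X, add_zero]; exact hc2)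
  have e1 : loc K (l + 1) (X - C (-(1 / 2) : K)) = -U := by
    rw [loc_lin, hU, neg_sub]
    congr 2
    push_cast
    field_simp
    ring
  have e2 : loc K (l + 1) (X - C (-((l + 1 + m : ℕ) : K) - 1 / 2)) = V := by
    rw [loc_lin, hV, sub_eq_add_neg, ← map_neg, add_comm]
    congr 2
    push_cast
    field_simp
    ring
  have e3 : ∀ x y : PowerSeries K, x * y = 1 → x ^ (S + 1) * y ^ (k + 1) = x ^ (S - k) := by
    intro x y hxy
    have : S + 1 = (S - k) + (k + 1) := by omega
    rw [this, pow_add, mul_assoc, ← mul_pow, hxy, one_pow, mul_one]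
  have hcast : loc K (l + 1) (C (-1 : K)) = -1 := by
    rw [loc_apply, Polynomial.C_comp, Polynomial.coe_C, map_neg, map_one]
  have hcast2 : (PowerSeries.C (-1 : K)) = -1 := by rw [map_neg, map_one]
  unfold dnS nmS
  simp only [map_mul, map_add, map_pow, e1, e2, hcast, hcast2]
  rw [mul_pow, neg_pow U (S + 1), neg_pow U (S - k)]
  have e4 := e3 U U⁻¹ hUi
  have e5 := e3 V V⁻¹ hVi
  have e6 : ((-1 : PowerSeries K)) ^ (k + 1) * (-1) ^ (S - k) = (-1) ^ (S + 1) := by
    rw [← pow_add]; congr 1; omega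
  have e7 : (-1 : PowerSeries K) ^ (k + 1) = -(-1) ^ k := by rw [pow_succ]; ring
  linear_combination ((-1) ^ (S + 1) * V ^ (S + 1)) * e4 - ((-1) ^ (S + 1) * U ^ (S + 1) * (-1) ^ k) * e5 -
    (U ^ (S - k) * V ^ (S + 1)) * e6 - ((-1) ^ (S + 1) * U ^ (S + 1) * V ^ (S - k)) * e7

/-- **zero estimate** in terms of the local expansions -/
theorem ze_loc [CharZero K] {S k0 : ℕ} {J : Type*} [Fintype J] (D L a : ℕ) (A : K[X]) (hA : A ≠ 0)
    (n : ℕ → ℕ → K[X]) (hnD : ∀ k ≤ k0, ∀ r ≤ S, (A * n k r).natDegree ≤ D)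
    (q : J → K[X]) (hqD : ∀ j, (q j).natDegree ≤ D) (ψ : J → PowerSeries K) (G : ℕ → PowerSeries K)
    (hG : ∀ l < L, G l - G (l + 1) = (PowerSeries.C ((2 * (l : K) + 1) / 2) - PowerSeries.X)⁻¹ -
      (PowerSeries.C ((2 * ((L : K) - l - 1) + 1) / 2) + PowerSeries.X)⁻¹)
    (hrel : ∀ l ≤ L, (PowerSeries.X : PowerSeries K) ^ a ∣ ∑ j, ψ j * loc K l (q j) +
      ∑ k ∈ Finset.range (k0 + 1), PowerSeries.X ^ k *
        ∑ r ∈ Finset.range (S + 1), hs K r (loc K l (A * n k r) * G l))
    (T : Finset K) (hT : ∀ l ≤ L, -(l : K) ∉ T) (N0 : ℕ)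
    (hN0 : (k0 + 1) * (S + 2) + Fintype.card J ≤ N0)
    (hTA : ∀ x ∈ T, ∀ s < N0, A.eval (x + (s : K)) = 0)
    (hne : ∃ k ≤ k0, ∃ r ≤ S, n k r ≠ 0) :
    ∃ m ≤ k0 + 1, ∃ dP ≤ m * (S + 1), (a - k0) * (L + 2 - N0) + dP * T.card ≤
      (m + dP + Fintype.card J) * D + m * (N0 * (2 * (S + 1))) := by
  classical
  obtain ⟨m, m', bE, _, hm, _, hli, ⟨c, hc, hcb⟩, _⟩ :=
    exists_two_basis (K := K) (fun (k : Fin (k0 + 1)) (r : Fin (S + 1)) => n k r) (fun j : Fin 0 => j.elim0)
  rw [Fintype.card_fin] at hm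
  have hli' : LinearIndependent K (fun (e : Fin m) (r : Fin (S + 1)) => n (bE e) r) :=
    hli.comp Sum.inl Sum.inl_injective
  -- `m > 0`
  have hm0 : 0 < m := by
    by_contra h0
    have hm00 : m = 0 := by omega
    subst hm00
    obtain ⟨k, hk, r, hr, hnz⟩ := hne
    apply hnz
    have := congrFun (hc ⟨k, by omega⟩) ⟨r, by omega⟩
    simpa using this
  set i0 : Fin m := ⟨0, hm0⟩ with hi0
  have hexp : ∀ k : Fin (k0 + 1), ∀ r : ℕ, r ≤ S → n k r = ∑ e, C (c k e) * n (bE e) r := by
    intro k r hr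
    have h1 := congrFun (hc k) ⟨r, by omega⟩
    simp only [Finset.sum_apply, Pi.smul_apply, smul_eq_C_mul] at h1
    exact h1
  set P : Fin m → ℕ → K[X] := fun e k => ∑ r ∈ Finset.Icc k S, hasseDeriv (r - k) (A * n (bE e) r) with hP
  set χ : Fin m → PowerSeries K := fun e => ∑ k : Fin (k0 + 1), PowerSeries.C (c k e) * PowerSeries.X ^ (k : ℕ) with hχ
  have hlocC : ∀ (l : ℕ) (x : K), loc K l (C x) = PowerSeries.C x := by
    intro l x
    rw [loc_apply, Polynomial.C_comp, Polynomial.coe_C]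
  have hLeib : ∀ (l : ℕ) (e : Fin m), ∑ r ∈ Finset.range (S + 1), hs K r (loc K l (A * n (bE e) r) * G l) =
      ∑ k ∈ Finset.range (S + 1), loc K l (P e k) * hs K k (G l) := by
    intro l e
    simp only [hs_loc_mul, hP, map_sum, Finset.sum_mul]
    refine Finset.sum_comm' ?_
    intro r i
    simp only [Finset.mem_range, Finset.mem_Icc]
    omega
  refine ⟨m, hm, ?_⟩
  refine ze_core (m := m) (S := S) D L a k0 P ?_ q hqD ψ χ (fun k l => hs K k (G l)) ?_ (shift_hs L S G hG) ?_ i0 ?_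
    T hT N0 ?_ ?_
  · intro e k hk
    refine Polynomial.natDegree_sum_le_of_forall_le _ _ fun r hr => ?_
    rw [Finset.mem_Icc] at hr
    refine (natDegree_hasseDeriv_le _ _).trans ((Nat.sub_le _ _).trans ?_)
    exact hnD _ (Nat.lt_succ_iff.1 (bE e).2) r hr.2
  · intro l hl
    have h1 : ∑ i, χ i * ∑ k ∈ Finset.range (S + 1), loc K l (P i k) * hs K k (G l) =
        ∑ k ∈ Finset.range (k0 + 1), PowerSeries.X ^ k *
          ∑ r ∈ Finset.range (S + 1), hs K r (loc K l (A * n k r) * G l) := by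
      simp only [← hLeib]
      rw [Finset.sum_range (n := k0 + 1)]
      simp only [hχ, Finset.sum_mul]
      rw [Finset.sum_comm]
      refine Finset.sum_congr rfl fun k _ => ?_
      have h2 : ∀ r ∈ Finset.range (S + 1), hs K r (loc K l (A * n k r) * G l) =
          ∑ e, PowerSeries.C (c k e) * hs K r (loc K l (A * n (bE e) r) * G l) := by
        intro r hr
        rw [Finset.mem_range] at hr
        rw [hexp k r (by omega), Finset.mul_sum, map_sum, Finset.sum_mul, hs_sum]
        refine Finset.sum_congr rfl fun e _ => ?_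
        rw [← hs_C_mul]
        congr 1
        simp only [map_mul, hlocC]
        ring
      rw [Finset.sum_congr rfl h2, Finset.sum_comm, Finset.mul_sum]
      refine Finset.sum_congr rfl fun e _ => ?_
      rw [← Finset.mul_sum]
      ring
    rw [h1]
    exact hrel l hl
  · intro γ hγ
    -- `∑ γ_e n (bE e) r = 0` for all `r ≤ S`
    have h1 : ∀ i, i ≤ S → ∑ e, C (γ e) * n (bE e) (S - i) = 0 := by
      intro i
      induction i using Nat.strong_induction_on with
      | _ i ih =>
        intro hi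
        have h2 := hγ (S - i) (Nat.sub_le _ _)
        have h3 : ∑ e, C (γ e) * P e (S - i) =
            ∑ r ∈ Finset.Icc (S - i) S, hasseDeriv (r - (S - i)) (A * ∑ e, C (γ e) * n (bE e) r) := by
          simp only [hP, Finset.mul_sum, map_sum]
          rw [Finset.sum_comm]
          refine Finset.sum_congr rfl fun r _ => Finset.sum_congr rfl fun e _ => ?_
          rw [← smul_eq_C_mul, ← smul_eq_C_mul, mul_smul_comm, map_smul]
        rw [h3, Finset.sum_eq_single (S - i)] at h2
        · rw [Nat.sub_self, hasseDeriv_zero'] at h2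
          exact (mul_eq_zero.1 h2).resolve_left hA
        · intro r hr hne
          rw [Finset.mem_Icc] at hr
          have h4 := ih (S - r) (by omega) (by omega)
          have h5 : S - (S - r) = r := by omega
          rw [h5] at h4
          rw [h4, mul_zero, map_zero]
        · intro h0
          exact absurd (Finset.mem_Icc.2 ⟨le_rfl, Nat.sub_le _ _⟩) h0
    have h2 : ∑ e, γ e • (fun (r : Fin (S + 1)) => n (bE e) r) = 0 := by
      funext r
      simp only [Finset.sum_apply, Pi.smul_apply, smul_eq_C_mul, Pi.zero_apply]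
      have h3 := h1 (S - r) (Nat.sub_le _ _)
      have hr := r.2
      have h5 : S - (S - (r : ℕ)) = r := by omega
      rw [h5] at h3
      exact h3
    funext e
    exact Fintype.linearIndependent_iff.1 hli' γ h2 e
  · intro hdvd
    rw [PowerSeries.X_pow_dvd_iff] at hdvd
    have h1 := hdvd (bE i0) (by have := (bE i0).2; omega)
    simp only [hχ, map_sum, PowerSeries.coeff_C_mul, PowerSeries.coeff_X_pow] at h1
    rw [Finset.sum_eq_single (bE i0)] at h1
    · rw [hcb i0 i0] at h1
      simp at h1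
    · intro k _ hk
      rw [if_neg, mul_zero]
      intro h2
      exact hk (Fin.ext h2.symm)
    · intro h2; exact absurd (Finset.mem_univ _) h2
  · refine le_trans (Nat.add_le_add_right ?_ _) hN0
    have : m + m * (S + 1) = m * (S + 2) := by ring
    rw [this]
    exact Nat.mul_le_mul_right _ hm
  · intro x hx e s hs
    refine MOD_sum_dvd_shift x (s : K) S (fun r => A * n (bE e) r) fun r _ => ?_
    refine Dvd.dvd.mul_right ?_ _
    rw [Polynomial.dvd_iff_isRoot]
    exact hTA x hx s hs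

end Pool.Agent.SI
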