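import Pool.Agent.SI.ZEL

/-!
# SI: the zero estimate in terms of rows
-/

namespace Pool.Agent.SI

open Polynomial Pool.Agent.ZC

variable {K : Type*} [Field K]

/-- `w = 2t + 2p - 1` -/
noncomputable def wpol (K : Type*) [Field K] (p : ℕ) : K[X] := C 2 * X + C (2 * (p : K) - 1)

/-- `w` at the pole `l` -/
noncomputable def wl (K : Type*) [Field K] (p l : ℕ) : PowerSeries K :=
  PowerSeries.C (2 * (p : K) - 1 - 2 * (l : K)) + PowerSeries.C (2 : K) * PowerSeries.X

theorem loc_wpol (p l : ℕ) : loc K l (wpol K p) = wl K p l := by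
  unfold wpol wl
  rw [loc_apply]
  simp only [Polynomial.add_comp, Polynomial.mul_comp, Polynomial.C_comp, Polynomial.X_comp,
    Polynomial.coe_add, Polynomial.coe_mul, Polynomial.coe_sub, Polynomial.coe_C, Polynomial.coe_X]
  simp only [map_sub, map_mul]
  ring

theorem wpol_sq (p : ℕ) : wpol K p ^ 2 = tp K p := rfl

theorem natDegree_wpol [CharZero K] (p : ℕ) : (wpol K p).natDegree = 1 := natDegree_linear two_ne_zero

theorem wpol_ne_zero [CharZero K] (p : ℕ) : wpol K p ≠ 0 := by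
  intro h0
  have := natDegree_wpol (K := K) p
  rw [h0, natDegree_zero] at this
  omega

theorem sg_wl {p l : ℕ} (hp : 1 ≤ p) (hl : l ≤ 2 * p - 1) :
    PowerSeries.evalNegHom (wl K p l) = -wl K p (2 * p - 1 - l) := by
  unfold wl
  rw [map_add, map_mul, sg_C, sg_C, sg_X, cast_sub_sym hp hl]
  have : (2 * (p : K) - 1 - 2 * (2 * (p : K) - 1 - l)) = -(2 * (p : K) - 1 - 2 * l) := by ring
  rw [this, map_neg]
  ring

theorem natDegree_wpol_comp_le [CharZero K] (p s N : ℕ) (hs : s ≤ 1) (f : K[X])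
    (hf : f.natDegree < N) : (wpol K p ^ s * f.comp (tp K p)).natDegree ≤ 2 * N := by
  refine natDegree_mul_le.trans ?_
  rw [natDegree_comp_tp, natDegree_pow, natDegree_wpol]
  omega

/-- **zero estimate** in terms of the rows -/
theorem ze_rows [CharZero K] {S k0 : ℕ} {J : Type*} [Fintype J] (p q0 N a : ℕ) (hp : 1 ≤ p)
    (A : K[X]) (hA : A ≠ 0) (hA0 : ∀ μ < q0, A.eval ((2 * (μ : K)) ^ 2) = 0)
    (n : ℕ → ℕ → K[X]) (hnD : ∀ k ≤ k0, ∀ r ≤ S, (A * n k r).natDegree < N)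
    (q : J → K[X]) (hqD : ∀ j, (q j).natDegree < N) (σ : J → ℕ) (hσ : ∀ j, σ j ≤ 1)
    (ψ : J → PowerSeries K) (hψ : ∀ j, PowerSeries.evalNegHom (ψ j) = PowerSeries.C ((-1) ^ σ j) * ψ j)
    (G : ℕ → PowerSeries K) (hsym : ∀ l ≤ 2 * p - 1, PowerSeries.evalNegHom (G l) = G (2 * p - 1 - l))
    (hG : ∀ l < 2 * p - 1, G l - G (l + 1) = (PowerSeries.C ((2 * (l : K) + 1) / 2) - PowerSeries.X)⁻¹ -
      (PowerSeries.C ((2 * ((2 * (p : K) - 1) - l - 1) + 1) / 2) + PowerSeries.X)⁻¹)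
    (hrel : ∀ l < p, (PowerSeries.X : PowerSeries K) ^ a ∣ ∑ j, ψ j * (wl K p l ^ σ j * ev K p l (q j)) +
      ∑ k ∈ Finset.range (k0 + 1), PowerSeries.X ^ k *
        ∑ r ∈ Finset.range (S + 1), hs K r (wl K p l ^ ((k + r) % 2) * ev K p l (A * n k r) * G l))
    (N0 : ℕ) (hN0 : (k0 + 1) * (S + 2) + Fintype.card J ≤ N0)
    (hne : ∃ k ≤ k0, ∃ r ≤ S, n k r ≠ 0) :
    ∃ m ≤ k0 + 1, ∃ dP ≤ m * (S + 1), (a - k0) * (2 * p - 1 + 2 - N0) + dP * (2 * q0 - N0) ≤
      (m + dP + Fintype.card J) * (2 * N) + m * (N0 * (2 * (S + 1))) := by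
  classical
  have hcast : ((2 * p - 1 : ℕ) : K) = 2 * (p : K) - 1 := by
    rw [Nat.cast_sub (by omega)]; push_cast; ring
  -- the relation at all poles
  have hrel' : ∀ l ≤ 2 * p - 1, (PowerSeries.X : PowerSeries K) ^ a ∣
      ∑ j, ψ j * (wl K p l ^ σ j * ev K p l (q j)) +
      ∑ k ∈ Finset.range (k0 + 1), PowerSeries.X ^ k *
        ∑ r ∈ Finset.range (S + 1), hs K r (wl K p l ^ ((k + r) % 2) * ev K p l (A * n k r) * G l) := by
    intro l hl
    by_cases hlp : l < p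
    · exact hrel l hlp
    · have h1 := X_pow_dvd_sg (hrel (2 * p - 1 - l) (by omega))
      have h2 : 2 * p - 1 - (2 * p - 1 - l) = l := by omega
      have hl' : 2 * p - 1 - l ≤ 2 * p - 1 := by omega
      have hw : ∀ i : ℕ, PowerSeries.evalNegHom (wl K p (2 * p - 1 - l) ^ i) = (-1) ^ i * wl K p l ^ i := by
        intro i
        rw [map_pow, sg_wl hp hl', h2, neg_pow]
      have hev : ∀ f : K[X], PowerSeries.evalNegHom (ev K p (2 * p - 1 - l) f) = ev K p l f := by
        intro f; rw [sg_ev hp hl', h2]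
      have hGs : PowerSeries.evalNegHom (G (2 * p - 1 - l)) = G l := by rw [hsym _ hl', h2]
      have hC : ∀ i : ℕ, PowerSeries.C ((-1 : K) ^ i) = (-1) ^ i := by
        intro i; rw [map_pow, map_neg, map_one]
      have hm1 : ∀ i : ℕ, ((-1 : PowerSeries K)) ^ i * (-1) ^ i = 1 := by
        intro i; rw [← mul_pow]; simp
      rw [map_add, map_sum, map_sum] at h1
      have h3 : ∑ j, PowerSeries.evalNegHom (ψ j * (wl K p (2 * p - 1 - l) ^ σ j *
          ev K p (2 * p - 1 - l) (q j))) = ∑ j, ψ j * (wl K p l ^ σ j * ev K p l (q j)) := by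
        refine Finset.sum_congr rfl fun j _ => ?_
        rw [map_mul, map_mul, hψ, hw, hev, hC]
        linear_combination (ψ j * (wl K p l ^ σ j * ev K p l (q j))) * hm1 (σ j)
      have h4 : ∑ k ∈ Finset.range (k0 + 1), PowerSeries.evalNegHom (PowerSeries.X ^ k *
          ∑ r ∈ Finset.range (S + 1), hs K r (wl K p (2 * p - 1 - l) ^ ((k + r) % 2) *
            ev K p (2 * p - 1 - l) (A * n k r) * G (2 * p - 1 - l))) =
          ∑ k ∈ Finset.range (k0 + 1), PowerSeries.X ^ k *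
            ∑ r ∈ Finset.range (S + 1), hs K r (wl K p l ^ ((k + r) % 2) * ev K p l (A * n k r) * G l) := by
        refine Finset.sum_congr rfl fun k _ => ?_
        rw [map_mul, map_pow, sg_X, map_sum, neg_pow, Finset.mul_sum, Finset.mul_sum]
        refine Finset.sum_congr rfl fun r _ => ?_
        rw [sg_hs, map_mul, map_mul, hw, hev, hGs, hC]
        have h5 : (-1 : PowerSeries K) ^ ((k + r) % 2) * wl K p l ^ ((k + r) % 2) * ev K p l (A * n k r) * G l =
            PowerSeries.C ((-1) ^ ((k + r) % 2)) * (wl K p l ^ ((k + r) % 2) * ev K p l (A * n k r) * G l) := by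
          rw [hC]; ring
        rw [h5, hs_C_mul, hC]
        have h6 : (-1 : PowerSeries K) ^ k * (-1) ^ r * (-1) ^ ((k + r) % 2) = 1 := by
          rw [← pow_add, ← pow_add]
          exact Even.neg_one_pow (by
            rw [Nat.even_iff]
            omega)
        linear_combination (PowerSeries.X ^ k *
          hs K r (wl K p l ^ ((k + r) % 2) * ev K p l (A * n k r) * G l)) * h6
      rw [h3, h4] at h1
      exact h1
  -- in terms of `loc`
  set A' : K[X] := A.comp (tp K p) with hA'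
  set n' : ℕ → ℕ → K[X] := fun k r => wpol K p ^ ((k + r) % 2) * (n k r).comp (tp K p) with hn'
  have hcomp0 : ∀ f : K[X], f.comp (tp K p) = 0 → f = 0 := by
    intro f hf
    apply comp_tp_injective (K := K) p
    simp only [hf, Polynomial.zero_comp]
  set T : Finset K := (Finset.range (2 * q0 - N0)).image
    (fun i : ℕ => -((2 * (p : K) - 1) / 2) - ((q0 : K) - 1) + (i : K)) with hT
  have hTcard : T.card = 2 * q0 - N0 := by
    rw [hT, Finset.card_image_of_injective, Finset.card_range]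
    intro i j hij
    simp only [add_right_inj] at hij
    exact_mod_cast hij
  obtain ⟨m, hm, dP, hdP, hfin⟩ := ze_loc (S := S) (k0 := k0) (2 * N) (2 * p - 1) a A'
    (fun h0 => hA (hcomp0 _ h0)) n'
    (by
      intro k hk r hr
      have h1 : A' * n' k r = wpol K p ^ ((k + r) % 2) * (A * n k r).comp (tp K p) := by
        simp only [hA', hn', Polynomial.mul_comp]; ring
      rw [h1]
      exact natDegree_wpol_comp_le p _ N (by omega) _ (hnD k hk r hr))
    (fun j => wpol K p ^ σ j * (q j).comp (tp K p))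
    (fun j => natDegree_wpol_comp_le p _ N (hσ j) _ (hqD j)) ψ G
    (by
      intro l hl
      rw [hG l hl, hcast])
    (by
      intro l hl
      have h1 := hrel' l hl
      have h2 : ∀ k r, loc K l (A' * n' k r) = wl K p l ^ ((k + r) % 2) * ev K p l (A * n k r) := by
        intro k r
        simp only [hA', hn']
        rw [ev_eq_loc, ← loc_wpol, ← map_pow, ← map_mul, Polynomial.mul_comp]
        congr 1
        ring
      have h3 : ∀ j, loc K l (wpol K p ^ σ j * (q j).comp (tp K p)) = wl K p l ^ σ j * ev K p l (q j) := by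
        intro j
        rw [ev_eq_loc, ← loc_wpol, ← map_pow, ← map_mul]
      simp only [h2, h3]
      exact h1)
    T
    (by
      intro l hl hmem
      rw [hT, Finset.mem_image] at hmem
      obtain ⟨i, _, hi⟩ := hmem
      have h1 : ((2 * l + 2 * i + 1 : ℕ) : K) + 1 = ((2 * p + 2 * q0 : ℕ) : K) - 1 := by
        push_cast
        linear_combination 2 * hi
      have h2 : ((2 * l + 2 * i + 1 + 1 + 1 : ℕ) : K) = ((2 * p + 2 * q0 : ℕ) : K) := by
        push_cast at h1 ⊢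
        linear_combination h1
      have h3 : 2 * l + 2 * i + 1 + 1 + 1 = 2 * p + 2 * q0 := by exact_mod_cast h2
      omega)
    N0 hN0
    (by
      intro x hx s hs
      rw [hT, Finset.mem_image] at hx
      obtain ⟨i, hi, rfl⟩ := hx
      rw [Finset.mem_range] at hi
      have h1 : (A'.eval (-((2 * (p : K) - 1) / 2) - ((q0 : K) - 1) + (i : K) + (s : K))) =
          A.eval ((2 * ((i : K) + s + 1 - q0)) ^ 2) := by
        simp only [hA', tp, eval_comp, eval_pow, eval_add, eval_mul, eval_C, eval_X]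
        congr 2
        field_simp
        ring
      rw [h1]
      rcases le_total (i + s + 1) q0 with h | h
      · have h2 := hA0 (q0 - (i + s + 1)) (by omega)
        rw [Nat.cast_sub h] at h2
        push_cast at h2
        rw [← h2]
        congr 1
        ring
      · have h2 := hA0 (i + s + 1 - q0) (by omega)
        rw [Nat.cast_sub h] at h2
        push_cast at h2
        rw [← h2])
    (by
      obtain ⟨k, hk, r, hr, hnz⟩ := hne
      refine ⟨k, hk, r, hr, ?_⟩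
      simp only [hn']
      exact mul_ne_zero (pow_ne_zero _ (wpol_ne_zero p)) fun h0 => hnz (hcomp0 _ h0))
  refine ⟨m, hm, dP, hdP, ?_⟩
  rw [hTcard] at hfin
  exact hfin

/-- the threshold for `P` -/
def zeP (S k0 a cJ : ℕ) : ℕ :=
  (a + 3 * ((k0 + 1) * (S + 1)) + 1) * ((k0 + 1) * (S + 2) + cJ) + 1

/-- **zero estimate**: all `n k r` vanish, for `P` large -/
theorem ze_num [CharZero K] {S k0 : ℕ} {J : Type*} [Fintype J] (g a P : ℕ)
    (hi : (g + 2) * (k0 + 1 + Fintype.card J) + (k0 + 1) * (S + 1) + 1 ≤ g * (a - k0))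
    (hP : zeP S k0 a (Fintype.card J) ≤ P)
    (A : K[X]) (hA : A ≠ 0) (hA0 : ∀ μ < (g + 1) * P, A.eval ((2 * (μ : K)) ^ 2) = 0)
    (n : ℕ → ℕ → K[X]) (hnD : ∀ k ≤ k0, ∀ r ≤ S, (A * n k r).natDegree < (g + 2) * P)
    (q : J → K[X]) (hqD : ∀ j, (q j).natDegree < (g + 2) * P) (σ : J → ℕ) (hσ : ∀ j, σ j ≤ 1)
    (ψ : J → PowerSeries K) (hψ : ∀ j, PowerSeries.evalNegHom (ψ j) = PowerSeries.C ((-1) ^ σ j) * ψ j)
    (G : ℕ → PowerSeries K)
    (hsym : ∀ l ≤ 2 * (g * P) - 1, PowerSeries.evalNegHom (G l) = G (2 * (g * P) - 1 - l))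
    (hG : ∀ l < 2 * (g * P) - 1, G l - G (l + 1) =
      (PowerSeries.C ((2 * (l : K) + 1) / 2) - PowerSeries.X)⁻¹ -
      (PowerSeries.C ((2 * ((2 * ((g * P : ℕ) : K) - 1) - l - 1) + 1) / 2) + PowerSeries.X)⁻¹)
    (hrel : ∀ l < g * P, (PowerSeries.X : PowerSeries K) ^ a ∣
      ∑ j, ψ j * (wl K (g * P) l ^ σ j * ev K (g * P) l (q j)) +
      ∑ k ∈ Finset.range (k0 + 1), PowerSeries.X ^ k *
        ∑ r ∈ Finset.range (S + 1),
          hs K r (wl K (g * P) l ^ ((k + r) % 2) * ev K (g * P) l (A * n k r) * G l)) :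
    ∀ k ≤ k0, ∀ r ≤ S, n k r = 0 := by
  by_contra hcon
  push Not at hcon
  set cJ := Fintype.card J with hcJ
  have hg : 1 ≤ g := by
    rcases Nat.eq_zero_or_pos g with h0 | h0
    · rw [h0] at hi; simp at hi
    · exact h0
  have ha1 : 1 ≤ a - k0 := by
    rcases Nat.eq_zero_or_pos (a - k0) with h0 | h0
    · rw [h0] at hi; simp at hi
    · exact h0
  set N0 := (k0 + 1) * (S + 2) + cJ with hN0
  have hN0pos : 1 ≤ N0 := by
    have : 1 ≤ (k0 + 1) * (S + 2) := Nat.mul_pos (by omega) (by omega)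
    omega
  have hPN : (a + 3 * ((k0 + 1) * (S + 1)) + 1) * N0 + 1 ≤ P := hP
  have hP1 : N0 ≤ P := by
    have : N0 ≤ (a + 3 * ((k0 + 1) * (S + 1)) + 1) * N0 := Nat.le_mul_of_pos_left _ (by omega)
    omega
  have hgP : 1 ≤ g * P := Nat.mul_pos hg (by omega)
  obtain ⟨m, hm, dP, hdP, hfin⟩ := ze_rows (S := S) (k0 := k0) (g * P) ((g + 1) * P) ((g + 2) * P) a hgP A hA hA0 n hnD
    q hqD σ hσ ψ hψ G hsym hG hrel N0 le_rfl hcon
  have hdP' : dP ≤ (k0 + 1) * (S + 1) := hdP.trans (Nat.mul_le_mul_right _ hm)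
  -- lower bound of the left hand side
  obtain ⟨A1, hA1⟩ : ∃ A1, a - k0 = A1 := ⟨_, rfl⟩
  have hA1a : A1 ≤ a := by omega
  rw [hA1] at hi ha1 hfin
  have e1 : 2 * (g * P) - N0 ≤ 2 * (g * P) - 1 + 2 - N0 := by omega
  have hNgP : N0 ≤ g * P := hP1.trans (Nat.le_mul_of_pos_left _ hg)
  have hNg1P : N0 ≤ (g + 1) * P := hP1.trans (Nat.le_mul_of_pos_left _ (by omega))
  obtain ⟨u1, hu1⟩ : ∃ u1, 2 * (g * P) = u1 + N0 := ⟨2 * (g * P) - N0, by omega⟩
  obtain ⟨u2, hu2⟩ : ∃ u2, 2 * ((g + 1) * P) = u2 + N0 := ⟨2 * ((g + 1) * P) - N0, by omega⟩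
  have e2 : 2 * (g * P) - N0 = u1 := by omega
  have e3 : 2 * ((g + 1) * P) - N0 = u2 := by omega
  rw [e3] at hfin
  rw [e2] at e1
  have h1 : A1 * u1 + dP * u2 ≤ (m + dP + cJ) * (2 * ((g + 2) * P)) + m * (N0 * (2 * (S + 1))) :=
    (Nat.add_le_add_right (Nat.mul_le_mul_left _ e1) _).trans hfin
  have h2 : A1 * (2 * (g * P)) + dP * (2 * ((g + 1) * P)) ≤
      (m + dP + cJ) * (2 * ((g + 2) * P)) + m * (N0 * (2 * (S + 1))) + (A1 + dP) * N0 := by
    rw [hu1, hu2]
    calc A1 * (u1 + N0) + dP * (u2 + N0) = (A1 * u1 + dP * u2) + (A1 + dP) * N0 := by ring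
      _ ≤ _ := Nat.add_le_add_right h1 _
  have h3 : (g + 2) * (m + cJ) + dP + 1 ≤ g * A1 := by
    refine le_trans ?_ hi
    have : (g + 2) * (m + cJ) ≤ (g + 2) * (k0 + 1 + cJ) := Nat.mul_le_mul_left _ (by omega)
    omega
  have h4 : 2 * P * ((g + 2) * (m + cJ) + dP + 1) ≤ 2 * P * (g * A1) := Nat.mul_le_mul_left _ h3
  have h5 : 2 * P ≤ m * (N0 * (2 * (S + 1))) + (A1 + dP) * N0 := by
    nlinarith [h2, h4]
  have h6 : m * (N0 * (2 * (S + 1))) + (A1 + dP) * N0 ≤ (a + 3 * ((k0 + 1) * (S + 1)) + 1) * N0 := by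
    calc m * (N0 * (2 * (S + 1))) + (A1 + dP) * N0
        ≤ (k0 + 1) * (N0 * (2 * (S + 1))) + (a + (k0 + 1) * (S + 1)) * N0 := by gcongr
      _ = (a + 3 * ((k0 + 1) * (S + 1))) * N0 := by ring
      _ ≤ _ := Nat.mul_le_mul_right _ (by omega)
  omega

end Pool.Agent.SI
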