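import Pool.Agent.SI.NRN

/-!
# SI, near nodes: bound for the near families
-/

namespace Pool.Agent.SI

open Finset Pool.Agent.ZC

/-- coefficients of a block -/
theorem nrd_lamN (p P q n k r S τ κ : ℕ) (f : Polynomial ℝ) (F : ℝ) (hF0 : 0 ≤ F) (hP : 1 ≤ P)
    (hp : 1 ≤ p) (hr : r ≤ S) (hτ : 2 ^ τ * P ≤ 2 * p) (hq : q = p + P)
    (hF : ∀ ν : ℕ, q ≤ ν → ν ≤ 5 * p → |f.eval ((2 * (ν : ℝ)) ^ 2)| ≤ F) :
    |lamN p P k r τ f κ| ≤ 40 * 6 ^ S * (p : ℝ) ^ 2 * F * ((κ.choose r : ℝ) * (1 / 3) ^ κ) := by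
  have hP1 : (1 : ℝ) ≤ P := by exact_mod_cast hP
  have hp1 : (1 : ℝ) ≤ p := by exact_mod_cast hp
  have hD : (1 : ℝ) ≤ 2 ^ τ * (P : ℝ) :=
    one_le_mul_of_one_le_of_one_le (one_le_pow₀ (by norm_num)) hP1
  have h2τ : 1 ≤ 2 ^ τ := Nat.one_le_two_pow
  have hν1 : P ≤ 2 ^ τ * P := Nat.le_mul_of_pos_left _ (by omega)
  have hup : p + 2 ^ (τ + 1) * P = p + 2 * (2 ^ τ * P) := by rw [pow_succ]; ring
  have hval : ∀ ν ∈ Zb p P τ,
      |cnode k r (cb p P τ) (eb P τ) (2 * (ν : ℝ)) (f.eval ((2 * (ν : ℝ)) ^ 2)) κ| ≤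
        20 * 6 ^ S * (p : ℝ) * F * ((κ.choose r : ℝ) * (1 / 3) ^ κ) := by
    intro ν hν
    have hrad := nr_radius p P τ ν hν
    rw [Zb, mem_Ico, hup] at hν
    have hνq : q ≤ ν := by omega
    have hν5 : ν ≤ 5 * p := by omega
    have hνR : 2 * (ν : ℝ) ≤ 10 * p := by
      have : (ν : ℝ) ≤ 5 * p := by exact_mod_cast hν5
      linarith
    have hν0 : (1 : ℝ) ≤ ν := by
      have : 1 ≤ ν := by omega
      exact_mod_cast this
    have hnode := nr_cnode k r (cb p P τ) (eb P τ) (2 * (ν : ℝ))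
      (f.eval ((2 * (ν : ℝ)) ^ 2)) (by rw [eb]; linarith) (by linarith) hrad κ
    refine hnode.trans ?_
    apply mul_le_mul_of_nonneg_right _ (by positivity)
    have h6 : (6 : ℝ) ^ r ≤ 6 ^ S := pow_le_pow_right₀ (by norm_num) hr
    calc 2 * |f.eval ((2 * (ν : ℝ)) ^ 2)| * (2 * (ν : ℝ)) * 6 ^ r
        ≤ 2 * F * (10 * p) * 6 ^ S := by
          apply mul_le_mul _ h6 (by positivity) (by positivity)
          apply mul_le_mul _ hνR (by positivity) (by positivity)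
          exact mul_le_mul_of_nonneg_left (hF ν hνq hν5) (by norm_num)
      _ = _ := by ring
  rw [lamN]
  refine (abs_sum_le_sum_abs _ _).trans ?_
  refine (sum_le_card_nsmul _ _ _ hval).trans ?_
  rw [nsmul_eq_mul, Zb, Nat.card_Ico]
  have hcard : ((p + 2 ^ (τ + 1) * P - (p + 2 ^ τ * P) : ℕ) : ℝ) ≤ 2 * p := by
    have e1 : p + 2 ^ (τ + 1) * P - (p + 2 ^ τ * P) ≤ 2 * p := by
      rw [hup]; omega
    exact_mod_cast e1
  calc _ ≤ (2 * (p : ℝ)) * (20 * 6 ^ S * (p : ℝ) * F * ((κ.choose r : ℝ) * (1 / 3) ^ κ)) :=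
        mul_le_mul_of_nonneg_right hcard (by positivity)
    _ = _ := by ring

/-- near families -/
theorem bd_near (g S k0 a L : ℕ) (hg : 1 ≤ g) (ha : 1 ≤ a) (hL1 : 2 * g ≤ 2 ^ L)
    (hL2 : 2 ^ L ≤ 4 * g) :
    ∃ M0 : ℕ, ∀ M ≥ M0, ∀ l < g * ((a + S + 1) * M), ∀ j < (a + S + 1) * M, ∀ k ≤ k0, ∀ r ≤ S,
      ∀ τ < L, ∀ κ : ℕ, ∀ m < a,
        |lamN (g * ((a + S + 1) * M)) ((a + S + 1) * M) k r τ
            (Am ℝ M ((g + 1) * ((a + S + 1) * M)) * Cn ℝ M j) κ *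
          PowerSeries.coeff m (uN (g * ((a + S + 1) * M)) ((a + S + 1) * M) k l τ κ)| ≤
        (100 * ((g : ℝ) + 2) * (a + S + 1)) ^ (4 * ((g + 2) * ((a + S + 1) * M))) *
          (1 / 2) ^ κ := by
  obtain ⟨K, hK0, hK⟩ := nr_poly S a
  obtain ⟨M0, hM0⟩ := nr_fin g (a + S + 1) hg (by omega) (400 * 6 ^ S * 2 ^ (a + 1) * K)
    (by positivity)
  refine ⟨M0 + 1, fun M hM l hl j hj k _ r hr τ hτ κ m hm => ?_⟩
  have hfin := hM0 M (by omega)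
  have hMpos : 0 < M := by omega
  obtain ⟨c, hc⟩ : ∃ c, c = a + S + 1 := ⟨_, rfl⟩
  have hcR : (c : ℝ) = a + S + 1 := by rw [hc]; push_cast; ring
  have hc1 : 1 ≤ c := by omega
  rw [← hc] at hfin hj hl ⊢
  rw [← hcR]
  obtain ⟨P, hP⟩ : ∃ P, P = c * M := ⟨_, rfl⟩
  obtain ⟨p, hp⟩ : ∃ p, p = g * P := ⟨_, rfl⟩
  obtain ⟨n, hn⟩ : ∃ n, n = (g + 2) * P := ⟨_, rfl⟩
  obtain ⟨q, hq⟩ : ∃ q, q = (g + 1) * P := ⟨_, rfl⟩
  rw [← hP] at hfin hj hl ⊢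
  rw [← hp, ← hn] at hfin
  rw [← hp] at hl
  rw [← hp, ← hn, ← hq]
  have hPpos : 0 < P := by rw [hP]; exact Nat.mul_pos (by omega) hMpos
  have hpP : P ≤ p := by rw [hp]; exact Nat.le_mul_of_pos_left _ (by omega)
  have h2τ : 2 ^ τ ≤ 2 * g := by
    have h1 : 2 ^ (τ + 1) ≤ 2 ^ L := Nat.pow_le_pow_right (by norm_num) hτ
    rw [pow_succ] at h1
    omega
  have h2τP : 2 ^ τ * P ≤ 2 * p := by
    rw [hp, ← mul_assoc]; exact Nat.mul_le_mul_right _ h2τ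
  have hpR : (0 : ℝ) < p := by
    have : 0 < p := by omega
    exact_mod_cast this
  set E := (55 * (g : ℝ) * c) ^ (2 * n) * Real.exp (2 * M) with hE
  have hE0 : 0 < E := by
    have : (0 : ℝ) < g := by exact_mod_cast hg
    have : (0 : ℝ) < c := by exact_mod_cast hc1
    positivity
  have hg1 := nrd_lamN p P q n k r S τ κ (Am ℝ M q * Cn ℝ M j) (10 * p * E) (by positivity)
    hPpos (by omega) hr h2τP (by rw [hq, hp]; ring)
    (fun ν hν1 hν2 => nr_val g c M P p q n j ν hg hc1 hMpos hP hp hq hn hj hν1 hν2)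
  obtain ⟨d1, d2⟩ := nr_dist p P τ hPpos l hl
  have hD : (1 : ℝ) ≤ 2 ^ τ * (P : ℝ) :=
    one_le_mul_of_one_le_of_one_le (one_le_pow₀ (by norm_num)) (by exact_mod_cast hPpos)
  have hlR : (l : ℝ) + 1 ≤ p := by exact_mod_cast hl
  have hl0 : (0 : ℝ) ≤ l := Nat.cast_nonneg l
  obtain ⟨m', hm', hu⟩ := nr_unear p k l (cb p P τ) (eb P τ) (by rw [eb]; linarith)
    (by rw [cb, eb]; linarith) (by rw [cb, eb]; linarith) κ m
  have h2m : (2 : ℝ) ^ (m + 1) ≤ 2 ^ (a + 1) := pow_le_pow_right₀ (by norm_num) (by omega)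
  rw [abs_mul, uN]
  calc |lamN p P k r τ (Am ℝ M q * Cn ℝ M j) κ| *
        |PowerSeries.coeff m (unear p k l (cb p P τ) (eb P τ) κ)|
      ≤ (40 * 6 ^ S * (p : ℝ) ^ 2 * (10 * p * E) * ((κ.choose r : ℝ) * (1 / 3) ^ κ)) *
        (2 ^ (a + 1) * ((κ + m').choose m' : ℝ)) := by
        apply mul_le_mul hg1 (hu.trans _) (abs_nonneg _) (by positivity)
        exact mul_le_mul_of_nonneg_right h2m (Nat.cast_nonneg _)
    _ = 400 * 6 ^ S * 2 ^ (a + 1) * (p : ℝ) ^ 3 * E *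
        ((κ.choose r : ℝ) * ((κ + m').choose m' : ℝ) * (1 / 3) ^ κ) := by ring
    _ ≤ 400 * 6 ^ S * 2 ^ (a + 1) * (p : ℝ) ^ 3 * E * (K * (1 / 2) ^ κ) :=
        mul_le_mul_of_nonneg_left (hK κ r m' hr (by omega)) (by positivity)
    _ = (400 * 6 ^ S * 2 ^ (a + 1) * K * (p : ℝ) ^ 3 * E) * (1 / 2) ^ κ := by ring
    _ ≤ _ := mul_le_mul_of_nonneg_right hfin (by positivity)

end Pool.Agent.SI
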