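import Pool.Agent.SI.NRE
import Pool.Agent.ZC.BDG

/-!
# SI, near nodes: bound of the far family
-/

namespace Pool.Agent.SI

open Finset Pool.Agent.ZC

/-- value of `Am * Cn` at a node -/
theorem nrd2_eval (M q j : ℕ) (hM : 0 < M) (hq : 0 < q) (s : ℝ) (hqs : 2 * (q : ℝ) ≤ s)
    (hjs : 2 * (j : ℝ) ≤ s) :
    |(Am ℝ M q * Cn ℝ M j).eval (s ^ 2)| ≤
      s * (2 * s * Real.exp 1 / M) ^ (2 * q - 1) * ((s * Real.exp 1 / (2 * M)) ^ 2) ^ j *
        Real.exp (2 * M) := by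
  have hMR : (0 : ℝ) < M := by exact_mod_cast hM
  have hq1 : (1 : ℝ) ≤ q := by exact_mod_cast hq
  have hs0 : 0 < s := by linarith
  rw [Polynomial.eval_mul, abs_mul]
  have h1 : |(Am ℝ M q).eval (s ^ 2)| ≤
      s * (2 * s * Real.exp 1 / M) ^ (2 * q - 1) * Real.exp M := by
    rw [Am, Ap, Polynomial.eval_mul, Polynomial.eval_C, Polynomial.eval_prod, abs_mul]
    have hb : (0 : ℝ) < ((bf M (2 * q - 1) : ℕ) : ℝ) := by exact_mod_cast bf_pos _ _
    have e1 : |(2 : ℝ) ^ (2 * q - 1) * ((bf M (2 * q - 1) : ℕ) : ℝ)⁻¹| =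
        2 ^ (2 * q - 1) * ((bf M (2 * q - 1) : ℕ) : ℝ)⁻¹ := abs_of_pos (by positivity)
    rw [e1]
    set F : ℕ → ℝ := fun μ => Polynomial.eval (s ^ 2)
        (Polynomial.X - Polynomial.C ((2 * (μ : ℝ)) ^ 2)) with hF
    have e2 : |∏ μ ∈ range q, F μ| ≤ (s ^ 2) ^ q := by
      rw [Finset.abs_prod]
      calc ∏ μ ∈ range q, |F μ| ≤ ∏ _μ ∈ range q, s ^ 2 := by
            refine Finset.prod_le_prod (fun μ _ => abs_nonneg _) fun μ hμ => ?_
            have hμ' : (μ : ℝ) + 1 ≤ q := by exact_mod_cast Finset.mem_range.1 hμ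
            have hμ0 : (0 : ℝ) ≤ μ := Nat.cast_nonneg μ
            simp only [hF, Polynomial.eval_sub, Polynomial.eval_X, Polynomial.eval_C]
            rw [abs_le]
            constructor
            · nlinarith
            · nlinarith [sq_nonneg (2 * (μ : ℝ))]
        _ = (s ^ 2) ^ q := by rw [Finset.prod_const, Finset.card_range]
    have h2 := le_bf hM (2 * q - 1)
    have h3 : ((bf M (2 * q - 1) : ℕ) : ℝ)⁻¹ ≤
        Real.exp ((2 * q - 1 : ℕ) : ℝ) * Real.exp M / (M : ℝ) ^ (2 * q - 1) := by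
      rw [inv_le_comm₀ hb (by positivity), inv_div]
      refine le_trans (le_of_eq ?_) h2
      rw [Nat.cast_add, neg_add, Real.exp_add, Real.exp_neg, Real.exp_neg]
      field_simp
    have e4 : Real.exp ((2 * q - 1 : ℕ) : ℝ) = Real.exp 1 ^ (2 * q - 1) := by
      rw [← Real.exp_nat_mul, mul_one]
    rw [e4] at h3
    calc 2 ^ (2 * q - 1) * ((bf M (2 * q - 1) : ℕ) : ℝ)⁻¹ * |∏ μ ∈ range q, F μ|
        ≤ 2 ^ (2 * q - 1) * (Real.exp 1 ^ (2 * q - 1) * Real.exp M / (M : ℝ) ^ (2 * q - 1)) *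
          (s ^ 2) ^ q := by gcongr
      _ = s * (2 * s * Real.exp 1 / M) ^ (2 * q - 1) * Real.exp M := by
          have e5 : (s ^ 2) ^ q = s * s ^ (2 * q - 1) := by
            rw [← pow_mul, ← pow_succ']
            congr 1; omega
          rw [e5, div_pow, mul_pow, mul_pow]
          ring
  have h2 : |(Cn ℝ M j).eval (s ^ 2)| ≤
      ((s * Real.exp 1 / (2 * M)) ^ 2) ^ j * Real.exp M := by
    rw [cn_eval, abs_mul]
    have hb : (0 : ℝ) < ((4 ^ j * bf M (2 * j) : ℕ) : ℝ) := by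
      exact_mod_cast Nat.mul_pos (by positivity) (bf_pos _ _)
    rw [abs_of_pos (inv_pos.2 hb)]
    refine le_trans (mul_le_mul_of_nonneg_left ?_ (inv_pos.2 hb).le) (div_bf_le hM j s)
    rw [Finset.abs_prod]
    calc ∏ k ∈ range j, |s ^ 2 - (2 * (k : ℝ) + 1) ^ 2| ≤ ∏ _k ∈ range j, s ^ 2 := by
          refine Finset.prod_le_prod (fun μ _ => abs_nonneg _) fun μ hμ => ?_
          have hμ' : (μ : ℝ) + 1 ≤ j := by exact_mod_cast Finset.mem_range.1 hμ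
          have hμ0 : (0 : ℝ) ≤ μ := Nat.cast_nonneg μ
          rw [abs_le]
          constructor
          · nlinarith
          · nlinarith [sq_nonneg (2 * (μ : ℝ) + 1)]
      _ = (s ^ 2) ^ j := by rw [Finset.prod_const, Finset.card_range]
  refine (mul_le_mul h1 h2 (abs_nonneg _) (by positivity)).trans (le_of_eq ?_)
  have e : Real.exp (2 * (M : ℝ)) = Real.exp M * Real.exp M := by
    rw [← Real.exp_add]; congr 1; ring
  rw [e]; ring

/-- the coefficients `gamh` -/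
theorem nrd2_gamh (M q j Q n' κ : ℕ) (hM : 0 < M) (hq : 0 < q) (hqQ : q ≤ Q) (hjQ : j ≤ Q)
    (hn : q + j + 1 ≤ n') :
    |gamh Q n' (Am ℝ M q * Cn ℝ M j) κ| ≤
      4 * (2 * Real.exp 1 / M) ^ (2 * q - 1) * ((Real.exp 1 / (2 * M)) ^ 2) ^ j *
        Real.exp (2 * M) / (2 * (Q : ℝ)) ^ (2 * (n' - q - j) + 2 * κ - 1) := by
  have hMR : (0 : ℝ) < M := by exact_mod_cast hM
  have hQ0 : (0 : ℝ) < Q := by exact_mod_cast (by omega : 0 < Q)
  set K : ℝ := 4 * (2 * Real.exp 1 / M) ^ (2 * q - 1) * ((Real.exp 1 / (2 * M)) ^ 2) ^ j *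
        Real.exp (2 * M) with hK
  have hK0 : 0 ≤ K := by positivity
  set E : ℕ := 2 * (n' - q - j) + 2 * κ - 1 with hE
  have hz : HasSum (fun i : ℕ => 1 / ((i : ℝ) + 1) ^ 2) (Real.pi ^ 2 / 6) := by
    have h := hasSum_zeta_two
    rw [← hasSum_nat_add_iff' 1] at h
    simpa using h
  have hsum : HasSum (fun i : ℕ => K / (2 * (Q : ℝ)) ^ E * (1 / 4 * (1 / ((i : ℝ) + 1) ^ 2)))
      (K / (2 * (Q : ℝ)) ^ E * (1 / 4 * (Real.pi ^ 2 / 6))) :=
    (hz.mul_left _).mul_left _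
  have hb : ∀ i : ℕ, ‖8 * ((Q + i : ℕ) : ℝ) *
      (Am ℝ M q * Cn ℝ M j).eval ((2 * ((Q + i : ℕ) : ℝ)) ^ 2) /
        ((2 * ((Q + i : ℕ) : ℝ)) ^ 2) ^ (n' + κ + 1)‖ ≤
      K / (2 * (Q : ℝ)) ^ E * (1 / 4 * (1 / ((i : ℝ) + 1) ^ 2)) := by
    intro i
    have hi0 : (0 : ℝ) ≤ i := Nat.cast_nonneg i
    set s : ℝ := 2 * ((Q + i : ℕ) : ℝ) with hs
    have hs8 : 8 * ((Q + i : ℕ) : ℝ) = 4 * s := by rw [hs]; ring
    have hsQ : 2 * (Q : ℝ) ≤ s := by rw [hs]; push_cast; linarith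
    have hQ1 : (1 : ℝ) ≤ Q := by exact_mod_cast (by omega : 1 ≤ Q)
    have hsi : 2 * ((i : ℝ) + 1) ≤ s := by rw [hs]; push_cast; linarith
    have hs0 : 0 < s := by linarith
    have hqQ' : (q : ℝ) ≤ Q := by exact_mod_cast hqQ
    have hjQ' : (j : ℝ) ≤ Q := by exact_mod_cast hjQ
    have hev := nrd2_eval M q j hM hq s (by linarith) (by linarith)
    rw [hs8, Real.norm_eq_abs, abs_div, abs_mul, abs_of_pos (by positivity : 0 < 4 * s),
      abs_of_pos (by positivity : 0 < (s ^ 2) ^ (n' + κ + 1))]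
    have e1 : 4 * s * (s * (2 * s * Real.exp 1 / M) ^ (2 * q - 1) *
        ((s * Real.exp 1 / (2 * M)) ^ 2) ^ j * Real.exp (2 * M)) = K * s ^ (2 * q + 2 * j + 1) := by
      have a1 : (2 * s * Real.exp 1 / M) ^ (2 * q - 1) =
          s ^ (2 * q - 1) * (2 * Real.exp 1 / M) ^ (2 * q - 1) := by
        rw [← mul_pow]; congr 1; ring
      have a2 : ((s * Real.exp 1 / (2 * M)) ^ 2) ^ j =
          s ^ (2 * j) * ((Real.exp 1 / (2 * M)) ^ 2) ^ j := by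
        rw [pow_mul, ← mul_pow]; congr 1; ring
      have a3 : s ^ (2 * q + 2 * j + 1) = s * s * s ^ (2 * q - 1) * s ^ (2 * j) := by
        rw [← sq, ← pow_add, ← pow_add]; congr 1; omega
      rw [a1, a2, a3, hK]; ring
    have e2 : (s ^ 2) ^ (n' + κ + 1) = s ^ (2 * q + 2 * j + 1) * (s ^ E * s ^ 2) := by
      rw [← pow_mul, ← pow_add, ← pow_add]; congr 1; omega
    calc 4 * s * |(Am ℝ M q * Cn ℝ M j).eval (s ^ 2)| / (s ^ 2) ^ (n' + κ + 1)
        ≤ 4 * s * (s * (2 * s * Real.exp 1 / M) ^ (2 * q - 1) *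
        ((s * Real.exp 1 / (2 * M)) ^ 2) ^ j * Real.exp (2 * M)) / (s ^ 2) ^ (n' + κ + 1) := by
          gcongr
      _ = K / s ^ E * (1 / s ^ 2) := by
          rw [e1, e2]; field_simp
      _ ≤ K / (2 * (Q : ℝ)) ^ E * (1 / (2 * ((i : ℝ) + 1)) ^ 2) := by gcongr
      _ = _ := by rw [mul_pow]; field_simp; ring
  have h := tsum_of_norm_bounded hsum hb
  rw [Real.norm_eq_abs] at h
  refine (show |gamh Q n' (Am ℝ M q * Cn ℝ M j) κ| ≤ _ from h).trans ?_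
  have hpi : Real.pi ^ 2 / 6 ≤ 4 := by
    have := Real.pi_lt_d2
    have := Real.pi_pos
    nlinarith
  have h0 : 0 ≤ K / (2 * (Q : ℝ)) ^ E := by positivity
  nlinarith

private theorem nrd2_coeff_pow (u : ℝ) (N r : ℕ) :
    |PowerSeries.coeff r ((PowerSeries.C u + PowerSeries.C (2 : ℝ) * PowerSeries.X) ^ N)| ≤
      2 ^ r * (|u| + 1) ^ N := by
  induction N generalizing r with
  | zero =>
    rw [pow_zero, pow_zero, mul_one, PowerSeries.coeff_one]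
    split
    · rw [abs_one]; exact one_le_pow₀ (by norm_num)
    · rw [abs_zero]; positivity
  | succ N ih =>
    rw [pow_succ', add_mul, map_add, PowerSeries.coeff_C_mul, mul_assoc, PowerSeries.coeff_C_mul]
    have h1 : |u * PowerSeries.coeff r
        ((PowerSeries.C u + PowerSeries.C (2 : ℝ) * PowerSeries.X) ^ N)| ≤
        |u| * (2 ^ r * (|u| + 1) ^ N) := by
      rw [abs_mul]
      exact mul_le_mul_of_nonneg_left (ih r) (abs_nonneg u)
    rcases r with _ | r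
    · rw [mul_comm PowerSeries.X, PowerSeries.coeff_zero_mul_X, mul_zero, add_zero]
      refine h1.trans ?_
      rw [pow_succ (|u| + 1) N]
      have : 0 ≤ (2 : ℝ) ^ 0 * (|u| + 1) ^ N := by positivity
      nlinarith
    · rw [mul_comm PowerSeries.X, PowerSeries.coeff_succ_mul_X]
      have h2 := ih r
      refine (abs_add_le _ _).trans ?_
      rw [abs_mul (2 : ℝ), abs_of_pos (by norm_num : (0 : ℝ) < 2)]
      rw [pow_succ (|u| + 1) N, pow_succ (2 : ℝ) r] at *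
      nlinarith

/-- the coefficients of the vectors -/
theorem nrd2_uvec (p n k l κ m : ℕ) (hlp : l < p) :
    |PowerSeries.coeff m (uvec p n k l κ)| ≤ 2 ^ m * (2 * (p : ℝ)) ^ (2 * n + 2 * κ + 1) := by
  have hp1 : (1 : ℝ) ≤ p := by exact_mod_cast (by omega : 1 ≤ p)
  have e : uvec p n k l κ = PowerSeries.X ^ k * hl ℝ p l ^ (k % 2 + 2 * (n + κ)) := by
    rw [uvec, yl_eq_hl_sq, ← pow_mul, ← pow_add]
  rw [e, PowerSeries.coeff_X_pow_mul']
  split_ifs with h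
  · have h1 := nrd2_coeff_pow (2 * (p : ℝ) - 1 - 2 * (l : ℝ)) (k % 2 + 2 * (n + κ)) (m - k)
    refine (show |PowerSeries.coeff (m - k) (hl ℝ p l ^ (k % 2 + 2 * (n + κ)))| ≤ _ from h1).trans ?_
    have h2 : |2 * (p : ℝ) - 1 - 2 * (l : ℝ)| + 1 ≤ 2 * (p : ℝ) := by
      have h2 : (l : ℝ) + 1 ≤ p := by exact_mod_cast hlp
      have h3 : (0 : ℝ) ≤ l := Nat.cast_nonneg l
      rw [abs_of_nonneg (by linarith)]
      linarith
    calc (2 : ℝ) ^ (m - k) * (|2 * (p : ℝ) - 1 - 2 * (l : ℝ)| + 1) ^ (k % 2 + 2 * (n + κ))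
        ≤ 2 ^ m * (2 * (p : ℝ)) ^ (k % 2 + 2 * (n + κ)) := by
          gcongr
          · norm_num
          · omega
      _ ≤ 2 ^ m * (2 * (p : ℝ)) ^ (2 * n + 2 * κ + 1) := by
          have : k % 2 + 2 * (n + κ) ≤ 2 * n + 2 * κ + 1 := by omega
          gcongr
          linarith
  · rw [abs_zero]; positivity

/-- numerical part -/
theorem nrd2_num (g A M n : ℕ) (hg : 1 ≤ g) (hA : 2 ≤ A) (hM : 1 ≤ M)
    (hn : n = (g + 2) * (A * M)) :
    4 * (55 * (g : ℝ) * A) ^ (2 * n) * Real.exp (2 * M) * (10 * (n : ℝ)) ^ 3 * 2 ^ (3 * n) ≤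
      (100 * ((g : ℝ) + 2) * A) ^ (4 * n) := by
  have hn6 : 6 ≤ n := by
    rw [hn]
    calc 6 = 3 * (2 * 1) := by norm_num
      _ ≤ (g + 2) * (A * M) := Nat.mul_le_mul (by omega) (Nat.mul_le_mul hA hM)
  have h2M : 2 * M ≤ n := by
    rw [hn]
    calc 2 * M ≤ A * M := Nat.mul_le_mul_right M hA
      _ = 1 * (A * M) := (one_mul _).symm
      _ ≤ (g + 2) * (A * M) := Nat.mul_le_mul_right _ (by omega)
  have hexp : Real.exp (2 * M) ≤ 3 ^ n := by
    have h1 : Real.exp (2 * M) ≤ Real.exp n := by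
      apply Real.exp_le_exp.2
      exact_mod_cast h2M
    have h2 : Real.exp (n : ℝ) = Real.exp 1 ^ n := by rw [← Real.exp_nat_mul, mul_one]
    rw [h2] at h1
    refine h1.trans (pow_le_pow_left₀ (Real.exp_pos _).le ?_ n)
    exact Real.exp_one_lt_three.le
  have hn3 : (n : ℝ) ^ 3 ≤ 8 ^ n := by
    have h1 : (n : ℝ) ≤ 2 ^ n := by exact_mod_cast Nat.lt_two_pow_self.le
    calc (n : ℝ) ^ 3 ≤ (2 ^ n) ^ 3 := by gcongr
      _ = 8 ^ n := by rw [← pow_mul, mul_comm, pow_mul]; norm_num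
  have h4 : (4000 : ℝ) ≤ 4 ^ n := by
    calc (4000 : ℝ) ≤ 4 ^ 6 := by norm_num
      _ ≤ 4 ^ n := pow_le_pow_right₀ (by norm_num) hn6
  have hg1 : (1 : ℝ) ≤ g := by exact_mod_cast hg
  have hA1 : (2 : ℝ) ≤ A := by exact_mod_cast hA
  calc 4 * (55 * (g : ℝ) * A) ^ (2 * n) * Real.exp (2 * M) * (10 * (n : ℝ)) ^ 3 * 2 ^ (3 * n)
      = 4000 * (n : ℝ) ^ 3 * Real.exp (2 * M) * ((55 * (g : ℝ) * A) ^ 2) ^ n * (2 ^ 3) ^ n := by
        rw [← pow_mul, ← pow_mul, mul_pow 10 (n : ℝ)]; ring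
    _ ≤ 4 ^ n * 8 ^ n * 3 ^ n * ((55 * (g : ℝ) * A) ^ 2) ^ n * (2 ^ 3) ^ n := by gcongr
    _ = (4 * 8 * 3 * (55 * (g : ℝ) * A) ^ 2 * 2 ^ 3) ^ n := by
        rw [← mul_pow, ← mul_pow, ← mul_pow, ← mul_pow]
    _ ≤ ((100 * ((g : ℝ) + 2) * A) ^ 4) ^ n := by
        apply pow_le_pow_left₀ (by positivity)
        have h5 : (g : ℝ) * A ≤ ((g : ℝ) + 2) * A := by nlinarith
        have h6 : 1 ≤ ((g : ℝ) + 2) * A := by nlinarith
        set x := (g : ℝ) * A with hx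
        set z := ((g : ℝ) + 2) * A with hz
        have h7 : x ^ 2 ≤ z ^ 2 := pow_le_pow_left₀ (by positivity) h5 2
        have h8 : z ^ 2 ≤ z ^ 4 := pow_le_pow_right₀ h6 (by norm_num)
        have e1 : 4 * 8 * 3 * (55 * (g : ℝ) * A) ^ 2 * 2 ^ 3 = 2323200 * x ^ 2 := by rw [hx]; ring
        have e2 : (100 * ((g : ℝ) + 2) * A) ^ 4 = 100000000 * z ^ 4 := by rw [hz]; ring
        rw [e1, e2]
        nlinarith [sq_nonneg x]
    _ = _ := by rw [← pow_mul]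

/-- far family -/
theorem bd_far (g S k0 a L : ℕ) (hg : 1 ≤ g) (ha : 1 ≤ a) (hL1 : 2 * g ≤ 2 ^ L)
    (hL2 : 2 ^ L ≤ 4 * g) :
    ∃ M0 : ℕ, ∀ M ≥ M0, ∀ l < g * ((a + S + 1) * M), ∀ j < (a + S + 1) * M, ∀ k ≤ k0, ∀ r ≤ S,
      ∀ κ : ℕ, ∀ m < a,
        |lam (g * ((a + S + 1) * M) + 2 ^ L * ((a + S + 1) * M))
            ((g + 2) * ((a + S + 1) * M)) k r
            (Am ℝ M ((g + 1) * ((a + S + 1) * M)) * Cn ℝ M j) κ *
          PowerSeries.coeff m (uvec (g * ((a + S + 1) * M)) ((g + 2) * ((a + S + 1) * M)) k l κ)| ≤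
        (100 * ((g : ℝ) + 2) * (a + S + 1)) ^ (4 * ((g + 2) * ((a + S + 1) * M))) *
          (1 / 2) ^ κ := by
  refine ⟨1, fun M hM l hlp j hj k _ r hr κ m hm => ?_⟩
  set A : ℕ := a + S + 1 with hA
  have hA2 : 2 ≤ A := by omega
  set P : ℕ := A * M with hP
  have hP1 : 1 ≤ P := Nat.mul_pos (by omega) (by omega)
  set p : ℕ := g * P with hp
  set q : ℕ := (g + 1) * P with hq
  set n : ℕ := (g + 2) * P with hn
  set Q : ℕ := p + 2 ^ L * P with hQ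
  have hqe : q = p + P := by rw [hq, hp]; ring
  have hne : n = p + 2 * P := by rw [hn, hp]; ring
  have hPp : P ≤ p := by
    rw [hp]
    calc P = 1 * P := (one_mul _).symm
      _ ≤ g * P := Nat.mul_le_mul_right _ hg
  have hQ3 : 3 * p ≤ Q := by
    have : 2 * g * P ≤ 2 ^ L * P := Nat.mul_le_mul_right _ hL1
    have e : 2 * g * P = 2 * p := by rw [hp]; ring
    omega
  have hQ5 : Q ≤ 5 * p := by
    have : 2 ^ L * P ≤ 4 * g * P := Nat.mul_le_mul_right _ hL2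
    have e : 4 * g * P = 4 * p := by rw [hp]; ring
    omega
  have hAn : 2 * A ≤ n := by
    have : A ≤ P := by
      rw [hP]
      calc A = A * 1 := (mul_one _).symm
        _ ≤ A * M := Nat.mul_le_mul_left _ hM
    omega
  have hdl : 2 * dl k r ≤ 1 + S := by
    unfold dl; omega
  set n' : ℕ := n + dl k r with hn'
  have hgam := nrd2_gamh M q j Q n' κ (by omega) (by omega) (by omega) (by omega) (by omega)
  have hu := nrd2_uvec p n k l κ m hlp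
  have hMR : (1 : ℝ) ≤ M := by exact_mod_cast hM
  have hM0 : (0 : ℝ) < M := by linarith
  have hp0 : (1 : ℝ) ≤ p := by exact_mod_cast (by omega : 1 ≤ p)
  have hQR : 3 * (p : ℝ) ≤ Q := by exact_mod_cast hQ3
  have hQR5 : (Q : ℝ) ≤ 5 * p := by exact_mod_cast hQ5
  have hQ0 : (0 : ℝ) < Q := by linarith
  set K : ℝ := 4 * (2 * Real.exp 1 / M) ^ (2 * q - 1) * ((Real.exp 1 / (2 * M)) ^ 2) ^ j *
        Real.exp (2 * M) with hK
  have hK0 : 0 ≤ K := by positivity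
  have hch : |(((2 * (n + dl k r + κ) + (k + r) % 2).choose r : ℕ) : ℝ) * 2 ^ r| ≤
      2 ^ (2 * n' + 1 + S) * 4 ^ κ := by
    rw [abs_of_nonneg (by positivity)]
    have h1 : (((2 * (n + dl k r + κ) + (k + r) % 2).choose r : ℕ) : ℝ) ≤
        2 ^ (2 * (n + dl k r + κ) + (k + r) % 2) := by
      exact_mod_cast Nat.choose_le_two_pow _ _
    calc (((2 * (n + dl k r + κ) + (k + r) % 2).choose r : ℕ) : ℝ) * 2 ^ r
        ≤ 2 ^ (2 * (n + dl k r + κ) + (k + r) % 2) * 2 ^ r := by gcongr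
      _ = 2 ^ (2 * (n + dl k r + κ) + (k + r) % 2 + r) := (pow_add _ _ _).symm
      _ ≤ 2 ^ (2 * n' + 1 + S + 2 * κ) := by
          apply pow_le_pow_right₀ (by norm_num)
          omega
      _ = 2 ^ (2 * n' + 1 + S) * 4 ^ κ := by
          rw [pow_add 2 (2 * n' + 1 + S), pow_mul 2 2 κ]; norm_num
  rw [lam, abs_mul, abs_mul]
  have hstep : |gamh Q n' (Am ℝ M q * Cn ℝ M j) κ| *
      |(((2 * (n + dl k r + κ) + (k + r) % 2).choose r : ℕ) : ℝ) * 2 ^ r| *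
      |PowerSeries.coeff m (uvec p n k l κ)| ≤
      (K / (2 * (Q : ℝ)) ^ (2 * (n' - q - j) + 2 * κ - 1)) * (2 ^ (2 * n' + 1 + S) * 4 ^ κ) *
        (2 ^ m * (2 * (p : ℝ)) ^ (2 * n + 2 * κ + 1)) := by
    refine mul_le_mul (mul_le_mul hgam hch (abs_nonneg _) (by positivity)) hu (abs_nonneg _)
      (by positivity)
  refine hstep.trans ?_
  have hE : (2 * (Q : ℝ)) ^ (2 * (n' - q - j) + 2 * κ - 1) =
      (2 * (Q : ℝ)) ^ (2 * κ) * (2 * (Q : ℝ)) ^ (2 * (n' - q - j) - 1) := by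
    rw [← pow_add]; congr 1; omega
  have hκ : (4 : ℝ) ^ κ * (2 * (p : ℝ)) ^ (2 * κ) ≤ (1 / 2) ^ κ * (2 * (Q : ℝ)) ^ (2 * κ) := by
    rw [pow_mul, pow_mul, ← mul_pow, ← mul_pow]
    apply pow_le_pow_left₀ (by positivity)
    nlinarith
  have hsplit : (2 * (p : ℝ)) ^ (2 * n + 2 * κ + 1) =
      (2 * (p : ℝ)) ^ (2 * κ) * (2 * (p : ℝ)) ^ (2 * n + 1) := by
    rw [← pow_add]; congr 1; omega
  have hQ2 : (1 : ℝ) ≤ 2 * Q := by linarith
  have hpow : (2 * (p : ℝ)) ^ (2 * n + 1) ≤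
      (2 * (Q : ℝ)) ^ (2 * q + 2 * j + 2) * (2 * (Q : ℝ)) ^ (2 * (n' - q - j) - 1) := by
    rw [← pow_add]
    calc (2 * (p : ℝ)) ^ (2 * n + 1) ≤ (2 * (Q : ℝ)) ^ (2 * n + 1) := by
          gcongr; linarith
      _ ≤ _ := pow_le_pow_right₀ hQ2 (by omega)
  have hQpos : (0 : ℝ) < 2 * Q := by linarith
  calc (K / (2 * (Q : ℝ)) ^ (2 * (n' - q - j) + 2 * κ - 1)) * (2 ^ (2 * n' + 1 + S) * 4 ^ κ) *
        (2 ^ m * (2 * (p : ℝ)) ^ (2 * n + 2 * κ + 1))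
      = K * 2 ^ (2 * n' + 1 + S) * 2 ^ m * (4 ^ κ * (2 * (p : ℝ)) ^ (2 * κ)) *
        (2 * (p : ℝ)) ^ (2 * n + 1) /
        ((2 * (Q : ℝ)) ^ (2 * κ) * (2 * (Q : ℝ)) ^ (2 * (n' - q - j) - 1)) := by
        rw [hE, hsplit]; ring
    _ ≤ K * 2 ^ (2 * n' + 1 + S) * 2 ^ m * ((1 / 2) ^ κ * (2 * (Q : ℝ)) ^ (2 * κ)) *
        ((2 * (Q : ℝ)) ^ (2 * q + 2 * j + 2) * (2 * (Q : ℝ)) ^ (2 * (n' - q - j) - 1)) /
        ((2 * (Q : ℝ)) ^ (2 * κ) * (2 * (Q : ℝ)) ^ (2 * (n' - q - j) - 1)) := by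
        gcongr
    _ = K * (2 * (Q : ℝ)) ^ (2 * q + 2 * j + 2) * 2 ^ (2 * n' + 1 + S) * 2 ^ m * (1 / 2) ^ κ := by
        field_simp
    _ ≤ (100 * ((g : ℝ) + 2) * (a + S + 1)) ^ (4 * n) * (1 / 2) ^ κ := by
        refine mul_le_mul_of_nonneg_right ?_ (by positivity)
        have hQM : 2 * (Q : ℝ) / M ≤ 10 * g * A := by
          rw [div_le_iff₀ hM0]
          have : (p : ℝ) = g * (A * M) := by rw [hp, hP]; push_cast; ring
          rw [this] at hQR5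
          nlinarith
        have he : Real.exp 1 ≤ 11 / 4 := by
          have := Real.exp_one_lt_d9
          linarith
        have hgA0 : (0 : ℝ) ≤ 10 * g * A := by positivity
        set y : ℝ := 55 * (g : ℝ) * A with hy
        have hg1 : (1 : ℝ) ≤ g := by exact_mod_cast hg
        have hA1 : (2 : ℝ) ≤ A := by exact_mod_cast hA2
        have hy1 : 1 ≤ y := by rw [hy]; nlinarith
        have hy2 : 2 * Real.exp 1 * (2 * (Q : ℝ) / M) ≤ y := by
          calc 2 * Real.exp 1 * (2 * (Q : ℝ) / M) ≤ 2 * (11 / 4) * (10 * g * A) := by gcongr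
            _ = y := by rw [hy]; ring
        have hy3 : Real.exp 1 / 2 * (2 * (Q : ℝ) / M) ≤ y := by
          calc Real.exp 1 / 2 * (2 * (Q : ℝ) / M) ≤ (11 / 4) / 2 * (10 * g * A) := by gcongr
            _ ≤ y := by rw [hy]; nlinarith
        have e1 : K * (2 * (Q : ℝ)) ^ (2 * q + 2 * j + 2) =
            4 * (2 * Real.exp 1 * (2 * (Q : ℝ) / M)) ^ (2 * q - 1) *
              (Real.exp 1 / 2 * (2 * (Q : ℝ) / M)) ^ (2 * j) * Real.exp (2 * M) *
              (2 * (Q : ℝ)) ^ 3 := by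
          have a1 : (2 * (Q : ℝ)) ^ (2 * q + 2 * j + 2) =
              (2 * (Q : ℝ)) ^ (2 * q - 1) * (2 * (Q : ℝ)) ^ (2 * j) * (2 * (Q : ℝ)) ^ 3 := by
            rw [← pow_add, ← pow_add]; congr 1; omega
          have a2 : (2 * Real.exp 1 * (2 * (Q : ℝ) / M)) ^ (2 * q - 1) =
              (2 * Real.exp 1 / M) ^ (2 * q - 1) * (2 * (Q : ℝ)) ^ (2 * q - 1) := by
            rw [← mul_pow]; congr 1; ring
          have a3 : (Real.exp 1 / 2 * (2 * (Q : ℝ) / M)) ^ (2 * j) =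
              ((Real.exp 1 / (2 * M)) ^ 2) ^ j * (2 * (Q : ℝ)) ^ (2 * j) := by
            rw [← pow_mul, ← mul_pow]; congr 1; field_simp
          rw [a1, a2, a3, hK]; ring
        have hQn : 2 * (Q : ℝ) ≤ 10 * n := by
          have : (p : ℝ) ≤ n := by exact_mod_cast (by omega : p ≤ n)
          linarith
        have e2 : (2 : ℝ) ^ (2 * n' + 1 + S) * 2 ^ m ≤ 2 ^ (3 * n) := by
          rw [← pow_add]
          apply pow_le_pow_right₀ (by norm_num)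
          omega
        have e3 : (a : ℝ) + S + 1 = A := by rw [hA]; push_cast; ring
        rw [e3]
        have hnum := nrd2_num g A M n hg hA2 hM (by rw [hn, hP])
        rw [← hy] at hnum
        refine le_trans ?_ hnum
        rw [mul_assoc (K * (2 * (Q : ℝ)) ^ (2 * q + 2 * j + 2)), e1]
        have hpw : y ^ (2 * q - 1) * y ^ (2 * j) ≤ y ^ (2 * n) := by
          rw [← pow_add]
          exact pow_le_pow_right₀ hy1 (by omega)
        calc 4 * (2 * Real.exp 1 * (2 * (Q : ℝ) / M)) ^ (2 * q - 1) *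
              (Real.exp 1 / 2 * (2 * (Q : ℝ) / M)) ^ (2 * j) * Real.exp (2 * M) *
              (2 * (Q : ℝ)) ^ 3 * (2 ^ (2 * n' + 1 + S) * 2 ^ m)
            ≤ 4 * y ^ (2 * q - 1) * y ^ (2 * j) * Real.exp (2 * M) * (10 * (n : ℝ)) ^ 3 *
              2 ^ (3 * n) := by gcongr
          _ = 4 * (y ^ (2 * q - 1) * y ^ (2 * j)) * Real.exp (2 * M) * (10 * (n : ℝ)) ^ 3 *
              2 ^ (3 * n) := by ring
          _ ≤ 4 * y ^ (2 * n) * Real.exp (2 * M) * (10 * (n : ℝ)) ^ 3 * 2 ^ (3 * n) := by gcongr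

end Pool.Agent.SI
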