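import Pool.Agent.SI.CORS2
import Pool.Agent.SI.NRD1
import Pool.Agent.SI.NRD2

/-!
# SI2: the near families, all parameters; the core inequality
-/

namespace Pool.Agent.SI

open Finset Pool.Agent.ZC

/-- a power of two between `2 g` and `4 g` -/
theorem nrf_pow (g : ℕ) (hg : 1 ≤ g) : ∃ L : ℕ, 2 * g ≤ 2 ^ L ∧ 2 ^ L ≤ 4 * g ∧
    ((L + 1 : ℕ) : ℝ) ≤ 4 * (1 + Real.log g) := by
  refine ⟨Nat.clog 2 (2 * g), Nat.le_pow_clog (by norm_num) _, ?_, ?_⟩
  · have h1 : 2 ^ (Nat.clog 2 (2 * g)).pred < 2 * g := Nat.pow_pred_clog_lt_self (by norm_num) (by omega)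
    have h2 : 0 < Nat.clog 2 (2 * g) := Nat.clog_pos (by norm_num) (by omega)
    obtain ⟨L, hL⟩ : ∃ L, Nat.clog 2 (2 * g) = L + 1 := ⟨_, (Nat.succ_pred_eq_of_pos h2).symm⟩
    rw [hL] at h1 ⊢
    rw [Nat.pred_succ] at h1
    rw [pow_succ]
    omega
  · have h1 : 2 ^ (Nat.clog 2 (2 * g)).pred < 2 * g := Nat.pow_pred_clog_lt_self (by norm_num) (by omega)
    have h2 : 0 < Nat.clog 2 (2 * g) := Nat.clog_pos (by norm_num) (by omega)
    obtain ⟨L, hL⟩ : ∃ L, Nat.clog 2 (2 * g) = L + 1 := ⟨_, (Nat.succ_pred_eq_of_pos h2).symm⟩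
    rw [hL] at h1 ⊢
    rw [Nat.pred_succ] at h1
    have h4 : (2 : ℝ) ^ L ≤ 2 * g := by exact_mod_cast h1.le
    have hg' : (1 : ℝ) ≤ g := by exact_mod_cast hg
    have h5 := Real.log_le_log (by positivity) h4
    rw [Real.log_pow, Real.log_mul (by norm_num) (by positivity)] at h5
    have h6 := Real.log_two_gt_d9
    have h7 := Real.log_two_lt_d9
    have h8 : 0 ≤ Real.log g := Real.log_nonneg hg'
    have h9 : ((L : ℝ) - 1) * Real.log 2 ≤ Real.log g := by linarith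
    push_cast
    by_cases h10 : (L : ℝ) ≤ 1
    · linarith
    · have h11 : ((L : ℝ) - 1) * (1 / 2) ≤ ((L : ℝ) - 1) * Real.log 2 :=
        mul_le_mul_of_nonneg_left (by linarith) (by linarith)
      linarith

/-- the near families -/
theorem nr_all : ∃ Cst CL : ℝ, 100 ≤ Cst ∧ 0 ≤ CL ∧ ∀ g S k0 a : ℕ, 1 ≤ g → 1 ≤ a →
      ∃ Lx : ℕ, 0 < Lx ∧ (Lx : ℝ) ≤ CL * (1 + Real.log g) ∧ ∃ M0 : ℕ, ∀ M ≥ M0,
        NRfam g S k0 a Lx M
          ((Cst * ((g : ℝ) + 2) * (a + S + 1)) ^ (4 * ((g + 2) * ((a + S + 1) * M)))) := by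
  refine ⟨100, 4, le_rfl, by norm_num, fun g S k0 a hg ha => ?_⟩
  obtain ⟨L, hL1, hL2, hL3⟩ := nrf_pow g hg
  obtain ⟨M1, h1⟩ := bd_near g S k0 a L hg ha hL1 hL2
  obtain ⟨M2, h2⟩ := bd_far g S k0 a L hg ha hL1 hL2
  refine ⟨L + 1, Nat.succ_pos L, hL3, M1 + M2 + 1, fun M hM => ?_⟩
  have hM1 : M1 ≤ M := by omega
  have hM2 : M2 ≤ M := by omega
  have hM0 : 0 < M := by omega
  have b1 := h1 M hM1
  have b2 := h2 M hM2
  obtain ⟨P, hP⟩ : ∃ P, P = (a + S + 1) * M := ⟨_, rfl⟩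
  have hP1 : 1 ≤ P := by
    rw [hP]
    exact Nat.mul_pos (by omega) hM0
  unfold NRfam
  rw [← hP] at b1 b2 ⊢
  have hp1 : 1 ≤ g * P := Nat.mul_pos hg hP1
  have hq : (g + 1) * P = g * P + P := by ring
  have hn : (g + 2) * P = (g + 1) * P + P := by ring
  refine ⟨fun x k l κ => if x < L then uN (g * P) P k l x κ else uvec (g * P) ((g + 2) * P) k l κ,
    fun x k r j κ => if x < L then lamN (g * P) P k r x (Am ℝ M ((g + 1) * P) * Cn ℝ M j) κ
      else lam (g * P + 2 ^ L * P) ((g + 2) * P) k r (Am ℝ M ((g + 1) * P) * Cn ℝ M j) κ, ?_, ?_⟩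
  · intro k hk r hr j hj
    obtain ⟨Q, hQ, hser⟩ := si_level_blocks (g * P) P L ((g + 2) * P) (a + S) S k r hp1 hP1 hr
      (Am ℝ M ((g + 1) * P) * Cn ℝ M j)
      (by
        rw [hn]
        exact ONE_Am_mem ℝ M ((g + 1) * P) P _ (ONE_Cn_mem ℝ M j P hj))
      (fun ν hν => ONE_Am_eval M ((g + 1) * P) _ ν (by omega))
    refine ⟨Q, hQ, fun l hlp m hm => ?_⟩
    obtain ⟨x, h3, h4, h5⟩ := hser l hlp m (by omega)
    refine ⟨x, fun y hy => ?_, h5⟩
    by_cases hyL : y < L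
    · simp only [if_pos hyL]
      exact h3 y hyL
    · simp only [if_neg hyL]
      have : y = L := by omega
      rw [this]
      exact h4
  · intro x hx k hk r hr j hj l hlp m hm κ
    by_cases hxL : x < L
    · simp only [if_pos hxL]
      exact b1 l hlp j hj k hk r hr x hxL κ m hm
    · simp only [if_neg hxL]
      exact b2 l hlp j hj k hk r hr κ m hm

end Pool.Agent.SI
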