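import Pool.Agent.SI.Defs
import Pool.Agent.ZC.BDC

/-!
# SI: the real functional as a limit
-/

namespace Pool.Agent.SI

open Finset Filter Pool.Agent.ZC

open scoped Topology

private theorem anl_inv_sub (c : ℝ) (hc : c ≠ 0) :
    (PowerSeries.C c - PowerSeries.X)⁻¹ = PowerSeries.mk fun r => (c⁻¹) ^ (r + 1) := by
  rw [PowerSeries.inv_eq_iff_mul_eq_one (by simpa using hc)]
  ext r
  rw [mul_sub, map_sub, mul_comm, PowerSeries.coeff_C_mul, PowerSeries.coeff_mk]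
  rcases r with _ | r
  · simp [hc]
  · rw [PowerSeries.coeff_succ_mul_X, PowerSeries.coeff_mk, PowerSeries.coeff_one,
      if_neg (Nat.succ_ne_zero r), pow_succ' c⁻¹ (r + 1), ← mul_assoc, mul_inv_cancel₀ hc]
    ring

private theorem anl_inv_add (c : ℝ) (hc : c ≠ 0) :
    (PowerSeries.C c + PowerSeries.X)⁻¹ =
      PowerSeries.mk fun r => (-1) ^ r * (c⁻¹) ^ (r + 1) := by
  rw [PowerSeries.inv_eq_iff_mul_eq_one (by simpa using hc)]
  ext r
  rw [mul_add, map_add, mul_comm, PowerSeries.coeff_C_mul, PowerSeries.coeff_mk]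
  rcases r with _ | r
  · simp [hc]
  · rw [PowerSeries.coeff_succ_mul_X, PowerSeries.coeff_mk, PowerSeries.coeff_one,
      if_neg (Nat.succ_ne_zero r), pow_succ' c⁻¹ (r + 1), pow_succ' (-1 : ℝ) r]
    have : c * (-1 * (-1) ^ r * (c⁻¹ * c⁻¹ ^ (r + 1))) = -((c * c⁻¹) * ((-1) ^ r * c⁻¹ ^ (r + 1))) := by
      ring
    rw [this, mul_inv_cancel₀ hc]
    ring

/-- the node `k + 1/2` -/
private noncomputable def anlN (k : ℕ) : ℝ := (2 * (k : ℝ) + 1) / 2

private theorem anlN_pos (k : ℕ) : 0 < anlN k := by unfold anlN; positivity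

private theorem anl_pf (p l ν : ℕ) (hl : l < p) :
    PowerSeries.C (8 * ((p + ν : ℕ) : ℝ)) *
        (PowerSeries.C ((2 * ((p + ν : ℕ) : ℝ)) ^ 2) - yl ℝ p l)⁻¹ =
      (PowerSeries.C (anlN (l + ν)) - PowerSeries.X)⁻¹ +
      (PowerSeries.C (anlN (2 * p - 1 - l + ν)) + PowerSeries.X)⁻¹ := by
  have hcast : ((2 * p - 1 - l : ℕ) : ℝ) = 2 * (p : ℝ) - 1 - l := by
    rw [Nat.cast_sub (by omega), Nat.cast_sub (by omega)]; push_cast; ring
  have hne1 : anlN (l + ν) ≠ 0 := (anlN_pos _).ne'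
  have hne2 : anlN (2 * p - 1 - l + ν) ≠ 0 := (anlN_pos _).ne'
  set α : PowerSeries ℝ := PowerSeries.C (anlN (l + ν)) - PowerSeries.X with hα
  set β : PowerSeries ℝ := PowerSeries.C (anlN (2 * p - 1 - l + ν)) + PowerSeries.X with hβ
  set s : ℝ := 2 * ((p + ν : ℕ) : ℝ) with hs
  have hα1 : α * α⁻¹ = 1 := PowerSeries.mul_inv_cancel _ (by rw [hα]; simpa using hne1)
  have hβ1 : β * β⁻¹ = 1 := PowerSeries.mul_inv_cancel _ (by rw [hβ]; simpa using hne2)
  have hsum : α + β = PowerSeries.C s := by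
    rw [hα, hβ]
    have : PowerSeries.C (anlN (l + ν)) - PowerSeries.X +
      (PowerSeries.C (anlN (2 * p - 1 - l + ν)) + PowerSeries.X) =
      PowerSeries.C (anlN (l + ν)) + PowerSeries.C (anlN (2 * p - 1 - l + ν)) := by ring
    rw [this, ← map_add]
    congr 1
    rw [hs, anlN, anlN, Nat.cast_add, Nat.cast_add, hcast]
    push_cast
    ring
  have hprod : PowerSeries.C (s ^ 2) - yl ℝ p l = PowerSeries.C (4 : ℝ) * (α * β) := by
    have h1 : PowerSeries.C s - (PowerSeries.C (2 * (p : ℝ) - 1 - 2 * (l : ℝ)) +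
        PowerSeries.C (2 : ℝ) * PowerSeries.X) = PowerSeries.C (2 : ℝ) * α := by
      rw [hα, mul_sub, ← map_mul]
      have : PowerSeries.C s - (PowerSeries.C (2 * (p : ℝ) - 1 - 2 * (l : ℝ)) +
        PowerSeries.C (2 : ℝ) * PowerSeries.X) =
        (PowerSeries.C s - PowerSeries.C (2 * (p : ℝ) - 1 - 2 * (l : ℝ))) -
        PowerSeries.C (2 : ℝ) * PowerSeries.X := by ring
      rw [this, ← map_sub]
      congr 2
      rw [hs, anlN]
      push_cast
      ring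
    have h2 : PowerSeries.C s + (PowerSeries.C (2 * (p : ℝ) - 1 - 2 * (l : ℝ)) +
        PowerSeries.C (2 : ℝ) * PowerSeries.X) = PowerSeries.C (2 : ℝ) * β := by
      rw [hβ, mul_add, ← map_mul, ← add_assoc, ← map_add]
      congr 2
      rw [hs, anlN, Nat.cast_add, Nat.cast_add, hcast]
      ring
    have h3 : PowerSeries.C (s ^ 2) - yl ℝ p l =
        (PowerSeries.C s - (PowerSeries.C (2 * (p : ℝ) - 1 - 2 * (l : ℝ)) +
        PowerSeries.C (2 : ℝ) * PowerSeries.X)) *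
        (PowerSeries.C s + (PowerSeries.C (2 * (p : ℝ) - 1 - 2 * (l : ℝ)) +
        PowerSeries.C (2 : ℝ) * PowerSeries.X)) := by
      unfold yl
      rw [map_pow]; ring
    rw [h3, h1, h2]
    have h4 : PowerSeries.C (4 : ℝ) = PowerSeries.C (2 : ℝ) * PowerSeries.C (2 : ℝ) := by
      rw [← map_mul]; norm_num
    rw [h4]; ring
  rw [hprod, PowerSeries.mul_inv_rev, PowerSeries.mul_inv_rev, PowerSeries.C_inv]
  have h5 : α⁻¹ + β⁻¹ = PowerSeries.C s * (β⁻¹ * α⁻¹) := by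
    rw [← hsum]
    calc α⁻¹ + β⁻¹ = (β * β⁻¹) * α⁻¹ + (α * α⁻¹) * β⁻¹ := by rw [hα1, hβ1]; ring
      _ = (α + β) * (β⁻¹ * α⁻¹) := by ring
  rw [h5]
  have h6 : PowerSeries.C (8 * ((p + ν : ℕ) : ℝ)) * (β⁻¹ * α⁻¹ * PowerSeries.C ((4 : ℝ)⁻¹)) =
      (PowerSeries.C (8 * ((p + ν : ℕ) : ℝ)) * PowerSeries.C ((4 : ℝ)⁻¹)) * (β⁻¹ * α⁻¹) := by ring
  rw [h6, ← map_mul]
  congr 2
  rw [hs]
  ring

/-- `∑ 1/(k+1/2)^i` -/
private theorem anl_hasSum (i : ℕ) (hi : 2 ≤ i) :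
    HasSum (fun k : ℕ => (anlN k)⁻¹ ^ i) (((2 : ℝ) ^ i - 1) * zr i) := by
  have hsm : Summable fun n : ℕ => 1 / ((n : ℝ) + 1) ^ i := by
    have h := (Real.summable_one_div_nat_pow (p := i)).2 (by omega)
    have h2 := (summable_nat_add_iff 1).2 h
    simpa using h2
  have he : Summable fun k : ℕ => 1 / (((2 * k : ℕ) : ℝ) + 1) ^ i :=
    hsm.comp_injective (fun a b h => by simpa using h)
  have ho : Summable fun k : ℕ => 1 / (((2 * k + 1 : ℕ) : ℝ) + 1) ^ i :=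
    hsm.comp_injective (fun a b h => by simpa using h)
  have h1 := tsum_even_add_odd (f := fun n : ℕ => 1 / ((n : ℝ) + 1) ^ i) he ho
  have h2 : ∑' k : ℕ, 1 / (((2 * k + 1 : ℕ) : ℝ) + 1) ^ i = ((2 : ℝ) ^ i)⁻¹ * zr i := by
    rw [zr, ← tsum_mul_left]
    refine tsum_congr fun k => ?_
    have : (((2 * k + 1 : ℕ) : ℝ) + 1) = 2 * ((k : ℝ) + 1) := by push_cast; ring
    rw [this, mul_pow]
    field_simp
  have h3 : ∑' k : ℕ, 1 / (((2 * k : ℕ) : ℝ) + 1) ^ i = (1 - ((2 : ℝ) ^ i)⁻¹) * zr i := by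
    rw [h2] at h1
    have h4 : ∑' n : ℕ, 1 / ((n : ℝ) + 1) ^ i = zr i := rfl
    rw [h4] at h1
    linarith
  have h4 := he.hasSum
  rw [h3] at h4
  have h5 := h4.mul_left ((2 : ℝ) ^ i)
  have h6 : (2 : ℝ) ^ i * ((1 - ((2 : ℝ) ^ i)⁻¹) * zr i) = ((2 : ℝ) ^ i - 1) * zr i := by
    have : (2 : ℝ) ^ i ≠ 0 := by positivity
    field_simp
  rw [h6] at h5
  have h7 : (fun k : ℕ => (anlN k)⁻¹ ^ i) =
      fun k : ℕ => (2 : ℝ) ^ i * (1 / (((2 * k : ℕ) : ℝ) + 1) ^ i) := by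
    funext k
    rw [anlN, inv_div, div_pow]
    push_cast
    ring
  rw [h7]
  exact h5

/-- shifted sums, exponent at least two -/
private theorem anl_lim2 (m i : ℕ) (hi : 2 ≤ i) :
    Tendsto (fun K : ℕ => ∑ k ∈ range K, (anlN (m + k))⁻¹ ^ i) atTop
      (𝓝 (((2 : ℝ) ^ i - 1) * zr i - ∑ k ∈ range m, (anlN k)⁻¹ ^ i)) := by
  have h1 : Tendsto (fun K : ℕ => ∑ n ∈ range (K + m), (anlN n)⁻¹ ^ i) atTop
      (𝓝 (((2 : ℝ) ^ i - 1) * zr i)) :=
    (anl_hasSum i hi).tendsto_sum_nat.comp (tendsto_add_atTop_nat m)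
  have h2 : ∀ K : ℕ, ∑ k ∈ range K, (anlN (m + k))⁻¹ ^ i =
      ∑ n ∈ range (K + m), (anlN n)⁻¹ ^ i - ∑ n ∈ range m, (anlN n)⁻¹ ^ i := by
    intro K
    rw [add_comm K, Finset.sum_range_add_sub_sum_range]
  simp_rw [h2]
  exact h1.sub_const _

/-- shifted sums, exponent one -/
private theorem anl_lim1 (m : ℕ) :
    Tendsto (fun K : ℕ => ∑ k ∈ range K, (anlN (m + k))⁻¹ - ∑ k ∈ range K, (anlN k)⁻¹) atTop
      (𝓝 (- ∑ k ∈ range m, (anlN k)⁻¹)) := by
  have h2 : ∀ K : ℕ, ∑ k ∈ range K, (anlN (m + k))⁻¹ - ∑ k ∈ range K, (anlN k)⁻¹ =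
      ∑ j ∈ range m, (anlN (K + j))⁻¹ - ∑ n ∈ range m, (anlN n)⁻¹ := by
    intro K
    have e1 := Finset.sum_range_add (fun n => (anlN n)⁻¹) m K
    have e2 := Finset.sum_range_add (fun n => (anlN n)⁻¹) K m
    rw [add_comm K m] at e2
    linarith
  have h4 : Tendsto (fun K : ℕ => ∑ j ∈ range m, (anlN (K + j))⁻¹) atTop
      (𝓝 (∑ _j ∈ range m, (0 : ℝ))) := by
    refine tendsto_finsetSum _ fun j _ => ?_
    have h5 : Tendsto (fun n : ℕ => (anlN n)⁻¹) atTop (𝓝 0) := by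
      have h6 : Tendsto (fun n : ℕ => anlN n) atTop atTop := by
        unfold anlN
        refine Tendsto.atTop_div_const (by norm_num) ?_
        refine tendsto_atTop_add_const_right _ _ ?_
        exact Tendsto.const_mul_atTop (by norm_num) tendsto_natCast_atTop_atTop
      exact tendsto_inv_atTop_zero.comp h6
    exact h5.comp (tendsto_add_atTop_nat j)
  rw [Finset.sum_const_zero] at h4
  simp_rw [h2]
  have h5 := h4.sub_const (∑ n ∈ range m, (anlN n)⁻¹)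
  rw [zero_sub] at h5
  exact h5

private theorem anl_coeff_gh (p l r : ℕ) :
    PowerSeries.coeff r (gh ℝ p l) =
      ∑ k ∈ range l, (anlN k)⁻¹ ^ (r + 1) +
      (-1) ^ r * ∑ k ∈ range (2 * p - 1 - l), (anlN k)⁻¹ ^ (r + 1) := by
  unfold gh
  rw [map_add, map_sum, map_sum, Finset.mul_sum]
  congr 1
  · refine Finset.sum_congr rfl fun k _ => ?_
    have h := anl_inv_sub (anlN k) (anlN_pos k).ne'
    rw [anlN] at h
    rw [h, PowerSeries.coeff_mk, anlN]
  · refine Finset.sum_congr rfl fun k _ => ?_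
    have h := anl_inv_add (anlN k) (anlN_pos k).ne'
    rw [anlN] at h
    rw [h, PowerSeries.coeff_mk, anlN]

private theorem anl_coeff_zp (T r : ℕ) :
    PowerSeries.coeff r (zp ℝ T zr) =
      if r + 1 ∈ oddS T then 2 * ((2 : ℝ) ^ (r + 1) - 1) * zr (r + 1) else 0 := by
  unfold zp
  rw [map_sum]
  have h : ∀ i ∈ oddS T, PowerSeries.coeff r
      (PowerSeries.C (2 * ((2 : ℝ) ^ i - 1) * zr i) * PowerSeries.X ^ (i - 1)) =
      if i = r + 1 then 2 * ((2 : ℝ) ^ (r + 1) - 1) * zr (r + 1) else 0 := by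
    intro i hi
    have h3 : 3 ≤ i := by
      unfold oddS at hi
      exact (Finset.mem_Icc.1 (Finset.mem_filter.1 hi).1).1
    rw [PowerSeries.coeff_C_mul, PowerSeries.coeff_X_pow]
    by_cases h4 : i = r + 1
    · subst h4
      simp
    · rw [if_neg h4, if_neg (by omega), mul_zero]
  rw [Finset.sum_congr rfl h, Finset.sum_ite_eq']

private theorem anl_coeff_sum (p l r N : ℕ) (hl : l < p) (c : ℝ) :
    PowerSeries.coeff r
      (∑ ν ∈ range N, PowerSeries.C (8 * ((p + ν : ℕ) : ℝ)) *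
        (PowerSeries.C ((2 * ((p + ν : ℕ) : ℝ)) ^ 2) - yl ℝ p l)⁻¹ - PowerSeries.C c) =
      ∑ ν ∈ range N, (anlN (l + ν))⁻¹ ^ (r + 1) +
        (-1) ^ r * ∑ ν ∈ range N, (anlN (2 * p - 1 - l + ν))⁻¹ ^ (r + 1) -
        (if r = 0 then c else 0) := by
  rw [map_sub, map_sum, PowerSeries.coeff_C, Finset.mul_sum, ← Finset.sum_add_distrib]
  congr 1
  refine Finset.sum_congr rfl fun ν _ => ?_
  rw [anl_pf p l ν hl, map_add, anl_inv_sub _ (anlN_pos _).ne', anl_inv_add _ (anlN_pos _).ne',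
    PowerSeries.coeff_mk, PowerSeries.coeff_mk]

theorem si_lim (p T : ℕ) (hp : 1 ≤ p) : ∃ c : ℕ → ℝ, ∀ l < p, ∀ r < T,
    Tendsto (fun N : ℕ => PowerSeries.coeff r
      (∑ ν ∈ range N, PowerSeries.C (8 * ((p + ν : ℕ) : ℝ)) *
        (PowerSeries.C ((2 * ((p + ν : ℕ) : ℝ)) ^ 2) - yl ℝ p l)⁻¹ - PowerSeries.C (c N))) atTop
      (𝓝 (PowerSeries.coeff r (Gh ℝ p l T zr))) := by
  refine ⟨fun N => 2 * ∑ k ∈ range N, (anlN k)⁻¹, fun l hl r hr => ?_⟩
  simp_rw [anl_coeff_sum p l r _ hl]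
  rw [Gh, map_sub, anl_coeff_gh, anl_coeff_zp]
  rcases r with _ | r
  · have h0 : (0 + 1) ∉ oddS T := by
      unfold oddS
      simp
    rw [if_neg h0]
    have h1 := (anl_lim1 l).add (anl_lim1 (2 * p - 1 - l))
    refine (h1.congr fun N => ?_).trans (le_of_eq ?_)
    · simp only [zero_add, pow_one, pow_zero, one_mul, if_true]
      ring
    · congr 1
      simp only [zero_add, pow_one, pow_zero, one_mul]
      ring
  · have h1 := anl_lim2 l (r + 1 + 1) (by omega)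
    have h2 := (anl_lim2 (2 * p - 1 - l) (r + 1 + 1) (by omega)).const_mul ((-1 : ℝ) ^ (r + 1))
    have h3 := h1.add h2
    refine (h3.congr fun N => ?_).trans (le_of_eq ?_)
    · rw [if_neg (Nat.succ_ne_zero r), sub_zero]
    · congr 1
      rcases Nat.even_or_odd r with he | ho
      · have hn : (r + 1 + 1) ∉ oddS T := by
          unfold oddS
          intro h
          have := (Finset.mem_filter.1 h).2
          obtain ⟨a, ha⟩ := he
          obtain ⟨b, hb⟩ := this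
          omega
        rw [if_neg hn, he.add_one.neg_one_pow]
        ring
      · have hn : (r + 1 + 1) ∈ oddS T := by
          unfold oddS
          refine Finset.mem_filter.2 ⟨Finset.mem_Icc.2 ⟨?_, by omega⟩, ?_⟩
          · obtain ⟨b, hb⟩ := ho
            omega
          · obtain ⟨b, hb⟩ := ho
            exact ⟨b + 1, by omega⟩
        rw [if_pos hn, ho.add_one.neg_one_pow]
        ring

end Pool.Agent.SI
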