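import Pool.Agent.SI.ANL
import Pool.Agent.ZC.BDC

/-!
# SI: expansion of the real functional, finitely many near nodes kept
-/

namespace Pool.Agent.SI

open Finset Filter Pool.Agent.ZC

open scoped Topology

/-- coefficients of powers of `y` -/
private theorem nra_coeff_pow (u : ℝ) (N r : ℕ) :
    |PowerSeries.coeff r ((PowerSeries.C u + PowerSeries.C (2 : ℝ) * PowerSeries.X) ^ N)| ≤
      2 ^ r * (|u| + 1) ^ N := by
  induction N generalizing r with
  | zero =>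
    rw [pow_zero, pow_zero, mul_one, PowerSeries.coeff_one]
    split
    · rw [abs_one]; exact one_le_pow₀ (by norm_num)
    · rw [abs_zero]; positivity
  | succ N ih =>
    rw [pow_succ', add_mul, map_add, PowerSeries.coeff_C_mul, mul_assoc, PowerSeries.coeff_C_mul]
    have h1 : |u * PowerSeries.coeff r
        ((PowerSeries.C u + PowerSeries.C (2 : ℝ) * PowerSeries.X) ^ N)| ≤
        |u| * (2 ^ r * (|u| + 1) ^ N) := by
      rw [abs_mul]
      exact mul_le_mul_of_nonneg_left (ih r) (abs_nonneg u)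
    rcases r with _ | r
    · rw [mul_comm PowerSeries.X, PowerSeries.coeff_zero_mul_X, mul_zero, add_zero]
      refine h1.trans ?_
      rw [pow_succ (|u| + 1) N]
      have : 0 ≤ (2 : ℝ) ^ 0 * (|u| + 1) ^ N := by positivity
      nlinarith
    · rw [mul_comm PowerSeries.X, PowerSeries.coeff_succ_mul_X]
      have h2 := ih r
      refine (abs_add_le _ _).trans ?_
      rw [abs_mul (2 : ℝ), abs_of_pos (by norm_num : (0 : ℝ) < 2)]
      rw [pow_succ (|u| + 1) N, pow_succ (2 : ℝ) r] at *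
      nlinarith

private theorem nra_coeff_yl (p l N r : ℕ) (hl : l < p) :
    |PowerSeries.coeff r (yl ℝ p l ^ N)| ≤ 2 ^ r * (2 * (p : ℝ)) ^ (2 * N) := by
  unfold yl
  rw [← pow_mul]
  refine (nra_coeff_pow _ _ _).trans ?_
  have h1 : |2 * (p : ℝ) - 1 - 2 * (l : ℝ)| + 1 ≤ 2 * (p : ℝ) := by
    have h2 : (l : ℝ) + 1 ≤ p := by exact_mod_cast hl
    have h3 : (0 : ℝ) ≤ l := Nat.cast_nonneg l
    rw [abs_of_nonneg (by linarith)]
    linarith
  gcongr

/-! ### The algebraic identity -/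

private theorem nra_div (n : ℕ) (f : Polynomial ℝ) (hf : f ∈ Polynomial.degreeLT ℝ n) (A : ℝ)
    (hA : A ≠ 0) :
    ∃ q ∈ Polynomial.degreeLT ℝ n,
      f = q * (Polynomial.C A - Polynomial.X) +
        Polynomial.C (f.eval A / A ^ n) * Polynomial.X ^ n := by
  set g := f - Polynomial.C (f.eval A / A ^ n) * Polynomial.X ^ n with hg
  have hroot : Polynomial.IsRoot g A := by
    rw [Polynomial.IsRoot, hg]
    simp only [Polynomial.eval_sub, Polynomial.eval_mul, Polynomial.eval_C, Polynomial.eval_pow,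
      Polynomial.eval_X]
    rw [div_mul_cancel₀ _ (pow_ne_zero n hA), sub_self]
  have hmul := Polynomial.mul_divByMonic_eq_iff_isRoot.2 hroot
  set h := g /ₘ (Polynomial.X - Polynomial.C A) with hh
  refine ⟨-h, ?_, ?_⟩
  · apply Submodule.neg_mem
    rw [Polynomial.mem_degreeLT] at hf ⊢
    have hgdeg : g.degree ≤ n := by
      rw [hg]
      refine (Polynomial.degree_sub_le _ _).trans (max_le hf.le ?_)
      exact Polynomial.degree_C_mul_X_pow_le _ _
    by_cases h0 : h = 0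
    · rw [h0, Polynomial.degree_zero]
      exact WithBot.bot_lt_coe n
    · rw [← hmul, Polynomial.degree_mul, Polynomial.degree_X_sub_C,
        Polynomial.degree_eq_natDegree h0] at hgdeg
      rw [Polynomial.degree_eq_natDegree h0]
      have h1 : 1 + h.natDegree ≤ n := by exact_mod_cast hgdeg
      have h2 : h.natDegree < n := by omega
      exact_mod_cast h2
  · calc f = g + Polynomial.C (f.eval A / A ^ n) * Polynomial.X ^ n := by rw [hg]; ring
      _ = (Polynomial.X - Polynomial.C A) * h +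
          Polynomial.C (f.eval A / A ^ n) * Polynomial.X ^ n := by rw [hmul]
      _ = -h * (Polynomial.C A - Polynomial.X) +
          Polynomial.C (f.eval A / A ^ n) * Polynomial.X ^ n := by ring

private theorem nra_div0 (n : ℕ) (f : Polynomial ℝ) (hf : f ∈ Polynomial.degreeLT ℝ n) (A : ℝ) :
    ∃ q ∈ Polynomial.degreeLT ℝ n,
      f = q * (Polynomial.C A - Polynomial.X) + Polynomial.C (f.eval A) := by
  set g := f - Polynomial.C (f.eval A) with hg
  have hroot : Polynomial.IsRoot g A := by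
    rw [Polynomial.IsRoot, hg]
    simp
  have hmul := Polynomial.mul_divByMonic_eq_iff_isRoot.2 hroot
  set h := g /ₘ (Polynomial.X - Polynomial.C A) with hh
  refine ⟨-h, ?_, ?_⟩
  · apply Submodule.neg_mem
    rcases Nat.eq_zero_or_pos n with rfl | hn
    · have hf0 : f = 0 := by
        rw [Polynomial.mem_degreeLT] at hf
        by_contra h0
        rw [Polynomial.degree_eq_natDegree h0] at hf
        exact absurd hf (by simp)
      have hg0 : g = 0 := by rw [hg, hf0]; simp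
      rw [hh, hg0, Polynomial.zero_divByMonic]
      exact Submodule.zero_mem _
    · rw [Polynomial.mem_degreeLT] at hf ⊢
      refine lt_of_le_of_lt (Polynomial.degree_divByMonic_le _ _) ?_
      refine lt_of_le_of_lt (Polynomial.degree_sub_le _ _) (max_lt hf ?_)
      refine lt_of_le_of_lt Polynomial.degree_C_le ?_
      exact_mod_cast hn
  · calc f = g + Polynomial.C (f.eval A) := by rw [hg]; ring
      _ = (Polynomial.X - Polynomial.C A) * h + Polynomial.C (f.eval A) := by rw [hmul]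
      _ = -h * (Polynomial.C A - Polynomial.X) + Polynomial.C (f.eval A) := by ring

private theorem nra_cc (p l : ℕ) (s : ℝ) (hl : l < p) (hs : 2 * (p : ℝ) - 1 < s) :
    PowerSeries.constantCoeff (PowerSeries.C (s ^ 2) - yl ℝ p l) ≠ 0 := by
  unfold yl
  simp only [map_sub, map_pow, map_add, map_mul, PowerSeries.constantCoeff_C,
    PowerSeries.constantCoeff_X, mul_zero, add_zero]
  have h2 : (l : ℝ) + 1 ≤ p := by exact_mod_cast hl
  have h3 : (0 : ℝ) ≤ l := Nat.cast_nonneg l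
  have h4 : (2 * (p : ℝ) - 1 - 2 * l) ^ 2 < s ^ 2 := by
    apply pow_lt_pow_left₀ _ (by linarith) (by norm_num)
    linarith
  linarith

private theorem nra_term (n p l : ℕ) (f q : Polynomial ℝ) (A s c : ℝ)
    (h0 : PowerSeries.constantCoeff (PowerSeries.C A - yl ℝ p l) ≠ 0)
    (hq : f = q * (Polynomial.C A - Polynomial.X) + Polynomial.C c * Polynomial.X ^ n) :
    ev ℝ p l f * (PowerSeries.C s * (PowerSeries.C A - yl ℝ p l)⁻¹) =
      ev ℝ p l (Polynomial.C s * q) +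
        PowerSeries.C (s * c) * (yl ℝ p l ^ n * (PowerSeries.C A - yl ℝ p l)⁻¹) := by
  have h1 : ev ℝ p l f = ev ℝ p l q * (PowerSeries.C A - yl ℝ p l) +
      PowerSeries.C c * yl ℝ p l ^ n := by
    rw [hq]
    unfold ev
    simp only [map_add, map_mul, map_sub, map_pow, Polynomial.aeval_X, Polynomial.aeval_C]
    simp
  have h2 : ev ℝ p l (Polynomial.C s * q) = PowerSeries.C s * ev ℝ p l q := by
    unfold ev
    rw [map_mul, Polynomial.aeval_C]
    simp
  have h3 := PowerSeries.mul_inv_cancel _ h0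
  rw [h1, h2]
  set W := PowerSeries.C A - yl ℝ p l with hW
  calc (ev ℝ p l q * W + PowerSeries.C c * yl ℝ p l ^ n) * (PowerSeries.C s * W⁻¹)
      = PowerSeries.C s * ev ℝ p l q * (W * W⁻¹) +
        (PowerSeries.C s * PowerSeries.C c) * (yl ℝ p l ^ n * W⁻¹) := by ring
    _ = _ := by rw [h3, ← map_mul, mul_one]

private theorem nra_rho {p q : ℕ} (hp : 0 < p) (hq : p < q) :
    0 ≤ ((p : ℝ) / q) ^ 2 ∧ ((p : ℝ) / q) ^ 2 < 1 := by
  have hp' : (0 : ℝ) < p := by exact_mod_cast hp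
  have hq' : (p : ℝ) < q := by exact_mod_cast hq
  refine ⟨by positivity, ?_⟩
  have h1 : (p : ℝ) / q < 1 := by rw [div_lt_one (by linarith)]; exact hq'
  exact pow_lt_one₀ (by positivity) h1 (by norm_num)

private theorem nra_sq {p q : ℕ} (hp : 0 < p) (hq : p < q) (s : ℝ) (hs : 2 * (q : ℝ) ≤ s) :
    (2 * (p : ℝ)) ^ 2 ≤ ((p : ℝ) / q) ^ 2 * s ^ 2 := by
  have hp' : (0 : ℝ) < p := by exact_mod_cast hp
  have hq' : (p : ℝ) < q := by exact_mod_cast hq
  have hq0 : (0 : ℝ) < q := by linarith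
  rw [← mul_pow]
  have h1 : 2 * (p : ℝ) = (p : ℝ) / q * (2 * q) := by field_simp
  have h2 : 2 * (p : ℝ) ≤ (p : ℝ) / q * s := by
    rw [h1]
    exact mul_le_mul_of_nonneg_left hs (by positivity)
  exact pow_le_pow_left₀ (by positivity) h2 2

private theorem nra_bound (n p q l r j : ℕ) (hl : l < p) (hq : p < q) (s : ℝ)
    (hs : 2 * (q : ℝ) ≤ s) :
    |PowerSeries.coeff r (yl ℝ p l ^ (n + j))| / (s ^ 2) ^ (n + j) ≤
      2 ^ r * (((p : ℝ) / q) ^ 2) ^ j := by
  have hp0 : 0 < p := by omega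
  have hp : (0 : ℝ) < p := by exact_mod_cast hp0
  have hq' : (p : ℝ) < q := by exact_mod_cast hq
  have hs0 : 0 < s := by linarith
  have hρ := nra_rho hp0 hq
  rw [div_le_iff₀ (by positivity)]
  refine (nra_coeff_yl p l (n + j) r hl).trans ?_
  rw [mul_assoc]
  refine mul_le_mul_of_nonneg_left ?_ (by positivity)
  rw [pow_mul, pow_add, pow_add (s ^ 2)]
  have h1 : ((2 * (p : ℝ)) ^ 2) ^ n ≤ (s ^ 2) ^ n := by
    gcongr
    linarith
  have h2 : ((2 * (p : ℝ)) ^ 2) ^ j ≤ (((p : ℝ) / q) ^ 2) ^ j * (s ^ 2) ^ j := by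
    rw [← mul_pow]
    exact pow_le_pow_left₀ (by positivity) (nra_sq hp0 hq s hs) j
  calc ((2 * (p : ℝ)) ^ 2) ^ n * ((2 * (p : ℝ)) ^ 2) ^ j
      ≤ (s ^ 2) ^ n * ((((p : ℝ) / q) ^ 2) ^ j * (s ^ 2) ^ j) := by gcongr
    _ = _ := by ring

private theorem nra_geom (n p q l r : ℕ) (hl : l < p) (hq : p < q) (s : ℝ)
    (hs : 2 * (q : ℝ) ≤ s) :
    HasSum (fun j : ℕ => PowerSeries.coeff r (yl ℝ p l ^ (n + j)) / (s ^ 2) ^ (n + j + 1))
      (PowerSeries.coeff r (yl ℝ p l ^ n * (PowerSeries.C (s ^ 2) - yl ℝ p l)⁻¹) /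
        (s ^ 2) ^ n) := by
  have hp0 : 0 < p := by omega
  have hp : (0 : ℝ) < p := by exact_mod_cast hp0
  have hq' : (p : ℝ) < q := by exact_mod_cast hq
  have hs0 : 0 < s := by linarith
  have hρ := nra_rho hp0 hq
  have hA0 : s ^ 2 ≠ 0 := by positivity
  set W := (PowerSeries.C (s ^ 2) - yl ℝ p l)⁻¹ with hW
  have hW1 : (PowerSeries.C (s ^ 2) - yl ℝ p l) * W = 1 :=
    PowerSeries.mul_inv_cancel _ (nra_cc p l s hl (by linarith))
  have hsm : Summable (fun j : ℕ =>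
      PowerSeries.coeff r (yl ℝ p l ^ (n + j)) / (s ^ 2) ^ (n + j + 1)) := by
    have hg : Summable (fun j : ℕ => (2 ^ r / s ^ 2) * (((p : ℝ) / q) ^ 2) ^ j) :=
      (summable_geometric_of_lt_one hρ.1 hρ.2).mul_left _
    refine Summable.of_norm_bounded hg fun j => ?_
    rw [Real.norm_eq_abs, abs_div, abs_of_pos (by positivity : (0 : ℝ) < (s ^ 2) ^ (n + j + 1)),
      pow_succ, ← div_div]
    have := nra_bound n p q l r j hl hq s hs
    calc |PowerSeries.coeff r (yl ℝ p l ^ (n + j))| / (s ^ 2) ^ (n + j) / s ^ 2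
        ≤ (2 ^ r * (((p : ℝ) / q) ^ 2) ^ j) / s ^ 2 := by gcongr
      _ = _ := by ring
  rw [hsm.hasSum_iff_tendsto_nat]
  have hpart : ∀ J : ℕ, ∑ j ∈ range J,
      PowerSeries.coeff r (yl ℝ p l ^ (n + j)) / (s ^ 2) ^ (n + j + 1) =
      PowerSeries.coeff r (yl ℝ p l ^ n * W) / (s ^ 2) ^ n -
        PowerSeries.coeff r (yl ℝ p l ^ (n + J) * W) / (s ^ 2) ^ (n + J) := by
    intro J
    induction J with
    | zero => simp
    | succ J ih =>
      rw [Finset.sum_range_succ, ih]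
      have h1 : yl ℝ p l ^ (n + (J + 1)) * W =
          PowerSeries.C (s ^ 2) * (yl ℝ p l ^ (n + J) * W) - yl ℝ p l ^ (n + J) := by
        calc yl ℝ p l ^ (n + (J + 1)) * W
            = PowerSeries.C (s ^ 2) * (yl ℝ p l ^ (n + J) * W) -
              yl ℝ p l ^ (n + J) * ((PowerSeries.C (s ^ 2) - yl ℝ p l) * W) := by ring
          _ = _ := by rw [hW1, mul_one]
      rw [h1, map_sub, PowerSeries.coeff_C_mul, ← add_assoc, pow_succ (s ^ 2) (n + J)]
      field_simp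
      ring
  simp_rw [hpart]
  have h0 : Tendsto (fun J : ℕ => PowerSeries.coeff r (yl ℝ p l ^ (n + J) * W) /
      (s ^ 2) ^ (n + J)) atTop (𝓝 0) := by
    have h1 : ∀ J : ℕ, PowerSeries.coeff r (yl ℝ p l ^ (n + J) * W) / (s ^ 2) ^ (n + J) =
        ∑ x ∈ antidiagonal r, (PowerSeries.coeff x.1 (yl ℝ p l ^ (n + J)) / (s ^ 2) ^ (n + J)) *
          PowerSeries.coeff x.2 W := by
      intro J
      rw [PowerSeries.coeff_mul, Finset.sum_div]
      refine Finset.sum_congr rfl fun x _ => ?_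
      ring
    simp_rw [h1]
    have h2 : Tendsto (fun J : ℕ => ∑ x ∈ antidiagonal r,
        (PowerSeries.coeff x.1 (yl ℝ p l ^ (n + J)) / (s ^ 2) ^ (n + J)) *
          PowerSeries.coeff x.2 W) atTop (𝓝 (∑ x ∈ antidiagonal r, 0 *
            PowerSeries.coeff x.2 W)) := by
      refine tendsto_finsetSum _ fun x _ => ?_
      refine Tendsto.mul_const _ ?_
      have h3 : Tendsto (fun J : ℕ => 2 ^ x.1 * (((p : ℝ) / q) ^ 2) ^ J) atTop
          (𝓝 (2 ^ x.1 * 0)) :=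
        (tendsto_pow_atTop_nhds_zero_of_lt_one hρ.1 hρ.2).const_mul _
      rw [mul_zero] at h3
      refine squeeze_zero_norm (fun J => ?_) h3
      rw [Real.norm_eq_abs, abs_div, abs_of_pos (by positivity : (0 : ℝ) < (s ^ 2) ^ (n + J))]
      exact nra_bound n p q l x.1 J hl hq s hs
    simpa using h2
  have h3 := tendsto_const_nhds (x := PowerSeries.coeff r (yl ℝ p l ^ n * W) / (s ^ 2) ^ n)
    (f := (atTop : Filter ℕ))
  simpa using h3.sub h0

/-! ### The double series -/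

private theorem nra_eval_bound (n : ℕ) (f : Polynomial ℝ) (hf : f ∈ Polynomial.degreeLT ℝ n) :
    ∃ F : ℝ, 0 ≤ F ∧ ∀ Y : ℝ, 1 ≤ Y → |f.eval Y| * Y ≤ F * Y ^ n := by
  by_cases h0 : f = 0
  · refine ⟨0, le_rfl, fun Y _ => ?_⟩
    rw [h0, Polynomial.eval_zero, abs_zero, zero_mul, zero_mul]
  · rw [Polynomial.mem_degreeLT] at hf
    have hdeg : f.natDegree < n := (Polynomial.natDegree_lt_iff_degree_lt h0).2 hf
    refine ⟨∑ i ∈ range n, |f.coeff i|, Finset.sum_nonneg fun i _ => abs_nonneg _, fun Y hY => ?_⟩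
    rw [Polynomial.eval_eq_sum_range' hdeg Y, Finset.sum_mul]
    refine (mul_le_mul_of_nonneg_right (Finset.abs_sum_le_sum_abs _ _) (by linarith)).trans ?_
    rw [Finset.sum_mul]
    refine Finset.sum_le_sum fun i hi => ?_
    have hi' : i + 1 ≤ n := Finset.mem_range.1 hi
    rw [abs_mul, abs_of_nonneg (by positivity : 0 ≤ Y ^ i), mul_assoc, ← pow_succ]
    exact mul_le_mul_of_nonneg_left (pow_le_pow_right₀ hY hi') (abs_nonneg _)

/-- the terms of the double series -/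
private noncomputable def nraT (n p q : ℕ) (f : Polynomial ℝ) (l r i j : ℕ) : ℝ :=
  8 * ((q + i : ℕ) : ℝ) * f.eval ((2 * ((q + i : ℕ) : ℝ)) ^ 2) /
    ((2 * ((q + i : ℕ) : ℝ)) ^ 2) ^ (n + j + 1) * PowerSeries.coeff r (yl ℝ p l ^ (n + j))

private theorem nra_summable (n p q : ℕ) (hp : 1 ≤ p) (hq : p < q) (f : Polynomial ℝ)
    (hf : f ∈ Polynomial.degreeLT ℝ n) (l r : ℕ) (hl : l < p) :
    Summable (fun x : ℕ × ℕ => nraT n p q f l r x.1 x.2) := by
  obtain ⟨F, hF0, hF⟩ := nra_eval_bound n f hf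
  have hp1 : (1 : ℝ) ≤ p := by exact_mod_cast hp
  have hq1 : (p : ℝ) < q := by exact_mod_cast hq
  have hρ := nra_rho (by omega : 0 < p) hq
  have h1 : Summable (fun k : ℕ => 1 / ((k : ℝ) + 1) ^ 3) := by
    have h := (Real.summable_one_div_nat_pow (p := 3)).2 (by norm_num)
    have h2 := (summable_nat_add_iff 1).2 h
    simpa using h2
  have h2 : Summable (fun j : ℕ => (((p : ℝ) / q) ^ 2) ^ j) :=
    summable_geometric_of_lt_one hρ.1 hρ.2
  have h3 : Summable (fun x : ℕ × ℕ =>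
      (1 / ((x.1 : ℝ) + 1) ^ 3) * (((p : ℝ) / q) ^ 2) ^ x.2) :=
    Summable.mul_of_nonneg h1 h2 (fun k => by positivity) (fun j => by positivity)
  refine Summable.of_norm_bounded
    (h3.mul_left (4 * F * (2 ^ r * (2 * (p : ℝ)) ^ (2 * n)))) fun x => ?_
  obtain ⟨k, j⟩ := x
  simp only
  rw [Real.norm_eq_abs]
  unfold nraT
  set s := 2 * ((q + k : ℕ) : ℝ) with hs
  have hs8 : 8 * ((q + k : ℕ) : ℝ) = 4 * s := by rw [hs]; ring
  rw [hs8]
  have hk0 : (0 : ℝ) ≤ k := Nat.cast_nonneg k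
  have h4 : 2 * (q : ℝ) ≤ s := by
    rw [hs]; push_cast; linarith
  have hsb : (k : ℝ) + 1 ≤ s := by
    rw [hs]; push_cast; linarith
  have hs1 : 1 ≤ s := by linarith
  have hs0 : 0 < s := by linarith
  have hs3 : 1 / s ^ 3 ≤ (1 / ((k : ℝ) + 1) ^ 3) := by
    apply one_div_le_one_div_of_le (by positivity)
    gcongr
  have hc : |PowerSeries.coeff r (yl ℝ p l ^ (n + j))| ≤
      2 ^ r * (2 * (p : ℝ)) ^ (2 * n) * ((((p : ℝ) / q) ^ 2) ^ j * (s ^ 2) ^ j) := by
    refine (nra_coeff_yl p l (n + j) r hl).trans ?_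
    rw [mul_add, pow_add, ← mul_assoc]
    refine mul_le_mul_of_nonneg_left ?_ (by positivity)
    rw [pow_mul, ← mul_pow]
    exact pow_le_pow_left₀ (by positivity) (nra_sq (by omega : 0 < p) hq s h4) j
  have hev := hF (s ^ 2) (by nlinarith)
  have hden : (0 : ℝ) < (s ^ 2) ^ (n + j + 1) := by positivity
  rw [abs_mul, abs_div, abs_of_pos hden, abs_mul, abs_of_pos (by linarith : 0 < 4 * s)]
  have hev2 : |f.eval (s ^ 2)| ≤ F * (s ^ 2) ^ n / s ^ 2 := by
    rw [le_div_iff₀ (by positivity)]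
    exact hev
  calc 4 * s * |f.eval (s ^ 2)| / (s ^ 2) ^ (n + j + 1) *
        |PowerSeries.coeff r (yl ℝ p l ^ (n + j))|
      ≤ 4 * s * (F * (s ^ 2) ^ n / s ^ 2) / (s ^ 2) ^ (n + j + 1) *
        (2 ^ r * (2 * (p : ℝ)) ^ (2 * n) * ((((p : ℝ) / q) ^ 2) ^ j * (s ^ 2) ^ j)) := by
        gcongr
    _ = 4 * F * (2 ^ r * (2 * (p : ℝ)) ^ (2 * n)) * (1 / s ^ 3) *
        (((p : ℝ) / q) ^ 2) ^ j := by
        have e1 : (s ^ 2) ^ (n + j + 1) = (s ^ 2) ^ n * (s ^ 2) ^ j * s ^ 2 := by ring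
        rw [e1]
        field_simp
    _ ≤ 4 * F * (2 ^ r * (2 * (p : ℝ)) ^ (2 * n)) * (1 / ((k : ℝ) + 1) ^ 3) *
        (((p : ℝ) / q) ^ 2) ^ j := by gcongr
    _ = _ := by ring

private theorem nra_key (n p q : ℕ) (hp : 1 ≤ p) (hq : p < q) (f : Polynomial ℝ)
    (hf : f ∈ Polynomial.degreeLT ℝ n) (l r : ℕ) (hl : l < p) :
    HasSum (fun k : ℕ => gamh q n f k * PowerSeries.coeff r (yl ℝ p l ^ (n + k)))
      (∑' x : ℕ × ℕ, nraT n p q f l r x.1 x.2) ∧
    Tendsto (fun K : ℕ => ∑ k ∈ range K, PowerSeries.coeff r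
      (PowerSeries.C (8 * ((q + k : ℕ) : ℝ) *
        (f.eval ((2 * ((q + k : ℕ) : ℝ)) ^ 2) / ((2 * ((q + k : ℕ) : ℝ)) ^ 2) ^ n)) *
        (yl ℝ p l ^ n * (PowerSeries.C ((2 * ((q + k : ℕ) : ℝ)) ^ 2) - yl ℝ p l)⁻¹))) atTop
      (𝓝 (∑' x : ℕ × ℕ, nraT n p q f l r x.1 x.2)) := by
  have hS := nra_summable n p q hp hq f hf l r hl
  constructor
  · have hS' : HasSum (fun x : ℕ × ℕ => nraT n p q f l r x.2 x.1)
        (∑' x : ℕ × ℕ, nraT n p q f l r x.1 x.2) :=
      (Equiv.prodComm ℕ ℕ).hasSum_iff.2 hS.hasSum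
    have h1 := hS'.prod_fiberwise (fun j => (hS'.summable.prod_factor j).hasSum)
    have e : (fun j : ℕ => ∑' k : ℕ, nraT n p q f l r k j) =
        fun j : ℕ => gamh q n f j * PowerSeries.coeff r (yl ℝ p l ^ (n + j)) := by
      funext j
      unfold gamh nraT
      rw [tsum_mul_right]
    simp only at h1
    rw [e] at h1
    exact h1
  · have h1 := hS.hasSum.prod_fiberwise (fun k => (hS.prod_factor k).hasSum)
    have h2 := h1.tendsto_sum_nat
    refine h2.congr fun K => ?_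
    refine Finset.sum_congr rfl fun k _ => ?_
    simp only
    rw [PowerSeries.coeff_C_mul]
    have h4 : 2 * (q : ℝ) ≤ 2 * ((q + k : ℕ) : ℝ) := by
      have : (0 : ℝ) ≤ k := Nat.cast_nonneg k
      push_cast; linarith
    have h5 := (nra_geom n p q l r hl hq _ h4).mul_left
      (8 * ((q + k : ℕ) : ℝ) * f.eval ((2 * ((q + k : ℕ) : ℝ)) ^ 2))
    have h6 : (fun j : ℕ => nraT n p q f l r k j) = fun j : ℕ =>
        8 * ((q + k : ℕ) : ℝ) * f.eval ((2 * ((q + k : ℕ) : ℝ)) ^ 2) *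
        (PowerSeries.coeff r (yl ℝ p l ^ (n + j)) /
          ((2 * ((q + k : ℕ) : ℝ)) ^ 2) ^ (n + j + 1)) := by
      funext j
      unfold nraT
      ring
    rw [h6, h5.tsum_eq]
    ring

/-! ### The theorem -/

open Polynomial in
/-- expansion of the real functional; the nodes `p ≤ ν < q` are kept -/
theorem si_series' (p q n T : ℕ) (hp : 1 ≤ p) (hq : p < q) (f : Polynomial ℝ)
    (hf : f ∈ Polynomial.degreeLT ℝ n) :
    ∃ Q ∈ Polynomial.degreeLT ℝ n, ∀ l < p, ∀ r < T,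
      HasSum (fun κ : ℕ => gamh q n f κ * PowerSeries.coeff r (yl ℝ p l ^ (n + κ)))
        (PowerSeries.coeff r (ev ℝ p l f * Gh ℝ p l T zr) - PowerSeries.coeff r (ev ℝ p l Q) -
          PowerSeries.coeff r (∑ ν ∈ Ico p q,
            PowerSeries.C (8 * (ν : ℝ) * f.eval ((2 * (ν : ℝ)) ^ 2)) *
              (PowerSeries.C ((2 * (ν : ℝ)) ^ 2) - yl ℝ p l)⁻¹)) := by
  obtain ⟨c, hc⟩ := si_lim p T hp
  have hp1 : (1 : ℝ) ≤ p := by exact_mod_cast hp
  have hpq : p ≤ q := by omega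
  have hne : ∀ k : ℕ, (2 * ((q + k : ℕ) : ℝ)) ^ 2 ≠ 0 := by
    intro k
    have : (0 : ℝ) < ((q + k : ℕ) : ℝ) := by exact_mod_cast (by omega : 0 < q + k)
    positivity
  have hccf : ∀ (ν l : ℕ), p ≤ ν → l < p →
      PowerSeries.constantCoeff (PowerSeries.C ((2 * (ν : ℝ)) ^ 2) - yl ℝ p l) ≠ 0 := by
    intro ν l hν hl
    refine nra_cc p l _ hl ?_
    have : (p : ℝ) ≤ ν := by exact_mod_cast hν
    linarith
  choose q1 hq11 hq12 using fun k : ℕ => nra_div n f hf ((2 * ((q + k : ℕ) : ℝ)) ^ 2) (hne k)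
  choose q0 hq01 hq02 using fun ν : ℕ => nra_div0 n f hf ((2 * (ν : ℝ)) ^ 2)
  set V : ℕ → ℕ → ℝ := fun l r => ∑' x : ℕ × ℕ, nraT n p q f l r x.1 x.2 with hV
  set NR : ℕ → PowerSeries ℝ := fun l => ∑ ν ∈ Ico p q,
            PowerSeries.C (8 * (ν : ℝ) * f.eval ((2 * (ν : ℝ)) ^ 2)) *
              (PowerSeries.C ((2 * (ν : ℝ)) ^ 2) - yl ℝ p l)⁻¹ with hNR
  set KW : ℕ → ℕ → PowerSeries ℝ := fun l N =>
    ∑ ν ∈ range N, PowerSeries.C (8 * ((p + ν : ℕ) : ℝ)) *
        (PowerSeries.C ((2 * ((p + ν : ℕ) : ℝ)) ^ 2) - yl ℝ p l)⁻¹ - PowerSeries.C (c N) with hKW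
  set QK : ℕ → ℝ[X] := fun K => ∑ ν ∈ Ico p q, Polynomial.C (8 * (ν : ℝ)) * q0 ν +
    ∑ k ∈ range K, Polynomial.C (8 * ((q + k : ℕ) : ℝ)) * q1 k -
    Polynomial.C (c (q - p + K)) * f with hQK
  have hQKmem : ∀ K, QK K ∈ degreeLT ℝ n := by
    intro K
    rw [hQK]
    refine Submodule.sub_mem _ (Submodule.add_mem _ (Submodule.sum_mem _ fun k _ => ?_)
      (Submodule.sum_mem _ fun k _ => ?_)) ?_
    · rw [← Polynomial.smul_eq_C_mul]
      exact Submodule.smul_mem _ _ (hq01 k)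
    · rw [← Polynomial.smul_eq_C_mul]
      exact Submodule.smul_mem _ _ (hq11 k)
    · rw [← Polynomial.smul_eq_C_mul]
      exact Submodule.smul_mem _ _ hf
  have hevQ : ∀ K l, l < p → ev ℝ p l (QK K) = ev ℝ p l f * KW l (q - p + K) - NR l -
      ∑ k ∈ range K, (PowerSeries.C (8 * ((q + k : ℕ) : ℝ) *
        (f.eval ((2 * ((q + k : ℕ) : ℝ)) ^ 2) / ((2 * ((q + k : ℕ) : ℝ)) ^ 2) ^ n)) *
        (yl ℝ p l ^ n * (PowerSeries.C ((2 * ((q + k : ℕ) : ℝ)) ^ 2) - yl ℝ p l)⁻¹)) := by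
    intro K l hl
    have h1 : ∀ k, ev ℝ p l (Polynomial.C (8 * ((q + k : ℕ) : ℝ)) * q1 k) =
        ev ℝ p l f * (PowerSeries.C (8 * ((q + k : ℕ) : ℝ)) *
          (PowerSeries.C ((2 * ((q + k : ℕ) : ℝ)) ^ 2) - yl ℝ p l)⁻¹) -
        PowerSeries.C (8 * ((q + k : ℕ) : ℝ) *
        (f.eval ((2 * ((q + k : ℕ) : ℝ)) ^ 2) / ((2 * ((q + k : ℕ) : ℝ)) ^ 2) ^ n)) *
        (yl ℝ p l ^ n * (PowerSeries.C ((2 * ((q + k : ℕ) : ℝ)) ^ 2) - yl ℝ p l)⁻¹) := by
      intro k
      rw [nra_term n p l f (q1 k) _ _ _ (hccf (q + k) l (by omega) hl) (hq12 k)]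
      ring
    have h1' : ∀ ν ∈ Ico p q, ev ℝ p l (Polynomial.C (8 * (ν : ℝ)) * q0 ν) =
        ev ℝ p l f * (PowerSeries.C (8 * (ν : ℝ)) *
          (PowerSeries.C ((2 * (ν : ℝ)) ^ 2) - yl ℝ p l)⁻¹) -
        PowerSeries.C (8 * (ν : ℝ) * f.eval ((2 * (ν : ℝ)) ^ 2)) *
          (PowerSeries.C ((2 * (ν : ℝ)) ^ 2) - yl ℝ p l)⁻¹ := by
      intro ν hν
      rw [nra_term 0 p l f (q0 ν) _ _ (f.eval ((2 * (ν : ℝ)) ^ 2))
        (hccf ν l (Finset.mem_Ico.1 hν).1 hl) (by rw [pow_zero, mul_one]; exact hq02 ν)]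
      rw [pow_zero, one_mul]
      ring
    have h2 : ev ℝ p l (Polynomial.C (c (q - p + K)) * f) =
        ev ℝ p l f * PowerSeries.C (c (q - p + K)) := by
      unfold ev
      rw [map_mul, Polynomial.aeval_C, mul_comm]
      rfl
    have h3 : ev ℝ p l (QK K) = ∑ ν ∈ Ico p q, ev ℝ p l (Polynomial.C (8 * (ν : ℝ)) * q0 ν) +
        ∑ k ∈ range K, ev ℝ p l (Polynomial.C (8 * ((q + k : ℕ) : ℝ)) * q1 k) -
        ev ℝ p l (Polynomial.C (c (q - p + K)) * f) := by
      rw [hQK]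
      unfold ev
      rw [map_sub, map_add, map_sum, map_sum]
    rw [h3, h2, Finset.sum_congr rfl fun k _ => h1 k, Finset.sum_sub_distrib,
      Finset.sum_congr rfl h1', Finset.sum_sub_distrib, ← Finset.mul_sum, ← Finset.mul_sum]
    have h5 : KW l (q - p + K) = ∑ ν ∈ Ico p q, PowerSeries.C (8 * (ν : ℝ)) *
          (PowerSeries.C ((2 * (ν : ℝ)) ^ 2) - yl ℝ p l)⁻¹ +
        ∑ k ∈ range K, PowerSeries.C (8 * ((q + k : ℕ) : ℝ)) *
          (PowerSeries.C ((2 * ((q + k : ℕ) : ℝ)) ^ 2) - yl ℝ p l)⁻¹ -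
        PowerSeries.C (c (q - p + K)) := by
      rw [hKW]
      simp only
      rw [Finset.sum_range_add, Finset.sum_Ico_eq_sum_range]
      congr 2
      refine Finset.sum_congr rfl fun k _ => ?_
      have : p + (q - p + k) = q + k := by omega
      rw [this]
    rw [h5, hNR]
    ring
  have hlim : ∀ l < p, ∀ r < T, Tendsto (fun K => PowerSeries.coeff r (ev ℝ p l (QK K))) atTop
      (𝓝 (PowerSeries.coeff r (ev ℝ p l f * Gh ℝ p l T zr) - PowerSeries.coeff r (NR l) -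
        V l r)) := by
    intro l hl r hr
    have h1 : Tendsto (fun N => PowerSeries.coeff r (ev ℝ p l f * KW l N)) atTop
        (𝓝 (PowerSeries.coeff r (ev ℝ p l f * Gh ℝ p l T zr))) := by
      simp_rw [PowerSeries.coeff_mul]
      refine tendsto_finsetSum _ fun x hx => ?_
      refine Tendsto.const_mul _ (hc l hl x.2 ?_)
      have := Finset.HasAntidiagonal.mem_antidiagonal.1 hx
      omega
    have h1' := h1.comp (tendsto_atTop_mono (fun K => Nat.le_add_left K (q - p)) tendsto_id)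
    have h2 := (nra_key n p q hp hq f hf l r hl).2
    have h3 := (h1'.sub_const (PowerSeries.coeff r (NR l))).sub h2
    refine h3.congr fun K => ?_
    rw [hevQ K l hl, map_sub, map_sub]
    congr 1
    exact (map_sum _ _ _).symm
  -- the space of jets
  let Ψ : ℝ[X] →ₗ[ℝ] (Fin p × Fin T → ℝ) :=
    { toFun := fun g c => PowerSeries.coeff (c.2 : ℕ) (ev ℝ p c.1 g)
      map_add' := by
        intro g h
        funext c
        simp only [Pi.add_apply]
        unfold ev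
        rw [map_add, map_add]
      map_smul' := by
        intro t g
        funext c
        simp only [Pi.smul_apply, RingHom.id_apply]
        unfold ev
        rw [map_smul, PowerSeries.coeff_smul] }
  have hclosed : IsClosed (((degreeLT ℝ n).map Ψ : Submodule ℝ (Fin p × Fin T → ℝ)) :
      Set (Fin p × Fin T → ℝ)) := Submodule.closed_of_finiteDimensional _
  have hv : (fun c : Fin p × Fin T => PowerSeries.coeff (c.2 : ℕ)
      (ev ℝ p c.1 f * Gh ℝ p c.1 T zr) - PowerSeries.coeff (c.2 : ℕ) (NR c.1) - V c.1 c.2) ∈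
      (((degreeLT ℝ n).map Ψ : Submodule ℝ (Fin p × Fin T → ℝ)) :
      Set (Fin p × Fin T → ℝ)) := by
    refine hclosed.mem_of_tendsto (f := fun K => Ψ (QK K)) (b := atTop) ?_ ?_
    · rw [tendsto_pi_nhds]
      intro c
      exact hlim c.1 c.1.2 c.2 c.2.2
    · exact Eventually.of_forall fun K => ⟨QK K, hQKmem K, rfl⟩
  obtain ⟨Q, hQ, hQe⟩ := hv
  refine ⟨Q, hQ, fun l hl r hr => ?_⟩
  have h1 : PowerSeries.coeff r (ev ℝ p l Q) =
      PowerSeries.coeff r (ev ℝ p l f * Gh ℝ p l T zr) - PowerSeries.coeff r (NR l) - V l r :=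
    congrFun hQe (⟨l, hl⟩, ⟨r, hr⟩)
  have h2 : PowerSeries.coeff r (ev ℝ p l f * Gh ℝ p l T zr) - PowerSeries.coeff r (ev ℝ p l Q) -
      PowerSeries.coeff r (NR l) = V l r := by rw [h1]; ring
  rw [h2]
  exact (nra_key n p q hp hq f hf l r hl).1

end Pool.Agent.SI
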