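import Pool.Agent.SI.ANL
import Pool.Agent.SI.NR39A
import Pool.Agent.ZC.BDC

/-!
# SI: expansion of the real functional
-/

namespace Pool.Agent.SI

open Finset Filter Pool.Agent.ZC

open scoped Topology

theorem si_series (p q n T : ℕ) (hp : 1 ≤ p) (hq : p < q) (f : Polynomial ℝ)
    (hf : f ∈ Polynomial.degreeLT ℝ n)
    (hz : ∀ ν : ℕ, ν < q → f.eval ((2 * (ν : ℝ)) ^ 2) = 0) :
    ∃ Q ∈ Polynomial.degreeLT ℝ n, ∀ l < p, ∀ r < T,
      HasSum (fun κ : ℕ => gamh q n f κ * PowerSeries.coeff r (yl ℝ p l ^ (n + κ)))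
        (PowerSeries.coeff r (ev ℝ p l f * Gh ℝ p l T zr) - PowerSeries.coeff r (ev ℝ p l Q)) := by
  obtain ⟨Q, hQ, h⟩ := si_series' p q n T hp hq f hf
  refine ⟨Q, hQ, fun l hl r hr => ?_⟩
  have h1 := h l hl r hr
  have h0 : ∑ ν ∈ Ico p q, PowerSeries.C (8 * (ν : ℝ) * f.eval ((2 * (ν : ℝ)) ^ 2)) *
      (PowerSeries.C ((2 * (ν : ℝ)) ^ 2) - yl ℝ p l)⁻¹ = 0 := by
    refine Finset.sum_eq_zero fun ν hν => ?_
    rw [hz ν (Finset.mem_Ico.1 hν).2, mul_zero, map_zero, zero_mul]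
  rw [h0, map_zero, sub_zero] at h1
  exact h1

end Pool.Agent.SI
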