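import Pool.Agent.SI.CORS

/-!
# SI: from the core inequality to zeta values
-/

namespace Pool.Agent.SI

open Finset Pool.Agent.ZC

noncomputable section

/-- index type of the companions -/
abbrev AJ (s k0 S d : ℕ) (I : Finset ℕ) : Type :=
  Fin (s + k0) ⊕ (I × Fin (S + k0 + 1)) ⊕ (Fin d × (Fin (k0 + 1) × Fin (S + 1)))

/-- `∑ 2 (2^i - 1) c_i X^(i-1)` over the odd `i` with `s < i ≤ T` outside `I` -/
def axi (s T : ℕ) (I : Finset ℕ) (c : ℕ → ℚ) : PowerSeries ℚ :=
  zp ℚ T fun i => if s < i ∧ i ∉ I then c i else 0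

/-- the companions -/
def aps (s k0 S d T : ℕ) (I : Finset ℕ) (c : ℕ → Fin d → ℚ) : AJ s k0 S d I → PowerSeries ℚ
  | .inl e => PowerSeries.X ^ (e : ℕ)
  | .inr (.inl x) => PowerSeries.X ^ ((x.1 : ℕ) - 1 + k0 - (x.2 : ℕ))
  | .inr (.inr x) => PowerSeries.X ^ (x.2.1 : ℕ) * hs ℚ (x.2.2 : ℕ) (axi s T I fun i => c i x.1)

/-- parities of the companions -/
def asg (s k0 S d : ℕ) (I : Finset ℕ) : AJ s k0 S d I → ℕ
  | .inl e => (e : ℕ) % 2
  | .inr (.inl x) => ((x.1 : ℕ) - 1 + k0 - (x.2 : ℕ)) % 2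
  | .inr (.inr x) => ((x.2.1 : ℕ) + (x.2.2 : ℕ)) % 2

/-- jets modulo `X^a` in the real span of the companions of parity `t` -/
def Good {J : Type} [Fintype J] (ψ : J → PowerSeries ℚ) (σ : J → ℕ) (a t : ℕ)
    (f : PowerSeries ℝ) : Prop :=
  ∃ α : J → ℝ, (∀ j, α j ≠ 0 → σ j = t) ∧ ∀ m < a, PowerSeries.coeff m f =
    ∑ j, α j * ((PowerSeries.coeff m (ψ j) : ℚ) : ℝ)

end

section good

variable {J : Type} [Fintype J] {ψ : J → PowerSeries ℚ} {σ : J → ℕ} {a t : ℕ}

theorem Good.zero : Good ψ σ a t 0 := ⟨0, fun j h => absurd rfl h, fun m _ => by simp⟩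

theorem Good.add {f g : PowerSeries ℝ} (hf : Good ψ σ a t f) (hg : Good ψ σ a t g) :
    Good ψ σ a t (f + g) := by
  obtain ⟨α, h1, h2⟩ := hf
  obtain ⟨β, h3, h4⟩ := hg
  refine ⟨fun j => α j + β j, fun j hj => ?_, fun m hm => ?_⟩
  · by_cases h : α j = 0
    · refine h3 j fun h' => hj ?_
      change α j + β j = 0
      rw [h, h', add_zero]
    · exact h1 j h
  · rw [map_add, h2 m hm, h4 m hm, ← Finset.sum_add_distrib]
    exact Finset.sum_congr rfl fun j _ => by ring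

theorem Good.C_mul {f : PowerSeries ℝ} (c : ℝ) (hf : Good ψ σ a t f) :
    Good ψ σ a t (PowerSeries.C c * f) := by
  obtain ⟨α, h1, h2⟩ := hf
  refine ⟨fun j => c * α j, fun j hj => h1 j fun h => hj ?_, fun m hm => ?_⟩
  · change c * α j = 0
    rw [h, mul_zero]
  rw [PowerSeries.coeff_C_mul, h2 m hm, Finset.mul_sum]
  exact Finset.sum_congr rfl fun j _ => by ring

theorem Good.sum {ι : Type*} (u : Finset ι) {f : ι → PowerSeries ℝ}
    (h : ∀ i ∈ u, Good ψ σ a t (f i)) : Good ψ σ a t (∑ i ∈ u, f i) := by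
  classical
  induction u using Finset.induction_on with
  | empty => simpa using Good.zero
  | insert i u hi ih =>
    rw [Finset.sum_insert hi]
    exact (h i (Finset.mem_insert_self _ _)).add (ih fun k hk => h k (Finset.mem_insert_of_mem hk))

theorem Good.single (j : J) (hj : σ j = t) :
    Good ψ σ a t (PowerSeries.map (algebraMap ℚ ℝ) (ψ j)) := by
  classical
  refine ⟨fun i => if i = j then 1 else 0, fun i hi => ?_, fun m _ => ?_⟩
  · by_cases h : i = j
    · rw [h, hj]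
    · exact absurd (if_neg h) hi
  · rw [PowerSeries.coeff_map]
    simp [ite_mul]

theorem Good.X_pow (n : ℕ) (j : J) (hj : σ j = t) (hψ : ψ j = PowerSeries.X ^ n) :
    Good ψ σ a t (PowerSeries.X ^ n) := by
  have h := Good.single (ψ := ψ) (a := a) j hj
  rw [hψ, map_pow, PowerSeries.map_X] at h
  exact h

end good

theorem app_hs_X_pow {K : Type*} [Field K] (r n : ℕ) :
    hs K r (PowerSeries.X ^ n) = PowerSeries.C ((n.choose r : ℕ) : K) * PowerSeries.X ^ (n - r) := by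
  ext m
  rw [coeff_hs, PowerSeries.coeff_C_mul, PowerSeries.coeff_X_pow, PowerSeries.coeff_X_pow]
  by_cases h : r ≤ n
  · by_cases h1 : m + r = n
    · rw [if_pos h1, if_pos (by omega), h1]
    · rw [if_neg h1, if_neg (by omega), mul_zero, mul_zero]
  · rw [if_neg (by omega), Nat.choose_eq_zero_of_lt (show n < r by omega)]
    simp

theorem app_hs_map (r : ℕ) (f : PowerSeries ℚ) :
    hs ℝ r (PowerSeries.map (algebraMap ℚ ℝ) f) = PowerSeries.map (algebraMap ℚ ℝ) (hs ℚ r f) := by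
  ext m
  rw [coeff_hs, PowerSeries.coeff_map, PowerSeries.coeff_map, coeff_hs, map_mul, map_natCast]

theorem app_zp_map (T : ℕ) (z : ℕ → ℚ) :
    PowerSeries.map (algebraMap ℚ ℝ) (zp ℚ T z) = zp ℝ T fun i => ((z i : ℚ) : ℝ) := by
  unfold zp
  rw [map_sum]
  refine Finset.sum_congr rfl fun i _ => ?_
  rw [map_mul, map_pow, PowerSeries.map_X, PowerSeries.map_C]
  congr 2
  simp

theorem app_parity_X {K : Type*} [Field K] (n : ℕ) :
    PowerSeries.evalNegHom (PowerSeries.X ^ n : PowerSeries K) =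
      PowerSeries.C ((-1 : K) ^ (n % 2)) * PowerSeries.X ^ n := by
  rw [map_pow, sg_X, neg_pow, ← neg_one_pow_eq_pow_mod_two]
  simp

/-- parity of the companions -/
theorem aps_parity (s k0 S d T : ℕ) (I : Finset ℕ) (c : ℕ → Fin d → ℚ) (j : AJ s k0 S d I) :
    PowerSeries.evalNegHom (aps s k0 S d T I c j) =
      PowerSeries.C ((-1 : ℚ) ^ asg s k0 S d I j) * aps s k0 S d T I c j := by
  rcases j with e | x | x
  · exact app_parity_X _
  · exact app_parity_X _
  · simp only [aps, asg, axi]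
    rw [map_mul, sg_hs, ZES_sg_zp, app_parity_X, ← neg_one_pow_eq_pow_mod_two,
      ← neg_one_pow_eq_pow_mod_two, pow_add, map_mul]
    ring

theorem asg_le (s k0 S d : ℕ) (I : Finset ℕ) (j : AJ s k0 S d I) : asg s k0 S d I j ≤ 1 := by
  rcases j with e | x | x <;> · simp only [asg]; omega

theorem aj_card (s k0 S d : ℕ) (I : Finset ℕ) : Fintype.card (AJ s k0 S d I) =
    s + k0 + I.card * (S + k0 + 1) + d * ((k0 + 1) * (S + 1)) := by
  simp only [Fintype.card_sum, Fintype.card_prod, Fintype.card_fin, Fintype.card_coe]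
  ring

theorem app_aux {K : Type*} [Field K] (k e : ℕ) (u w : K) :
    (PowerSeries.X : PowerSeries K) ^ k * (PowerSeries.C u * (PowerSeries.C w * PowerSeries.X ^ e)) =
      PowerSeries.C (u * w) * PowerSeries.X ^ (k + e) := by
  rw [map_mul, pow_add]; ring

/-- companions `X^k` -/
theorem aps_H0 (s k0 S d T : ℕ) (I : Finset ℕ) (c : ℕ → Fin d → ℚ) (hs : 1 ≤ s) :
    ∀ k ≤ k0, ∃ j, asg s k0 S d I j = k % 2 ∧ aps s k0 S d T I c j = PowerSeries.X ^ k :=
  fun k hk => ⟨.inl ⟨k, by omega⟩, rfl, rfl⟩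

/-- `E` in the span of the companions -/
theorem aps_H1 (s k0 S d a : ℕ) (I : Finset ℕ) (hS : S ≤ s)
    (v : Fin d → ℝ) (z : ℕ → ℚ) (c : ℕ → Fin d → ℚ)
    (hz : ∀ i ∈ oddS (a + S), s < i → i ∉ I → zr i = (z i : ℝ) + ∑ x, (c i x : ℝ) * v x)
    (k : ℕ) (hk : k ≤ k0) (r : ℕ) (hr : r ≤ S) :
    Good (aps s k0 S d (a + S) I c) (asg s k0 S d I) a ((k + r) % 2)
      (PowerSeries.X ^ k * hs ℝ r (zp ℝ (a + S) (fun i => zr i -
        ((if s < i ∧ i ∉ I then z i else 0 : ℚ) : ℝ)))) := by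
  have h1 : zp ℝ (a + S) (fun i => zr i - ((if s < i ∧ i ∉ I then z i else 0 : ℚ) : ℝ)) =
      (∑ i ∈ oddS (a + S), PowerSeries.C (2 * ((2 : ℝ) ^ i - 1) *
        (if s < i ∧ i ∉ I then 0 else zr i)) * PowerSeries.X ^ (i - 1)) +
      ∑ x, PowerSeries.C (v x) * PowerSeries.map (algebraMap ℚ ℝ) (axi s (a + S) I fun i => c i x) := by
    have h2 : ∀ x, PowerSeries.C (v x) * PowerSeries.map (algebraMap ℚ ℝ)
        (axi s (a + S) I fun i => c i x) = ∑ i ∈ oddS (a + S), PowerSeries.C (2 * ((2 : ℝ) ^ i - 1) *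
        ((if s < i ∧ i ∉ I then (c i x : ℝ) * v x else 0))) * PowerSeries.X ^ (i - 1) := by
      intro x
      rw [axi, app_zp_map, zp, Finset.mul_sum]
      refine Finset.sum_congr rfl fun i _ => ?_
      rw [← mul_assoc, ← map_mul]
      congr 2
      split_ifs
      · ring
      · simp
    simp only [h2]
    rw [Finset.sum_comm, ← Finset.sum_add_distrib, zp]
    refine Finset.sum_congr rfl fun i hi => ?_
    rw [← Finset.sum_mul, ← add_mul, ← map_sum, ← map_add, ← Finset.mul_sum, ← mul_add]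
    congr 3
    split_ifs with h
    · rw [hz i hi h.1 h.2]; ring
    · simp
  rw [h1, hs_add, mul_add, hs_sum, hs_sum, Finset.mul_sum, Finset.mul_sum]
  refine Good.add (Good.sum _ fun i hi => ?_) (Good.sum _ fun x _ => ?_)
  · rw [hs_C_mul, app_hs_X_pow, app_aux]
    obtain ⟨hi1, hi2⟩ := Finset.mem_filter.1 hi
    rw [Finset.mem_Icc] at hi1
    have hi3 : i % 2 = 1 := Nat.odd_iff.1 hi2
    by_cases hr1 : r ≤ i - 1
    · by_cases hs1 : s < i
      · by_cases hI1 : i ∈ I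
        · refine Good.C_mul _ (Good.X_pow _ (.inr (.inl (⟨i, hI1⟩, ⟨k0 - k + r, by omega⟩))) ?_ ?_)
          · simp only [asg]; omega
          · simp only [aps]
            congr 1
            omega
        · rw [if_pos ⟨hs1, hI1⟩]
          simpa using Good.zero
      · refine Good.C_mul _ (Good.X_pow _ (.inl ⟨k + (i - 1 - r), by omega⟩) ?_ ?_)
        · simp only [asg]; omega
        · simp only [aps]
    · rw [Nat.choose_eq_zero_of_lt (show i - 1 < r by omega)]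
      simpa using Good.zero
  · rw [hs_C_mul, app_hs_map]
    have h3 : PowerSeries.X ^ k * (PowerSeries.C (v x) * PowerSeries.map (algebraMap ℚ ℝ)
        (hs ℚ r (axi s (a + S) I fun i => c i x))) = PowerSeries.C (v x) *
        PowerSeries.map (algebraMap ℚ ℝ) (aps s k0 S d (a + S) I c
          (.inr (.inr (x, (⟨k, by omega⟩, ⟨r, by omega⟩))))) := by
      simp only [aps]
      rw [map_mul, map_pow, PowerSeries.map_X]
      ring
    rw [h3]
    exact Good.C_mul _ (Good.single _ rfl)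

theorem si_app : ∃ C : ℝ, 0 < C ∧ ∀ (g S k0 a s d : ℕ) (I : Finset ℕ), 1 ≤ g → 1 ≤ a → g ≤ a →
    S ≤ a → 1 ≤ s → S ≤ s → I ⊆ oddS (a + S) → (∀ i ∈ I, s < i) →
    ∀ (v : Fin d → ℝ) (z : ℕ → ℚ) (c : ℕ → Fin d → ℚ),
    (∀ i ∈ oddS (a + S), s < i → i ∉ I → zr i = (z i : ℝ) + ∑ x, (c i x : ℝ) * v x) →
    (g + 2) * (k0 + 1 + (s + k0 + I.card * (S + k0 + 1) + d * ((k0 + 1) * (S + 1)))) +
      (k0 + 1) * (S + 1) + 1 ≤ g * (a - k0) →
    ((k0 : ℝ) + 1) * ((S : ℝ) + 1) ^ 2 ≤ C * (g : ℝ) ^ 3 * a * (1 + Real.log a) := by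
  obtain ⟨C, hC, h⟩ := si_core
  refine ⟨C, hC, ?_⟩
  intro g S k0 a s d I hg ha hga hSa hs hSs _ _ v z c hz hi
  refine h g S k0 a hg ha hga hSa (AJ s k0 S d I) (aps s k0 S d (a + S) I c) (asg s k0 S d I)
    (asg_le s k0 S d I) (aps_parity s k0 S d (a + S) I c)
    (fun i => if s < i ∧ i ∉ I then z i else 0) ?_ (aps_H0 s k0 S d (a + S) I c hs) ?_
  · rw [aj_card]
    exact hi
  · intro k hk r hr
    exact aps_H1 s k0 S d a I hSs v z c hz k hk r hr

end Pool.Agent.SI
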