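import Pool.Agent.SI.APP

/-!
# SI: general form of the passage from the core inequality to zeta values
-/

namespace Pool.Agent.SI

open Finset Pool.Agent.ZC

/-- any consequence `Bd` of the core hypotheses for all companion systems containing
`X^e`, `e < s + k0` -/
theorem app_gen {Bd : Prop} (g S k0 a s d : ℕ) (I : Finset ℕ) (hSs : S ≤ s)
    (v : Fin d → ℝ) (z : ℕ → ℚ) (c : ℕ → Fin d → ℚ)
    (hz : ∀ i ∈ oddS (a + S), s < i → i ∉ I → zr i = (z i : ℝ) + ∑ x, (c i x : ℝ) * v x)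
    (hi : (g + 2) * (k0 + 1 + (s + k0 + I.card * (S + k0 + 1) + d * ((k0 + 1) * (S + 1)))) +
      (k0 + 1) * (S + 1) + 1 ≤ g * (a - k0))
    (core : ∀ (J : Type) [Fintype J] (ψ : J → PowerSeries ℚ) (σ : J → ℕ), (∀ j, σ j ≤ 1) →
      (∀ j, PowerSeries.evalNegHom (ψ j) = PowerSeries.C ((-1 : ℚ) ^ σ j) * ψ j) → ∀ z : ℕ → ℚ,
      (g + 2) * (k0 + 1 + Fintype.card J) + (k0 + 1) * (S + 1) + 1 ≤ g * (a - k0) →
      (∀ e < s + k0, ∃ j, σ j = e % 2 ∧ ψ j = PowerSeries.X ^ e) →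
      (∀ k ≤ k0, ∀ r ≤ S, ∃ α : J → ℝ, (∀ j, α j ≠ 0 → σ j = (k + r) % 2) ∧ ∀ m < a,
        PowerSeries.coeff m (PowerSeries.X ^ k *
          hs ℝ r (zp ℝ (a + S) (fun i => zr i - (z i : ℝ)))) =
            ∑ j, α j * ((PowerSeries.coeff m (ψ j) : ℚ) : ℝ)) → Bd) : Bd := by
  refine core (AJ s k0 S d I) (aps s k0 S d (a + S) I c) (asg s k0 S d I)
    (asg_le s k0 S d I) (aps_parity s k0 S d (a + S) I c)
    (fun i => if s < i ∧ i ∉ I then z i else 0) ?_ (fun e he => ⟨.inl ⟨e, he⟩, rfl, rfl⟩) ?_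
  · rw [aj_card]
    exact hi
  · intro k hk r hr
    exact aps_H1 s k0 S d a I hSs v z c hz k hk r hr

end Pool.Agent.SI
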