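import Pool.Agent.SI.APP

/-!
# SI: the passage from the core inequality to zeta values, general set of exponents
-/

namespace Pool.Agent.SI

open Finset Pool.Agent.ZC

noncomputable section

/-- index type of the companions: exponents `J₀` and the derivatives of the `ξ` -/
abbrev BJ (k0 S d : ℕ) (J₀ : Finset ℕ) : Type := J₀ ⊕ (Fin d × (Fin (k0 + 1) × Fin (S + 1)))

/-- `∑ 2 (2^i - 1) c_i X^(i-1)` over the odd `i ≤ T` outside `I` -/
def bxi (T : ℕ) (I : Finset ℕ) (c : ℕ → ℚ) : PowerSeries ℚ :=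
  zp ℚ T fun i => if i ∉ I then c i else 0

/-- the companions -/
def bps (k0 S d T : ℕ) (J₀ I : Finset ℕ) (c : ℕ → Fin d → ℚ) : BJ k0 S d J₀ → PowerSeries ℚ
  | .inl e => PowerSeries.X ^ (e : ℕ)
  | .inr x => PowerSeries.X ^ (x.2.1 : ℕ) * hs ℚ (x.2.2 : ℕ) (bxi T I fun i => c i x.1)

/-- parities of the companions -/
def bsg (k0 S d : ℕ) (J₀ : Finset ℕ) : BJ k0 S d J₀ → ℕ
  | .inl e => (e : ℕ) % 2
  | .inr x => ((x.2.1 : ℕ) + (x.2.2 : ℕ)) % 2

end

/-- parity of the companions -/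
theorem bps_parity (k0 S d T : ℕ) (J₀ I : Finset ℕ) (c : ℕ → Fin d → ℚ) (j : BJ k0 S d J₀) :
    PowerSeries.evalNegHom (bps k0 S d T J₀ I c j) =
      PowerSeries.C ((-1 : ℚ) ^ bsg k0 S d J₀ j) * bps k0 S d T J₀ I c j := by
  rcases j with e | x
  · exact app_parity_X _
  · simp only [bps, bsg, bxi]
    rw [map_mul, sg_hs, ZES_sg_zp, app_parity_X, ← neg_one_pow_eq_pow_mod_two,
      ← neg_one_pow_eq_pow_mod_two, pow_add, map_mul]
    ring

theorem bsg_le (k0 S d : ℕ) (J₀ : Finset ℕ) (j : BJ k0 S d J₀) : bsg k0 S d J₀ j ≤ 1 := by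
  rcases j with e | x <;> · simp only [bsg]; omega

theorem bj_card (k0 S d : ℕ) (J₀ : Finset ℕ) : Fintype.card (BJ k0 S d J₀) =
    J₀.card + d * ((k0 + 1) * (S + 1)) := by
  simp only [Fintype.card_sum, Fintype.card_prod, Fintype.card_fin, Fintype.card_coe]

/-- `X^e` for an exponent of `J₀` or for `e ≥ a` -/
theorem good_X_pow (k0 S d T a t : ℕ) (J₀ I : Finset ℕ) (c : ℕ → Fin d → ℚ) (e : ℕ)
    (he : e < a → e ∈ J₀) (ht : e % 2 = t) :
    Good (bps k0 S d T J₀ I c) (bsg k0 S d J₀) a t (PowerSeries.X ^ e) := by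
  by_cases h : e < a
  · exact Good.X_pow _ (.inl ⟨e, he h⟩) (by simpa only [bsg] using ht) rfl
  · refine ⟨0, fun j hj => absurd rfl hj, fun m hm => ?_⟩
    rw [PowerSeries.coeff_X_pow, if_neg (by omega)]
    simp

/-- `E` in the span of the companions -/
theorem bps_H1 (k0 S d a : ℕ) (J₀ I : Finset ℕ)
    (hI : ∀ i ∈ I, ∀ e < a, i ≤ e + S + 1 → e + 1 ≤ i + k0 → e ∈ J₀)
    (v : Fin d → ℝ) (z : ℕ → ℚ) (c : ℕ → Fin d → ℚ)
    (hz : ∀ i ∈ oddS (a + S), i ∉ I → zr i = (z i : ℝ) + ∑ x, (c i x : ℝ) * v x)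
    (k : ℕ) (hk : k ≤ k0) (r : ℕ) (hr : r ≤ S) :
    Good (bps k0 S d (a + S) J₀ I c) (bsg k0 S d J₀) a ((k + r) % 2)
      (PowerSeries.X ^ k * hs ℝ r (zp ℝ (a + S) (fun i => zr i -
        ((if i ∉ I then z i else 0 : ℚ) : ℝ)))) := by
  have h1 : zp ℝ (a + S) (fun i => zr i - ((if i ∉ I then z i else 0 : ℚ) : ℝ)) =
      (∑ i ∈ oddS (a + S), PowerSeries.C (2 * ((2 : ℝ) ^ i - 1) *
        (if i ∉ I then 0 else zr i)) * PowerSeries.X ^ (i - 1)) +
      ∑ x, PowerSeries.C (v x) * PowerSeries.map (algebraMap ℚ ℝ) (bxi (a + S) I fun i => c i x) := by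
    have h2 : ∀ x, PowerSeries.C (v x) * PowerSeries.map (algebraMap ℚ ℝ)
        (bxi (a + S) I fun i => c i x) = ∑ i ∈ oddS (a + S), PowerSeries.C (2 * ((2 : ℝ) ^ i - 1) *
        ((if i ∉ I then (c i x : ℝ) * v x else 0))) * PowerSeries.X ^ (i - 1) := by
      intro x
      rw [bxi, app_zp_map, zp, Finset.mul_sum]
      refine Finset.sum_congr rfl fun i _ => ?_
      rw [← mul_assoc, ← map_mul]
      congr 2
      by_cases h : i ∈ I
      · simp [h]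
      · simp only [h, not_false_eq_true, if_true]
        ring
    simp only [h2]
    rw [Finset.sum_comm, ← Finset.sum_add_distrib, zp]
    refine Finset.sum_congr rfl fun i hi => ?_
    rw [← Finset.sum_mul, ← add_mul, ← map_sum, ← map_add, ← Finset.mul_sum, ← mul_add]
    congr 3
    by_cases h : i ∈ I
    · simp [h]
    · simp only [h, not_false_eq_true, if_true]
      rw [hz i hi h]; ring
  rw [h1, hs_add, mul_add, hs_sum, hs_sum, Finset.mul_sum, Finset.mul_sum]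
  refine Good.add (Good.sum _ fun i hi => ?_) (Good.sum _ fun x _ => ?_)
  · rw [hs_C_mul, app_hs_X_pow, app_aux]
    obtain ⟨hi1, hi2⟩ := Finset.mem_filter.1 hi
    rw [Finset.mem_Icc] at hi1
    have hi3 : i % 2 = 1 := Nat.odd_iff.1 hi2
    by_cases hr1 : r ≤ i - 1
    · by_cases hI1 : i ∈ I
      · refine Good.C_mul _ (good_X_pow _ _ _ _ _ _ _ _ _ _ (fun he => ?_) (by omega))
        exact hI i hI1 _ he (by omega) (by omega)
      · rw [if_pos hI1]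
        simpa using Good.zero
    · rw [Nat.choose_eq_zero_of_lt (show i - 1 < r by omega)]
      simpa using Good.zero
  · rw [hs_C_mul, app_hs_map]
    have h3 : PowerSeries.X ^ k * (PowerSeries.C (v x) * PowerSeries.map (algebraMap ℚ ℝ)
        (hs ℚ r (bxi (a + S) I fun i => c i x))) = PowerSeries.C (v x) *
        PowerSeries.map (algebraMap ℚ ℝ) (bps k0 S d (a + S) J₀ I c
          (.inr (x, (⟨k, by omega⟩, ⟨r, by omega⟩)))) := by
      simp only [bps]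
      rw [map_mul, map_pow, PowerSeries.map_X]
      ring
    rw [h3]
    exact Good.C_mul _ (Good.single _ rfl)

/-- any consequence `Bd` of the core hypotheses, companions `X^e`, `e ∈ J₀` -/
theorem app_genJ {Bd : Prop} (g S k0 a d : ℕ) (I J₀ : Finset ℕ)
    (h0 : ∀ k ≤ k0, k < a → k ∈ J₀)
    (hI : ∀ i ∈ I, ∀ e < a, i ≤ e + S + 1 → e + 1 ≤ i + k0 → e ∈ J₀)
    (v : Fin d → ℝ) (z : ℕ → ℚ) (c : ℕ → Fin d → ℚ)
    (hz : ∀ i ∈ oddS (a + S), i ∉ I → zr i = (z i : ℝ) + ∑ x, (c i x : ℝ) * v x)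
    (hi : (g + 2) * (k0 + 1 + (J₀.card + d * ((k0 + 1) * (S + 1)))) +
      (k0 + 1) * (S + 1) + 1 ≤ g * (a - k0))
    (core : ∀ (J : Type) [Fintype J] (ψ : J → PowerSeries ℚ) (σ : J → ℕ), (∀ j, σ j ≤ 1) →
      (∀ j, PowerSeries.evalNegHom (ψ j) = PowerSeries.C ((-1 : ℚ) ^ σ j) * ψ j) → ∀ z : ℕ → ℚ,
      (g + 2) * (k0 + 1 + Fintype.card J) + (k0 + 1) * (S + 1) + 1 ≤ g * (a - k0) →
      (∀ k ≤ k0, ∃ j, σ j = k % 2 ∧ ψ j = PowerSeries.X ^ k) →
      (∀ e ∈ J₀, ∃ j, σ j = e % 2 ∧ ψ j = PowerSeries.X ^ e) →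
      (∀ k ≤ k0, ∀ r ≤ S, ∃ α : J → ℝ, (∀ j, α j ≠ 0 → σ j = (k + r) % 2) ∧ ∀ m < a,
        PowerSeries.coeff m (PowerSeries.X ^ k *
          hs ℝ r (zp ℝ (a + S) (fun i => zr i - (z i : ℝ)))) =
            ∑ j, α j * ((PowerSeries.coeff m (ψ j) : ℚ) : ℝ)) → Bd) : Bd := by
  have hka : k0 < a := by
    by_contra h
    have : g * (a - k0) = 0 := by
      rw [show a - k0 = 0 by omega, mul_zero]
    omega
  have hJ : ∀ e ∈ J₀, ∃ j, bsg k0 S d J₀ j = e % 2 ∧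
      bps k0 S d (a + S) J₀ I c j = PowerSeries.X ^ e := fun e he => ⟨.inl ⟨e, he⟩, rfl, rfl⟩
  refine core (BJ k0 S d J₀) (bps k0 S d (a + S) J₀ I c) (bsg k0 S d J₀)
    (bsg_le k0 S d J₀) (bps_parity k0 S d (a + S) J₀ I c)
    (fun i => if i ∉ I then z i else 0) ?_ (fun k hk => hJ k (h0 k hk (by omega))) hJ ?_
  · rw [bj_card]
    exact hi
  · intro k hk r hr
    exact bps_H1 k0 S d a J₀ I hI v z c hz k hk r hr

end Pool.Agent.SI
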