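import Pool.Agent.SI.APP2
import Pool.Agent.SI.APPJ

/-!
# SI2: the application theorems from the second core inequality
-/

namespace Pool.Agent.SI

open Finset Pool.Agent.ZC

/-- the second core inequality (conclusion of `si_core2_of`) -/
def Core2 : Prop := ∃ C : ℝ, 0 < C ∧ ∀ (g S k0 a : ℕ), 1 ≤ g → 1 ≤ a → g ≤ a → S ≤ a →
    ∀ (J : Type) [Fintype J] (ψ : J → PowerSeries ℚ) (σ : J → ℕ), (∀ j, σ j ≤ 1) →
    (∀ j, PowerSeries.evalNegHom (ψ j) = PowerSeries.C ((-1 : ℚ) ^ σ j) * ψ j) → ∀ z : ℕ → ℚ,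
    (g + 2) * (k0 + 1 + Fintype.card J) + (k0 + 1) * (S + 1) + 1 ≤ g * (a - k0) →
    ∀ J0 : Finset ℕ, (∀ e ∈ J0, e < a) → (∀ e ∈ J0, ∃ j, σ j = e % 2 ∧ ψ j = PowerSeries.X ^ e) →
    (∀ k ≤ k0, ∃ j, σ j = k % 2 ∧ ψ j = PowerSeries.X ^ k) →
    (∀ k ≤ k0, ∀ r ≤ S, ∃ α : J → ℝ, (∀ j, α j ≠ 0 → σ j = (k + r) % 2) ∧ ∀ m < a,
      PowerSeries.coeff m (PowerSeries.X ^ k *
        hs ℝ r (zp ℝ (a + S) (fun i => zr i - (z i : ℝ)))) =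
          ∑ j, α j * ((PowerSeries.coeff m (ψ j) : ℚ) : ℝ)) →
    ((k0 : ℝ) + 1) * ((S : ℝ) + 1) ^ 2 ≤
      C * (g : ℝ) ^ 2 * (1 + Real.log g) * ((a : ℝ) - J0.card) * (1 + Real.log a)

/-- general exponent set -/
theorem si_appJ_of (H : Core2) : ∃ C : ℝ, 0 < C ∧ ∀ (g S k0 a d : ℕ) (I J₀ : Finset ℕ), 1 ≤ g →
    1 ≤ a → g ≤ a → S ≤ a → (∀ e ∈ J₀, e < a) → (∀ k ≤ k0, k < a → k ∈ J₀) →
    (∀ i ∈ I, ∀ e < a, i ≤ e + S + 1 → e + 1 ≤ i + k0 → e ∈ J₀) →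
    ∀ (v : Fin d → ℝ) (z : ℕ → ℚ) (c : ℕ → Fin d → ℚ),
    (∀ i ∈ oddS (a + S), i ∉ I → zr i = (z i : ℝ) + ∑ x, (c i x : ℝ) * v x) →
    (g + 2) * (k0 + 1 + (J₀.card + d * ((k0 + 1) * (S + 1)))) +
      (k0 + 1) * (S + 1) + 1 ≤ g * (a - k0) →
    ((k0 : ℝ) + 1) * ((S : ℝ) + 1) ^ 2 ≤
      C * (g : ℝ) ^ 2 * (1 + Real.log g) * ((a : ℝ) - J₀.card) * (1 + Real.log a) := by
  obtain ⟨C, hC, h⟩ := H
  refine ⟨C, hC, ?_⟩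
  intro g S k0 a d I J₀ hg ha hga hSa hJ h0 hI v z c hz hi
  exact app_genJ g S k0 a d I J₀ h0 hI v z c hz hi
    (fun J _ ψ σ hσ hψ z' hi' H0 HJ H1 => h g S k0 a hg ha hga hSa J ψ σ hσ hψ z' hi' J₀ hJ HJ H0 H1)

/-- initial segment of exponents -/
theorem si_app2_of (H : Core2) : ∃ C : ℝ, 0 < C ∧ ∀ (g S k0 a s d : ℕ) (I : Finset ℕ), 1 ≤ g →
    1 ≤ a → g ≤ a → S ≤ a → 1 ≤ s → S ≤ s → I ⊆ oddS (a + S) → (∀ i ∈ I, s < i) →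
    ∀ (v : Fin d → ℝ) (z : ℕ → ℚ) (c : ℕ → Fin d → ℚ),
    (∀ i ∈ oddS (a + S), s < i → i ∉ I → zr i = (z i : ℝ) + ∑ x, (c i x : ℝ) * v x) →
    (g + 2) * (k0 + 1 + (s + k0 + I.card * (S + k0 + 1) + d * ((k0 + 1) * (S + 1)))) +
      (k0 + 1) * (S + 1) + 1 ≤ g * (a - k0) →
    ((k0 : ℝ) + 1) * ((S : ℝ) + 1) ^ 2 ≤
      C * (g : ℝ) ^ 2 * (1 + Real.log g) * ((a : ℝ) - s - k0) * (1 + Real.log a) := by
  obtain ⟨C, hC, h⟩ := H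
  refine ⟨C, hC, ?_⟩
  intro g S k0 a s d I hg ha hga hSa hs1 hSs _ _ v z c hz hi
  have hle : s + k0 ≤ a := by
    have h1 : g * (s + k0) ≤ (g + 2) * (k0 + 1 + (s + k0 + I.card * (S + k0 + 1) +
        d * ((k0 + 1) * (S + 1)))) := Nat.mul_le_mul (by omega) (by omega)
    have h2 : g * (s + k0) ≤ g * (a - k0) := by omega
    have h3 := Nat.le_of_mul_le_mul_left h2 (by omega)
    omega
  have hfin := app_gen g S k0 a s d I hSs v z c hz hi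
    (fun J _ ψ σ hσ hψ z' hi' HJ H1 => h g S k0 a hg ha hga hSa J ψ σ hσ hψ z' hi' (range (s + k0))
      (fun e he => by rw [mem_range] at he; omega) (fun e he => HJ e (mem_range.1 he))
      (fun k hk => HJ k (by omega)) H1)
  rw [card_range] at hfin
  refine hfin.trans (le_of_eq ?_)
  push_cast
  ring

end Pool.Agent.SI
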