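import Pool.Agent.SI.NRF
import Pool.Agent.SI.APPS

/-!
# SI2: the core inequality, final form
-/

namespace Pool.Agent.SI

theorem si_core2 : Core2 := si_core2_of nr_all

end Pool.Agent.SI
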