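import Pool.Agent.SI.ONE

/-!
# SI: the core inequality
-/

namespace Pool.Agent.SI

open Finset Pool.Agent.ZC

private theorem cors_tri (K : ℕ) : ((K * (K - 1) / 2 : ℕ) : ℝ) = ((K : ℝ) ^ 2 - K) / 2 := by
  rw [← Nat.choose_two_right, Nat.cast_choose_two]
  ring

private theorem cors_alg {R W A G M κ lQ dl l256 lf lW lM l4 lT θ l5 : ℝ}
    (hRW : R ≤ W * M) (hM : 0 ≤ M) (hW : 0 ≤ W) (hA : 0 ≤ A) (hG : 0 ≤ G) (hlQ : 0 ≤ lQ)
    (hdl0 : 0 ≤ dl) (hdl : dl ≤ 2 * M * l256) (hlW : 0 ≤ lW) (hlM : 0 ≤ lM) (hl4 : 0 ≤ l4)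
    (hlT : 0 ≤ lT) (hfac : lf ≤ R * (lW + lM))
    (h0 : 0 ≤ R * (lQ + A * dl) + (lf + R * (l4 + 4 * (G * (A * M)) * lT) +
      ((κ * M) ^ 2 - κ * M) / 2 * (-θ) + (κ * M) * l5)) :
    (κ ^ 2 / 2 * θ - W * (2 * A * l256 + 4 * G * A * lT)) * M ^ 2 ≤
      (W * (lQ + lW + l4) + κ * l5 + κ / 2 * θ) * M + W * (M * lM) := by
  have e1 : A * dl ≤ A * (2 * M * l256) := mul_le_mul_of_nonneg_left hdl hA
  have h2 : (lQ + A * dl) + (lW + lM) + (l4 + 4 * (G * (A * M)) * lT) ≤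
      (lQ + lW + l4) + lM + (2 * A * l256 + 4 * G * A * lT) * M := by linarith
  have h3 : 0 ≤ (lQ + A * dl) + (lW + lM) + (l4 + 4 * (G * (A * M)) * lT) := by positivity
  have h4 : R * ((lQ + A * dl) + (lW + lM) + (l4 + 4 * (G * (A * M)) * lT)) ≤
      (W * M) * ((lQ + lW + l4) + lM + (2 * A * l256 + 4 * G * A * lT) * M) :=
    mul_le_mul hRW h2 h3 (by positivity)
  linarith

/-- logarithm of the determinant inequality -/
private theorem cors_log (D0 A G K R M W : ℕ) (ρ : ℝ) (hD : 1 ≤ D0) (hA : 1 ≤ A) (hG : 1 ≤ G)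
    (hM : 1 ≤ M) (hR : 1 ≤ R) (hRW : R ≤ W * M) (hρ0 : 0 < ρ) (hρ1 : ρ < 1)
    (hin : 1 ≤ ((D0 * Nat.lcmUpto (2 * M) ^ A : ℕ) : ℝ) ^ R * ((R.factorial : ℝ) *
        (4 * (100 * (G : ℝ) * A) ^ (4 * (G * (A * M)))) ^ R *
        ρ ^ ((K * M) * (K * M - 1) / 2) * (1 / (1 - ρ)) ^ (K * M))) :
    ((K : ℝ) ^ 2 / 2 * (-Real.log ρ) - W * (2 * A * Real.log 256 +
        4 * G * A * Real.log (100 * (G : ℝ) * A))) * (M : ℝ) ^ 2 ≤
      (W * (Real.log D0 + Real.log W + Real.log 4) + K * Real.log (1 / (1 - ρ)) +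
        K / 2 * (-Real.log ρ)) * M + W * (M * Real.log M) := by
  have hD' : (1 : ℝ) ≤ D0 := by exact_mod_cast hD
  have hA' : (1 : ℝ) ≤ A := by exact_mod_cast hA
  have hG' : (1 : ℝ) ≤ G := by exact_mod_cast hG
  have hM' : (1 : ℝ) ≤ M := by exact_mod_cast hM
  have hR' : (1 : ℝ) ≤ R := by exact_mod_cast hR
  have hRW' : (R : ℝ) ≤ W * M := by exact_mod_cast hRW
  have hW1 : 1 ≤ W := by
    rcases Nat.eq_zero_or_pos W with h | h
    · subst h; simp at hRW; omega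
    · exact h
  have hW' : (1 : ℝ) ≤ W := by exact_mod_cast hW1
  have hl0 : 0 < Nat.lcmUpto (2 * M) := Nat.lcmUpto_pos _
  have hl1 : (1 : ℝ) ≤ (Nat.lcmUpto (2 * M) : ℝ) := by exact_mod_cast hl0
  have hρ2 : 0 < 1 - ρ := by linarith
  have h0 := Real.log_le_log one_pos hin
  push_cast at h0
  rw [Real.log_one, Real.log_mul (by positivity) (by positivity), Real.log_pow,
    Real.log_mul (by positivity) (by positivity), Real.log_pow,
    Real.log_mul (by positivity) (by positivity), Real.log_mul (by positivity) (by positivity),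
    Real.log_mul (by positivity) (by positivity), Real.log_pow,
    Real.log_mul (by positivity) (by positivity), Real.log_pow, Real.log_pow, Real.log_pow,
    cors_tri] at h0
  have hfac : Real.log (R.factorial : ℝ) ≤ R * (Real.log W + Real.log M) := by
    have h1 : (R.factorial : ℝ) ≤ (R : ℝ) ^ R := by exact_mod_cast Nat.factorial_le_pow R
    have h2 := Real.log_le_log (by positivity) h1
    rw [Real.log_pow] at h2
    refine h2.trans (mul_le_mul_of_nonneg_left ?_ (by positivity))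
    rw [← Real.log_mul (by positivity) (by positivity)]
    exact Real.log_le_log (by linarith) hRW'
  have hdl : Real.log (Nat.lcmUpto (2 * M) : ℝ) ≤ 2 * M * Real.log 256 := by
    have h1 := Real.log_le_log (by positivity) (lcmUpto_le (2 * M))
    rw [Real.log_pow] at h1
    push_cast at h1
    exact h1
  have hT1 : (1 : ℝ) ≤ 100 * (G : ℝ) * A := by nlinarith
  refine cors_alg (R := (R : ℝ)) (dl := Real.log (Nat.lcmUpto (2 * M) : ℝ))
    (lf := Real.log (R.factorial : ℝ)) hRW'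
    (by positivity) (by positivity) (by positivity) (by positivity) (Real.log_nonneg hD')
    (Real.log_nonneg hl1) hdl (Real.log_nonneg hW') (Real.log_nonneg hM')
    (Real.log_nonneg (by norm_num)) (Real.log_nonneg hT1) hfac ?_
  push_cast at h0
  refine h0.trans (le_of_eq ?_)
  ring

private theorem cors_num {g a : ℝ} (hg : 1 ≤ g) (ha : 1 ≤ a) (hga : g ≤ a) {A : ℝ} (hA0 : 0 < A)
    (hA : A ≤ 3 * a) : Real.log (100 * (g + 2) * A) ≤ 7 + 2 * Real.log a := by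
  have h1 : 100 * (g + 2) * A ≤ 900 * a ^ 2 := by nlinarith
  have h2 := Real.log_le_log (by positivity) h1
  rw [Real.log_mul (x := 900) (by norm_num) (by positivity), Real.log_pow] at h2
  have h3 : Real.log 900 ≤ 7 := by
    rw [Real.log_le_iff_le_exp (by norm_num)]
    have h4 : Real.exp 7 = Real.exp 1 ^ 7 := by
      rw [← Real.exp_nat_mul]; norm_num
    rw [h4]
    have h5 := Real.exp_one_gt_d9
    have h6 : (2.7182818283 : ℝ) ^ 7 ≤ Real.exp 1 ^ 7 := pow_le_pow_left₀ (by norm_num) h5.le 7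
    refine le_trans ?_ h6
    norm_num
  push_cast at h2
  linarith

private theorem cors_final {g S k0 a A θ l256 lT la : ℝ} (hg : 1 ≤ g) (ha : 0 < a) (hA0 : 0 < A)
    (hk : 0 ≤ k0) (hS : 0 ≤ S) (hla : 0 ≤ la) (hθ : 1 / (k0 + 1) * (1 / (2 * (g + 1))) ≤ θ)
    (hl : l256 ≤ 6) (hlT : lT ≤ 7 + 2 * la)
    (hX : ((k0 + 1) * ((S + 1) * A)) ^ 2 / 2 * θ -
      (2 * a * ((g + 2) * A)) * (2 * A * l256 + 4 * (g + 2) * A * lT) ≤ 0) :
    (k0 + 1) * (S + 1) ^ 2 ≤ 4608 * g ^ 3 * a * (1 + la) := by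
  have h1 : ((k0 + 1) * ((S + 1) * A)) ^ 2 / 2 * (1 / (k0 + 1) * (1 / (2 * (g + 1)))) ≤
      ((k0 + 1) * ((S + 1) * A)) ^ 2 / 2 * θ := mul_le_mul_of_nonneg_left hθ (by positivity)
  have h2 : ((k0 + 1) * ((S + 1) * A)) ^ 2 / 2 * (1 / (k0 + 1) * (1 / (2 * (g + 1)))) =
      A ^ 2 * ((k0 + 1) * (S + 1) ^ 2 / (4 * (g + 1))) := by
    field_simp
    ring
  have h3 : (2 * a * ((g + 2) * A)) * (2 * A * l256 + 4 * (g + 2) * A * lT) =
      A ^ 2 * (2 * a * (g + 2) * (2 * l256 + 4 * (g + 2) * lT)) := by ring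
  have h4 : A ^ 2 * ((k0 + 1) * (S + 1) ^ 2 / (4 * (g + 1))) ≤
      A ^ 2 * (2 * a * (g + 2) * (2 * l256 + 4 * (g + 2) * lT)) := by
    rw [← h2, ← h3]; linarith
  have h5 := le_of_mul_le_mul_left h4 (by positivity)
  rw [div_le_iff₀ (by positivity)] at h5
  refine h5.trans ?_
  have h6 : 2 * l256 + 4 * (g + 2) * lT ≤ 12 * g * (8 + 2 * la) := by
    have e1 : 4 * (g + 2) * lT ≤ 4 * (g + 2) * (7 + 2 * la) :=
      mul_le_mul_of_nonneg_left hlT (by positivity)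
    have e2 : 4 * (g + 2) * (7 + 2 * la) ≤ 12 * g * (7 + 2 * la) :=
      mul_le_mul_of_nonneg_right (by linarith) (by positivity)
    nlinarith
  have h7 : 0 ≤ 12 * g * (8 + 2 * la) := by positivity
  calc 2 * a * (g + 2) * (2 * l256 + 4 * (g + 2) * lT) * (4 * (g + 1))
      ≤ 2 * a * (3 * g) * (12 * g * (8 + 2 * la)) * (4 * (2 * g)) := by
        have e1 : 2 * a * (g + 2) * (2 * l256 + 4 * (g + 2) * lT) ≤
            2 * a * (3 * g) * (12 * g * (8 + 2 * la)) :=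
          (mul_le_mul_of_nonneg_left h6 (by positivity)).trans
            (mul_le_mul_of_nonneg_right (by nlinarith) h7)
        exact mul_le_mul e1 (by linarith) (by positivity) (by positivity)
    _ ≤ 4608 * g ^ 3 * a * (1 + la) := by
        have : 2 * a * (3 * g) * (12 * g * (8 + 2 * la)) * (4 * (2 * g)) =
          576 * g ^ 3 * a * (8 + 2 * la) := by ring
        rw [this]
        have e3 : 0 ≤ g ^ 3 * a * la := by positivity
        nlinarith

theorem si_core : ∃ C : ℝ, 0 < C ∧ ∀ (g S k0 a : ℕ), 1 ≤ g → 1 ≤ a → g ≤ a → S ≤ a →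
    ∀ (J : Type) [Fintype J] (ψ : J → PowerSeries ℚ) (σ : J → ℕ), (∀ j, σ j ≤ 1) →
    (∀ j, PowerSeries.evalNegHom (ψ j) = PowerSeries.C ((-1 : ℚ) ^ σ j) * ψ j) → ∀ z : ℕ → ℚ,
    (g + 2) * (k0 + 1 + Fintype.card J) + (k0 + 1) * (S + 1) + 1 ≤ g * (a - k0) →
    (∀ k ≤ k0, ∃ j, σ j = k % 2 ∧ ψ j = PowerSeries.X ^ k) →
    (∀ k ≤ k0, ∀ r ≤ S, ∃ α : J → ℝ, (∀ j, α j ≠ 0 → σ j = (k + r) % 2) ∧ ∀ m < a,
      PowerSeries.coeff m (PowerSeries.X ^ k *
        hs ℝ r (zp ℝ (a + S) (fun i => zr i - (z i : ℝ)))) =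
          ∑ j, α j * ((PowerSeries.coeff m (ψ j) : ℚ) : ℝ)) →
    ((k0 : ℝ) + 1) * ((S : ℝ) + 1) ^ 2 ≤ C * (g : ℝ) ^ 3 * a * (1 + Real.log a) := by
  refine ⟨4608, by norm_num, ?_⟩
  intro g S k0 a hg ha hga hSa J _ ψ σ hσ hψ z hi H0 H1
  obtain ⟨D0, hD0, M0, hM0⟩ := si_one g S k0 a hg ha ψ σ hσ hψ z hi H0 H1
  have hg' : (1 : ℝ) ≤ g := by exact_mod_cast hg
  have ha' : (1 : ℝ) ≤ a := by exact_mod_cast ha
  have hga' : (g : ℝ) ≤ a := by exact_mod_cast hga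
  have hSa' : (S : ℝ) ≤ a := by exact_mod_cast hSa
  have hk0 : (0 : ℝ) ≤ k0 := by positivity
  have hS0 : (0 : ℝ) ≤ S := by positivity
  have hx0 : (0 : ℝ) < 1 / (2 * ((g : ℝ) + 1)) := by positivity
  have hx1 : 1 / (2 * ((g : ℝ) + 1)) < 1 := by
    rw [div_lt_one (by positivity)]
    linarith
  obtain ⟨ρ, hρ⟩ : ∃ ρ : ℝ, ρ = (1 - 1 / (2 * ((g : ℝ) + 1))) ^ ((1 : ℝ) / (k0 + 1)) := ⟨_, rfl⟩
  have hρ0 : 0 < ρ := by
    rw [hρ]
    exact Real.rpow_pos_of_pos (by linarith) _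
  have hρ1 : ρ < 1 := by
    rw [hρ]
    exact Real.rpow_lt_one (by linarith) (by linarith) (by positivity)
  have hθ : 1 / ((k0 : ℝ) + 1) * (1 / (2 * ((g : ℝ) + 1))) ≤ -Real.log ρ := by
    rw [hρ, Real.log_rpow (by linarith), ← mul_neg]
    apply mul_le_mul_of_nonneg_left _ (by positivity)
    have := Real.log_le_sub_one_of_pos (show 0 < 1 - 1 / (2 * ((g : ℝ) + 1)) by linarith)
    linarith
  have hX := limit_arg _ _ _ (max M0 1) (fun M hM => by
    have hM1 : 1 ≤ M := (le_max_right _ _).trans hM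
    obtain ⟨R, hR1, hR2, hR3⟩ := hM0 M ((le_max_left _ _).trans hM)
    rw [← hρ] at hR3
    refine cors_log D0 (a + S + 1) (g + 2) ((k0 + 1) * ((S + 1) * (a + S + 1))) R M
      (2 * a * ((g + 2) * (a + S + 1))) ρ hD0 (by omega) (by omega) hM1 hR1 ?_ hρ0 hρ1 ?_
    · refine hR2.trans (le_of_eq ?_)
      ring
    · have e1 : (k0 + 1) * ((S + 1) * (a + S + 1)) * M = (k0 + 1) * ((S + 1) * ((a + S + 1) * M)) := by
        ring
      rw [e1]
      push_cast at hR3 ⊢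
      exact hR3)
  refine cors_final (θ := -Real.log ρ) (l256 := Real.log 256)
    (lT := Real.log (100 * ((g : ℝ) + 2) * ((a : ℝ) + S + 1))) (A := (a : ℝ) + S + 1)
    hg' (by linarith) (by positivity) hk0 hS0 (Real.log_nonneg ha') hθ ?_
    (cors_num hg' ha' hga' (by positivity) (by linarith)) ?_
  · have e1 : Real.log 256 = 8 * Real.log 2 := by
      rw [show (256 : ℝ) = 2 ^ 8 by norm_num, Real.log_pow]; norm_num
    rw [e1]
    have := Real.log_two_lt_d9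
    linarith
  · push_cast at hX
    linarith

end Pool.Agent.SI
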