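import Pool.Agent.SI.FIND

/-!
# SI2: corollaries in real variables
-/

namespace Pool.Agent.SI

open Finset Pool.Agent.ZC

/-- short intervals: `ℓ = log x (1 + log (x / y))`, `y` from `C √x log x` to `x` -/
theorem si_short_of (H : Core2) : ∃ c : ℝ, 0 < c ∧ ∃ C x0 : ℝ, ∀ x y : ℝ, x0 ≤ x →
    C * √x * Real.log x ≤ y → y ≤ x → ∀ V : Submodule ℚ ℝ, Module.Finite ℚ V →
    (Module.finrank ℚ V : ℝ) ≤
      c * y ^ (5 / 3 : ℝ) / (x ^ 2 * (Real.log x * (1 + Real.log (x / y)))) ^ (2 / 3 : ℝ) →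
    (1 : ℝ) ≤ (({i : ℕ | Odd i ∧ x < i ∧ (i : ℝ) ≤ x + y ∧
      ∀ v ∈ V, ∀ q : ℚ, zr i ≠ q + v} : Set ℕ).ncard : ℝ) ∧
    c * min (y ^ 2 / (x * (Real.log x * (1 + Real.log (x / y)))))
      (y ^ (4 / 3 : ℝ) / (x ^ 2 * (Real.log x * (1 + Real.log (x / y)))) ^ (1 / 3 : ℝ)) ≤
      (({i : ℕ | Odd i ∧ x < i ∧ (i : ℝ) ≤ x + y ∧
        ∀ v ∈ V, ∀ q : ℚ, zr i ≠ q + v} : Set ℕ).ncard : ℝ) := by
  obtain ⟨c1, hc1, s0, hmain⟩ := si_main2_of (si_app2_of H)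
  -- constants
  set c2 : ℝ := min 1 (√(c1 / 16)) with hc2
  have hc2p : 0 < c2 := lt_min one_pos (Real.sqrt_pos.2 (by positivity))
  have hc21 : c2 ≤ 1 := min_le_left _ _
  have hc2s : 16 * c2 ^ 2 ≤ c1 := by
    have h1 : c2 ≤ √(c1 / 16) := min_le_right _ _
    have h2 : c2 ^ 2 ≤ (√(c1 / 16)) ^ 2 := pow_le_pow_left₀ hc2p.le h1 2
    rw [Real.sq_sqrt (by positivity)] at h2
    linarith
  set C : ℝ := max 1 (8 / c1) with hC
  have hC1 : 1 ≤ C := le_max_left _ _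
  have hC8 : 8 ≤ c1 * C ^ 2 := by
    have h1 : 8 / c1 ≤ C := le_max_right _ _
    rw [div_le_iff₀ hc1] at h1
    have h2 : C ≤ C ^ 2 := by nlinarith
    nlinarith
  set c : ℝ := min c2 (c1 / 16) with hc
  have hcp : 0 < c := lt_min hc2p (by positivity)
  refine ⟨c, hcp, C, max 16 ((s0 : ℝ) + 1), fun x y hx hy hyx V hfin hdim => ?_⟩
  have hx16 : 16 ≤ x := le_trans (le_max_left _ _) hx
  have hxs0 : (s0 : ℝ) + 1 ≤ x := le_trans (le_max_right _ _) hx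
  have hx0 : 0 < x := by linarith
  -- logs
  have hexp : Real.exp 1 < 2.7182818286 := Real.exp_one_lt_d9
  have hlx : 2.75 ≤ Real.log x := by
    have h1 : Real.log 16 ≤ Real.log x := Real.log_le_log (by norm_num) hx16
    have h2 : Real.log 16 = 4 * Real.log 2 := by
      have : (16 : ℝ) = 2 ^ 4 := by norm_num
      rw [this, Real.log_pow]
      norm_num
    have h3 := Real.log_two_gt_d9
    linarith
  have hlx0 : 0 < Real.log x := by linarith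
  have hsx : 0 < √x := Real.sqrt_pos.2 hx0
  have hsx4 : 4 ≤ √x := by
    rw [show (4 : ℝ) = √16 by rw [show (16 : ℝ) = 4 ^ 2 by norm_num]; exact (Real.sqrt_sq (by norm_num)).symm]
    exact Real.sqrt_le_sqrt hx16
  have hy1 : √x * Real.log x ≤ y := by
    refine le_trans ?_ hy
    have : 1 * (√x * Real.log x) ≤ C * (√x * Real.log x) :=
      mul_le_mul_of_nonneg_right hC1 (by positivity)
    linarith
  have hy2 : √x * Real.exp 1 ≤ y :=
    le_trans (mul_le_mul_of_nonneg_left (by linarith) hsx.le) hy1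
  have hy8 : 8 ≤ y := by
    have : 4 * 2.75 ≤ √x * Real.log x := mul_le_mul hsx4 hlx (by norm_num) hsx.le
    linarith
  have hy0 : 0 < y := by linarith
  have hxy1 : 1 ≤ x / y := by rwa [one_le_div hy0]
  have hlxy : 0 ≤ Real.log (x / y) := Real.log_nonneg hxy1
  set l : ℝ := Real.log x * (1 + Real.log (x / y)) with hl
  have hl0 : 0 < l := by positivity
  have hl1 : 1 ≤ l := by
    have : 1 * 1 ≤ Real.log x * (1 + Real.log (x / y)) :=
      mul_le_mul (by linarith) (by linarith) (by norm_num) hlx0.le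
    linarith
  have hl2 : l ≤ Real.log x ^ 2 := by
    have h1 : x / y ≤ √x / Real.exp 1 := by
      rw [div_le_div_iff₀ hy0 (Real.exp_pos 1)]
      calc x * Real.exp 1 = √x * (√x * Real.exp 1) := by
            rw [← mul_assoc, Real.mul_self_sqrt hx0.le]
        _ ≤ √x * y := mul_le_mul_of_nonneg_left hy2 hsx.le
    have h2 : Real.log (x / y) ≤ Real.log (√x / Real.exp 1) :=
      Real.log_le_log (by positivity) h1
    rw [Real.log_div hsx.ne' (Real.exp_pos 1).ne', Real.log_exp, Real.log_sqrt hx0.le] at h2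
    rw [hl, pow_two]
    exact mul_le_mul_of_nonneg_left (by linarith) hlx0.le
  -- the integers
  set s : ℕ := ⌊x⌋₊ with hs
  set W : ℕ := ⌊y⌋₊ with hW
  have hsx1 : (s : ℝ) ≤ x := Nat.floor_le hx0.le
  have hsx2 : x < s + 1 := Nat.lt_floor_add_one x
  have hWy1 : (W : ℝ) ≤ y := Nat.floor_le hy0.le
  have hWy2 : y < W + 1 := Nat.lt_floor_add_one y
  have hWy : y ≤ 2 * W := by linarith
  have hW0 : (0 : ℝ) < W := by linarith
  have hs15 : (15 : ℝ) < s := by linarith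
  have hs00 : (0 : ℝ) < s := by linarith
  have hWs : W ≤ s := Nat.floor_le_floor hyx
  have hWsr : (W : ℝ) ≤ s := by exact_mod_cast hWs
  have hss0 : s0 ≤ s := by
    have : (s0 : ℝ) ≤ s := by
      have h1 : (s0 : ℝ) < s + 1 := by linarith
      have h2 : s0 < s + 1 := by exact_mod_cast h1
      exact_mod_cast Nat.lt_succ_iff.1 h2
    exact_mod_cast this
  set l' : ℝ := Real.log s * (1 + Real.log ((s : ℝ) / W)) with hl'
  have hlsW : 0 ≤ Real.log ((s : ℝ) / W) := Real.log_nonneg (by rwa [one_le_div hW0])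
  have hls0 : 0 ≤ Real.log (s : ℝ) := Real.log_natCast_nonneg s
  have hl'0 : 0 ≤ l' := by positivity
  have hll : l' ≤ 2 * l := by
    have h1 : Real.log (s : ℝ) ≤ Real.log x := Real.log_le_log hs00 hsx1
    have h2 : (s : ℝ) / W ≤ 2 * (x / y) := by
      rw [div_le_iff₀ hW0]
      have e : 2 * (x / y) * W = x * (2 * W / y) := by field_simp
      rw [e]
      have h3 : 1 ≤ 2 * (W : ℝ) / y := by rwa [one_le_div hy0]
      nlinarith
    have h4 : Real.log ((s : ℝ) / W) ≤ Real.log (2 * (x / y)) :=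
      Real.log_le_log (by positivity) h2
    rw [Real.log_mul (by norm_num) (by positivity)] at h4
    have h5 := Real.log_two_lt_d9
    have h6 : 1 + Real.log ((s : ℝ) / W) ≤ 2 * (1 + Real.log (x / y)) := by linarith
    calc l' ≤ Real.log x * (2 * (1 + Real.log (x / y))) :=
          mul_le_mul h1 h6 (by positivity) hlx0.le
      _ = 2 * l := by rw [hl]; ring
  -- cube roots
  set v : ℝ := y ^ (1 / 3 : ℝ) with hv
  set u : ℝ := (x ^ 2 * l) ^ (1 / 3 : ℝ) with hu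
  have hxl : 0 < x ^ 2 * l := by positivity
  have hv0 : 0 < v := Real.rpow_pos_of_pos hy0 _
  have hu0 : 0 < u := Real.rpow_pos_of_pos hxl _
  have hv3 : v ^ 3 = y := by
    rw [hv, ← Real.rpow_natCast, ← Real.rpow_mul hy0.le]
    norm_num
  have hu3 : u ^ 3 = x ^ 2 * l := by
    rw [hu, ← Real.rpow_natCast, ← Real.rpow_mul hxl.le]
    norm_num
  have hv4 : y ^ (4 / 3 : ℝ) = v ^ 4 := by
    rw [hv, ← Real.rpow_natCast, ← Real.rpow_mul hy0.le]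
    norm_num
  have hv5 : y ^ (5 / 3 : ℝ) = v ^ 5 := by
    rw [hv, ← Real.rpow_natCast, ← Real.rpow_mul hy0.le]
    norm_num
  have hu2 : (x ^ 2 * l) ^ (2 / 3 : ℝ) = u ^ 2 := by
    rw [hu, ← Real.rpow_natCast ((x ^ 2 * l) ^ (1 / 3 : ℝ)) 2, ← Real.rpow_mul hxl.le]
    norm_num
  have hvu : v ≤ u := by
    have h1 : y ≤ x ^ 2 * l := by
      calc y ≤ x * 1 := by linarith
        _ ≤ x * (x * l) := by
            refine mul_le_mul_of_nonneg_left ?_ hx0.le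
            have : 1 * 1 ≤ x * l := mul_le_mul (by linarith) hl1 (by norm_num) hx0.le
            linarith
        _ = x ^ 2 * l := by ring
    exact Real.rpow_le_rpow hy0.le h1 (by norm_num)
  rw [hv5, hu2] at hdim
  rw [hv4]
  set d : ℝ := (Module.finrank ℚ V : ℝ) with hd
  have hd0 : 0 ≤ d := Nat.cast_nonneg _
  have hdu : d * u ^ 2 ≤ c2 * v ^ 5 := by
    rw [le_div_iff₀ (by positivity)] at hdim
    refine hdim.trans ?_
    exact mul_le_mul_of_nonneg_right (min_le_left _ _) (by positivity)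
  -- [A]
  have hA : (s : ℝ) * l' ≤ c1 * (W : ℝ) ^ 2 := by
    have h1 : x * Real.log x ^ 2 * C ^ 2 ≤ y ^ 2 := by
      have h2 : (C * √x * Real.log x) ^ 2 ≤ y ^ 2 := pow_le_pow_left₀ (by positivity) hy 2
      have h3 : (C * √x * Real.log x) ^ 2 = C ^ 2 * (√x) ^ 2 * Real.log x ^ 2 := by ring
      rw [h3, Real.sq_sqrt hx0.le] at h2
      linarith
    have h4 : y ^ 2 ≤ 4 * (W : ℝ) ^ 2 := by
      have : y ^ 2 ≤ (2 * (W : ℝ)) ^ 2 := pow_le_pow_left₀ hy0.le hWy 2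
      linarith
    have h5 : (s : ℝ) * l' ≤ 2 * (x * Real.log x ^ 2) := by
      calc (s : ℝ) * l' ≤ x * (2 * l) := mul_le_mul hsx1 hll hl'0 hx0.le
        _ ≤ x * (2 * Real.log x ^ 2) := mul_le_mul_of_nonneg_left (by linarith) hx0.le
        _ = 2 * (x * Real.log x ^ 2) := by ring
    have h6 : 0 ≤ x * Real.log x ^ 2 := by positivity
    have h7 : 8 * (x * Real.log x ^ 2) ≤ c1 * C ^ 2 * (x * Real.log x ^ 2) :=
      mul_le_mul_of_nonneg_right hC8 h6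
    have h8 : c1 * (x * Real.log x ^ 2 * C ^ 2) ≤ c1 * (4 * (W : ℝ) ^ 2) :=
      mul_le_mul_of_nonneg_left (h1.trans h4) hc1.le
    nlinarith
  have hsl : (s : ℝ) ^ 2 * l' ≤ 2 * u ^ 3 := by
    calc (s : ℝ) ^ 2 * l' ≤ x ^ 2 * (2 * l) :=
          mul_le_mul (pow_le_pow_left₀ hs00.le hsx1 2) hll hl'0 (by positivity)
      _ = 2 * u ^ 3 := by rw [hu3]; ring
  have hyW3 : y ^ 3 ≤ 8 * (W : ℝ) ^ 3 := by
    have : y ^ 3 ≤ (2 * (W : ℝ)) ^ 3 := pow_le_pow_left₀ hy0.le hWy 3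
    linarith
  have hyW4 : y ^ 4 ≤ 16 * (W : ℝ) ^ 4 := by
    have : y ^ 4 ≤ (2 * (W : ℝ)) ^ 4 := pow_le_pow_left₀ hy0.le hWy 4
    linarith
  -- [B]
  have hBB : d ^ 2 * (s : ℝ) ^ 2 * l' ≤ c1 * (W : ℝ) ^ 3 := by
    have h1 : d ^ 2 * (s : ℝ) ^ 2 * l' ≤ d ^ 2 * (2 * u ^ 3) := by
      rw [mul_assoc]
      exact mul_le_mul_of_nonneg_left hsl (by positivity)
    have h2 : (d * u ^ 2) ^ 2 ≤ (c2 * v ^ 5) ^ 2 := pow_le_pow_left₀ (by positivity) hdu 2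
    have h3 : u * (d ^ 2 * (2 * u ^ 3)) ≤ u * (2 * c2 ^ 2 * v ^ 9) := by
      calc u * (d ^ 2 * (2 * u ^ 3)) = 2 * (d * u ^ 2) ^ 2 := by ring
        _ ≤ 2 * (c2 * v ^ 5) ^ 2 := by linarith
        _ = v * (2 * c2 ^ 2 * v ^ 9) := by ring
        _ ≤ u * (2 * c2 ^ 2 * v ^ 9) := mul_le_mul_of_nonneg_right hvu (by positivity)
    have h4 : d ^ 2 * (2 * u ^ 3) ≤ 2 * c2 ^ 2 * v ^ 9 := le_of_mul_le_mul_left h3 hu0
    have h5 : v ^ 9 = y ^ 3 := by rw [← hv3]; ring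
    rw [h5] at h4
    have h6 : 2 * c2 ^ 2 * y ^ 3 ≤ 2 * c2 ^ 2 * (8 * (W : ℝ) ^ 3) :=
      mul_le_mul_of_nonneg_left hyW3 (by positivity)
    have h7 : 16 * c2 ^ 2 * (W : ℝ) ^ 3 ≤ c1 * (W : ℝ) ^ 3 :=
      mul_le_mul_of_nonneg_right hc2s (by positivity)
    linarith
  -- X
  set Z : ℝ := min (y ^ 2 / (x * l)) (v ^ 4 / u) with hZ
  have hZ0 : 0 < Z := lt_min (by positivity) (by positivity)
  have hZ1 : Z * (x * l) ≤ y ^ 2 := by
    rw [← le_div_iff₀ (by positivity)]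
    exact min_le_left _ _
  have hZ2 : Z * u ≤ v ^ 4 := by
    rw [← le_div_iff₀ hu0]
    exact min_le_right _ _
  set X : ℝ := Z / 16 with hX
  have hX0 : 0 < X := by positivity
  have hX3 : X ^ 3 * (s : ℝ) ^ 2 * l' ≤ (W : ℝ) ^ 4 := by
    calc X ^ 3 * (s : ℝ) ^ 2 * l' = X ^ 3 * ((s : ℝ) ^ 2 * l') := by ring
      _ ≤ X ^ 3 * (2 * u ^ 3) := mul_le_mul_of_nonneg_left hsl (by positivity)
      _ = 2 / 4096 * (Z * u) ^ 3 := by rw [hX]; ring
      _ ≤ 2 / 4096 * (v ^ 4) ^ 3 := by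
          refine mul_le_mul_of_nonneg_left ?_ (by norm_num)
          exact pow_le_pow_left₀ (by positivity) hZ2 3
      _ = 2 / 4096 * y ^ 4 := by rw [← hv3]; ring
      _ ≤ 2 / 4096 * (16 * (W : ℝ) ^ 4) := mul_le_mul_of_nonneg_left hyW4 (by norm_num)
      _ ≤ (W : ℝ) ^ 4 := by
          have : 0 ≤ (W : ℝ) ^ 4 := by positivity
          linarith
  have hX1 : X * (s : ℝ) * l' ≤ (W : ℝ) ^ 2 := by
    have h4 : y ^ 2 ≤ 4 * (W : ℝ) ^ 2 := by
      have : y ^ 2 ≤ (2 * (W : ℝ)) ^ 2 := pow_le_pow_left₀ hy0.le hWy 2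
      linarith
    calc X * (s : ℝ) * l' = X * ((s : ℝ) * l') := by ring
      _ ≤ X * (x * (2 * l)) := by
          refine mul_le_mul_of_nonneg_left ?_ hX0.le
          exact mul_le_mul hsx1 hll hl'0 hx0.le
      _ = 2 / 16 * (Z * (x * l)) := by rw [hX]; ring
      _ ≤ 2 / 16 * y ^ 2 := mul_le_mul_of_nonneg_left hZ1 (by norm_num)
      _ ≤ 2 / 16 * (4 * (W : ℝ) ^ 2) := mul_le_mul_of_nonneg_left h4 (by norm_num)
      _ ≤ (W : ℝ) ^ 2 := by
          have : 0 ≤ (W : ℝ) ^ 2 := by positivity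
          linarith
  have hXd : d * X * (s : ℝ) ^ 2 * l' ≤ (W : ℝ) ^ 3 := by
    calc d * X * (s : ℝ) ^ 2 * l' = d * X * ((s : ℝ) ^ 2 * l') := by ring
      _ ≤ d * X * (2 * u ^ 3) := mul_le_mul_of_nonneg_left hsl (by positivity)
      _ = 2 / 16 * ((d * u ^ 2) * (Z * u)) := by rw [hX]; ring
      _ ≤ 2 / 16 * ((c2 * v ^ 5) * v ^ 4) := by
          refine mul_le_mul_of_nonneg_left ?_ (by norm_num)
          exact mul_le_mul hdu hZ2 (by positivity) (by positivity)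
      _ ≤ 2 / 16 * ((1 * v ^ 5) * v ^ 4) := by
          refine mul_le_mul_of_nonneg_left ?_ (by norm_num)
          refine mul_le_mul_of_nonneg_right ?_ (by positivity)
          exact mul_le_mul_of_nonneg_right hc21 (by positivity)
      _ = 2 / 16 * y ^ 3 := by rw [← hv3]; ring
      _ ≤ 2 / 16 * (8 * (W : ℝ) ^ 3) := mul_le_mul_of_nonneg_left hyW3 (by norm_num)
      _ = (W : ℝ) ^ 3 := by ring
  have hcount := hmain s hss0 W hWs V hfin hA hBB X hX0.le hX3 hX1 hXd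
  -- the sets
  have hfinite : ({i : ℕ | Odd i ∧ x < i ∧ (i : ℝ) ≤ x + y ∧
      ∀ v ∈ V, ∀ q : ℚ, zr i ≠ q + v} : Set ℕ).Finite :=
    (Set.finite_Iic ⌊x + y⌋₊).subset fun i hi => Nat.le_floor hi.2.2.1
  have hsub : ({i : ℕ | Odd i ∧ s < i ∧ i ≤ s + W ∧ ∀ v ∈ V, ∀ q : ℚ, zr i ≠ q + v} : Set ℕ) ⊆
      {i : ℕ | Odd i ∧ x < i ∧ (i : ℝ) ≤ x + y ∧ ∀ v ∈ V, ∀ q : ℚ, zr i ≠ q + v} := by
    rintro i ⟨h1, h2, h3, h4⟩
    refine ⟨h1, ?_, ?_, h4⟩
    · have : (s : ℝ) + 1 ≤ i := by exact_mod_cast h2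
      linarith
    · have : (i : ℝ) ≤ s + W := by exact_mod_cast h3
      linarith
  have hle := Set.ncard_le_ncard hsub hfinite
  have hler : (({i : ℕ | Odd i ∧ s < i ∧ i ≤ s + W ∧
      ∀ v ∈ V, ∀ q : ℚ, zr i ≠ q + v} : Set ℕ).ncard : ℝ) ≤
      (({i : ℕ | Odd i ∧ x < i ∧ (i : ℝ) ≤ x + y ∧
        ∀ v ∈ V, ∀ q : ℚ, zr i ≠ q + v} : Set ℕ).ncard : ℝ) := by exact_mod_cast hle
  have hfinal := hcount.trans hler
  refine ⟨?_, ?_⟩
  · have h1 : (0 : ℝ) < (({i : ℕ | Odd i ∧ x < i ∧ (i : ℝ) ≤ x + y ∧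
        ∀ v ∈ V, ∀ q : ℚ, zr i ≠ q + v} : Set ℕ).ncard : ℝ) :=
      lt_of_lt_of_le (by positivity) hfinal
    have h2 : 0 < ({i : ℕ | Odd i ∧ x < i ∧ (i : ℝ) ≤ x + y ∧
        ∀ v ∈ V, ∀ q : ℚ, zr i ≠ q + v} : Set ℕ).ncard := by exact_mod_cast h1
    exact_mod_cast h2
  · refine le_trans ?_ hfinal
    have h1 : c * Z ≤ (c1 / 16) * Z := mul_le_mul_of_nonneg_right (min_le_right _ _) hZ0.le
    calc c * Z ≤ (c1 / 16) * Z := h1
      _ = c1 * X := by rw [hX]; ring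

/-- density: almost all `m` are close to an exponent -/
theorem si_dens_of (H : Core2) : ∃ C : ℝ, ∀ a h : ℕ, 3 ≤ a → 1 ≤ h → h ^ 2 ≤ a →
    ∀ V : Submodule ℚ ℝ, Module.Finite ℚ V →
    (({m : ℕ | m < a ∧ ∀ i : ℕ, Odd i → m ≤ i + h → i ≤ m + h →
      ∃ v ∈ V, ∃ q : ℚ, zr i = q + v} : Set ℕ).ncard : ℝ) ≤
      C * ((a : ℝ) ^ 2 * Real.log a ^ 2 / (h : ℝ) ^ 3 + h + (Module.finrank ℚ V : ℝ) * h ^ 2) := by
  obtain ⟨C, hC, hD⟩ := si_D_of H
  refine ⟨2 * C, fun a h ha hh hha V hfin => ?_⟩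
  have hfinite : ({m : ℕ | m < a ∧ FreeAt V h h m} : Set ℕ).Finite :=
    (Set.finite_Iio a).subset fun m hm => hm.1
  have hsub : ({m : ℕ | m < a ∧ ∀ i : ℕ, Odd i → m ≤ i + h → i ≤ m + h →
      ∃ v ∈ V, ∃ q : ℚ, zr i = q + v} : Set ℕ) ⊆ {m : ℕ | m < a ∧ FreeAt V h h m} := by
    rintro m ⟨h1, h2⟩
    exact ⟨h1, fun i hi h3 h4 => h2 i hi (by omega) h4⟩
  have hle := Set.ncard_le_ncard hsub hfinite
  set N : ℕ := ({m : ℕ | m < a ∧ FreeAt V h h m} : Set ℕ).ncard with hN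
  have hler : (({m : ℕ | m < a ∧ ∀ i : ℕ, Odd i → m ≤ i + h → i ≤ m + h →
      ∃ v ∈ V, ∃ q : ℚ, zr i = q + v} : Set ℕ).ncard : ℝ) ≤ N := by exact_mod_cast hle
  refine hler.trans ?_
  have hh0 : (0 : ℝ) < h := by exact_mod_cast hh
  have ha3 : (3 : ℝ) ≤ a := by exact_mod_cast ha
  have ha0 : (0 : ℝ) < a := by linarith
  have hd0 : (0 : ℝ) ≤ (Module.finrank ℚ V : ℝ) := Nat.cast_nonneg _
  have hla : (1 : ℝ) ≤ Real.log a := by
    rw [Real.le_log_iff_exp_le ha0]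
    have := Real.exp_one_lt_d9
    linarith
  have t1 : 0 ≤ (a : ℝ) ^ 2 * Real.log a ^ 2 / (h : ℝ) ^ 3 := by positivity
  rcases hD a h h ha hh hh (by rw [← pow_two]; exact hha) V hfin with h1 | h1
  · refine h1.trans ?_
    have h2 : 0 ≤ C * (h + (Module.finrank ℚ V : ℝ) * h ^ 2) := by positivity
    have h3 : 0 ≤ C * ((a : ℝ) ^ 2 * Real.log a ^ 2 / (h : ℝ) ^ 3) := by positivity
    nlinarith
  · rcases Nat.eq_zero_or_pos N with h0 | h0
    · rw [h0, Nat.cast_zero]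
      positivity
    have hN1 : (1 : ℝ) ≤ N := by exact_mod_cast h0
    have h2 : Real.log ((a : ℝ) / N) ≤ Real.log a :=
      Real.log_le_log (by positivity) (div_le_self ha0.le hN1)
    have h3 : (N : ℝ) * (h : ℝ) ^ 3 ≤ 2 * C * ((a : ℝ) ^ 2 * Real.log a ^ 2) := by
      calc (N : ℝ) * (h : ℝ) ^ 3 = N * (h * (h : ℝ) ^ 2) := by ring
        _ ≤ C * ((a : ℝ) ^ 2 * Real.log a * (1 + Real.log ((a : ℝ) / N))) := h1
        _ ≤ C * ((a : ℝ) ^ 2 * Real.log a * (2 * Real.log a)) := by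
            refine mul_le_mul_of_nonneg_left ?_ hC.le
            refine mul_le_mul_of_nonneg_left (by linarith) (by positivity)
        _ = 2 * C * ((a : ℝ) ^ 2 * Real.log a ^ 2) := by ring
    have h4 : (N : ℝ) ≤ 2 * C * ((a : ℝ) ^ 2 * Real.log a ^ 2 / (h : ℝ) ^ 3) := by
      rw [← mul_div_assoc, le_div_iff₀ (by positivity)]
      exact h3
    have h5 : 0 ≤ C * (h + (Module.finrank ℚ V : ℝ) * h ^ 2) := by positivity
    nlinarith

end Pool.Agent.SI
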