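import Pool.Agent.ZC.Defs4

/-!
# SI (short intervals): definitions

`w = 2 t + 2 p - 1`, at the pole `t = -l + X` it is `hl p l`, and `yl p l = (hl p l)^2`.
Nodes: half-integers only.
-/

namespace Pool.Agent.SI

open Finset Pool.Agent.ZC

noncomputable section

variable (K : Type*) [Field K]

/-- `w = 2 t + 2 p - 1` at the pole `l` -/
def hl (p l : ℕ) : PowerSeries K :=
  PowerSeries.C (2 * (p : K) - 1 - 2 * (l : K)) + PowerSeries.C (2 : K) * PowerSeries.X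

/-- `∏_{μ<q} (Y - (2μ)^2)` -/
def Ap (q : ℕ) : Polynomial K :=
  ∏ μ ∈ range q, (Polynomial.X - Polynomial.C ((2 * (μ : K)) ^ 2))

/-- normalised multiplier -/
def Am (M q : ℕ) : Polynomial K :=
  Polynomial.C ((2 : K) ^ (2 * q - 1) * ((bf M (2 * q - 1) : ℕ) : K)⁻¹) * Ap K q

/-- half-integer nodes of the strip, seen from the pole `l` -/
def gh (p l : ℕ) : PowerSeries K :=
  ∑ k ∈ range l, (PowerSeries.C ((2 * (k : K) + 1) / 2) - PowerSeries.X)⁻¹ +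
  ∑ k ∈ range (2 * p - 1 - l), (PowerSeries.C ((2 * (k : K) + 1) / 2) + PowerSeries.X)⁻¹

/-- `∑_{i ≤ T odd, i ≥ 3} 2 (2^i - 1) z_i X^(i-1)` -/
def zp (T : ℕ) (z : ℕ → K) : PowerSeries K :=
  ∑ i ∈ oddS T, PowerSeries.C (2 * ((2 : K) ^ i - 1) * z i) * PowerSeries.X ^ (i - 1)

/-- the functional at the pole `l` -/
def Gh (p l T : ℕ) (z : ℕ → K) : PowerSeries K := zp K T z - gh K p l

/-- companion row `(j, i)` at the pole `l` -/
def cRow {J : Type} (M p : ℕ) (ψ : J → PowerSeries K) (σ : J → ℕ) (l : ℕ) (j : J) (i : ℕ) :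
    PowerSeries K := ψ j * (hl K p l ^ σ j * ev K p l (Cn K M i))

/-- `F` row `(k, r, j)` at the pole `l` -/
def fRow (M p q T : ℕ) (z : ℕ → K) (l k r j : ℕ) : PowerSeries K :=
  PowerSeries.X ^ k * hs K r (hl K p l ^ ((k + r) % 2) * ev K p l (Am K M q * Cn K M j) *
    Gh K p l T z)

/-- coefficients of the expansion; nodes `w_x = 2 (q + i)` -/
def gamh (q n : ℕ) (f : Polynomial ℝ) (κ : ℕ) : ℝ :=
  ∑' i : ℕ, 8 * ((q + i : ℕ) : ℝ) * f.eval ((2 * ((q + i : ℕ) : ℝ)) ^ 2) /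
    ((2 * ((q + i : ℕ) : ℝ)) ^ 2) ^ (n + κ + 1)

/-- `(k % 2 + r - (k + r) % 2) / 2` -/
def dl (k r : ℕ) : ℕ := (k % 2 + r - (k + r) % 2) / 2

/-- coefficients of the expansion of the `F` rows of level `k`, order `r` -/
def lam (q n k r : ℕ) (f : Polynomial ℝ) (κ : ℕ) : ℝ :=
  gamh q (n + dl k r) f κ * (((2 * (n + dl k r + κ) + (k + r) % 2).choose r : ℝ) * 2 ^ r)

/-- vectors of the level `k` -/
def uvec (p n k l κ : ℕ) : PowerSeries ℝ :=
  PowerSeries.X ^ k * (hl ℝ p l ^ (k % 2) * yl ℝ p l ^ (n + κ))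

end

theorem yl_eq_hl_sq (K : Type*) [Field K] (p l : ℕ) : yl K p l = hl K p l ^ 2 := rfl

end Pool.Agent.SI
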