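import Pool.Agent.ZC.BLK

/-!
# SI: runs of consecutive odd numbers
-/

namespace Pool.Agent.SI

open PowerSeries Finset Pool.Agent.ZC
open scoped Nat

/-- `∏_{k<z} ((u + 2k) + 2X)` -/
noncomputable def orun (u : ℤ) (z : ℕ) : PowerSeries ℚ :=
  ∏ k ∈ range z, (C ((u : ℚ) + 2 * k) + C (2 : ℚ) * X)

theorem orun_zero (u : ℤ) : orun u 0 = 1 := by simp [orun]

theorem orun_succ (u : ℤ) (z : ℕ) :
    orun u (z + 1) = orun u z * (C ((u : ℚ) + 2 * z) + C (2 : ℚ) * X) := by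
  simp [orun, prod_range_succ]

theorem orun_succ' (u : ℤ) (z : ℕ) :
    orun u (z + 1) = (C (u : ℚ) + C (2 : ℚ) * X) * orun (u + 2) z := by
  rw [orun, prod_range_succ', mul_comm]
  congr 1
  · simp
  · apply prod_congr rfl
    intro k _
    push_cast
    ring_nf

theorem orun_add (u : ℤ) (z w : ℕ) :
    orun u (z + w) = orun u z * orun (u + 2 * z) w := by
  rw [orun, prod_range_add]
  congr 1
  apply prod_congr rfl
  intro k _
  push_cast
  ring_nf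

theorem orun_one_mem {d : ℕ} (z : ℕ) (hz : ∀ q : ℕ, 1 ≤ q → q ≤ 2 * z → q ∣ d) :
    C ((2 : ℚ) ^ z * (z ! : ℚ)⁻¹) * orun 1 z ∈ dR d := by
  have hq : ∀ q : ℕ, 1 ≤ q → q ≤ 2 * z → ∃ w : ℤ, (d : ℚ) * ((2 : ℚ) / q) = w := by
    intro q h1 h2
    obtain ⟨e, he⟩ := hz q h1 h2
    refine ⟨e * 2, ?_⟩
    have : (q : ℚ) ≠ 0 := by positivity
    rw [he]; push_cast; field_simp
  have h2 : ∀ z : ℕ, C ((2 : ℚ) ^ z * (z ! : ℚ)⁻¹) * orun 1 z = C ((z.centralBinom : ℚ)) *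
      ∏ k ∈ range z, (1 + C ((2 : ℚ) / ((2 * k + 1 : ℕ) : ℚ)) * X) := by
    intro z
    induction z with
    | zero => simp [orun_zero]
    | succ z ih =>
      have h3 : ((2 * z + 1 : ℕ) : ℚ) ≠ 0 := by positivity
      have h4 : (C (((1 : ℤ) : ℚ) + 2 * z) + C (2 : ℚ) * X : PowerSeries ℚ) =
          C ((2 * z + 1 : ℕ) : ℚ) * (1 + C ((2 : ℚ) / ((2 * z + 1 : ℕ) : ℚ)) * X) := by
        rw [mul_add, mul_one, ← mul_assoc, ← map_mul, mul_div_cancel₀ _ h3]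
        push_cast
        ring_nf
      have h5 : ((z + 1)! : ℚ) = ((z : ℚ) + 1) * (z ! : ℚ) := by
        rw [Nat.factorial_succ]; push_cast; ring
      have h6 : (z ! : ℚ) ≠ 0 := by positivity
      have h7 : ((z : ℚ) + 1) ≠ 0 := by positivity
      have hcb : ((z : ℚ) + 1) * ((z + 1).centralBinom : ℚ) =
          2 * (2 * z + 1) * (z.centralBinom : ℚ) := by
        exact_mod_cast Nat.succ_mul_centralBinom_succ z
      have h8 : (C ((2 : ℚ) ^ (z + 1) * ((z + 1)! : ℚ)⁻¹) : PowerSeries ℚ) =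
          C ((2 : ℚ) / ((z : ℚ) + 1)) * C ((2 : ℚ) ^ z * (z ! : ℚ)⁻¹) := by
        rw [← map_mul]; congr 1; rw [h5]; field_simp; ring
      have h9 : (C (((z + 1).centralBinom : ℚ)) : PowerSeries ℚ) =
          C ((2 : ℚ) / ((z : ℚ) + 1)) * C ((2 * z + 1 : ℕ) : ℚ) * C ((z.centralBinom : ℚ)) := by
        rw [← map_mul, ← map_mul]; congr 1
        push_cast
        field_simp
        linarith [hcb]
      rw [h8, h9, orun_succ, h4, prod_range_succ]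
      calc C ((2 : ℚ) / ((z : ℚ) + 1)) * C ((2 : ℚ) ^ z * (z ! : ℚ)⁻¹) *
            (orun 1 z * (C ((2 * z + 1 : ℕ) : ℚ) * (1 + C ((2 : ℚ) / ((2 * z + 1 : ℕ) : ℚ)) * X)))
          = C ((2 : ℚ) / ((z : ℚ) + 1)) * (C ((2 : ℚ) ^ z * (z ! : ℚ)⁻¹) * orun 1 z) *
            (C ((2 * z + 1 : ℕ) : ℚ) * (1 + C ((2 : ℚ) / ((2 * z + 1 : ℕ) : ℚ)) * X)) := by ring
        _ = _ := by rw [ih]; ring
  rw [h2]
  refine mul_mem (C_nat_mem _ _) (prod_mem fun k hk => ?_)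
  exact add_mem (one_mem _) (C_mul_X_mem (hq _ (by omega) (by simp at hk; omega)))

theorem orun_fact_mem {d : ℕ} (z : ℕ) (hz : ∀ q : ℕ, 1 ≤ q → q ≤ 2 * z → q ∣ d) (v : ℤ) :
    C ((2 : ℚ) ^ z * (z ! : ℚ)⁻¹) * orun (2 * v + 1) z ∈ dR d := by
  induction z generalizing v with
  | zero => simpa [orun_zero] using one_mem _
  | succ z ih =>
    have ih' := ih (fun q h1 h2 => hz q h1 (by omega))
    have base := orun_one_mem (z + 1) hz
    have step : ∀ v : ℤ, C ((2 : ℚ) ^ (z + 1) * ((z + 1)! : ℚ)⁻¹) *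
        orun (2 * (v + 1) + 1) (z + 1) =
        C ((2 : ℚ) ^ (z + 1) * ((z + 1)! : ℚ)⁻¹) * orun (2 * v + 1) (z + 1) +
          C (((4 : ℤ) : ℚ)) * (C ((2 : ℚ) ^ z * (z ! : ℚ)⁻¹) * orun (2 * (v + 1) + 1) z) := by
      intro v
      rw [orun_succ (2 * (v + 1) + 1), orun_succ' (2 * v + 1),
        show (2 * v + 1 + 2 : ℤ) = 2 * (v + 1) + 1 by ring]
      have h5 : ((z + 1)! : ℚ) = ((z + 1 : ℕ) : ℚ) * (z ! : ℚ) := by
        rw [Nat.factorial_succ]; push_cast; ring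
      have h6 : (z ! : ℚ) ≠ 0 := by positivity
      have h7 : ((z + 1 : ℕ) : ℚ) ≠ 0 := by positivity
      have h8 : (C (((4 : ℤ) : ℚ)) : PowerSeries ℚ) * C ((2 : ℚ) ^ z * (z ! : ℚ)⁻¹) =
          C ((2 : ℚ) ^ (z + 1) * ((z + 1)! : ℚ)⁻¹) * C (2 * ((z + 1 : ℕ) : ℚ)) := by
        rw [← map_mul, ← map_mul]; congr 1; rw [h5]; push_cast at h7 ⊢; field_simp; ring
      have h9 : (C (((2 * (v + 1) + 1 : ℤ) : ℚ) + 2 * z) + C (2 : ℚ) * X : PowerSeries ℚ) =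
          (C (((2 * v + 1 : ℤ) : ℚ)) + C (2 : ℚ) * X) + C (2 * ((z + 1 : ℕ) : ℚ)) := by
        have : (((2 * (v + 1) + 1 : ℤ) : ℚ) + 2 * z) =
            ((2 * v + 1 : ℤ) : ℚ) + 2 * ((z + 1 : ℕ) : ℚ) := by push_cast; ring
        rw [this, map_add]
        ring
      rw [← mul_assoc (C (((4 : ℤ) : ℚ))), h8, h9]
      ring
    induction v using Int.induction_on with
    | zero => simpa using base
    | succ i hi =>
      rw [step]
      exact add_mem hi (mul_mem (C_int_mem d 4) (ih' _))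
    | pred i hi =>
      have := step (-(i : ℤ) - 1)
      rw [sub_add_cancel] at this
      have h10 : C ((2 : ℚ) ^ (z + 1) * ((z + 1)! : ℚ)⁻¹) *
          orun (2 * (-(i : ℤ) - 1) + 1) (z + 1) =
          C ((2 : ℚ) ^ (z + 1) * ((z + 1)! : ℚ)⁻¹) * orun (2 * (-(i : ℤ)) + 1) (z + 1) -
            C (((4 : ℤ) : ℚ)) * (C ((2 : ℚ) ^ z * (z ! : ℚ)⁻¹) * orun (2 * (-(i : ℤ)) + 1) z) := by
        rw [this]; ring
      rw [h10]
      exact sub_mem hi (mul_mem (C_int_mem d 4) (ih' _))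

theorem orun_bf_mem {d M : ℕ} (hM : 0 < M) (hd : ∀ q : ℕ, 1 ≤ q → q ≤ 2 * M → q ∣ d)
    (z : ℕ) (u : ℤ) (hu : Odd u) : C ((2 : ℚ) ^ z * (bf M z : ℚ)⁻¹) * orun u z ∈ dR d := by
  induction z using Nat.strong_induction_on generalizing u with
  | _ z ih =>
    obtain ⟨v, rfl⟩ := hu
    rcases Nat.lt_or_ge z M with h | h
    · rw [bf_of_lt h]
      exact orun_fact_mem z (fun q h1 h2 => hd q h1 (by omega)) v
    · obtain ⟨w, rfl⟩ := Nat.exists_eq_add_of_le h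
      rw [orun_add, bf_add hM]
      have h1 := orun_fact_mem M hd v
      have h2 := ih w (by omega) (2 * v + 1 + 2 * M) ⟨v + M, by ring⟩
      have h3 : (C ((2 : ℚ) ^ (M + w) * ((M ! * bf M w : ℕ) : ℚ)⁻¹) : PowerSeries ℚ) =
          C ((2 : ℚ) ^ M * (M ! : ℚ)⁻¹) * C ((2 : ℚ) ^ w * (bf M w : ℚ)⁻¹) := by
        rw [← map_mul]; congr 1; push_cast; rw [mul_inv, pow_add]; ring
      rw [h3]
      have := mul_mem h1 h2
      convert this using 1
      ring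

theorem orunx_fact_mem {d : ℕ} {z k0 : ℕ} (hk : k0 < z)
    (hz : ∀ q : ℕ, 1 ≤ q → q ≤ 2 * z → q ∣ d) (u : ℤ) (hu : Odd u) :
    C ((d : ℚ) * ((2 : ℚ) ^ z * (z ! : ℚ)⁻¹)) *
      (orun u k0 * orun (u + 2 * (k0 + 1)) (z - 1 - k0)) ∈ dR d := by
  obtain ⟨v, rfl⟩ := hu
  obtain ⟨w, rfl⟩ := Nat.exists_eq_add_of_lt hk
  have e : k0 + w + 1 - 1 - k0 = w := by omega
  rw [e]
  have h1 := orun_fact_mem k0 (fun q a b => hz q a (by omega)) v
  have h2 := orun_fact_mem w (fun q a b => hz q a (by omega)) (v + (k0 + 1))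
  rw [show (2 * (v + ((k0 : ℤ) + 1)) + 1 : ℤ) = 2 * v + 1 + 2 * (k0 + 1) by ring] at h2
  have h3 := beta_int (d := d) w k0 (fun q a b => hz q a (by omega))
  have h4 : (C ((d : ℚ) * ((2 : ℚ) ^ (k0 + w + 1) * (((k0 + w + 1)! : ℕ) : ℚ)⁻¹)) :
        PowerSeries ℚ) =
      C ((2 : ℤ) : ℚ) * (C ((d : ℚ) * ((k0 ! : ℚ) * (w ! : ℚ) / ((k0 + w + 1)! : ℚ))) *
        (C ((2 : ℚ) ^ k0 * (k0 ! : ℚ)⁻¹) * C ((2 : ℚ) ^ w * (w ! : ℚ)⁻¹))) := by
    rw [← map_mul, ← map_mul, ← map_mul]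
    congr 1
    have : (k0 ! : ℚ) ≠ 0 := by positivity
    have : (w ! : ℚ) ≠ 0 := by positivity
    rw [pow_succ, pow_add]
    push_cast
    field_simp
  rw [h4]
  have := mul_mem (C_int_mem d 2) (smul_int_mem h3 (mul_mem h1 h2))
  convert this using 1
  ring

/-- the same with the factor `k0` removed -/
theorem orunx_bf_mem {d M : ℕ} (hM : 0 < M) (hd : ∀ q : ℕ, 1 ≤ q → q ≤ 2 * M → q ∣ d)
    (z k0 : ℕ) (hk : k0 < z) (u : ℤ) (hu : Odd u) :
    C ((d : ℚ) * ((2 : ℚ) ^ z * (bf M z : ℚ)⁻¹)) *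
      (orun u k0 * orun (u + 2 * (k0 + 1)) (z - 1 - k0)) ∈ dR d := by
  induction z using Nat.strong_induction_on generalizing u k0 with
  | _ z ih =>
    rcases Nat.lt_or_ge z M with h | h
    · rw [bf_of_lt h]
      exact orunx_fact_mem hk (fun q h1 h2 => hd q h1 (by omega)) u hu
    · obtain ⟨w, rfl⟩ := Nat.exists_eq_add_of_le h
      rw [bf_add hM]
      rcases Nat.lt_or_ge k0 M with h0 | h0
      · have h1 := orunx_fact_mem h0 hd u hu
        have h2 := orun_bf_mem hM hd w (u + 2 * M) (hu.add_even ⟨M, by ring⟩)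
        have h3 : (C ((d : ℚ) * ((2 : ℚ) ^ (M + w) * ((M ! * bf M w : ℕ) : ℚ)⁻¹)) :
            PowerSeries ℚ) =
            C ((d : ℚ) * ((2 : ℚ) ^ M * (M ! : ℚ)⁻¹)) * C ((2 : ℚ) ^ w * (bf M w : ℚ)⁻¹) := by
          rw [← map_mul]; congr 1; push_cast; rw [mul_inv, pow_add]; ring
        have h4 : orun (u + 2 * ((k0 : ℤ) + 1)) (M + w - 1 - k0) =
            orun (u + 2 * ((k0 : ℤ) + 1)) (M - 1 - k0) * orun (u + 2 * M) w := by
          have e : M + w - 1 - k0 = (M - 1 - k0) + w := by omega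
          rw [e, orun_add]
          congr 2
          push_cast [Nat.cast_sub (show k0 ≤ M - 1 by omega), Nat.cast_sub (show 1 ≤ M by omega)]
          ring
        rw [h3, h4]
        have := mul_mem h1 h2
        convert this using 1
        ring
      · obtain ⟨v, rfl⟩ := Nat.exists_eq_add_of_le h0
        have h1 : C ((2 : ℚ) ^ M * (M ! : ℚ)⁻¹) * orun u M ∈ dR d := by
          obtain ⟨v', rfl⟩ := hu
          exact orun_fact_mem M hd v'
        have h2 := ih w (by omega) v (by omega) (u + 2 * M) (hu.add_even ⟨M, by ring⟩)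
        have h3 : (C ((d : ℚ) * ((2 : ℚ) ^ (M + w) * ((M ! * bf M w : ℕ) : ℚ)⁻¹)) :
            PowerSeries ℚ) =
            C ((2 : ℚ) ^ M * (M ! : ℚ)⁻¹) * C ((d : ℚ) * ((2 : ℚ) ^ w * (bf M w : ℚ)⁻¹)) := by
          rw [← map_mul]; congr 1; push_cast; rw [mul_inv, pow_add]; ring
        have e : M + w - 1 - (M + v) = w - 1 - v := by omega
        have e2 : (u + 2 * (((M + v : ℕ) : ℤ) + 1)) = u + 2 * M + 2 * ((v : ℤ) + 1) := by
          push_cast; ring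
        rw [h3, e, e2, orun_add]
        have := mul_mem h1 h2
        convert this using 1
        ring

end Pool.Agent.SI
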