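import Pool.Agent.SI.Defs
import Pool.Agent.SI.ORUN
import Pool.Agent.ZC.ENT

/-!
# SI: integrality of the multiplier and of its product with the node sums
-/

namespace Pool.Agent.SI

open Finset Pool.Agent.ZC

private theorem enta_orun_one (u : ℤ) :
    orun u 1 = PowerSeries.C (u : ℚ) + PowerSeries.C (2 : ℚ) * PowerSeries.X := by
  simp [orun]

private theorem enta_orun_succ (u : ℤ) (z : ℕ) :
    orun u (z + 1) =
      orun u z * (PowerSeries.C ((u : ℚ) + 2 * z) + PowerSeries.C (2 : ℚ) * PowerSeries.X) := by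
  simp [orun, prod_range_succ]

private theorem enta_orun_succ' (u : ℤ) (z : ℕ) :
    orun u (z + 1) = (PowerSeries.C (u : ℚ) + PowerSeries.C (2 : ℚ) * PowerSeries.X) *
      orun (u + 2) z := by
  rw [orun, prod_range_succ', mul_comm]
  congr 1
  · simp
  · apply prod_congr rfl
    intro k _
    push_cast
    ring_nf

private theorem enta_orun_add (u : ℤ) (z w : ℕ) :
    orun u (z + w) = orun u z * orun (u + 2 * z) w := by
  rw [orun, prod_range_add]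
  congr 1
  apply prod_congr rfl
  intro k _
  push_cast
  ring_nf

private theorem orunx_mul (u : ℤ) {z k0 : ℕ} (h : k0 < z) :
    (orun u k0 * orun (u + 2 * (k0 + 1)) (z - 1 - k0)) *
      (PowerSeries.C ((u : ℚ) + 2 * k0) + PowerSeries.C (2 : ℚ) * PowerSeries.X) = orun u z := by
  obtain ⟨w, rfl⟩ := Nat.exists_eq_add_of_lt h
  have e : k0 + w + 1 - 1 - k0 = w := by omega
  rw [e, show k0 + w + 1 = k0 + (w + 1) by ring, enta_orun_add, enta_orun_succ']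
  have e2 : u + 2 * (k0 : ℤ) + 2 = u + 2 * (k0 + 1) := by ring
  rw [e2]
  push_cast
  ring

private theorem hl_eq (p l : ℕ) : hl ℚ p l =
    PowerSeries.C ((2 * (p : ℤ) - 1 - 2 * l : ℤ) : ℚ) +
      PowerSeries.C (2 : ℚ) * PowerSeries.X := by
  unfold hl
  push_cast
  rfl

private theorem hl_mem (d p l : ℕ) : hl ℚ p l ∈ dR d := by
  rw [hl_eq]
  refine add_mem (C_int_mem _ _) (mul_mem ?_ (X_mem _))
  have := C_nat_mem d 2
  simpa using this

private theorem ev_Ap (p l q : ℕ) : ev ℚ p l (Ap ℚ (q + 1)) =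
    hl ℚ p l * orun (2 * p - 1 - 2 * l - 2 * q) (2 * q + 1) := by
  induction q with
  | zero =>
    simp only [ev, Ap, zero_add, prod_range_one, Nat.cast_zero, mul_zero, ne_eq,
      OfNat.ofNat_ne_zero, not_false_eq_true, zero_pow, map_zero, sub_zero,
      Polynomial.aeval_X, enta_orun_one]
    rw [yl_eq_hl_sq, hl_eq]
    push_cast
    ring
  | succ q ih =>
    have h1 : ev ℚ p l (Ap ℚ (q + 1 + 1)) = ev ℚ p l (Ap ℚ (q + 1)) *
        (hl ℚ p l ^ 2 - PowerSeries.C ((2 * ((q + 1 : ℕ) : ℚ)) ^ 2)) := by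
      rw [ev, ev, Ap, prod_range_succ, map_mul, ← Ap, map_sub, Polynomial.aeval_X,
        Polynomial.aeval_C, yl_eq_hl_sq]
      rfl
    have e1 : (2 * (p : ℤ) - 1 - 2 * l - 2 * ((q + 1 : ℕ) : ℤ) + 2) =
        2 * p - 1 - 2 * l - 2 * q := by push_cast; ring
    have h2 : orun (2 * p - 1 - 2 * l - 2 * ((q + 1 : ℕ) : ℤ)) (2 * (q + 1) + 1) =
        (PowerSeries.C ((2 * (p : ℤ) - 1 - 2 * l - 2 * ((q + 1 : ℕ) : ℤ) : ℤ) : ℚ) +
          PowerSeries.C (2 : ℚ) * PowerSeries.X) * orun (2 * p - 1 - 2 * l - 2 * q) (2 * q + 1) *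
        (PowerSeries.C (((2 * (p : ℤ) - 1 - 2 * l - 2 * ((q + 1 : ℕ) : ℤ) : ℤ) : ℚ) +
          2 * ((2 * q + 1 + 1 : ℕ) : ℚ)) + PowerSeries.C (2 : ℚ) * PowerSeries.X) := by
      rw [show 2 * (q + 1) + 1 = (2 * q + 1) + 1 + 1 by ring, enta_orun_succ, enta_orun_succ', e1]
    rw [h1, ih, h2, hl_eq]
    push_cast
    simp only [map_sub, map_add, map_mul, map_one, map_pow, map_natCast, map_ofNat]
    ring

private theorem ev_Am_eq (p l M q : ℕ) : ev ℚ p l (Am ℚ M (q + 1)) =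
    hl ℚ p l * (PowerSeries.C ((2 : ℚ) ^ (2 * q + 1) * (bf M (2 * q + 1) : ℚ)⁻¹) *
      orun (2 * p - 1 - 2 * l - 2 * q) (2 * q + 1)) := by
  have h1 := ev_Ap p l q
  rw [ev] at h1
  rw [ev, Am, map_mul, h1, Polynomial.aeval_C, PowerSeries.algebraMap_apply,
    Algebra.algebraMap_self, RingHom.id_apply, show 2 * (q + 1) - 1 = 2 * q + 1 by omega]
  ring

private theorem odd_u (p l q : ℕ) : Odd (2 * (p : ℤ) - 1 - 2 * l - 2 * q) :=
  ⟨(p : ℤ) - 1 - l - q, by ring⟩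

theorem ev_Am_mem {d M : ℕ} (hM : 0 < M) (hd : ∀ q : ℕ, 1 ≤ q → q ≤ 2 * M → q ∣ d) (p l q : ℕ)
    (hq : 1 ≤ q) : ev ℚ p l (Am ℚ M q) ∈ dR d := by
  obtain ⟨q, rfl⟩ := Nat.exists_eq_add_of_le' hq
  rw [ev_Am_eq]
  exact mul_mem (hl_mem _ _ _) (orun_bf_mem hM hd _ _ (odd_u p l q))

/-- dividing the run by one of its factors -/
private theorem orun_div_mem {d M : ℕ} (hM : 0 < M)
    (hd : ∀ q : ℕ, 1 ≤ q → q ≤ 2 * M → q ∣ d)
    (u : ℤ) (hu : Odd u) (z k0 : ℕ) (hk : k0 < z) (b v : ℚ) (hv : v ≠ 0)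
    (hbi : ∃ w : ℤ, b = w) (s : PowerSeries ℚ)
    (hs : PowerSeries.C ((u : ℚ) + 2 * k0) + PowerSeries.C (2 : ℚ) * PowerSeries.X =
      PowerSeries.C b * s) (hs0 : PowerSeries.constantCoeff s = v) :
    PowerSeries.C ((d : ℚ) * ((2 : ℚ) ^ z * (bf M z : ℚ)⁻¹)) * (orun u z * s⁻¹) ∈ dR d := by
  have h1 := orunx_mul u hk
  rw [← h1, hs]
  have h2 : s * s⁻¹ = 1 := PowerSeries.mul_inv_cancel _ (by rw [hs0]; exact hv)
  have h3 : (orun u k0 * orun (u + 2 * (k0 + 1)) (z - 1 - k0)) * (PowerSeries.C b * s) * s⁻¹ =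
      PowerSeries.C b * (orun u k0 * orun (u + 2 * (k0 + 1)) (z - 1 - k0)) := by
    linear_combination ((orun u k0 * orun (u + 2 * (k0 + 1)) (z - 1 - k0)) *
      PowerSeries.C b) * h2
  rw [h3, ← mul_assoc, mul_comm (PowerSeries.C ((d : ℚ) * ((2 : ℚ) ^ z * (bf M z : ℚ)⁻¹))),
    mul_assoc]
  exact smul_int_mem hbi (orunx_bf_mem hM hd z k0 hk u hu)

theorem ev_Am_gh_mem {d M : ℕ} (hM : 0 < M) (hd : ∀ q : ℕ, 1 ≤ q → q ≤ 2 * M → q ∣ d) (p l q : ℕ)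
    (hl : l < p) (hq : p ≤ q) : PowerSeries.C (d : ℚ) * (ev ℚ p l (Am ℚ M q) * gh ℚ p l) ∈ dR d := by
  obtain ⟨q, rfl⟩ := Nat.exists_eq_add_of_le' (show 1 ≤ q by omega)
  rw [ev_Am_eq, gh, mul_add, mul_add]
  have key : ∀ s : PowerSeries ℚ,
      PowerSeries.C (d : ℚ) * (SI.hl ℚ p l *
        (PowerSeries.C ((2 : ℚ) ^ (2 * q + 1) * (bf M (2 * q + 1) : ℚ)⁻¹) *
          orun (2 * p - 1 - 2 * l - 2 * q) (2 * q + 1)) * s) =
      SI.hl ℚ p l *
        (PowerSeries.C ((d : ℚ) * ((2 : ℚ) ^ (2 * q + 1) * (bf M (2 * q + 1) : ℚ)⁻¹)) *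
          (orun (2 * p - 1 - 2 * l - 2 * q) (2 * q + 1) * s)) := by
    intro s
    rw [map_mul (PowerSeries.C : ℚ →+* PowerSeries ℚ) (d : ℚ)]; ring
  refine add_mem ?_ ?_
  · rw [mul_sum, mul_sum]
    refine sum_mem fun k hk => ?_
    rw [mem_range] at hk
    rw [key]
    refine mul_mem (hl_mem _ _ _) ?_
    have h0 : (0 : ℤ) ≤ (l : ℤ) + q - p - k := by omega
    obtain ⟨k0, hk0⟩ := Int.eq_ofNat_of_zero_le h0
    refine orun_div_mem hM hd _ (odd_u p l q) _ k0 (by omega) (-2) ((2 * (k : ℚ) + 1) / 2)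
      (by positivity) ⟨-2, by norm_num⟩ _ ?_ (by simp)
    have h2 : (k0 : ℚ) = (l : ℚ) + q - p - k := by
      have := congrArg (Int.cast : ℤ → ℚ) hk0
      push_cast at this
      linarith
    have h3 : PowerSeries.C (-2 : ℚ) * PowerSeries.C ((2 * (k : ℚ) + 1) / 2) =
        PowerSeries.C (-(2 * (k : ℚ) + 1)) := by
      rw [← map_mul]; congr 1; ring
    rw [h2, mul_sub (PowerSeries.C (-2 : ℚ)), h3]
    have h4 : (PowerSeries.C (-2 : ℚ) : PowerSeries ℚ) = - PowerSeries.C (2 : ℚ) := by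
      rw [← map_neg]
    rw [h4]
    have h5 : (((2 * (p : ℤ) - 1 - 2 * l - 2 * q : ℤ) : ℚ) + 2 * ((l : ℚ) + q - p - k)) =
        -(2 * (k : ℚ) + 1) := by
      push_cast; ring
    rw [h5]
    ring
  · rw [mul_sum, mul_sum]
    refine sum_mem fun k hk => ?_
    rw [mem_range] at hk
    rw [key]
    refine mul_mem (hl_mem _ _ _) ?_
    have h0 : (0 : ℤ) ≤ (k : ℤ) + l + q + 1 - p := by omega
    obtain ⟨k0, hk0⟩ := Int.eq_ofNat_of_zero_le h0
    refine orun_div_mem hM hd _ (odd_u p l q) _ k0 (by omega) 2 ((2 * (k : ℚ) + 1) / 2)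
      (by positivity) ⟨2, by norm_num⟩ _ ?_ (by simp)
    have h2 : (k0 : ℚ) = (k : ℚ) + l + q + 1 - p := by
      have := congrArg (Int.cast : ℤ → ℚ) hk0
      push_cast at this
      linarith
    have h3 : PowerSeries.C (2 : ℚ) * PowerSeries.C ((2 * (k : ℚ) + 1) / 2) =
        PowerSeries.C (2 * (k : ℚ) + 1) := by
      rw [← map_mul]; congr 1; ring
    rw [h2, mul_add (PowerSeries.C (2 : ℚ)), h3]
    have h5 : (((2 * (p : ℤ) - 1 - 2 * l - 2 * q : ℤ) : ℚ) + 2 * ((k : ℚ) + l + q + 1 - p)) =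
        2 * (k : ℚ) + 1 := by
      push_cast; ring
    rw [h5]

end Pool.Agent.SI
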