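import Pool.Agent.SI.FINS2
import Pool.Agent.SI.APPS

/-!
# SI2: the density theorem
-/

namespace Pool.Agent.SI

open Finset Pool.Agent.ZC

/-- no odd `i` with `m - κ + 2 ≤ i ≤ m + τ` and `ζ(i)` outside `ℚ + V` -/
def FreeAt (V : Submodule ℚ ℝ) (κ τ m : ℕ) : Prop :=
  ∀ i : ℕ, Odd i → m + 2 ≤ i + κ → i ≤ m + τ → ∃ v ∈ V, ∃ q : ℚ, zr i = q + v

/-- the numerical part -/
theorem FIND_num (a W k0 S d J g : ℕ) (hW : 16 ≤ W) (hJ : J + W = a) (h1 : 16 * (k0 + 1) ≤ W)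
    (h2 : 16 * (d * ((k0 + 1) * (S + 1))) ≤ W) (h3 : (k0 + 1) * (S + 1) ≤ a)
    (hg : 8 * a ≤ g * W) :
    (g + 2) * (k0 + 1 + (J + d * ((k0 + 1) * (S + 1)))) + (k0 + 1) * (S + 1) + 1 ≤
      g * (a - k0) := by
  have hg8 : 8 ≤ g := by
    by_contra h
    push Not at h
    have : g * W ≤ 7 * W := Nat.mul_le_mul_right _ (by omega)
    omega
  obtain ⟨T, hT⟩ : ∃ T, T = a - k0 := ⟨_, rfl⟩
  rw [← hT]
  have hT' : T + k0 = a := by omega
  generalize d * ((k0 + 1) * (S + 1)) = D at *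
  generalize (k0 + 1) * (S + 1) = E at *
  have r1 : 16 * ((k0 : ℝ) + 1) ≤ W := by exact_mod_cast h1
  have r2 : 16 * (D : ℝ) ≤ W := by exact_mod_cast h2
  have r3 : (E : ℝ) ≤ a := by exact_mod_cast h3
  have r4 : 8 * (a : ℝ) ≤ g * W := by exact_mod_cast hg
  have r5 : (8 : ℝ) ≤ g := by exact_mod_cast hg8
  have r6 : (T : ℝ) + k0 = a := by exact_mod_cast hT'
  have r7 : (16 : ℝ) ≤ W := by exact_mod_cast hW
  have r8 : (J : ℝ) + W = a := by exact_mod_cast hJ
  have key : ((g : ℝ) + 2) * (k0 + 1 + (J + D)) + E + 1 ≤ g * T := by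
    have e1 : (g : ℝ) * T = g * (a - k0) := by
      have : (T : ℝ) = a - k0 := by linarith
      rw [this]
    have e0 : (J : ℝ) = a - W := by linarith
    rw [e1, e0]
    have hD0 : (0 : ℝ) ≤ D := Nat.cast_nonneg D
    have hk0 : (0 : ℝ) ≤ k0 := Nat.cast_nonneg k0
    have e2 : ((g : ℝ) + 2) * ((k0 : ℝ) + 1 + D) ≤ (5 / 4 * g) * ((1 / 8) * W) :=
      mul_le_mul (by linarith) (by linarith) (by positivity) (by positivity)
    have e3 : (g : ℝ) * k0 ≤ g * ((1 / 16) * W) :=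
      mul_le_mul_of_nonneg_left (by linarith) (by positivity)
    have e4 : 128 ≤ (g : ℝ) * W := by nlinarith
    nlinarith
  exact_mod_cast key

theorem si_D_of (H : Core2) : ∃ C : ℝ, 0 < C ∧ ∀ a κ τ : ℕ, 3 ≤ a → 1 ≤ κ → 1 ≤ τ → κ * τ ≤ a →
    ∀ V : Submodule ℚ ℝ, Module.Finite ℚ V →
    (({m : ℕ | m < a ∧ FreeAt V κ τ m} : Set ℕ).ncard : ℝ) ≤
      C * (κ + (Module.finrank ℚ V : ℝ) * κ * τ) ∨
    (({m : ℕ | m < a ∧ FreeAt V κ τ m} : Set ℕ).ncard : ℝ) * (κ * (τ : ℝ) ^ 2) ≤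
      C * ((a : ℝ) ^ 2 * Real.log a *
        (1 + Real.log (a / (({m : ℕ | m < a ∧ FreeAt V κ τ m} : Set ℕ).ncard : ℝ)))) := by
  classical
  obtain ⟨C0, hC0, hC⟩ := si_appJ_of H
  refine ⟨max 64 (2592 * C0), lt_of_lt_of_le (by norm_num) (le_max_left _ _),
    fun a κ τ ha3 hκ hτ hκτ V hfin => ?_⟩
  set C : ℝ := max 64 (2592 * C0) with hCdef
  have hC64 : 64 ≤ C := le_max_left _ _
  have hCC : 2592 * C0 ≤ C := le_max_right _ _
  set d : ℕ := Module.finrank ℚ V with hd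
  set N : ℕ := ({m : ℕ | m < a ∧ FreeAt V κ τ m} : Set ℕ).ncard with hN
  by_cases hsmall : (N : ℝ) ≤ C * (κ + (d : ℝ) * κ * τ)
  · exact Or.inl hsmall
  push Not at hsmall
  right
  obtain ⟨k0, rfl⟩ : ∃ k0, κ = k0 + 1 := ⟨κ - 1, by omega⟩
  obtain ⟨S, rfl⟩ : ∃ S, τ = S + 1 := ⟨τ - 1, by omega⟩
  -- the exceptional set and the exponents
  set I : Finset ℕ := (oddS (a + S)).filter (fun i => ¬ ∃ v ∈ V, ∃ q : ℚ, zr i = q + v) with hI
  set J0 : Finset ℕ := (range a).filter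
    (fun e => e ≤ k0 ∨ ∃ i ∈ I, i ≤ e + S + 1 ∧ e + 1 ≤ i + k0) with hJ0
  set U : Finset ℕ := (range a).filter
    (fun e => ¬ (e ≤ k0 ∨ ∃ i ∈ I, i ≤ e + S + 1 ∧ e + 1 ≤ i + k0)) with hU
  have hcard : J0.card + U.card = a := by
    have := Finset.card_filter_add_card_filter_not (s := range a)
      (fun e => e ≤ k0 ∨ ∃ i ∈ I, i ≤ e + S + 1 ∧ e + 1 ≤ i + k0)
    rw [card_range] at this
    exact this
  have hfinite : ({m : ℕ | m < a ∧ FreeAt V (k0 + 1) (S + 1) m} : Set ℕ).Finite :=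
    (Set.finite_Iio a).subset fun m hm => hm.1
  -- U ⊆ the set
  have hUsub : (U : Set ℕ) ⊆ {m : ℕ | m < a ∧ FreeAt V (k0 + 1) (S + 1) m} := by
    intro e he
    rw [Finset.mem_coe, hU, mem_filter, mem_range] at he
    obtain ⟨he1, he2⟩ := he
    push Not at he2
    refine ⟨he1, fun i hi h1 h2 => ?_⟩
    by_contra hP
    have hi3 : 3 ≤ i := by
      by_contra h3
      have : i = 1 := by
        obtain ⟨t, ht⟩ := hi
        omega
      omega
    have hiI : i ∈ I := by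
      rw [hI, mem_filter]
      refine ⟨?_, hP⟩
      simp only [oddS, mem_filter, mem_Icc]
      exact ⟨⟨hi3, by omega⟩, hi⟩
    have := he2.2 i hiI (by omega)
    omega
  have hUN : U.card ≤ N := by
    have := Set.ncard_le_ncard hUsub hfinite
    rwa [Set.ncard_coe_finset] at this
  have hNU : N ≤ U.card + (k0 + 1) := by
    have hsub : ({m : ℕ | m < a ∧ FreeAt V (k0 + 1) (S + 1) m} : Set ℕ) ⊆
        ((U ∪ range (k0 + 1) : Finset ℕ) : Set ℕ) := by
      intro m hm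
      rw [Finset.mem_coe, mem_union, mem_range]
      by_cases hmk : m ≤ k0
      · right; omega
      left
      rw [hU, mem_filter, mem_range]
      refine ⟨hm.1, ?_⟩
      rintro (h1 | ⟨i, hi, h1, h2⟩)
      · exact hmk h1
      rw [hI, mem_filter] at hi
      simp only [oddS, mem_filter, mem_Icc] at hi
      exact hi.2 (hm.2 i hi.1.2 (by omega) (by omega))
    have h1 := Set.ncard_le_ncard hsub (Finset.finite_toSet _)
    rw [Set.ncard_coe_finset] at h1
    have h2 := Finset.card_union_le U (range (k0 + 1))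
    rw [card_range] at h2
    omega
  set W : ℕ := U.card with hW
  have hUNr : (W : ℝ) ≤ N := by exact_mod_cast hUN
  have hNUr : (N : ℝ) ≤ W + (k0 + 1) := by exact_mod_cast hNU
  have hk0r : (0 : ℝ) ≤ k0 := Nat.cast_nonneg k0
  have hSr : (0 : ℝ) ≤ S := Nat.cast_nonneg S
  have hdr : (0 : ℝ) ≤ d := Nat.cast_nonneg d
  have hprod0 : 0 ≤ (d : ℝ) * (k0 + 1) * (S + 1) := by positivity
  push_cast at hsmall ⊢
  have hN64 : 64 * ((k0 : ℝ) + 1 + (d : ℝ) * (k0 + 1) * (S + 1)) < N := by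
    refine lt_of_le_of_lt ?_ hsmall
    exact mul_le_mul_of_nonneg_right hC64 (by positivity)
  have hWN : (N : ℝ) ≤ 2 * W := by linarith
  have hWbig : 16 * ((k0 : ℝ) + 1) + 16 * ((d : ℝ) * (k0 + 1) * (S + 1)) ≤ W := by linarith
  have w1 : 16 * (k0 + 1) ≤ W := by
    have : 16 * ((k0 : ℝ) + 1) ≤ W := by linarith
    exact_mod_cast this
  have w2 : 16 * (d * ((k0 + 1) * (S + 1))) ≤ W := by
    have : 16 * ((d : ℝ) * ((k0 + 1) * (S + 1))) ≤ W := by
      have e : (d : ℝ) * ((k0 + 1) * (S + 1)) = (d : ℝ) * (k0 + 1) * (S + 1) := by ring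
      rw [e]
      linarith
    exact_mod_cast this
  have hW16 : 16 ≤ W := by omega
  have hW0 : (0 : ℝ) < W := by
    have : 0 < W := by omega
    exact_mod_cast this
  have hWa : W ≤ a := by omega
  have hWar : (W : ℝ) ≤ a := by exact_mod_cast hWa
  have ha0 : (0 : ℝ) < a := lt_of_lt_of_le hW0 hWar
  have hNa : N ≤ a := by
    have h1 := Set.ncard_le_ncard (s := {m : ℕ | m < a ∧ FreeAt V (k0 + 1) (S + 1) m})
      (t := ((range a : Finset ℕ) : Set ℕ))
      (fun m hm => Finset.mem_coe.2 (mem_range.2 hm.1)) (Finset.finite_toSet _)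
    rw [Set.ncard_coe_finset, card_range] at h1
    exact h1
  have hNar : (N : ℝ) ≤ a := by exact_mod_cast hNa
  have hN0 : (0 : ℝ) < N := lt_of_lt_of_le hW0 hUNr
  -- g
  set g : ℕ := ⌈8 * (a : ℝ) / W⌉₊ with hg
  have hg1 : 8 * (a : ℝ) / W ≤ g := Nat.le_ceil _
  have hg2 : (g : ℝ) < 8 * (a : ℝ) / W + 1 := Nat.ceil_lt_add_one (by positivity)
  have hgW : 8 * a ≤ g * W := by
    rw [div_le_iff₀ hW0] at hg1
    exact_mod_cast hg1
  have haW1 : 1 ≤ (a : ℝ) / W := by rwa [one_le_div hW0]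
  have hg3 : (g : ℝ) ≤ 9 * ((a : ℝ) / W) := by
    have : 8 * (a : ℝ) / W = 8 * ((a : ℝ) / W) := by ring
    linarith
  have hga : g ≤ a := by
    have h6 : 8 * (a : ℝ) / W + 1 ≤ a := by
      have h7 : 8 * (a : ℝ) / W ≤ a / 2 := by
        rw [div_le_iff₀ hW0]
        have : (16 : ℝ) ≤ W := by exact_mod_cast hW16
        nlinarith
      have : (16 : ℝ) ≤ a := by
        have : (16 : ℝ) ≤ W := by exact_mod_cast hW16
        linarith
      linarith
    have h7 : (g : ℝ) ≤ (a : ℝ) := by linarith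
    exact_mod_cast h7
  have hg0 : 1 ≤ g := by
    by_contra h
    have : g = 0 := by omega
    rw [this] at hgW
    omega
  have hSa : S ≤ a := by
    have : 1 * (S + 1) ≤ (k0 + 1) * (S + 1) := Nat.mul_le_mul_right _ (by omega)
    omega
  obtain ⟨v, z, cc, hz⟩ := FINS_data V
  have hmain := hC g S k0 a d I J0 hg0 (by omega) hga hSa
    (fun e he => by rw [hJ0, mem_filter, mem_range] at he; exact he.1)
    (fun k hk hka => by rw [hJ0, mem_filter, mem_range]; exact ⟨hka, Or.inl hk⟩)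
    (fun i hi e he h1 h2 => by
      rw [hJ0, mem_filter, mem_range]
      exact ⟨he, Or.inr ⟨i, hi, h1, h2⟩⟩) v z cc
    (fun i hi hiI => by
      refine hz i ?_
      by_contra hP
      exact hiI (by rw [hI, mem_filter]; exact ⟨hi, hP⟩))
    (FIND_num a W k0 S d J0.card g hW16 hcard w1 w2 hκτ hgW)
  have hJW : (a : ℝ) - J0.card = W := by
    have : (J0.card : ℝ) + W = a := by exact_mod_cast hcard
    linarith
  rw [hJW] at hmain
  -- logs
  have hg1r : (1 : ℝ) ≤ g := by exact_mod_cast hg0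
  have haWp : 0 < (a : ℝ) / W := by positivity
  have haNp : 0 < (a : ℝ) / N := by positivity
  have haN1 : 1 ≤ (a : ℝ) / N := by rwa [one_le_div hN0]
  have hlN0 : 0 ≤ Real.log ((a : ℝ) / N) := Real.log_nonneg haN1
  have hl9 : Real.log 9 ≤ 3 := by
    rw [Real.log_le_iff_le_exp (by norm_num)]
    have h8 : (2.7 : ℝ) ≤ Real.exp 1 := by
      have := Real.exp_one_gt_d9
      linarith
    have h9 : Real.exp 3 = (Real.exp 1) ^ 3 := by
      rw [← Real.exp_nat_mul]; norm_num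
    rw [h9]
    calc (9 : ℝ) ≤ 2.7 ^ 3 := by norm_num
      _ ≤ (Real.exp 1) ^ 3 := pow_le_pow_left₀ (by norm_num) h8 3
  have hlg : 1 + Real.log (g : ℝ) ≤ 4 * (1 + Real.log ((a : ℝ) / W)) := by
    have h6 : Real.log (g : ℝ) ≤ Real.log (9 * ((a : ℝ) / W)) :=
      Real.log_le_log (by linarith) hg3
    rw [Real.log_mul (by norm_num) haWp.ne'] at h6
    have h7 : 0 ≤ Real.log ((a : ℝ) / W) := Real.log_nonneg haW1
    linarith
  have hlW : 1 + Real.log ((a : ℝ) / W) ≤ 2 * (1 + Real.log ((a : ℝ) / N)) := by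
    have h6 : (a : ℝ) / W ≤ 2 * (a / N) := by
      rw [div_le_iff₀ hW0]
      have : (2 * ((a : ℝ) / N)) * W = a * (2 * W / N) := by field_simp
      rw [this]
      have h7 : 1 ≤ 2 * (W : ℝ) / N := by rwa [one_le_div hN0]
      nlinarith
    have h7 : Real.log ((a : ℝ) / W) ≤ Real.log (2 * (a / N)) := Real.log_le_log haWp h6
    rw [Real.log_mul (by norm_num) haNp.ne'] at h7
    have h8 : Real.log 2 ≤ 1 := by
      have := Real.log_two_lt_d9
      linarith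
    linarith
  have hla : 1 + Real.log (a : ℝ) ≤ 2 * Real.log a := by
    have h6 : Real.exp 1 ≤ (a : ℝ) := by
      have h7 := Real.exp_one_lt_d9
      have h8 : (3 : ℝ) ≤ a := by exact_mod_cast ha3
      linarith
    have h7 : (1 : ℝ) ≤ Real.log a := by rwa [Real.le_log_iff_exp_le ha0]
    linarith
  have hla0 : 0 ≤ 1 + Real.log (a : ℝ) := by
    have := Real.log_natCast_nonneg a
    linarith
  have hlg0 : 0 ≤ 1 + Real.log (g : ℝ) := by
    have := Real.log_natCast_nonneg g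
    linarith
  have hlog_a : 0 ≤ Real.log (a : ℝ) := Real.log_natCast_nonneg a
  have hg4 : (g : ℝ) ^ 2 ≤ (9 * ((a : ℝ) / W)) ^ 2 := pow_le_pow_left₀ (by linarith) hg3 2
  have step : C0 * (g : ℝ) ^ 2 * (1 + Real.log g) * W * (1 + Real.log a) ≤
      C0 * ((9 * ((a : ℝ) / W)) ^ 2 * (8 * (1 + Real.log ((a : ℝ) / N))) * W * (2 * Real.log a)) := by
    have e : C0 * (g : ℝ) ^ 2 * (1 + Real.log g) * W * (1 + Real.log a) =
        C0 * ((g : ℝ) ^ 2 * (1 + Real.log g) * W * (1 + Real.log a)) := by ring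
    rw [e]
    refine mul_le_mul_of_nonneg_left ?_ hC0.le
    refine mul_le_mul ?_ hla hla0 (by positivity)
    refine mul_le_mul_of_nonneg_right ?_ hW0.le
    exact mul_le_mul hg4 (by linarith) hlg0 (by positivity)
  have hfin2 := hmain.trans step
  have e2 : C0 * ((9 * ((a : ℝ) / W)) ^ 2 * (8 * (1 + Real.log ((a : ℝ) / N))) * W *
      (2 * Real.log a)) = 1296 * C0 * ((a : ℝ) ^ 2 * Real.log a * (1 + Real.log ((a : ℝ) / N))) / W := by
    field_simp
    ring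
  rw [e2, le_div_iff₀ hW0] at hfin2
  have hX0 : 0 ≤ (a : ℝ) ^ 2 * Real.log a * (1 + Real.log ((a : ℝ) / N)) := by positivity
  calc (N : ℝ) * (((k0 : ℝ) + 1) * ((S : ℝ) + 1) ^ 2) ≤
        (2 * W) * (((k0 : ℝ) + 1) * ((S : ℝ) + 1) ^ 2) :=
        mul_le_mul_of_nonneg_right hWN (by positivity)
    _ = 2 * (((k0 : ℝ) + 1) * ((S : ℝ) + 1) ^ 2 * W) := by ring
    _ ≤ 2 * (1296 * C0 * ((a : ℝ) ^ 2 * Real.log a * (1 + Real.log ((a : ℝ) / N)))) :=
        mul_le_mul_of_nonneg_left hfin2 (by norm_num)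
    _ = 2592 * C0 * ((a : ℝ) ^ 2 * Real.log a * (1 + Real.log ((a : ℝ) / N))) := by ring
    _ ≤ C * ((a : ℝ) ^ 2 * Real.log a * (1 + Real.log ((a : ℝ) / N))) :=
        mul_le_mul_of_nonneg_right hCC hX0

end Pool.Agent.SI
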