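import Pool.Agent.SI.APP
import Pool.Agent.SI.NUM

/-!
# SI: the theorem on short intervals
-/

namespace Pool.Agent.SI

open Finset Pool.Agent.ZC

/-- a basis of `V` and rational coordinates -/
theorem FINS_data (V : Submodule ℚ ℝ) [Module.Finite ℚ V] :
    ∃ (v : Fin (Module.finrank ℚ V) → ℝ) (z : ℕ → ℚ) (c : ℕ → Fin (Module.finrank ℚ V) → ℚ),
      ∀ i : ℕ, (∃ w ∈ V, ∃ q : ℚ, zr i = q + w) →
        zr i = (z i : ℝ) + ∑ x, (c i x : ℝ) * v x := by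
  classical
  set bs : Module.Basis (Fin (Module.finrank ℚ V)) ℚ V := Module.finBasis ℚ V with hbs
  have hz : ∀ i : ℕ, ∃ (q : ℚ) (c : Fin (Module.finrank ℚ V) → ℚ),
      (∃ w ∈ V, ∃ q : ℚ, zr i = q + w) → zr i = q + ∑ k, (c k : ℝ) * (bs k : ℝ) := by
    intro i
    by_cases hP : ∃ w ∈ V, ∃ q : ℚ, zr i = q + w
    · obtain ⟨w, hw, q, hq⟩ := hP
      refine ⟨q, fun k => bs.repr ⟨w, hw⟩ k, fun _ => ?_⟩
      have h1 := bs.sum_repr ⟨w, hw⟩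
      have h2 := congrArg (Submodule.subtype V) h1
      rw [map_sum] at h2
      simp only [map_smul, Submodule.subtype_apply, Rat.smul_def] at h2
      rw [h2, hq]
    · exact ⟨0, 0, fun h => absurd h hP⟩
  choose z cc hzc using hz
  exact ⟨fun k => (bs k : ℝ), z, cc, hzc⟩

theorem si_main : ∃ c > 0, ∃ s0 : ℕ, ∀ s ≥ s0, ∀ W ≤ s, ∀ V : Submodule ℚ ℝ,
    Module.Finite ℚ V → (s : ℝ) ^ 3 * Real.log s ≤ c * (W : ℝ) ^ 4 →
    (Module.finrank ℚ V : ℝ) ^ 2 * (s : ℝ) ^ 4 * Real.log s ≤ c * (W : ℝ) ^ 5 →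
    ∀ X : ℝ, 0 ≤ X → X ^ 3 * (s : ℝ) ^ 4 * Real.log s ≤ (W : ℝ) ^ 6 →
    X * (s : ℝ) ^ 3 * Real.log s ≤ (W : ℝ) ^ 4 →
    (Module.finrank ℚ V : ℝ) * X * (s : ℝ) ^ 4 * Real.log s ≤ (W : ℝ) ^ 5 →
    c * X ≤ (({i : ℕ | Odd i ∧ s < i ∧ i ≤ s + W ∧ ∀ v ∈ V, ∀ q : ℚ, zr i ≠ q + v} : Set ℕ).ncard
      : ℝ) := by
  classical
  obtain ⟨C, hC0, hC⟩ := si_app
  obtain ⟨c, hc0, s0, hc⟩ := si_num C hC0
  refine ⟨c, hc0, s0, fun s hs W hW V hfin h1 h2 X hX h3 h4 h5 => ?_⟩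
  by_contra hlt
  push Not at hlt
  -- the exceptional set
  set I : Finset ℕ := (oddS (s + W)).filter
    (fun i => s < i ∧ ¬ ∃ v ∈ V, ∃ q : ℚ, zr i = q + v) with hI
  have hsub : (I : Set ℕ) ⊆
      {i : ℕ | Odd i ∧ s < i ∧ i ≤ s + W ∧ ∀ v ∈ V, ∀ q : ℚ, zr i ≠ q + v} := by
    intro i hi
    rw [Finset.mem_coe, hI, mem_filter] at hi
    obtain ⟨h6, h7, h8⟩ := hi
    simp only [oddS, mem_filter, mem_Icc] at h6
    exact ⟨h6.2, h7, h6.1.2, fun v hv q hq => h8 ⟨v, hv, q, hq⟩⟩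
  have hfinite : ({i : ℕ | Odd i ∧ s < i ∧ i ≤ s + W ∧
      ∀ v ∈ V, ∀ q : ℚ, zr i ≠ q + v} : Set ℕ).Finite :=
    (Set.finite_Iic (s + W)).subset fun i hi => hi.2.2.1
  have hIc : (I.card : ℝ) < c * X := by
    have h6 := Set.ncard_le_ncard hsub hfinite
    rw [Set.ncard_coe_finset] at h6
    exact lt_of_le_of_lt (by exact_mod_cast h6) hlt
  obtain ⟨g, S, k0, a, haS, hg, ha, hga, hSa, hs1, hSs, hi, hii⟩ :=
    hc s hs W hW (Module.finrank ℚ V) I.card X hX h1 h2 h3 h4 h5 hIc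
  obtain ⟨v, z, cc, hz⟩ := FINS_data V
  have hfinal := hC g S k0 a s (Module.finrank ℚ V) I hg ha hga hSa hs1 hSs
    (by rw [haS]; exact filter_subset _ _)
    (fun i hi => ((mem_filter.1 hi).2).1) v z cc
    (fun i hi hsi hiI => by
      refine hz i ?_
      by_contra hP
      refine hiI (mem_filter.2 ⟨?_, hsi, hP⟩)
      rw [← haS]
      exact hi) hi
  linarith

end Pool.Agent.SI
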