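import Pool.Agent.SI.NUMA

/-!
# SI2: choice of the parameters
-/

namespace Pool.Agent.SI

/-- `K = s^2 log s (1 + log (s / W)) / W` -/
theorem si_num2 (C : ℝ) (hC : 0 < C) : ∃ c > 0, ∃ s0 : ℕ, ∀ s ≥ s0, ∀ W ≤ s, ∀ d m : ℕ,
    ∀ X : ℝ, 0 ≤ X →
    (s : ℝ) * (Real.log s * (1 + Real.log ((s : ℝ) / W))) ≤ c * (W : ℝ) ^ 2 →
    (d : ℝ) ^ 2 * (s : ℝ) ^ 2 * (Real.log s * (1 + Real.log ((s : ℝ) / W))) ≤ c * (W : ℝ) ^ 3 →
    X ^ 3 * (s : ℝ) ^ 2 * (Real.log s * (1 + Real.log ((s : ℝ) / W))) ≤ (W : ℝ) ^ 4 →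
    X * (s : ℝ) * (Real.log s * (1 + Real.log ((s : ℝ) / W))) ≤ (W : ℝ) ^ 2 →
    (d : ℝ) * X * (s : ℝ) ^ 2 * (Real.log s * (1 + Real.log ((s : ℝ) / W))) ≤ (W : ℝ) ^ 3 →
    (m : ℝ) < c * X →
    ∃ g S k0 a : ℕ, a + S = s + W ∧ 1 ≤ g ∧ 1 ≤ a ∧ g ≤ a ∧ S ≤ a ∧ 1 ≤ s ∧ S ≤ s ∧
      (g + 2) * (k0 + 1 + (s + k0 + m * (S + k0 + 1) + d * ((k0 + 1) * (S + 1)))) +
        (k0 + 1) * (S + 1) + 1 ≤ g * (a - k0) ∧
      C * (g : ℝ) ^ 2 * (1 + Real.log g) * ((a : ℝ) - s - k0) * (1 + Real.log a) <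
        ((k0 : ℝ) + 1) * ((S : ℝ) + 1) ^ 2 := by
  obtain ⟨c1, hc1, H⟩ := num_gen (648 * max C 1)
    (by have := le_max_right C 1; linarith)
  refine ⟨min c1 1, lt_min hc1 one_pos, 64, fun s hs W hWs d m X hX h1 h2 h3 h4 h5 hm => ?_⟩
  have hcc : min c1 1 ≤ c1 := min_le_left _ _
  have hc2 : min c1 1 ≤ 1 := min_le_right _ _
  generalize min c1 1 = c at *
  have hsr : (64 : ℝ) ≤ s := by exact_mod_cast hs
  have hWsr : (W : ℝ) ≤ s := by exact_mod_cast hWs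
  have hL : 1 ≤ Real.log s := by
    rw [Real.le_log_iff_exp_le (by linarith)]
    have := Real.exp_one_lt_d9
    linarith
  have hL0 : 0 < Real.log s := by linarith
  have hs0 : (0 : ℝ) < s := by linarith
  have hWn : (0 : ℝ) ≤ W := Nat.cast_nonneg W
  have hlW0 : 0 ≤ Real.log ((s : ℝ) / W) := by
    rcases Nat.eq_zero_or_pos W with h | h
    · subst h; norm_num
    · refine Real.log_nonneg ?_
      have : (0 : ℝ) < W := by exact_mod_cast h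
      rwa [one_le_div this]
  have hL' : 1 ≤ Real.log s * (1 + Real.log ((s : ℝ) / W)) := by
    have : 1 * 1 ≤ Real.log s * (1 + Real.log ((s : ℝ) / W)) :=
      mul_le_mul hL (by linarith) (by norm_num) hL0.le
    linarith
  generalize hLdef : Real.log s * (1 + Real.log ((s : ℝ) / W)) = L at *
  have hLp : 0 < L := by linarith
  have hsW : s ≤ W ^ 2 := by
    have h6 : (s : ℝ) ≤ s * L := le_mul_of_one_le_right hs0.le hL'
    have h7 : c * (W : ℝ) ^ 2 ≤ 1 * (W : ℝ) ^ 2 := mul_le_mul_of_nonneg_right hc2 (by positivity)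
    have h8 : (s : ℝ) ≤ ((W ^ 2 : ℕ) : ℝ) := by push_cast; linarith
    exact_mod_cast h8
  have hsWr : (s : ℝ) ≤ (W : ℝ) ^ 2 := by exact_mod_cast hsW
  have hW1 : 1 ≤ W := by
    by_contra h
    have : W = 0 := by omega
    subst this
    norm_num at hsW
    omega
  have hW0 : (0 : ℝ) < W := by exact_mod_cast hW1
  have hX3 : 0 ≤ X ^ 3 := by positivity
  set K : ℝ := (s : ℝ) ^ 2 * L / (W : ℝ) with hK
  have k1 : 1 ≤ K := by
    rw [hK, one_le_div hW0]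
    calc (W : ℝ) ≤ (s : ℝ) := hWsr
      _ ≤ (s : ℝ) ^ 2 := by nlinarith
      _ ≤ (s : ℝ) ^ 2 * L := le_mul_of_one_le_right (by positivity) hL'
  have k2 : K ≤ c1 * ((s : ℝ) * W) := by
    rw [hK, div_le_iff₀ hW0]
    calc (s : ℝ) ^ 2 * L = s * (s * L) := by ring
      _ ≤ s * (c * (W : ℝ) ^ 2) := mul_le_mul_of_nonneg_left h1 hs0.le
      _ ≤ s * (c1 * (W : ℝ) ^ 2) := by
          refine mul_le_mul_of_nonneg_left ?_ hs0.le
          exact mul_le_mul_of_nonneg_right hcc (by positivity)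
      _ = c1 * ((s : ℝ) * W) * (W : ℝ) := by ring
  have k3 : K ≤ c1 * (W : ℝ) ^ 3 := by
    rw [hK, div_le_iff₀ hW0]
    calc (s : ℝ) ^ 2 * L = (s * L) * s := by ring
      _ ≤ (c * (W : ℝ) ^ 2) * (W : ℝ) ^ 2 := by
          refine mul_le_mul h1 hsWr hs0.le ?_
          exact le_trans (by positivity) h1
      _ ≤ (c1 * (W : ℝ) ^ 2) * (W : ℝ) ^ 2 := by
          refine mul_le_mul_of_nonneg_right ?_ (by positivity)
          exact mul_le_mul_of_nonneg_right hcc (by positivity)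
      _ = c1 * (W : ℝ) ^ 3 * (W : ℝ) := by ring
  have k4 : (d : ℝ) ^ 2 * K ≤ c1 * (W : ℝ) ^ 2 := by
    rw [hK, ← mul_div_assoc, div_le_iff₀ hW0]
    calc (d : ℝ) ^ 2 * (s ^ 2 * L) = (d : ℝ) ^ 2 * (s : ℝ) ^ 2 * L := by ring
      _ ≤ c * (W : ℝ) ^ 3 := h2
      _ ≤ c1 * (W : ℝ) ^ 3 := mul_le_mul_of_nonneg_right hcc (by positivity)
      _ = c1 * (W : ℝ) ^ 2 * (W : ℝ) := by ring
  have k5 : X ^ 3 * K ≤ (W : ℝ) ^ 3 := by
    rw [hK, ← mul_div_assoc, div_le_iff₀ hW0]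
    calc X ^ 3 * ((s : ℝ) ^ 2 * L) = X ^ 3 * (s : ℝ) ^ 2 * L := by ring
      _ ≤ (W : ℝ) ^ 4 := h3
      _ = (W : ℝ) ^ 3 * (W : ℝ) := by ring
  have k6 : X * K ≤ (s : ℝ) * W := by
    rw [hK, ← mul_div_assoc, div_le_iff₀ hW0]
    calc X * ((s : ℝ) ^ 2 * L) = s * (X * (s : ℝ) * L) := by ring
      _ ≤ s * (W : ℝ) ^ 2 := mul_le_mul_of_nonneg_left h4 hs0.le
      _ = (s : ℝ) * W * (W : ℝ) := by ring
  have k7 : (d : ℝ) * X * K ≤ (W : ℝ) ^ 2 := by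
    rw [hK, ← mul_div_assoc, div_le_iff₀ hW0]
    calc (d : ℝ) * X * ((s : ℝ) ^ 2 * L) = (d : ℝ) * X * (s : ℝ) ^ 2 * L := by ring
      _ ≤ (W : ℝ) ^ 3 := h5
      _ = (W : ℝ) ^ 2 * (W : ℝ) := by ring
  obtain ⟨S, k0, r1, r2, r3, r4, r5, r6⟩ := H s W d m K X hW1 hWs k1 k2 k3 k4 hX k5 k6 k7
    (hm.trans_le (mul_le_mul_of_nonneg_right hcc hX))
  obtain ⟨g, a, q1, q2, q3, q4, q5, q6, q7, q8, q9, q10, q11⟩ :=
    num_fin s W S k0 m d hs hsW hWs r1 r2 r3 r4 r5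
  refine ⟨g, S, k0, a, q1, q2, q3, q4, q5, q6, q7, q8, lt_of_le_of_lt ?_ r6⟩
  have hg1 : (1 : ℝ) ≤ g := by exact_mod_cast q2
  have hg3 : (g : ℝ) ^ 2 ≤ (9 * ((s : ℝ) / W)) ^ 2 := pow_le_pow_left₀ (Nat.cast_nonneg g) q9 2
  have ha0 : (0 : ℝ) ≤ a := Nat.cast_nonneg a
  have hla : 0 ≤ 1 + Real.log (a : ℝ) := by
    have : 0 ≤ Real.log (a : ℝ) := Real.log_natCast_nonneg a
    linarith
  have hlg0 : 0 ≤ Real.log (g : ℝ) := Real.log_natCast_nonneg g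
  have hsWp : 0 < (s : ℝ) / W := by positivity
  have hlg : 1 + Real.log (g : ℝ) ≤ 4 * (1 + Real.log ((s : ℝ) / W)) := by
    have h6 : Real.log (g : ℝ) ≤ Real.log (9 * ((s : ℝ) / W)) :=
      Real.log_le_log (by linarith) q9
    rw [Real.log_mul (by norm_num) hsWp.ne'] at h6
    have h7 : Real.log 9 ≤ 3 := by
      rw [Real.log_le_iff_le_exp (by norm_num)]
      have h8 : (2.7 : ℝ) ≤ Real.exp 1 := by
        have := Real.exp_one_gt_d9
        linarith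
      have h9 : Real.exp 3 = (Real.exp 1) ^ 3 := by
        rw [← Real.exp_nat_mul]; norm_num
      rw [h9]
      calc (9 : ℝ) ≤ 2.7 ^ 3 := by norm_num
        _ ≤ (Real.exp 1) ^ 3 := pow_le_pow_left₀ (by norm_num) h8 3
    linarith
  have haW : (a : ℝ) - s - k0 ≤ W := by
    have h6 : (a : ℝ) + S = s + W := by exact_mod_cast q1
    have h7 : (0 : ℝ) ≤ S := Nat.cast_nonneg S
    have h8 : (0 : ℝ) ≤ k0 := Nat.cast_nonneg k0
    linarith
  calc C * (g : ℝ) ^ 2 * (1 + Real.log g) * ((a : ℝ) - s - k0) * (1 + Real.log a) =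
        C * ((g : ℝ) ^ 2 * (1 + Real.log g) * (1 + Real.log a)) * ((a : ℝ) - s - k0) := by ring
    _ ≤ C * ((g : ℝ) ^ 2 * (1 + Real.log g) * (1 + Real.log a)) * W := by
        refine mul_le_mul_of_nonneg_left haW ?_
        have : 0 ≤ 1 + Real.log (g : ℝ) := by linarith
        positivity
    _ = C * ((g : ℝ) ^ 2 * (1 + Real.log g) * W * (1 + Real.log a)) := by ring
    _ ≤ C * ((9 * ((s : ℝ) / W)) ^ 2 * (4 * (1 + Real.log ((s : ℝ) / W))) * W *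
          (2 * Real.log s)) := by
        refine mul_le_mul_of_nonneg_left ?_ hC.le
        refine mul_le_mul ?_ q11 hla (by positivity)
        refine mul_le_mul_of_nonneg_right ?_ hWn
        exact mul_le_mul hg3 hlg (by linarith) (by positivity)
    _ ≤ max C 1 * ((9 * ((s : ℝ) / W)) ^ 2 * (4 * (1 + Real.log ((s : ℝ) / W))) * W *
          (2 * Real.log s)) :=
        mul_le_mul_of_nonneg_right (le_max_left _ _) (by positivity)
    _ = 648 * max C 1 * K := by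
        rw [hK, ← hLdef]
        field_simp
        ring

end Pool.Agent.SI
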