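import Pool.Agent.ZC.LA4

/-! # SI: determinant inequality, filtered version

The series of the `F` rows need not run over common vectors: the `k`-th term of every row lies in the
span of the companions and of `u 0, ..., u k`. -/

namespace Pool.Agent.ZC

open Finset Filter Topology

theorem sum_range_le_of_count {ι : Type*} [DecidableEq ι] (f : ι → ℕ) (n : ℕ) :
    ∀ G : Finset ι, G.card = n → (∀ m, (G.filter (fun r => f r < m)).card ≤ m) →
      ∑ i ∈ range n, i ≤ ∑ r ∈ G, f r := by
  induction n with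
  | zero => intro G _ _; simp
  | succ n ih =>
    intro G hG h
    obtain ⟨r, hr, hfr⟩ : ∃ r ∈ G, n ≤ f r := by
      by_contra hcon
      push Not at hcon
      have h1 : G.filter (fun r => f r < n) = G := filter_true_of_mem hcon
      have := h n
      rw [h1, hG] at this
      omega
    have h2 := ih (G.erase r) (by rw [card_erase_of_mem hr, hG]; rfl) (fun m =>
      (card_le_card (filter_subset_filter _ (erase_subset r G))).trans (h m))
    rw [sum_range_succ, ← add_sum_erase G f hr]
    omega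

theorem le_sum_of_count {ι : Type*} [DecidableEq ι] (G : Finset ι) (f : ι → ℕ)
    (h : ∀ m, (G.filter (fun r => f r < m)).card ≤ m) :
    G.card * (G.card - 1) / 2 ≤ ∑ r ∈ G, f r := by
  have := sum_range_le_of_count f G.card G rfl h
  rwa [Finset.sum_range_id] at this

/-- too many rows in a small span -/
theorem det_eq_zero_of_span {ι : Type*} [Fintype ι] [DecidableEq ι] (A M : Matrix ι ι ℝ)
    (G S : Finset ι) (hS : S ⊆ G) (m : ℕ) (hm : m < S.card) (u : ℕ → ι → ℝ)
    (h1 : ∀ r ∉ G, M r = A r)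
    (h2 : ∀ r ∈ S, ∃ (α : ι → ℝ) (β : ℕ → ℝ), ∀ c,
      M r c = ∑ s ∈ Gᶜ, α s * A s c + ∑ i ∈ range m, β i * u i c) : M.det = 0 := by
  classical
  by_contra hdet
  have hli := Matrix.linearIndependent_rows_of_det_ne_zero hdet
  set T : Finset ι := Gᶜ ∪ S with hT
  set X : Finset (ι → ℝ) := Gᶜ.image (fun s => A s) ∪ (range m).image u with hX
  have hliT : LinearIndependent ℝ (fun r : T => M r) := hli.comp _ Subtype.val_injective
  have hsub : Submodule.span ℝ (Set.range fun r : T => M r) ≤ Submodule.span ℝ (X : Set (ι → ℝ)) := by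
    rw [Submodule.span_le]
    rintro _ ⟨⟨r, hr⟩, rfl⟩
    rw [hT, mem_union] at hr
    rcases hr with hr | hr
    · rw [mem_compl] at hr
      refine Submodule.subset_span ?_
      simp only [hX, coe_union, coe_image, Set.mem_union, Set.mem_image, mem_coe]
      exact Or.inl ⟨r, mem_compl.2 hr, (h1 r hr).symm⟩
    · obtain ⟨α, β, hαβ⟩ := h2 r hr
      have e : M r = ∑ s ∈ Gᶜ, α s • A s + ∑ i ∈ range m, β i • u i := by
        funext c
        rw [hαβ c]
        simp [Finset.sum_apply]
      show M r ∈ _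
      rw [e]
      refine Submodule.add_mem _ (Submodule.sum_mem _ fun s hs => Submodule.smul_mem _ _ ?_)
        (Submodule.sum_mem _ fun i hi => Submodule.smul_mem _ _ ?_)
      · refine Submodule.subset_span ?_
        simp only [hX, coe_union, coe_image, Set.mem_union, Set.mem_image, mem_coe]
        exact Or.inl ⟨s, hs, rfl⟩
      · refine Submodule.subset_span ?_
        simp only [hX, coe_union, coe_image, Set.mem_union, Set.mem_image, mem_coe]
        exact Or.inr ⟨i, hi, rfl⟩
  have hc1 : Module.finrank ℝ (Submodule.span ℝ (Set.range fun r : T => M r)) = T.card := by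
    rw [finrank_span_eq_card hliT, Fintype.card_coe]
  have hc2 : Module.finrank ℝ (Submodule.span ℝ (X : Set (ι → ℝ))) ≤ X.card :=
    finrank_span_finset_le_card X
  have hc3 := Submodule.finrank_mono hsub
  have hTc : T.card = Gᶜ.card + S.card := by
    rw [hT, card_union_of_disjoint]
    rw [Finset.disjoint_left]
    intro x hx hx'
    exact (mem_compl.1 hx) (hS hx')
  have hXc : X.card ≤ Gᶜ.card + m := by
    refine (card_union_le _ _).trans (Nat.add_le_add card_image_le ?_)
    exact card_image_le.trans (by rw [card_range])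
  omega

/-- finite version -/
theorem good_filt_fin {ι : Type*} [Fintype ι] [DecidableEq ι] (A : Matrix ι ι ℝ) (G : Finset ι)
    (N : ι → ℝ) (hN : ∀ r, 0 ≤ N r) (t : ℝ) (ht0 : 0 ≤ t) (ht1 : t < 1) (w : ι → ℕ → ι → ℝ)
    (u : ℕ → ι → ℝ) (Λ : ℕ) (h1 : ∀ r, r ∉ G → ∀ c, |A r c| ≤ N r)
    (h2 : ∀ r ∈ G, ∀ k c, |w r k c| ≤ N r * t ^ (2 * k))
    (h2' : ∀ r ∈ G, ∀ k, ∃ (α : ι → ℝ) (β : ℕ → ℝ), ∀ c,
      w r k c = ∑ s ∈ Gᶜ, α s * A s c + ∑ i ∈ range (k + 1), β i * u i c)
    (h3 : ∀ r ∈ G, ∀ c, A r c = ∑ k ∈ range Λ, w r k c) :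
    |A.det| ≤ (Fintype.card ι).factorial * (∏ r, N r) * t ^ (G.card * (G.card - 1) / 2) *
      (1 / (1 - t)) ^ G.card := by
  classical
  -- expansion
  set S : ι → Finset ℕ := fun r => if r ∈ G then range Λ else {0} with hS
  set g : ι → ℕ → ι → ℝ := fun r k => if r ∈ G then w r k else A r with hg
  have hA : A = Matrix.of fun r => ∑ k ∈ S r, g r k := by
    ext r c
    simp only [Matrix.of_apply, hS, hg]
    by_cases hr : r ∈ G
    · simp only [if_pos hr, Finset.sum_apply]
      exact h3 r hr c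
    · simp only [if_neg hr, Finset.sum_singleton]
  have hexp : A.det = ∑ f ∈ Fintype.piFinset S, (Matrix.of fun r => g r (f r)).det := by
    conv_lhs => rw [hA]
    exact MultilinearMap.map_sum_finset (Matrix.detRowAlternating (R := ℝ) (n := ι)).toMultilinearMap g S
  -- every term
  set ww : ι → ℕ → ℝ := fun r k => if r ∈ G then t ^ k else 1 with hww
  have hw0 : ∀ r k, 0 ≤ ww r k := by
    intro r k
    simp only [hww]
    split_ifs <;> positivity
  have hterm : ∀ f ∈ Fintype.piFinset S, |(Matrix.of fun r => g r (f r)).det| ≤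
      (Fintype.card ι).factorial * (∏ r, N r) * t ^ (G.card * (G.card - 1) / 2) *
        ∏ r, ww r (f r) := by
    intro f _
    have hprod0 : 0 ≤ ∏ r, N r := Finset.prod_nonneg fun r _ => hN r
    by_cases hf : ∀ m, (G.filter (fun r => f r < m)).card ≤ m
    · have hb := abs_det_le (Matrix.of fun r => g r (f r))
        (fun r => N r * (ww r (f r) * ww r (f r))) (by
          intro r c
          simp only [Matrix.of_apply, hg, hww]
          by_cases hr : r ∈ G
          · simp only [if_pos hr]
            refine (h2 r hr (f r) c).trans (le_of_eq ?_)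
            rw [← pow_add, two_mul]
          · simp only [if_neg hr, mul_one]
            exact h1 r hr c)
      refine hb.trans ?_
      rw [Finset.prod_mul_distrib, Finset.prod_mul_distrib]
      have h5 : ∏ r, ww r (f r) ≤ t ^ (G.card * (G.card - 1) / 2) := by
        have e : ∏ r, ww r (f r) = ∏ r ∈ G, t ^ f r := by
          simp only [hww]
          rw [Finset.prod_ite_mem]
          simp
        rw [e, Finset.prod_pow_eq_pow_sum]
        exact pow_le_pow_of_le_one ht0 ht1.le (le_sum_of_count G f hf)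
      have h6 : 0 ≤ ∏ r, ww r (f r) := Finset.prod_nonneg fun r _ => hw0 r _
      calc ((Fintype.card ι).factorial : ℝ) * ((∏ r, N r) * ((∏ r, ww r (f r)) * ∏ r, ww r (f r)))
          ≤ (Fintype.card ι).factorial * ((∏ r, N r) * (t ^ (G.card * (G.card - 1) / 2) *
              ∏ r, ww r (f r))) := by gcongr
        _ = _ := by ring
    · push Not at hf
      obtain ⟨m, hm⟩ := hf
      have hz : (Matrix.of fun r => g r (f r)).det = 0 := by
        refine det_eq_zero_of_span A _ G (G.filter (fun r => f r < m)) (filter_subset _ _) m hm u ?_ ?_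
        · intro r hr
          funext c
          simp only [Matrix.of_apply, hg, if_neg hr]
        · intro r hr
          rw [mem_filter] at hr
          obtain ⟨α, β, hαβ⟩ := h2' r hr.1 (f r)
          refine ⟨α, fun i => if i ∈ range (f r + 1) then β i else 0, fun c => ?_⟩
          simp only [Matrix.of_apply, hg, if_pos hr.1]
          rw [hαβ c]
          congr 1
          have hsub : range (f r + 1) ⊆ range m := range_mono (by omega)
          rw [← sum_subset hsub]
          · exact sum_congr rfl fun i hi => by rw [if_pos hi]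
          · intro i _ hi
            rw [if_neg hi, zero_mul]
      rw [hz, abs_zero]
      have h6 : 0 ≤ ∏ r, ww r (f r) := Finset.prod_nonneg fun r _ => hw0 r _
      positivity
  rw [hexp]
  refine (Finset.abs_sum_le_sum_abs _ _).trans ((Finset.sum_le_sum hterm).trans ?_)
  rw [← Finset.mul_sum, ← Finset.prod_univ_sum]
  have hprod0 : 0 ≤ ∏ r, N r := Finset.prod_nonneg fun r _ => hN r
  have h7 : ∏ r, ∑ k ∈ S r, ww r k ≤ (1 / (1 - t)) ^ G.card := by
    have e : ∏ r, ∑ k ∈ S r, ww r k = ∏ r ∈ G, ∑ k ∈ range Λ, t ^ k := by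
      have : ∀ r, ∑ k ∈ S r, ww r k = if r ∈ G then ∑ k ∈ range Λ, t ^ k else 1 := by
        intro r
        simp only [hS, hww]
        by_cases hr : r ∈ G
        · simp [hr]
        · simp [hr]
      simp_rw [this]
      rw [Finset.prod_ite_mem]
      simp
    rw [e, Finset.prod_const]
    apply pow_le_pow_left₀ (Finset.sum_nonneg fun k _ => pow_nonneg ht0 k)
    rw [one_div]
    exact (summable_geometric_of_lt_one ht0 ht1).sum_le_tsum (range Λ) (fun k _ => pow_nonneg ht0 k)
      |>.trans (le_of_eq (tsum_geometric_of_lt_one ht0 ht1))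
  have h8 : 0 ≤ ((Fintype.card ι).factorial : ℝ) * (∏ r, N r) * t ^ (G.card * (G.card - 1) / 2) := by
    positivity
  exact mul_le_mul_of_nonneg_left h7 h8

/-- **filtered good lemma** -/
theorem good_filt {ι : Type*} [Fintype ι] [DecidableEq ι] (A : Matrix ι ι ℝ) (G : Finset ι)
    (N : ι → ℝ) (hN : ∀ r, 0 ≤ N r) (t : ℝ) (ht0 : 0 ≤ t) (ht1 : t < 1) (w : ι → ℕ → ι → ℝ)
    (u : ℕ → ι → ℝ) (h1 : ∀ r, r ∉ G → ∀ c, |A r c| ≤ N r)
    (h2 : ∀ r ∈ G, ∀ k c, |w r k c| ≤ N r * t ^ (2 * k))
    (h2' : ∀ r ∈ G, ∀ k, ∃ (α : ι → ℝ) (β : ℕ → ℝ), ∀ c,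
      w r k c = ∑ s ∈ Gᶜ, α s * A s c + ∑ i ∈ range (k + 1), β i * u i c)
    (h3 : ∀ r ∈ G, ∀ c, HasSum (fun k => w r k c) (A r c)) :
    |A.det| ≤ (Fintype.card ι).factorial * (∏ r, N r) * t ^ (G.card * (G.card - 1) / 2) *
      (1 / (1 - t)) ^ G.card := by
  classical
  set B : ℕ → Matrix ι ι ℝ := fun Λ => Matrix.of fun r c =>
    if r ∈ G then ∑ k ∈ range Λ, w r k c else A r c with hB
  have hlim : Tendsto (fun Λ => |(B Λ).det|) atTop (𝓝 |A.det|) := by
    apply Tendsto.abs
    have hBA : Tendsto B atTop (𝓝 A) := by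
      refine tendsto_pi_nhds.2 fun r => tendsto_pi_nhds.2 fun c => ?_
      by_cases hr : r ∈ G
      · have := (h3 r hr c).tendsto_sum_nat
        simpa [hB, hr] using this
      · simp [hB, hr]
    have hcont : Continuous fun M : Matrix ι ι ℝ => M.det := by fun_prop
    exact (hcont.tendsto A).comp hBA
  refine le_of_tendsto hlim (Eventually.of_forall fun Λ => ?_)
  refine good_filt_fin (B Λ) G N hN t ht0 ht1 w u Λ ?_ h2 ?_ ?_
  · intro r hr c
    simp only [hB, Matrix.of_apply, if_neg hr]
    exact h1 r hr c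
  · intro r hr k
    obtain ⟨α, β, h⟩ := h2' r hr k
    refine ⟨α, β, fun c => ?_⟩
    rw [h c]
    congr 1
    refine sum_congr rfl fun s hs => ?_
    rw [mem_compl] at hs
    simp only [hB, Matrix.of_apply, if_neg hs]
  · intro r hr c
    simp only [hB, Matrix.of_apply, if_pos hr]

/-- **determinant inequality, filtered version** -/
theorem det_ineq_filt {Cc Fi Col : Type} [Fintype Cc] [Fintype Fi] [Fintype Col]
    (v : Cc ⊕ Fi → Col → ℚ)
    (hmod : ∀ (c : Cc → ℚ) (f : Fi → ℚ),
      (∀ x, ∑ i, c i * v (.inl i) x + ∑ j, f j * v (.inr j) x = 0) → ∀ j, f j = 0)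
    (D : ℕ) (hD : 0 < D) (hint : ∀ r x, ∃ w : ℤ, (D : ℚ) * v r x = w)
    (N t : ℝ) (hN : 0 ≤ N) (ht0 : 0 ≤ t) (ht1 : t < 1) (w : Fi → ℕ → Col → ℝ) (u : ℕ → Col → ℝ)
    (h1 : ∀ i x, |(v (.inl i) x : ℝ)| ≤ N)
    (h2 : ∀ j k x, |w j k x| ≤ N * t ^ (2 * k))
    (h2' : ∀ j k, ∃ (α : Cc → ℝ) (β : ℕ → ℝ), ∀ x,
      w j k x = ∑ i, α i * (v (.inl i) x : ℝ) + ∑ i ∈ range (k + 1), β i * u i x)
    (h3 : ∀ j, ∃ α : Cc → ℝ, ∀ x, HasSum (fun k => w j k x)
      ((v (.inr j) x : ℝ) - ∑ i, α i * (v (.inl i) x : ℝ))) :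
    ∃ R : ℕ, Fintype.card Fi ≤ R ∧ R ≤ Fintype.card Cc + Fintype.card Fi ∧ R ≤ Fintype.card Col ∧
      1 ≤ (D : ℝ) ^ R * ((R.factorial : ℝ) * N ^ R *
        t ^ (Fintype.card Fi * (Fintype.card Fi - 1) / 2) * (1 / (1 - t)) ^ Fintype.card Fi) := by
  classical
  obtain ⟨κ, a, ha, hspan, hli⟩ := exists_linearIndependent' ℚ (fun i : Cc => v (.inl i))
  have : Finite κ := Finite.of_injective a ha
  have : Fintype κ := Fintype.ofFinite κ
  -- the family
  have hliF : LinearIndependent ℚ (fun j : Fi => v (.inr j)) := by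
    rw [Fintype.linearIndependent_iff]
    intro f hf
    refine hmod 0 f fun x => ?_
    have := congrFun hf x
    simpa [Finset.sum_apply] using this
  have hli2 : LinearIndependent ℚ (Sum.elim (fun i : κ => v (.inl (a i))) (fun j : Fi => v (.inr j))) := by
    refine LinearIndependent.sum_type hli hliF ?_
    rw [Submodule.disjoint_def]
    intro x hx1 hx2
    rw [show (fun i : κ => v (Sum.inl (a i))) = (fun i : Cc => v (.inl i)) ∘ a from rfl, hspan] at hx1
    obtain ⟨c, hc⟩ := (Submodule.mem_span_range_iff_exists_fun ℚ).1 hx1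
    obtain ⟨f, hf⟩ := (Submodule.mem_span_range_iff_exists_fun ℚ).1 hx2
    have hf0 := hmod (fun i => - c i) f (fun y => by
      have e1 := congrFun hc y
      have e2 := congrFun hf y
      simp only [Finset.sum_apply, Pi.smul_apply, smul_eq_mul] at e1 e2
      rw [e2, ← e1, ← Finset.sum_add_distrib]
      exact Finset.sum_eq_zero fun i _ => by ring)
    rw [← hf]
    exact Finset.sum_eq_zero fun j _ => by rw [hf0 j, zero_smul]
  obtain ⟨g, hg, hdet⟩ := exists_minor (K := ℚ)
    (Matrix.of (Sum.elim (fun i : κ => v (.inl (a i))) (fun j : Fi => v (.inr j)))) hli2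
  set W : κ ⊕ Fi → Col → ℚ := Sum.elim (fun i : κ => v (.inl (a i))) (fun j : Fi => v (.inr j)) with hW
  set R := Fintype.card (κ ⊕ Fi) with hR
  have hRc : R = Fintype.card κ + Fintype.card Fi := by rw [hR, Fintype.card_sum]
  refine ⟨R, by omega, by
    have := Fintype.card_le_of_injective a ha
    omega, Fintype.card_le_of_injective g hg, ?_⟩
  set Δ : ℚ := ((Matrix.of W).submatrix id g).det with hΔ
  -- integrality
  have hWint : ∀ r x, ∃ w : ℤ, (D : ℚ) * W r x = w := by
    rintro (i | j) x
    · exact hint _ _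
    · exact hint _ _
  have hint2 : ∃ w : ℤ, (D : ℚ) ^ R * Δ = w := by
    choose w hw using fun (r : κ ⊕ Fi) (c : κ ⊕ Fi) => hWint r (g c)
    refine ⟨(Matrix.of w).det, ?_⟩
    have e2 : ((Matrix.of w).det : ℚ) = ((Matrix.of w).map (fun t : ℤ => (t : ℚ))).det :=
      (RingHom.map_det (Int.castRingHom ℚ) _)
    rw [e2]
    have e3 : (Matrix.of w).map (fun t : ℤ => (t : ℚ)) = (D : ℚ) • ((Matrix.of W).submatrix id g) := by
      ext x c
      simp only [Matrix.map_apply, Matrix.of_apply, Matrix.smul_apply, Matrix.submatrix_apply, id_eq,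
        smul_eq_mul]
      rw [hw]
    rw [e3, Matrix.det_smul]
  obtain ⟨w', hw'⟩ := hint2
  have hw0 : w' ≠ 0 := by
    rintro rfl
    rw [Int.cast_zero, mul_eq_zero] at hw'
    rcases hw' with h | h
    · have : (D : ℚ) ≠ 0 := by exact_mod_cast hD.ne'
      exact pow_ne_zero _ this h
    · exact hdet h
  have hone : (1 : ℝ) ≤ (D : ℝ) ^ R * |(Δ : ℝ)| := by
    have e2 : (1 : ℝ) ≤ |(w' : ℝ)| := by
      have := Int.one_le_abs hw0
      exact_mod_cast this
    have e3 : (w' : ℝ) = (D : ℝ) ^ R * (Δ : ℝ) := by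
      have := congrArg (fun t : ℚ => (t : ℝ)) hw'
      push_cast at this ⊢
      exact this.symm
    rw [e3, abs_mul, abs_of_nonneg (by positivity)] at e2
    exact e2
  -- expansion of companions in the chosen ones
  have hcomb : ∀ i : Cc, ∃ c : κ → ℚ, ∀ x, v (.inl i) x = ∑ k, c k * v (.inl (a k)) x := by
    intro i
    have hmem : v (.inl i) ∈ Submodule.span ℚ (Set.range ((fun i : Cc => v (.inl i)) ∘ a)) := by
      rw [hspan]
      exact Submodule.subset_span ⟨i, rfl⟩
    obtain ⟨c, hc⟩ := (Submodule.mem_span_range_iff_exists_fun ℚ).1 hmem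
    refine ⟨c, fun x => ?_⟩
    have := congrFun hc x
    simp only [Finset.sum_apply, Pi.smul_apply, smul_eq_mul, Function.comp] at this
    exact this.symm
  choose cc hcc using hcomb
  choose α hα using h3
  set A0 : Matrix (κ ⊕ Fi) (κ ⊕ Fi) ℝ := Matrix.of fun r c => (W r (g c) : ℝ) with hA0
  set G : Finset (κ ⊕ Fi) := univ.filter (fun r => r.isRight = true) with hG
  have memG : ∀ r : κ ⊕ Fi, r ∈ G ↔ r.isRight = true := by intro r; simp [hG]
  set cf : κ ⊕ Fi → κ ⊕ Fi → ℝ := fun r s =>
    match r, s with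
    | .inr j, .inl k => ∑ i, α j i * ((cc i k : ℚ) : ℝ)
    | _, _ => 0 with hcf
  set A : Matrix (κ ⊕ Fi) (κ ⊕ Fi) ℝ := Matrix.of fun r c =>
    if r ∈ G then A0 r c - ∑ s ∈ Gᶜ, cf r s * A0 s c else A0 r c with hA
  have hdetA : A0.det = A.det := by
    refine det_row_ops A A0 G cf ?_ ?_
    · intro x hx c
      simp only [hA, Matrix.of_apply, if_neg hx]
    · intro x hx c
      have e1 : ∑ k ∈ Gᶜ, cf x k * A k c = ∑ k ∈ Gᶜ, cf x k * A0 k c := by
        refine sum_congr rfl fun k hk => ?_
        rw [mem_compl] at hk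
        simp only [hA, Matrix.of_apply, if_neg hk]
      rw [e1]
      simp only [hA, Matrix.of_apply, if_pos hx]
      ring
  have hcast : (Δ : ℝ) = A.det := by
    rw [← hdetA]
    have e1 : A0 = ((Matrix.of W).submatrix id g).map (fun q : ℚ => (q : ℝ)) := by
      ext x c
      simp only [hA0, Matrix.of_apply, Matrix.map_apply, Matrix.submatrix_apply, id_eq]
    rw [e1]
    exact (RingHom.map_det (Rat.castHom ℝ) _)
  have hsumG : ∀ f : κ ⊕ Fi → ℝ, ∑ s ∈ Gᶜ, f s = ∑ k : κ, f (.inl k) := by
    intro f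
    have e : Gᶜ = univ.filter (fun x => x ∉ G) := by ext; simp
    rw [e, sum_filter, Fintype.sum_sum_type]
    have e1 : ∀ k : κ, (Sum.inl k : κ ⊕ Fi) ∉ G := by intro k; simp [memG]
    have e2 : ∀ j : Fi, (Sum.inr j : κ ⊕ Fi) ∈ G := by intro j; simp [memG]
    simp only [e1, e2, not_false_eq_true, if_true, not_true_eq_false, if_false,
      sum_const_zero, add_zero]
  -- real combinations of all companions in terms of the chosen ones
  have hconv : ∀ (β : Cc → ℝ) (c : κ ⊕ Fi), ∑ i, β i * (v (.inl i) (g c) : ℝ) =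
      ∑ k, (∑ i, β i * ((cc i k : ℚ) : ℝ)) * A0 (.inl k) c := by
    intro β c
    simp only [hA0, Matrix.of_apply, hW, Sum.elim_inl, sum_mul]
    rw [sum_comm]
    refine sum_congr rfl fun i _ => ?_
    have := congrArg (fun q : ℚ => (q : ℝ)) (hcc i (g c))
    push_cast at this
    rw [this, mul_sum]
    exact sum_congr rfl fun k _ => by ring
  have hAinl : ∀ (k : κ) (c : κ ⊕ Fi), A (.inl k) c = A0 (.inl k) c := by
    intro k c
    have : (Sum.inl k : κ ⊕ Fi) ∉ G := by simp [memG]
    simp only [hA, Matrix.of_apply, if_neg this]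
  have hgood := good_filt A G (fun _ => N) (fun _ => hN) t ht0 ht1
    (fun r k => match r with
      | .inr j => fun c => w j k (g c)
      | _ => fun _ => 0)
    (fun k c => u k (g c))
    (by
      intro r hr c
      simp only [hA, Matrix.of_apply, if_neg hr, hA0]
      rcases r with k | j
      · exact h1 _ _
      · exact absurd ((memG _).2 rfl) hr)
    (by
      intro r hr k c
      rcases r with i | j
      · exact absurd ((memG _).1 hr) (by simp)
      · exact h2 j k _)
    (by
      intro r hr k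
      rcases r with i | j
      · exact absurd ((memG _).1 hr) (by simp)
      · obtain ⟨α', β', hαβ⟩ := h2' j k
        refine ⟨fun s => match s with
          | .inl k' => ∑ i, α' i * ((cc i k' : ℚ) : ℝ)
          | _ => 0, β', fun c => ?_⟩
        show w j k (g c) = _
        rw [hαβ (g c), hconv, hsumG]
        simp only [hAinl])
    (by
      intro r hr c
      rcases r with i | j
      · exact absurd ((memG _).1 hr) (by simp)
      · have := hα j (g c)
        convert this using 1
        simp only [hA, Matrix.of_apply, if_pos hr]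
        rw [hsumG]
        have e1 : A0 (Sum.inr j) c = (v (.inr j) (g c) : ℝ) := by
          simp only [hA0, Matrix.of_apply, hW, Sum.elim_inr]
        rw [e1, hconv])
  have hGc : G.card = Fintype.card Fi := by
    have : (G.card : ℝ) = Fintype.card Fi := by
      rw [hG, Finset.card_filter, Fintype.sum_sum_type]
      simp
    exact_mod_cast this
  rw [hGc, prod_const, card_univ, ← hR, ← hcast] at hgood
  exact hone.trans (mul_le_mul_of_nonneg_left hgood (by positivity))

end Pool.Agent.ZC
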