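import Pool.Agent.SI.LA5

/-! # SI2: determinant inequality after projection along a block of companions

Columns are split into low columns `CL` and high columns `CH`.  The companions in `K` span a complement
of the vectors with zero low part; the projection along them is
`v ↦ v (inr y) - ∑ x, v (inl x) * ω x y`. -/

namespace Pool.Agent.SI

open Finset Pool.Agent.ZC

theorem LAP_int {α : Type} [Fintype α] (D1 D2 : ℕ) (x0 : ℚ) (f g : α → ℚ)
    (h0 : ∃ w : ℤ, (D1 : ℚ) * x0 = w) (hf : ∀ x, ∃ w : ℤ, (D1 : ℚ) * f x = w)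
    (hg : ∀ x, ∃ w : ℤ, (D2 : ℚ) * g x = w) :
    ∃ w : ℤ, ((D1 * D2 : ℕ) : ℚ) * (x0 - ∑ x, f x * g x) = w := by
  obtain ⟨w0, hw0⟩ := h0
  choose wf hwf using hf
  choose wg hwg using hg
  refine ⟨w0 * D2 - ∑ x, wf x * wg x, ?_⟩
  push_cast
  rw [← hw0, mul_sub, mul_sum]
  congr 1
  · ring
  · refine sum_congr rfl fun x _ => ?_
    rw [← hwf, ← hwg]
    ring

theorem LAP_bd {α : Type} [Fintype α] (x0 N Ω : ℝ) (f g : α → ℝ) (hN : 0 ≤ N)
    (h0 : |x0| ≤ N) (hf : ∀ x, |f x| ≤ N) (hg : ∀ x, |g x| ≤ Ω) :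
    |x0 - ∑ x, f x * g x| ≤ N * (1 + Fintype.card α * Ω) := by
  have h1 : |∑ x, f x * g x| ≤ Fintype.card α * (N * Ω) := by
    refine (abs_sum_le_sum_abs _ _).trans ?_
    rw [← nsmul_eq_mul, ← card_univ, ← sum_const]
    refine sum_le_sum fun x _ => ?_
    rw [abs_mul]
    exact mul_le_mul (hf x) (hg x) (abs_nonneg _) hN
  calc |x0 - ∑ x, f x * g x| ≤ |x0| + |∑ x, f x * g x| := abs_sub _ _
    _ ≤ N + Fintype.card α * (N * Ω) := add_le_add h0 h1
    _ = _ := by ring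

/-- the projection -/
noncomputable def LAP_pr {CL CH : Type} [Fintype CL] (ω : CL → CH → ℝ) (V : CL ⊕ CH → ℝ) (y : CH) : ℝ :=
  V (.inr y) - ∑ x, V (.inl x) * ω x y

theorem LAP_pr_add {CL CH : Type} [Fintype CL] (ω : CL → CH → ℝ) (V W : CL ⊕ CH → ℝ) (y : CH) :
    LAP_pr ω (fun x => V x + W x) y = LAP_pr ω V y + LAP_pr ω W y := by
  simp only [LAP_pr, add_mul, sum_add_distrib]
  ring

theorem LAP_pr_sum {CL CH : Type} [Fintype CL] (ω : CL → CH → ℝ) {ι : Type} (s : Finset ι)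
    (α : ι → ℝ) (F : ι → CL ⊕ CH → ℝ) (y : CH) :
    LAP_pr ω (fun x => ∑ i ∈ s, α i * F i x) y = ∑ i ∈ s, α i * LAP_pr ω (F i) y := by
  simp only [LAP_pr, mul_sub, sum_sub_distrib, sum_mul, mul_sum]
  congr 1
  rw [sum_comm]
  exact sum_congr rfl fun i _ => sum_congr rfl fun x _ => by ring

theorem det_ineq_proj {Cc Fi CL CH : Type} [Fintype Cc] [Fintype Fi] [Fintype CL] [Fintype CH]
    [DecidableEq CL]
    (v : Cc ⊕ Fi → CL ⊕ CH → ℚ) (K : Finset Cc)
    (hmod : ∀ (c : Cc → ℚ) (f : Fi → ℚ),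
      (∀ x, ∑ i, c i * v (.inl i) x + ∑ j, f j * v (.inr j) x = 0) → ∀ j, f j = 0)
    (ω : CL → CH → ℚ)
    (hK1 : ∀ i ∈ K, ∀ y, v (.inl i) (.inr y) = ∑ x, v (.inl i) (.inl x) * ω x y)
    (hK2 : ∀ x0, ∃ β : Cc → ℚ,
      (∀ x, ∑ i, β i * v (.inl i) (.inl x) = if x = x0 then 1 else 0) ∧
      ∀ y, ∑ i, β i * v (.inl i) (.inr y) = ω x0 y)
    (D1 D2 : ℕ) (hD1 : 0 < D1) (hD2 : 0 < D2) (hint1 : ∀ r x, ∃ w : ℤ, (D1 : ℚ) * v r x = w)
    (hint2 : ∀ x y, ∃ w : ℤ, (D2 : ℚ) * ω x y = w)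
    (N Ω t : ℝ) (hN : 0 ≤ N) (hΩ : 0 ≤ Ω) (ht0 : 0 ≤ t) (ht1 : t < 1)
    (hω : ∀ x y, |(ω x y : ℝ)| ≤ Ω)
    (w : Fi → ℕ → CL ⊕ CH → ℝ) (u : ℕ → CL ⊕ CH → ℝ)
    (h1 : ∀ i x, |(v (.inl i) x : ℝ)| ≤ N)
    (h2 : ∀ j k x, |w j k x| ≤ N * t ^ (2 * k))
    (h2' : ∀ j k, ∃ (α : Cc → ℝ) (β : ℕ → ℝ), ∀ x,
      w j k x = ∑ i, α i * (v (.inl i) x : ℝ) + ∑ i ∈ range (k + 1), β i * u i x)
    (h3 : ∀ j, ∃ α : Cc → ℝ, ∀ x, HasSum (fun k => w j k x)
      ((v (.inr j) x : ℝ) - ∑ i, α i * (v (.inl i) x : ℝ))) :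
    ∃ R : ℕ, Fintype.card Fi ≤ R ∧ R + K.card ≤ Fintype.card Cc + Fintype.card Fi ∧
      R ≤ Fintype.card CH ∧
      1 ≤ ((D1 * D2 : ℕ) : ℝ) ^ R * ((R.factorial : ℝ) *
        (N * (1 + Fintype.card CL * Ω)) ^ R *
        t ^ (Fintype.card Fi * (Fintype.card Fi - 1) / 2) * (1 / (1 - t)) ^ Fintype.card Fi) := by
  classical
  -- the projection
  set pq : (CL ⊕ CH → ℚ) → CH → ℚ := fun V y => V (.inr y) - ∑ x, V (.inl x) * ω x y with hpq
  set ωr : CL → CH → ℝ := fun x y => (ω x y : ℝ) with hωr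
  have hcast : ∀ r y, ((pq (v r) y : ℚ) : ℝ) = LAP_pr ωr (fun x => (v r x : ℝ)) y := by
    intro r y
    simp only [hpq, LAP_pr, hωr]
    push_cast
    rfl
  have hK0 : ∀ i ∈ K, ∀ y, pq (v (.inl i)) y = 0 := by
    intro i hi y
    simp only [hpq]
    rw [hK1 i hi y, sub_self]
  have hsplit : ∀ f : Cc → ℝ, (∀ i ∈ K, f i = 0) → ∑ i, f i = ∑ i : {i // i ∉ K}, f i := by
    intro f hf
    rw [← Finset.sum_subset (subset_univ Kᶜ) (fun i _ hi => hf i (by simpa using hi))]
    rw [← Finset.sum_coe_sort Kᶜ f]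
    exact Fintype.sum_equiv (Equiv.subtypeEquivRight fun i => by simp) _ _ fun _ => rfl
  have hsplitq : ∀ f : Cc → ℚ, (∀ i ∈ K, f i = 0) → ∑ i, f i = ∑ i : {i // i ∉ K}, f i := by
    intro f hf
    rw [← Finset.sum_subset (subset_univ Kᶜ) (fun i _ hi => hf i (by simpa using hi))]
    rw [← Finset.sum_coe_sort Kᶜ f]
    exact Fintype.sum_equiv (Equiv.subtypeEquivRight fun i => by simp) _ _ fun _ => rfl
  choose β0 hβ1 hβ2 using hK2
  obtain ⟨R, hR1, hR2, hR4, hR3⟩ := det_ineq_filt (Cc := {i // i ∉ K}) (Fi := Fi) (Col := CH)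
    (fun r => match r with
      | .inl i => pq (v (.inl i.1))
      | .inr j => pq (v (.inr j)))
    (by
      intro c f hcf j
      -- the full relation
      set V : CL ⊕ CH → ℚ := fun x => ∑ i : {i // i ∉ K}, c i * v (.inl i.1) x +
        ∑ j, f j * v (.inr j) x with hV
      have hVr : ∀ y, V (.inr y) = ∑ x, V (.inl x) * ω x y := by
        intro y
        have h := hcf y
        simp only [hpq] at h
        have e1 : ∑ x, V (.inl x) * ω x y = ∑ i : {i // i ∉ K}, c i *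
            (∑ x, v (.inl i.1) (.inl x) * ω x y) + ∑ j, f j * (∑ x, v (.inr j) (.inl x) * ω x y) := by
          simp only [hV, add_mul, sum_add_distrib, sum_mul, mul_sum]
          congr 1
          · rw [sum_comm]
            exact sum_congr rfl fun i _ => sum_congr rfl fun x _ => by ring
          · rw [sum_comm]
            exact sum_congr rfl fun i _ => sum_congr rfl fun x _ => by ring
        rw [e1]
        simp only [hV]
        simp only [mul_sub, sum_sub_distrib] at h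
        linarith
      refine hmod (fun i => (if h : i ∉ K then c ⟨i, h⟩ else 0) - ∑ x0, V (.inl x0) * β0 x0 i) f ?_ j
      have e2 : ∀ x, ∑ i, (if h : i ∉ K then c ⟨i, h⟩ else 0) * v (.inl i) x =
          ∑ i : {i // i ∉ K}, c i * v (.inl i.1) x := by
        intro x
        rw [hsplitq _ (fun i hi => by rw [dif_neg (by simpa using hi), zero_mul])]
        refine sum_congr rfl fun i _ => ?_
        rw [dif_pos i.2]
      have e3 : ∀ x, ∑ i, (∑ x0, V (.inl x0) * β0 x0 i) * v (.inl i) x =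
          ∑ x0, V (.inl x0) * ∑ i, β0 x0 i * v (.inl i) x := by
        intro x
        simp only [sum_mul, mul_sum]
        rw [sum_comm]
        exact sum_congr rfl fun i _ => sum_congr rfl fun x _ => by ring
      intro x
      simp only [sub_mul, sum_sub_distrib]
      rw [e2, e3]
      have e4 : ∑ i : {i // i ∉ K}, c i * v (.inl i.1) x + ∑ j, f j * v (.inr j) x = V x := rfl
      rcases x with x | y
      · simp only [hβ1]
        have e5 : ∑ x0, V (.inl x0) * (if x = x0 then (1 : ℚ) else 0) = V (.inl x) := by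
          simp
        rw [e5]
        linarith
      · simp only [hβ2]
        rw [← hVr]
        linarith)
    (D1 * D2) (by positivity)
    (by
      rintro (i | j) y
      · exact LAP_int D1 D2 _ _ _ (hint1 _ _) (fun x => hint1 _ _) (fun x => hint2 _ _)
      · exact LAP_int D1 D2 _ _ _ (hint1 _ _) (fun x => hint1 _ _) (fun x => hint2 _ _))
    (N * (1 + Fintype.card CL * Ω)) t (by positivity) ht0 ht1
    (fun j k => LAP_pr ωr (w j k)) (fun k => LAP_pr ωr (u k))
    (by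
      intro i y
      show |((pq (v (.inl i.1)) y : ℚ) : ℝ)| ≤ _
      rw [hcast]
      exact LAP_bd _ N Ω _ _ hN (h1 _ _) (fun x => h1 _ _) (fun x => hω _ _))
    (by
      intro j k y
      have := LAP_bd (w j k (.inr y)) (N * t ^ (2 * k)) Ω (fun x => w j k (.inl x))
        (fun x => (ω x y : ℝ)) (by positivity) (h2 _ _ _) (fun x => h2 _ _ _) (fun x => hω _ _)
      refine this.trans (le_of_eq ?_)
      ring)
    (by
      intro j k
      obtain ⟨α, β, h⟩ := h2' j k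
      refine ⟨fun i => α i.1, β, fun y => ?_⟩
      have e : w j k = fun x => ∑ i, α i * (v (.inl i) x : ℝ) + ∑ i ∈ range (k + 1), β i * u i x :=
        funext h
      rw [e, LAP_pr_add, LAP_pr_sum, LAP_pr_sum]
      congr 1
      rw [hsplit]
      · refine sum_congr rfl fun i _ => ?_
        show _ = α i.1 * ((pq (v (.inl i.1)) y : ℚ) : ℝ)
        rw [hcast]
      · intro i hi
        rw [← hcast, hK0 i hi y]
        simp)
    (by
      intro j
      obtain ⟨α, h⟩ := h3 j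
      refine ⟨fun i => α i.1, fun y => ?_⟩
      have h5 : HasSum (fun k => LAP_pr ωr (w j k) y)
          (LAP_pr ωr (fun x => (v (.inr j) x : ℝ) - ∑ i, α i * (v (.inl i) x : ℝ)) y) := by
        simp only [LAP_pr]
        exact (h (.inr y)).sub (hasSum_sum fun x _ => (h (.inl x)).mul_right _)
      convert h5 using 1
      have e : (fun x => (v (.inr j) x : ℝ) - ∑ i, α i * (v (.inl i) x : ℝ)) =
          fun x => (v (.inr j) x : ℝ) + ∑ i ∈ univ, (-α i) * (v (.inl i) x : ℝ) := by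
        funext x
        rw [sub_eq_add_neg, ← sum_neg_distrib]
        congr 1
        exact sum_congr rfl fun i _ => by ring
      rw [e, LAP_pr_add, LAP_pr_sum]
      show ((pq (v (.inr j)) y : ℚ) : ℝ) - ∑ i : {i // i ∉ K}, α i.1 *
        ((pq (v (.inl i.1)) y : ℚ) : ℝ) = _
      rw [hcast, hsplit (fun i => -α i * LAP_pr ωr (fun x => (v (.inl i) x : ℝ)) y), sub_eq_add_neg,
        ← sum_neg_distrib]
      · congr 1
        refine sum_congr rfl fun i _ => ?_
        rw [hcast]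
        ring
      · intro i hi
        rw [← hcast, hK0 i hi y]
        simp)
  refine ⟨R, hR1, ?_, hR4, hR3⟩
  have hc : Fintype.card {i // i ∉ K} + K.card = Fintype.card Cc := by
    rw [Fintype.card_subtype_compl, Fintype.card_coe]
    exact Nat.sub_add_cancel (Finset.card_le_univ K)
  omega

end Pool.Agent.SI
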