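import Mathlib

/-! # SI: the order of the determinant at the half-integer roots -/ 

namespace Pool.Agent.SI

open Polynomial Matrix Finset

section matrixLemma

variable {K : Type*} [Field K]

theorem MOD_rm_le {K : Type*} [Field K] {f : K[X]} (t0 : K) (n : ℕ) (h : f.natDegree ≤ n) :
    f.rootMultiplicity t0 ≤ n := by
  classical
  rw [← Polynomial.count_roots]
  exact (Multiset.count_le_card _ _).trans ((Polynomial.card_roots' f).trans h)

theorem MOD_det_dvd {E F : Type*} [Fintype E] [DecidableEq E] [Fintype F] [DecidableEq F]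
    (W : Matrix (E ⊕ F) (E ⊕ F) K[X]) (u : K[X]) (s : ℕ)
    (h : ∀ j e, u ^ s ∣ W j (.inl e)) : u ^ (s * Fintype.card E) ∣ W.det := by
  choose V hV using h
  have h1 : W = (Matrix.of fun j k => Sum.elim (fun e => V j e) (fun f => W j (.inr f)) k) *
      Matrix.diagonal (Sum.elim (fun _ : E => u ^ s) (fun _ : F => 1)) := by
    ext j k
    rw [Matrix.mul_diagonal]
    rcases k with e | f
    · simp [hV, mul_comm]
    · simp
  rw [h1, Matrix.det_mul, Matrix.det_diagonal, Fintype.prod_sum_type]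
  refine Dvd.dvd.mul_left ?_ _
  simp [pow_mul]

/-- the matrix lemma -/
theorem MOD_matrix {E F : Type*} [Fintype E] [DecidableEq E] [Fintype F] [DecidableEq F]
    (W : Matrix (E ⊕ F) (E ⊕ F) K[X]) (Q : Matrix E E K[X]) (t0 : K) (S : ℕ)
    (hQ : Q.det ≠ 0) (hQd : Q.det.natDegree ≤ S * Fintype.card E)
    (h : ∀ j e0, (X - C t0) ^ (S + 1) ∣ ∑ e, W j (.inl e) * Q e e0) :
    (X - C t0) ^ Fintype.card E ∣ W.det := by
  by_cases hW : W.det = 0
  · rw [hW]; exact dvd_zero _
  have h1 : (X - C t0) ^ ((S + 1) * Fintype.card E) ∣ (W * Matrix.fromBlocks Q 0 0 1).det := by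
    apply MOD_det_dvd
    intro j e0
    have : (W * Matrix.fromBlocks Q 0 0 (1 : Matrix F F K[X])) j (.inl e0) =
        ∑ e, W j (.inl e) * Q e e0 := by
      rw [Matrix.mul_apply, Fintype.sum_sum_type]
      simp
    rw [this]
    exact h j e0
  rw [Matrix.det_mul, Matrix.det_fromBlocks_zero₂₁, Matrix.det_one, mul_one] at h1
  have h2 := (Polynomial.le_rootMultiplicity_iff (mul_ne_zero hW hQ)).2 h1
  rw [Polynomial.rootMultiplicity_mul (mul_ne_zero hW hQ)] at h2
  have h3 := MOD_rm_le t0 _ hQd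
  have h4 : Fintype.card E ≤ W.det.rootMultiplicity t0 := by
    have : (S + 1) * Fintype.card E = S * Fintype.card E + Fintype.card E := by ring
    omega
  exact (Polynomial.le_rootMultiplicity_iff hW).1 h4

/-- `Q = X^S + lower`, entrywise: the determinant has degree `|E| S` -/
theorem MOD_det_monic {E : Type*} [Fintype E] [DecidableEq E] (Q : Matrix E E K[X]) (S : ℕ)
    (hd : ∀ i j, (Q i j).natDegree ≤ S) (hc : ∀ i j, (Q i j).coeff S = if i = j then 1 else 0) :
    Q.det ≠ 0 ∧ Q.det.natDegree ≤ S * Fintype.card E := by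
  have h1 : Q.det.coeff (S * Fintype.card E) = 1 := by
    have h2 : Q.det.coeff (S * Fintype.card E) =
        (Matrix.of fun i j => (Q i j).coeff S : Matrix E E K).det := by
      rw [det_apply, det_apply, finsetSum_coeff]
      refine Finset.sum_congr rfl ?_
      intro g _
      rw [coeff_smul]
      congr 1
      rw [mul_comm S]
      exact coeff_prod_of_natDegree_le _ _ _ (fun p _ => hd _ _)
    rw [h2]
    have h3 : (Matrix.of fun i j => (Q i j).coeff S : Matrix E E K) = 1 := by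
      ext i j
      rw [Matrix.of_apply, hc, Matrix.one_apply]
    rw [h3, Matrix.det_one]
  refine ⟨fun h0 => by rw [h0] at h1; simp at h1, ?_⟩
  rw [Matrix.det_apply]
  refine Polynomial.natDegree_sum_le_of_forall_le _ _ fun σ _ => ?_
  have h2 : (∏ i, Q (σ i) i).natDegree ≤ S * Fintype.card E := by
    refine (Polynomial.natDegree_prod_le _ _).trans ?_
    refine (Finset.sum_le_sum fun i _ => hd _ _).trans ?_
    simp [mul_comm]
  rcases Int.units_eq_one_or (Equiv.Perm.sign σ) with hs | hs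
  · rw [hs, one_smul]; exact h2
  · rw [hs, Units.neg_smul, one_smul, Polynomial.natDegree_neg]; exact h2

/-- columns `E` of a square matrix are `P (b e)`, every `P i k` (`k <= S`) is a constant combination
of them, and `sum_k (t0 - X)^(S-k) P i k (X + j)` is divisible by `(X - t0)^(S+1)` -/
theorem MOD_half {E F ι : Type*} [Fintype E] [DecidableEq E] [Fintype F] [DecidableEq F]
    (W : Matrix (E ⊕ F) (E ⊕ F) K[X]) (S : ℕ) (t0 : K) (P : ι → ℕ → E ⊕ F → K[X])
    (bi : E → ι) (bk : E → ℕ) (hbk : ∀ e, bk e ≤ S) (hW : ∀ j e, W j (.inl e) = P (bi e) (bk e) j)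
    (c : ι → ℕ → E → K) (hc : ∀ i, ∀ k ≤ S, ∀ j, P i k j = ∑ e, C (c i k e) * P (bi e) (bk e) j)
    (hb : ∀ e e', c (bi e) (bk e) e' = if e' = e then 1 else 0)
    (h : ∀ i j, (X - C t0) ^ (S + 1) ∣ ∑ k ∈ range (S + 1), (C t0 - X) ^ (S - k) * P i k j) :
    (X - C t0) ^ Fintype.card E ∣ W.det := by
  classical
  set Q : Matrix E E K[X] := Matrix.of fun e e0 =>
    ∑ k ∈ (range (S + 1)).filter (fun k => bk e0 ≤ k),
      C ((-1) ^ (k - bk e0) * c (bi e0) k e) * (X - C t0) ^ (S - k + bk e0) with hQ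
  have hXm : ∀ m : ℕ, ((X - C t0) ^ m : K[X]).natDegree = m := fun m => by
    rw [natDegree_pow, natDegree_X_sub_C, mul_one]
  have hdeg : ∀ i j, (Q i j).natDegree ≤ S := by
    intro e e0
    rw [hQ, Matrix.of_apply]
    refine Polynomial.natDegree_sum_le_of_forall_le _ _ fun k hk => ?_
    rw [mem_filter, mem_range] at hk
    refine (Polynomial.natDegree_C_mul_le _ _).trans ?_
    rw [hXm]; omega
  have hco : ∀ i j, (Q i j).coeff S = if i = j then 1 else 0 := by
    intro e e0
    rw [hQ, Matrix.of_apply, finsetSum_coeff, Finset.sum_eq_single (bk e0)]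
    · rw [coeff_C_mul, Nat.sub_self, pow_zero, one_mul, hb e0 e,
        Nat.sub_add_cancel (hbk e0)]
      have h1 : ((X - C t0) ^ S : K[X]).coeff S = 1 := by
        have := ((monic_X_sub_C t0).pow S).coeff_natDegree
        rwa [hXm] at this
      rw [h1, mul_one]
    · intro k hk hne
      rw [mem_filter, mem_range] at hk
      rw [coeff_C_mul, coeff_eq_zero_of_natDegree_lt (by rw [hXm]; omega), mul_zero]
    · intro hk
      exact absurd (mem_filter.2 ⟨mem_range.2 (by have := hbk e0; omega), le_rfl⟩) hk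
  obtain ⟨hQ0, hQd⟩ := MOD_det_monic Q S hdeg hco
  refine MOD_matrix W Q t0 S hQ0 hQd ?_
  intro j e0
  -- rewrite the sum
  have e1 : ∑ e, W j (.inl e) * Q e e0 =
      ∑ k ∈ (range (S + 1)).filter (fun k => bk e0 ≤ k),
        C ((-1) ^ (k - bk e0)) * (X - C t0) ^ (S - k + bk e0) * P (bi e0) k j := by
    simp only [hQ, Matrix.of_apply, Finset.mul_sum]
    rw [Finset.sum_comm]
    refine Finset.sum_congr rfl fun k hk => ?_
    rw [mem_filter, mem_range] at hk
    rw [hc (bi e0) k (by omega) j, Finset.mul_sum]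
    refine Finset.sum_congr rfl fun e _ => ?_
    rw [hW, C_mul]
    ring
  have e2 : C ((-1) ^ S) * ((C t0 - X) ^ bk e0 *
        ∑ k ∈ range (S + 1), (C t0 - X) ^ (S - k) * P (bi e0) k j) =
      C ((-1) ^ (bk e0 + bk e0)) * ∑ k ∈ range (S + 1),
        C ((-1) ^ (k + bk e0)) * (X - C t0) ^ (S - k + bk e0) * P (bi e0) k j := by
    rw [Finset.mul_sum, Finset.mul_sum, Finset.mul_sum]
    refine Finset.sum_congr rfl fun k hk => ?_
    rw [mem_range] at hk
    have e3 : (C t0 - X : K[X]) = C (-1) * (X - C t0) := by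
      rw [C_neg, C_1]; ring
    rw [e3, mul_pow, mul_pow, ← C_pow, ← C_pow]
    have e4 : ((-1 : K)) ^ S * ((-1) ^ bk e0 * (-1) ^ (S - k)) =
        (-1) ^ (bk e0 + bk e0) * (-1) ^ (k + bk e0) := by
      rw [← pow_add, ← pow_add, ← pow_add]
      have e5 : ∀ m : ℕ, ((-1 : K)) ^ (2 * m) = 1 := fun m => by
        rw [pow_mul]; simp
      have e6 : S + (bk e0 + (S - k)) = 2 * (S - k) + (k + bk e0) := by omega
      have e7 : bk e0 + bk e0 + (k + bk e0) = 2 * bk e0 + (k + bk e0) := by omega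
      rw [e6, e7, pow_add, pow_add _ (2 * bk e0), e5, e5]
    calc C ((-1 : K) ^ S) * (C ((-1 : K) ^ bk e0) * (X - C t0) ^ bk e0 *
          (C ((-1 : K) ^ (S - k)) * (X - C t0) ^ (S - k) * P (bi e0) k j)) =
        (C ((-1 : K) ^ S * ((-1) ^ bk e0 * (-1) ^ (S - k)))) *
          ((X - C t0) ^ bk e0 * (X - C t0) ^ (S - k)) * P (bi e0) k j := by
          rw [C_mul, C_mul]; ring
      _ = _ := by
          rw [e4, C_mul, ← pow_add, add_comm (bk e0) (S - k)]; ring
  have e8 : C ((-1 : K) ^ (bk e0 + bk e0)) = 1 := by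
    rw [← two_mul, pow_mul]; simp
  rw [e8, one_mul] at e2
  have e9 : (X - C t0) ^ (S + 1) ∣ ∑ k ∈ range (S + 1),
      C ((-1) ^ (k + bk e0)) * (X - C t0) ^ (S - k + bk e0) * P (bi e0) k j := by
    rw [← e2]
    exact Dvd.dvd.mul_left (Dvd.dvd.mul_left (h _ _) _) _
  rw [← Finset.sum_filter_add_sum_filter_not (range (S + 1)) (fun k => bk e0 ≤ k)] at e9
  have e10 : (X - C t0) ^ (S + 1) ∣ ∑ k ∈ (range (S + 1)).filter (fun k => ¬ bk e0 ≤ k),
      C ((-1) ^ (k + bk e0)) * (X - C t0) ^ (S - k + bk e0) * P (bi e0) k j := by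
    refine Finset.dvd_sum fun k hk => ?_
    rw [mem_filter, mem_range] at hk
    refine Dvd.dvd.mul_right (Dvd.dvd.mul_left (pow_dvd_pow _ (by omega)) _) _
  have e11 := (dvd_add_left e10).1 e9
  rw [e1]
  convert e11 using 1
  refine Finset.sum_congr rfl fun k hk => ?_
  rw [mem_filter] at hk
  have e12 : (-1 : K) ^ (k + bk e0) = (-1) ^ (k - bk e0) := by
    rw [show k + bk e0 = (k - bk e0) + 2 * bk e0 by omega, pow_add, pow_mul]
    simp
  rw [e12]

end matrixLemma

section telescoping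

variable {K : Type*} [CommRing K]

theorem MOD_hasse_mul (x : K) (H : K[X]) (m : ℕ) :
    hasseDeriv (m + 1) ((X - C x) * H) = (X - C x) * hasseDeriv (m + 1) H + hasseDeriv m H := by
  rw [hasseDeriv_mul, Finset.Nat.sum_antidiagonal_eq_sum_range_succ
    (fun i j => hasseDeriv i (X - C x) * hasseDeriv j H)]
  rw [Finset.sum_range_succ', Finset.sum_range_succ']
  have h0 : ∀ k ∈ range m, hasseDeriv (k + 1 + 1) (X - C x) * hasseDeriv (m + 1 - (k + 1 + 1)) H = 0 := by
    intro k _
    rw [hasseDeriv_eq_zero_of_lt_natDegree _ _ ?_, zero_mul]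
    refine lt_of_le_of_lt (natDegree_X_sub_C_le x) (by omega)
  rw [Finset.sum_eq_zero h0]
  simp only [zero_add, Nat.sub_zero, Nat.add_sub_cancel, hasseDeriv_zero', map_sub, hasseDeriv_one',
    derivative_X, derivative_C, sub_zero, one_mul]
  ring

theorem MOD_telescope (x : K) (H : K[X]) (r : ℕ) :
    ∑ m ∈ range (r + 1), (C x - X) ^ m * hasseDeriv m ((X - C x) * H) =
      -((C x - X) ^ (r + 1) * hasseDeriv r H) := by
  induction r with
  | zero => simp; ring
  | succ r ih =>
    rw [sum_range_succ, ih, MOD_hasse_mul]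
    ring

theorem MOD_sum_dvd (x : K) (S : ℕ) (F : ℕ → K[X]) (hF : ∀ r ≤ S, (X - C x) ∣ F r) :
    (X - C x) ^ (S + 1) ∣ ∑ k ∈ range (S + 1), (C x - X) ^ (S - k) *
      ∑ r ∈ Icc k S, hasseDeriv (r - k) (F r) := by
  have h1 : ∑ k ∈ range (S + 1), (C x - X) ^ (S - k) * ∑ r ∈ Icc k S, hasseDeriv (r - k) (F r) =
      ∑ r ∈ range (S + 1), (C x - X) ^ (S - r) * ∑ m ∈ range (r + 1),
        (C x - X) ^ m * hasseDeriv m (F r) := by
    simp only [Finset.mul_sum]
    have h2 : ∀ r ∈ range (S + 1), ∑ m ∈ range (r + 1), (C x - X) ^ (S - r) *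
          ((C x - X) ^ m * hasseDeriv m (F r)) =
        ∑ k ∈ range (r + 1), (C x - X) ^ (S - k) * hasseDeriv (r - k) (F r) := by
      intro r hr
      rw [mem_range] at hr
      rw [← Finset.sum_range_reflect]
      refine Finset.sum_congr rfl fun k hk => ?_
      rw [mem_range] at hk
      rw [← mul_assoc, ← pow_add]
      congr 2
      omega
    rw [Finset.sum_congr rfl h2]
    refine Finset.sum_comm' ?_
    intro k r
    simp only [mem_range, mem_Icc]
    omega
  rw [h1]
  refine Finset.dvd_sum fun r hr => ?_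
  rw [mem_range] at hr
  obtain ⟨H, hH⟩ := hF r (by omega)
  rw [hH, MOD_telescope, mul_neg, ← mul_assoc, ← pow_add, ← mul_neg]
  refine Dvd.dvd.mul_right ?_ _
  rw [show S - r + (r + 1) = S + 1 by omega]
  have h3 : (C x - X : K[X]) = -1 * (X - C x) := by ring
  rw [h3, mul_pow]
  exact Dvd.intro_left _ rfl

/-- shifted form: `t0 + j` is a root of every `F r` -/
theorem MOD_sum_dvd_shift (t0 j : K) (S : ℕ) (F : ℕ → K[X])
    (hF : ∀ r ≤ S, (X - C (t0 + j)) ∣ F r) :
    (X - C t0) ^ (S + 1) ∣ ∑ k ∈ range (S + 1), (C t0 - X) ^ (S - k) *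
      (∑ r ∈ Icc k S, hasseDeriv (r - k) (F r)).comp (X + C j) := by
  obtain ⟨G, hG⟩ := MOD_sum_dvd (t0 + j) S F hF
  refine ⟨G.comp (X + C j), ?_⟩
  have h1 := congrArg (compRingHom (X + C j)) hG
  simp only [map_sum, map_mul, map_pow, map_sub, coe_compRingHom_apply, C_comp, X_comp] at h1
  have e1 : (C (t0 + j) - (X + C j) : K[X]) = C t0 - X := by rw [C_add]; ring
  have e2 : (X + C j - C (t0 + j) : K[X]) = X - C t0 := by rw [C_add]; ring
  rw [e1, e2] at h1
  rw [← h1]
  refine Finset.sum_congr rfl fun k _ => ?_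
  rw [← coe_compRingHom_apply, map_sum]
  simp only [coe_compRingHom_apply]

end telescoping

end Pool.Agent.SI
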