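import Pool.Agent.SI.Defs

/-!
# SI, near nodes: the power series `(u + s X)⁻¹ ^ (κ + 1)`
-/

namespace Pool.Agent.SI

open Finset Pool.Agent.ZC

theorem nr_inv (u s : ℝ) (hu : u ≠ 0) :
    (PowerSeries.C u + PowerSeries.C s * PowerSeries.X)⁻¹ =
      PowerSeries.C u⁻¹ * PowerSeries.rescale (-s / u) (PowerSeries.mk 1) := by
  symm
  rw [PowerSeries.eq_inv_iff_mul_eq_one (by simpa using hu)]
  have h1 : (PowerSeries.C u + PowerSeries.C s * PowerSeries.X : PowerSeries ℝ) =
      PowerSeries.C u * PowerSeries.rescale (-s / u) (1 - PowerSeries.X) := by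
    rw [map_sub, map_one, PowerSeries.rescale_X, mul_sub, mul_one, ← mul_assoc, ← map_mul]
    rw [show u * (-s / u) = -s by field_simp]
    rw [map_neg]; ring
  have h2 : (PowerSeries.mk 1 : PowerSeries ℝ) * (1 - PowerSeries.X) = 1 :=
    PowerSeries.mk_one_mul_one_sub_eq_one ℝ
  rw [h1]
  calc _ = PowerSeries.C (u⁻¹ * u) *
      PowerSeries.rescale (-s / u) ((PowerSeries.mk 1 : PowerSeries ℝ) * (1 - PowerSeries.X)) := by
        rw [map_mul, map_mul]; ring
    _ = 1 := by rw [h2, inv_mul_cancel₀ hu, map_one, map_one, mul_one]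

/-- coefficients of `(u + s X)⁻¹ ^ (κ + 1)` -/
theorem nr_coeff (u s : ℝ) (hu : u ≠ 0) (κ m : ℕ) :
    PowerSeries.coeff m ((PowerSeries.C u + PowerSeries.C s * PowerSeries.X)⁻¹ ^ (κ + 1)) =
      ((κ + m).choose m : ℝ) * (-s) ^ m / u ^ (κ + 1 + m) := by
  rw [nr_inv u s hu, mul_pow, ← map_pow, ← map_pow, PowerSeries.mk_one_pow_eq_mk_choose_add,
    PowerSeries.coeff_C_mul, PowerSeries.coeff_rescale, PowerSeries.coeff_mk, Nat.choose_symm_add,
    div_pow, inv_pow, pow_add u (κ + 1) m]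
  field_simp

theorem nr_choose (κ m r : ℕ) : (((m + r).choose r : ℕ) : ℝ) * ((κ + (m + r)).choose (m + r) : ℝ) =
    ((κ + r).choose r : ℝ) * ((κ + r + m).choose m : ℝ) := by
  have h1 := Nat.add_choose_mul_factorial_mul_factorial m r
  have h2 := Nat.add_choose_mul_factorial_mul_factorial κ (m + r)
  have h3 := Nat.add_choose_mul_factorial_mul_factorial κ r
  have h4 := Nat.add_choose_mul_factorial_mul_factorial (κ + r) m
  have e1 : (κ + (m + r)).factorial = (κ + r + m).factorial := by congr 1; omega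
  have h5 : ((m + r).choose r * (κ + (m + r)).choose (m + r)) * (κ.factorial * m.factorial * r.factorial) =
      ((κ + r).choose r * (κ + r + m).choose m) * (κ.factorial * m.factorial * r.factorial) := by
    calc _ = (κ + (m + r)).choose (m + r) * κ.factorial * ((m + r).choose r * m.factorial * r.factorial) := by ring
      _ = (κ + r + m).factorial := by rw [h1, h2, e1]
      _ = (κ + r + m).choose m * ((κ + r).choose r * κ.factorial * r.factorial) * m.factorial := by rw [h3, h4]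
      _ = _ := by ring
  have h6 := Nat.eq_of_mul_eq_mul_right (by positivity) h5
  exact_mod_cast h6

/-- Hasse derivatives of `(u + s X)⁻¹ ^ (κ + 1)` -/
theorem nr_hs (u s : ℝ) (hu : u ≠ 0) (κ r : ℕ) :
    hs ℝ r ((PowerSeries.C u + PowerSeries.C s * PowerSeries.X)⁻¹ ^ (κ + 1)) =
      PowerSeries.C (((κ + r).choose r : ℝ) * (-s) ^ r) *
        (PowerSeries.C u + PowerSeries.C s * PowerSeries.X)⁻¹ ^ (κ + r + 1) := by
  ext m
  rw [hs, PowerSeries.coeff_mk, nr_coeff u s hu, PowerSeries.coeff_C_mul, nr_coeff u s hu]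
  have h1 := nr_choose κ m r
  have e1 : κ + 1 + (m + r) = κ + r + 1 + m := by omega
  rw [e1]
  calc _ = (((m + r).choose r : ℕ) : ℝ) * ((κ + (m + r)).choose (m + r) : ℝ) * (-s) ^ (m + r) /
        u ^ (κ + r + 1 + m) := by ring
    _ = _ := by rw [h1, pow_add]; ring

/-- expansion around another centre -/
theorem nr_hasSum (u s δ : ℝ) (hu : u ≠ 0) (hδ : |δ| < |u|) (m : ℕ) :
    HasSum (fun κ : ℕ => δ ^ κ * PowerSeries.coeff m
        ((PowerSeries.C u + PowerSeries.C s * PowerSeries.X)⁻¹ ^ (κ + 1)))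
      (PowerSeries.coeff m (PowerSeries.C (u - δ) + PowerSeries.C s * PowerSeries.X)⁻¹) := by
  have h0 : u - δ ≠ 0 := by
    intro h
    rw [show u = δ by linarith] at hδ
    exact lt_irrefl _ hδ
  have h1 : |δ / u| < 1 := by
    rw [abs_div, div_lt_one (abs_pos.2 hu)]; exact hδ
  have h2 := (hasSum_choose_mul_geometric_of_norm_lt_one m (r := δ / u) (by rwa [Real.norm_eq_abs])).mul_left
    ((-s) ^ m / u ^ (m + 1))
  have h3 : PowerSeries.coeff m (PowerSeries.C (u - δ) + PowerSeries.C s * PowerSeries.X)⁻¹ =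
      (-s) ^ m / u ^ (m + 1) * (1 / (1 - δ / u) ^ (m + 1)) := by
    have := nr_coeff (u - δ) s h0 0 m
    rw [zero_add, pow_one, zero_add, Nat.choose_self, Nat.cast_one, one_mul] at this
    rw [this, show 1 + m = m + 1 by omega, div_mul_div_comm, mul_one, ← mul_pow]
    congr 2
    field_simp
  rw [h3]
  have h4 : (fun κ : ℕ => δ ^ κ * PowerSeries.coeff m
        ((PowerSeries.C u + PowerSeries.C s * PowerSeries.X)⁻¹ ^ (κ + 1))) =
      fun κ : ℕ => (-s) ^ m / u ^ (m + 1) * (((κ + m).choose m : ℝ) * (δ / u) ^ κ) := by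
    funext κ
    rw [nr_coeff u s hu, div_pow, show κ + 1 + m = m + 1 + κ by omega, pow_add u (m + 1) κ]
    field_simp
  rw [h4]
  exact h2

end Pool.Agent.SI
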