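import Pool.Agent.SI.NRA

/-!
# SI, near nodes: expansion of one node around the centre `c`
-/

namespace Pool.Agent.SI

open Finset Pool.Agent.ZC

/-- vectors of the near families: centre `c`, distance `e`, level `k` -/
noncomputable def unear (p k l : ℕ) (c e : ℝ) (κ : ℕ) : PowerSeries ℝ :=
  PowerSeries.C (e ^ (κ + 1)) * (PowerSeries.X ^ k *
    ((PowerSeries.C c - hl ℝ p l)⁻¹ ^ (κ + 1) +
      PowerSeries.C ((-1 : ℝ) ^ k) * (PowerSeries.C c + hl ℝ p l)⁻¹ ^ (κ + 1)))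

/-- coefficient of `unear` in the expansion of the node `w = N` with value `F0` -/
noncomputable def cnode (k r : ℕ) (c e N F0 : ℝ) (κ : ℕ) : ℝ :=
  if r ≤ κ then 2 * F0 * N ^ ((k + r) % 2) * ((κ.choose r : ℝ) * 2 ^ r) * (c - N) ^ (κ - r) /
    e ^ (κ + 1) else 0

theorem nr_hl_sub (p l : ℕ) (c : ℝ) : (PowerSeries.C c - hl ℝ p l : PowerSeries ℝ) =
    PowerSeries.C (c - (2 * (p : ℝ) - 1 - 2 * l)) + PowerSeries.C (-2 : ℝ) * PowerSeries.X := by
  simp only [hl, map_sub, map_neg]; ring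

theorem nr_hl_add (p l : ℕ) (c : ℝ) : (PowerSeries.C c + hl ℝ p l : PowerSeries ℝ) =
    PowerSeries.C (c + (2 * (p : ℝ) - 1 - 2 * l)) + PowerSeries.C (2 : ℝ) * PowerSeries.X := by
  simp only [hl, map_add]; ring

/-- partial fractions of the kernel -/
theorem nr_kernel (p l σ : ℕ) (hσ : σ ≤ 1) (N : ℝ) (h1 : N - (2 * (p : ℝ) - 1 - 2 * l) ≠ 0)
    (h2 : N + (2 * (p : ℝ) - 1 - 2 * l) ≠ 0) :
    hl ℝ p l ^ σ * (PowerSeries.C (4 * N) * (PowerSeries.C (N ^ 2) - yl ℝ p l)⁻¹) =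
      PowerSeries.C (2 * N ^ σ) * ((PowerSeries.C N - hl ℝ p l)⁻¹ +
        PowerSeries.C ((-1 : ℝ) ^ σ) * (PowerSeries.C N + hl ℝ p l)⁻¹) := by
  have e1 : PowerSeries.constantCoeff (PowerSeries.C N - hl ℝ p l) ≠ 0 := by
    rw [nr_hl_sub]; simpa using h1
  have e2 : PowerSeries.constantCoeff (PowerSeries.C N + hl ℝ p l) ≠ 0 := by
    rw [nr_hl_add]; simpa using h2
  have e3 : (PowerSeries.C (N ^ 2) - yl ℝ p l : PowerSeries ℝ) =
      (PowerSeries.C N - hl ℝ p l) * (PowerSeries.C N + hl ℝ p l) := by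
    rw [yl_eq_hl_sq, map_pow]; ring
  have e4 : (PowerSeries.C (N ^ 2) - yl ℝ p l : PowerSeries ℝ)⁻¹ =
      (PowerSeries.C N - hl ℝ p l)⁻¹ * (PowerSeries.C N + hl ℝ p l)⁻¹ := by
    rw [e3, PowerSeries.mul_inv_rev]; ring
  set A := (PowerSeries.C N - hl ℝ p l)⁻¹ with hA
  set B := (PowerSeries.C N + hl ℝ p l)⁻¹ with hB
  have e5 : A * (PowerSeries.C N - hl ℝ p l) = 1 := PowerSeries.inv_mul_cancel _ e1
  have e6 : B * (PowerSeries.C N + hl ℝ p l) = 1 := PowerSeries.inv_mul_cancel _ e2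
  rw [e4]
  have hc4 : (PowerSeries.C (4 * N) : PowerSeries ℝ) = 4 * PowerSeries.C N := by
    rw [map_mul, map_ofNat]
  have hc2 : (PowerSeries.C (2 : ℝ) : PowerSeries ℝ) = 2 := map_ofNat _ 2
  rw [hc4]
  interval_cases σ
  · rw [pow_zero, pow_zero, pow_zero, mul_one, map_one, hc2]
    linear_combination (2 * B) * e5 + (2 * A) * e6
  · rw [pow_one, pow_one, pow_one, map_neg, map_one, map_mul, hc2]
    linear_combination (-2 * PowerSeries.C N * B) * e5 + (2 * PowerSeries.C N * A) * e6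

theorem nr_hs_add (r : ℕ) (f g : PowerSeries ℝ) : hs ℝ r (f + g) = hs ℝ r f + hs ℝ r g := by
  ext m
  simp only [hs, PowerSeries.coeff_mk, map_add]
  ring

theorem nr_hs_C (r : ℕ) (a : ℝ) (f : PowerSeries ℝ) :
    hs ℝ r (PowerSeries.C a * f) = PowerSeries.C a * hs ℝ r f := by
  ext m
  simp only [hs, PowerSeries.coeff_mk, PowerSeries.coeff_C_mul]
  ring

/-- expansion of one pole -/
theorem nr_pole (u s δ : ℝ) (hu : u ≠ 0) (hδ : |δ| < |u|) (k r m : ℕ) :
    HasSum (fun κ : ℕ => δ ^ κ * (((κ + r).choose r : ℝ) * (-s) ^ r) *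
        PowerSeries.coeff m (PowerSeries.X ^ k *
          (PowerSeries.C u + PowerSeries.C s * PowerSeries.X)⁻¹ ^ (κ + r + 1)))
      (PowerSeries.coeff m (PowerSeries.X ^ k *
        hs ℝ r (PowerSeries.C (u - δ) + PowerSeries.C s * PowerSeries.X)⁻¹)) := by
  have h1 : (fun κ : ℕ => δ ^ κ * (((κ + r).choose r : ℝ) * (-s) ^ r) *
        PowerSeries.coeff m (PowerSeries.X ^ k *
          (PowerSeries.C u + PowerSeries.C s * PowerSeries.X)⁻¹ ^ (κ + r + 1))) =
      fun κ : ℕ => δ ^ κ * PowerSeries.coeff m (PowerSeries.X ^ k *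
        hs ℝ r ((PowerSeries.C u + PowerSeries.C s * PowerSeries.X)⁻¹ ^ (κ + 1))) := by
    funext κ
    rw [nr_hs u s hu, mul_left_comm (PowerSeries.X ^ k), PowerSeries.coeff_C_mul]
    ring
  rw [h1]
  simp only [PowerSeries.coeff_X_pow_mul']
  by_cases hk : k ≤ m
  · simp only [if_pos hk, hs, PowerSeries.coeff_mk]
    have h2 := (nr_hasSum u s δ hu hδ (m - k + r)).mul_left (((m - k + r).choose r : ℕ) : ℝ)
    have h3 : (fun κ : ℕ => δ ^ κ * ((((m - k + r).choose r : ℕ) : ℝ) *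
        PowerSeries.coeff (m - k + r)
          ((PowerSeries.C u + PowerSeries.C s * PowerSeries.X)⁻¹ ^ (κ + 1)))) =
        fun κ : ℕ => (((m - k + r).choose r : ℕ) : ℝ) * (δ ^ κ * PowerSeries.coeff (m - k + r)
          ((PowerSeries.C u + PowerSeries.C s * PowerSeries.X)⁻¹ ^ (κ + 1))) := by
      funext κ; ring
    rw [h3]
    exact h2
  · simp only [if_neg hk, mul_zero]
    exact hasSum_zero

/-- shift of the index -/
theorem nr_shift (r : ℕ) (a : ℕ → ℝ) (x : ℝ) (h : HasSum (fun κ => a (κ + r)) x) :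
    HasSum (fun κ => if r ≤ κ then a κ else 0) x := by
  have h1 : (fun κ => (fun κ => if r ≤ κ then a κ else 0) (κ + r)) = fun κ => a (κ + r) := by
    funext κ
    simp
  have h2 := (hasSum_nat_add_iff (f := fun κ => if r ≤ κ then a κ else 0) r (g := x)).1
    (by simpa using h)
  have h3 : ∑ i ∈ range r, (if r ≤ i then a i else 0) = 0 := by
    refine Finset.sum_eq_zero fun i hi => ?_
    rw [Finset.mem_range] at hi
    rw [if_neg (by omega)]
  rwa [h3, add_zero] at h2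

/-- expansion of one node -/
theorem nr_node (p k r l m : ℕ) (c e N F0 : ℝ) (he : 0 < e)
    (h1 : |c - N| < |c - (2 * (p : ℝ) - 1 - 2 * l)|)
    (h2 : |c - N| < |c + (2 * (p : ℝ) - 1 - 2 * l)|) :
    HasSum (fun κ : ℕ => cnode k r c e N F0 κ * PowerSeries.coeff m (unear p k l c e κ))
      (PowerSeries.coeff m (PowerSeries.X ^ k * hs ℝ r (hl ℝ p l ^ ((k + r) % 2) *
        (PowerSeries.C F0 * (PowerSeries.C (4 * N) *
          (PowerSeries.C (N ^ 2) - yl ℝ p l)⁻¹))))) := by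
  set w : ℝ := 2 * (p : ℝ) - 1 - 2 * l with hw
  have hu1 : c - w ≠ 0 := by
    intro h; rw [h, abs_zero] at h1; exact absurd h1 (not_lt.2 (abs_nonneg _))
  have hu2 : c + w ≠ 0 := by
    intro h; rw [h, abs_zero] at h2; exact absurd h2 (not_lt.2 (abs_nonneg _))
  have hv1 : N - w ≠ 0 := by
    intro h
    rw [show c - N = c - w by linarith] at h1
    exact lt_irrefl _ h1
  have hv2 : N + w ≠ 0 := by
    intro h
    rw [show c - N = c + w by linarith] at h2
    exact lt_irrefl _ h2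
  set σ : ℕ := (k + r) % 2 with hσ
  have hσ1 : σ ≤ 1 := by omega
  have e0 : hl ℝ p l ^ σ * (PowerSeries.C F0 * (PowerSeries.C (4 * N) *
          (PowerSeries.C (N ^ 2) - yl ℝ p l)⁻¹)) =
      PowerSeries.C (F0 * (2 * N ^ σ)) * ((PowerSeries.C N - hl ℝ p l)⁻¹ +
        PowerSeries.C ((-1 : ℝ) ^ σ) * (PowerSeries.C N + hl ℝ p l)⁻¹) := by
    rw [PowerSeries.C.map_mul F0 (2 * N ^ σ), mul_assoc (PowerSeries.C F0),
      ← nr_kernel p l σ hσ1 N hv1 hv2]
    ring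
  rw [e0, nr_hs_C, nr_hs_add, nr_hs_C, mul_left_comm, PowerSeries.coeff_C_mul, mul_add, map_add,
    mul_left_comm (PowerSeries.X ^ k), PowerSeries.coeff_C_mul]
  have p1 := nr_pole (c - w) (-2) (c - N) hu1 h1 k r m
  have p2 := nr_pole (c + w) 2 (c - N) hu2 h2 k r m
  rw [show c - w - (c - N) = N - w by ring, ← nr_hl_sub, ← nr_hl_sub] at p1
  rw [show c + w - (c - N) = N + w by ring, ← nr_hl_add, ← nr_hl_add] at p2
  have p3 := (p1.add (p2.mul_left ((-1 : ℝ) ^ σ))).mul_left (F0 * (2 * N ^ σ))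
  have hpar : ((-1 : ℝ)) ^ σ * (-2) ^ r = 2 ^ r * (-1) ^ k := by
    have q1 : ((-2 : ℝ)) ^ r = 2 ^ r * (-1) ^ r := by
      rw [← mul_pow]; norm_num
    have q2 : ((-1 : ℝ)) ^ σ * (-1) ^ r = (-1) ^ k := by
      rw [hσ, ← pow_add]
      rcases Nat.even_or_odd k with hk | hk
      · rw [hk.neg_one_pow]
        apply Even.neg_one_pow
        rw [Nat.even_iff] at hk ⊢
        omega
      · rw [hk.neg_one_pow]
        apply Odd.neg_one_pow
        rw [Nat.odd_iff] at hk ⊢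
        omega
    rw [q1, mul_left_comm, q2]
  set a : ℕ → ℝ := fun κ => (2 * F0 * N ^ σ * ((κ.choose r : ℝ) * 2 ^ r) *
    (c - N) ^ (κ - r) / e ^ (κ + 1)) * PowerSeries.coeff m (unear p k l c e κ) with ha
  have q3 : (fun κ => a (κ + r)) = fun κ : ℕ => F0 * (2 * N ^ σ) *
      ((c - N) ^ κ * (((κ + r).choose r : ℝ) * (-(-2)) ^ r) *
          PowerSeries.coeff m (PowerSeries.X ^ k * (PowerSeries.C c - hl ℝ p l)⁻¹ ^ (κ + r + 1)) +
        (-1) ^ σ * ((c - N) ^ κ * (((κ + r).choose r : ℝ) * (-2) ^ r) *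
          PowerSeries.coeff m (PowerSeries.X ^ k *
            (PowerSeries.C c + hl ℝ p l)⁻¹ ^ (κ + r + 1)))) := by
    funext κ
    have q4 : ∀ Z : ℝ, (-1 : ℝ) ^ σ * ((c - N) ^ κ * (((κ + r).choose r : ℝ) * (-2) ^ r) * Z) =
        2 ^ r * (-1) ^ k * ((c - N) ^ κ * ((κ + r).choose r : ℝ) * Z) := by
      intro Z
      rw [← hpar]; ring
    rw [q4, ha]
    simp only [unear, Nat.add_sub_cancel, PowerSeries.coeff_C_mul, mul_add, map_add,
      mul_left_comm (PowerSeries.X ^ k), neg_neg]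
    have he' : e ^ (κ + r + 1) ≠ 0 := by positivity
    field_simp
  have p4 := nr_shift r a _ (q3 ▸ p3)
  have q5 : (fun κ : ℕ => cnode k r c e N F0 κ * PowerSeries.coeff m (unear p k l c e κ)) =
      fun κ => if r ≤ κ then a κ else 0 := by
    funext κ
    rw [cnode]
    split_ifs
    · rfl
    · rw [zero_mul]
  rw [q5]
  exact p4

end Pool.Agent.SI
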