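import Pool.Agent.SI.NRB
import Pool.Agent.SI.NR39B

/-!
# SI, near nodes: dyadic blocks
-/

namespace Pool.Agent.SI

open Finset Pool.Agent.ZC

/-- block `τ` of nodes -/
def Zb (p P τ : ℕ) : Finset ℕ := Ico (p + 2 ^ τ * P) (p + 2 ^ (τ + 1) * P)

/-- centre of the block -/
noncomputable def cb (p P τ : ℕ) : ℝ := 2 * (p : ℝ) + 3 * (2 ^ τ * (P : ℝ))

/-- distance of the centre to the poles -/
noncomputable def eb (P τ : ℕ) : ℝ := 3 * (2 ^ τ * (P : ℝ))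

/-- coefficients of the near families -/
noncomputable def lamN (p P k r τ : ℕ) (f : Polynomial ℝ) (κ : ℕ) : ℝ :=
  ∑ ν ∈ Zb p P τ, cnode k r (cb p P τ) (eb P τ) (2 * (ν : ℝ)) (f.eval ((2 * (ν : ℝ)) ^ 2)) κ

/-- vectors of the near families -/
noncomputable def uN (p P k l τ κ : ℕ) : PowerSeries ℝ := unear p k l (cb p P τ) (eb P τ) κ

theorem nr_cover (p P L : ℕ) (g : ℕ → ℝ) :
    ∑ ν ∈ Ico p (p + 2 ^ L * P), g ν =
      ∑ ν ∈ Ico p (p + P), g ν + ∑ τ ∈ range L, ∑ ν ∈ Zb p P τ, g ν := by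
  induction L with
  | zero => simp
  | succ L ih =>
    rw [sum_range_succ, ← add_assoc, ← ih, Zb]
    refine (Finset.sum_Ico_consecutive g ?_ ?_).symm
    · exact Nat.le_add_right _ _
    · exact Nat.add_le_add_left (Nat.mul_le_mul_right _ (Nat.pow_le_pow_right (by norm_num)
        (Nat.le_succ L))) _

theorem nr_dist (p P τ : ℕ) (hP : 1 ≤ P) (l : ℕ) (hlp : l < p) :
    eb P τ ≤ |cb p P τ - (2 * (p : ℝ) - 1 - 2 * l)| ∧
    eb P τ ≤ |cb p P τ + (2 * (p : ℝ) - 1 - 2 * l)| := by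
  have hl' : ((l : ℝ) + 1) ≤ p := by exact_mod_cast hlp
  have hl0 : (0 : ℝ) ≤ l := Nat.cast_nonneg l
  have h0 : (0 : ℝ) ≤ 2 ^ τ * (P : ℝ) := by positivity
  constructor
  · refine le_trans ?_ (le_abs_self _)
    rw [cb, eb]; linarith
  · refine le_trans ?_ (le_abs_self _)
    rw [cb, eb]; linarith

theorem nr_radius (p P τ ν : ℕ) (hν : ν ∈ Zb p P τ) : |cb p P τ - 2 * (ν : ℝ)| ≤ eb P τ / 3 := by
  rw [Zb, Finset.mem_Ico] at hν
  have h1 : (p : ℝ) + 2 ^ τ * P ≤ ν := by exact_mod_cast hν.1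
  have h2 : (ν : ℝ) ≤ p + 2 ^ (τ + 1) * P := by exact_mod_cast hν.2.le
  rw [pow_succ] at h2
  rw [cb, eb, abs_le]
  constructor <;> linarith

theorem nr_eb_pos (P τ : ℕ) (hP : 1 ≤ P) : 0 < eb P τ := by
  have : (0 : ℝ) < P := by exact_mod_cast hP
  rw [eb]; positivity

/-- expansion of a block -/
theorem nr_block (p P k r l m τ : ℕ) (hP : 1 ≤ P) (hlp : l < p) (f : Polynomial ℝ) :
    HasSum (fun κ : ℕ => lamN p P k r τ f κ * PowerSeries.coeff m (uN p P k l τ κ))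
      (∑ ν ∈ Zb p P τ, PowerSeries.coeff m (PowerSeries.X ^ k *
            hs ℝ r (hl ℝ p l ^ ((k + r) % 2) *
              (PowerSeries.C (f.eval ((2 * (ν : ℝ)) ^ 2)) * (PowerSeries.C (4 * (2 * (ν : ℝ))) *
                (PowerSeries.C ((2 * (ν : ℝ)) ^ 2) - yl ℝ p l)⁻¹))))) := by
  have h0 := nr_eb_pos P τ hP
  obtain ⟨d1, d2⟩ := nr_dist p P τ hP l hlp
  have h1 := hasSum_sum (f := fun (ν : ℕ) (κ : ℕ) =>
    cnode k r (cb p P τ) (eb P τ) (2 * (ν : ℝ)) (f.eval ((2 * (ν : ℝ)) ^ 2)) κ *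
      PowerSeries.coeff m (unear p k l (cb p P τ) (eb P τ) κ)) (s := Zb p P τ)
    (fun ν hν => nr_node p k r l m (cb p P τ) (eb P τ) (2 * (ν : ℝ)) (f.eval ((2 * (ν : ℝ)) ^ 2))
      h0 (by have := nr_radius p P τ ν hν; linarith) (by have := nr_radius p P τ ν hν; linarith))
  have h2 : (fun κ : ℕ => lamN p P k r τ f κ * PowerSeries.coeff m (uN p P k l τ κ)) =
      fun κ : ℕ => ∑ ν ∈ Zb p P τ,
        cnode k r (cb p P τ) (eb P τ) (2 * (ν : ℝ)) (f.eval ((2 * (ν : ℝ)) ^ 2)) κ *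
          PowerSeries.coeff m (unear p k l (cb p P τ) (eb P τ) κ) := by
    funext κ
    rw [lamN, uN, Finset.sum_mul]
  rw [h2]
  exact h1

/-- expansion of the `F` rows of level `k` and order `r`, near families and far family -/
theorem si_level_blocks (p P L n T S k r : ℕ) (hp : 1 ≤ p) (hP : 1 ≤ P) (hr : r ≤ S)
    (f : Polynomial ℝ) (hf : f ∈ Polynomial.degreeLT ℝ n)
    (hz : ∀ ν : ℕ, ν < p + P → f.eval ((2 * (ν : ℝ)) ^ 2) = 0) :
    ∃ Q ∈ Polynomial.degreeLT ℝ n, ∀ l < p, ∀ m, m + S < T → ∃ x : ℕ → ℝ,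
      (∀ τ < L, HasSum (fun κ : ℕ => lamN p P k r τ f κ *
        PowerSeries.coeff m (uN p P k l τ κ)) (x τ)) ∧
      HasSum (fun κ : ℕ => lam (p + 2 ^ L * P) n k r f κ *
        PowerSeries.coeff m (uvec p n k l κ)) (x L) ∧
      ∑ τ ∈ range (L + 1), x τ = PowerSeries.coeff m (PowerSeries.X ^ k *
          hs ℝ r (hl ℝ p l ^ ((k + r) % 2) * ev ℝ p l f * Gh ℝ p l T zr)) -
          PowerSeries.coeff m (PowerSeries.X ^ k * (hl ℝ p l ^ (k % 2) * ev ℝ p l Q)) := by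
  have hq : p < p + 2 ^ L * P := by
    have : 0 < 2 ^ L * P := by positivity
    omega
  obtain ⟨Q, hQ, h1⟩ := si_level' p (p + 2 ^ L * P) n T S k r hp hq hr f hf
  refine ⟨Q, hQ, fun l hlp m hm => ?_⟩
  have h2 := h1 l hlp m hm
  set g : ℕ → ℝ := fun ν => PowerSeries.coeff m (PowerSeries.X ^ k *
            hs ℝ r (hl ℝ p l ^ ((k + r) % 2) *
              (PowerSeries.C (f.eval ((2 * (ν : ℝ)) ^ 2)) * (PowerSeries.C (4 * (2 * (ν : ℝ))) *
                (PowerSeries.C ((2 * (ν : ℝ)) ^ 2) - yl ℝ p l)⁻¹)))) with hg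
  have hg0 : ∀ ν ∈ Ico p (p + P), g ν = 0 := by
    intro ν hν
    rw [Finset.mem_Ico] at hν
    rw [hg]
    simp only [hz ν hν.2, map_zero, zero_mul, mul_zero]
    have : hs ℝ r (0 : PowerSeries ℝ) = 0 := by
      ext j; simp [hs]
    rw [this, mul_zero, map_zero]
  refine ⟨fun τ => if τ < L then ∑ ν ∈ Zb p P τ, g ν else
    (PowerSeries.coeff m (PowerSeries.X ^ k *
          hs ℝ r (hl ℝ p l ^ ((k + r) % 2) * ev ℝ p l f * Gh ℝ p l T zr)) -
          PowerSeries.coeff m (PowerSeries.X ^ k * (hl ℝ p l ^ (k % 2) * ev ℝ p l Q)) -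
          ∑ ν ∈ Finset.Ico p (p + 2 ^ L * P), g ν), ?_, ?_, ?_⟩
  · intro τ hτ
    simp only [if_pos hτ]
    exact nr_block p P k r l m τ hP hlp f
  · simp only [if_neg (lt_irrefl L)]
    exact h2
  · rw [sum_range_succ, if_neg (lt_irrefl L)]
    have h3 : ∑ τ ∈ range L, (if τ < L then ∑ ν ∈ Zb p P τ, g ν else
      (PowerSeries.coeff m (PowerSeries.X ^ k *
          hs ℝ r (hl ℝ p l ^ ((k + r) % 2) * ev ℝ p l f * Gh ℝ p l T zr)) -
          PowerSeries.coeff m (PowerSeries.X ^ k * (hl ℝ p l ^ (k % 2) * ev ℝ p l Q)) -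
          ∑ ν ∈ Finset.Ico p (p + 2 ^ L * P), g ν)) = ∑ τ ∈ range L, ∑ ν ∈ Zb p P τ, g ν := by
      refine Finset.sum_congr rfl fun τ hτ => ?_
      rw [Finset.mem_range] at hτ
      rw [if_pos hτ]
    rw [h3, nr_cover, Finset.sum_eq_zero hg0, zero_add]
    ring

end Pool.Agent.SI
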