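import Pool.Agent.SI.NRC

/-!
# SI, near nodes: all families in one sequence
-/

namespace Pool.Agent.SI

open Finset Pool.Agent.ZC

theorem nr_families (B : ℕ) (hB : 0 < B) (g : ℕ → ℕ → ℝ) (x : ℕ → ℝ)
    (h : ∀ b < B, HasSum (fun κ => g κ b) (x b)) :
    HasSum (fun N => g (N / B) (N % B)) (∑ b ∈ range B, x b) := by
  have : NeZero B := ⟨hB.ne'⟩
  have h1 : ∀ b : Fin B, HasSum (fun y : ℕ × Fin B => if y.2 = b then g y.1 (b : ℕ) else 0)
      (x b) := by
    intro b
    have h2 : Function.Injective (fun κ : ℕ => ((κ, b) : ℕ × Fin B)) := by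
      intro u v huv
      exact congrArg Prod.fst huv
    refine (h2.hasSum_iff ?_).1 ?_
    · rintro ⟨κ, b'⟩ hx
      rw [if_neg]
      rintro rfl
      exact hx ⟨κ, rfl⟩
    · have h3 : ((fun y : ℕ × Fin B => if y.2 = b then g y.1 (b : ℕ) else 0) ∘
          fun κ : ℕ => ((κ, b) : ℕ × Fin B)) = fun κ => g κ b := by
        funext κ
        simp
      rw [h3]
      exact h b b.2
  have h4 := hasSum_sum (f := fun (b : Fin B) (y : ℕ × Fin B) =>
    if y.2 = b then g y.1 (b : ℕ) else 0) (s := univ) (fun b _ => h1 b)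
  have h5 : (fun y : ℕ × Fin B => ∑ b : Fin B, if y.2 = b then g y.1 (b : ℕ) else 0) =
      fun y => g y.1 (y.2 : ℕ) := by
    funext y
    rw [Finset.sum_ite_eq]
    simp
  rw [h5, Finset.sum_fin_eq_sum_range] at h4
  have h6 : ∑ i ∈ range B, (if hi : i < B then x ((⟨i, hi⟩ : Fin B) : ℕ) else 0) =
      ∑ b ∈ range B, x b := by
    refine Finset.sum_congr rfl fun i hi => ?_
    rw [Finset.mem_range] at hi
    rw [dif_pos hi]
  rw [h6] at h4
  have h7 := ((Nat.divModEquiv B).hasSum_iff (f := fun y : ℕ × Fin B => g y.1 (y.2 : ℕ))).2 h4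
  have h8 : ((fun y : ℕ × Fin B => g y.1 (y.2 : ℕ)) ∘ (Nat.divModEquiv B)) =
      fun N => g (N / B) (N % B) := by
    funext N
    simp [Nat.divModEquiv, Fin.val_natCast]
  rwa [h8] at h7

theorem nr_sum_divMod (K B : ℕ) (hB : 0 < B) (F : ℕ → ℕ → ℝ) :
    ∑ b ∈ range (K * B), F (b / B) (b % B) = ∑ k ∈ range K, ∑ τ ∈ range B, F k τ := by
  induction K with
  | zero => simp
  | succ K ih =>
    rw [Nat.succ_mul, Finset.sum_range_add, ih, Finset.sum_range_succ]
    congr 1
    refine Finset.sum_congr rfl fun τ hτ => ?_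
    rw [Finset.mem_range] at hτ
    have e1 : (K * B + τ) / B = K := by
      rw [mul_comm, Nat.mul_add_div hB, Nat.div_eq_of_lt hτ, add_zero]
    have e2 : (K * B + τ) % B = τ := by
      rw [mul_comm, Nat.mul_add_mod, Nat.mod_eq_of_lt hτ]
    rw [e1, e2]

/-- vectors, all levels `k ≤ k0` and all families `τ ≤ L`; `b = k (L+1) + τ`,
`N = κ (k0+1) (L+1) + b` -/
noncomputable def uB (p P n L l κ b : ℕ) : PowerSeries ℝ :=
  if b % (L + 1) < L then uN p P (b / (L + 1)) l (b % (L + 1)) κ else uvec p n (b / (L + 1)) l κ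

/-- coefficients -/
noncomputable def lamB (p P n L k r : ℕ) (f : Polynomial ℝ) (κ b : ℕ) : ℝ :=
  if b / (L + 1) = k then
    (if b % (L + 1) < L then lamN p P k r (b % (L + 1)) f κ else lam (p + 2 ^ L * P) n k r f κ)
  else 0

/-- expansion of the `F` rows in one sequence -/
theorem si_rowA (p P L n T S k0 k r : ℕ) (hp : 1 ≤ p) (hP : 1 ≤ P) (hr : r ≤ S) (hk : k ≤ k0)
    (f : Polynomial ℝ) (hf : f ∈ Polynomial.degreeLT ℝ n)
    (hz : ∀ ν : ℕ, ν < p + P → f.eval ((2 * (ν : ℝ)) ^ 2) = 0) :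
    ∃ Q ∈ Polynomial.degreeLT ℝ n, ∀ l < p, ∀ m, m + S < T →
      HasSum (fun N : ℕ => lamB p P n L k r f (N / ((k0 + 1) * (L + 1))) (N % ((k0 + 1) * (L + 1))) *
        PowerSeries.coeff m
          (uB p P n L l (N / ((k0 + 1) * (L + 1))) (N % ((k0 + 1) * (L + 1)))))
        (PowerSeries.coeff m (PowerSeries.X ^ k *
          hs ℝ r (hl ℝ p l ^ ((k + r) % 2) * ev ℝ p l f * Gh ℝ p l T zr)) -
          PowerSeries.coeff m (PowerSeries.X ^ k * (hl ℝ p l ^ (k % 2) * ev ℝ p l Q))) := by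
  obtain ⟨Q, hQ, h1⟩ := si_level_blocks p P L n T S k r hp hP hr f hf hz
  refine ⟨Q, hQ, fun l hlp m hm => ?_⟩
  obtain ⟨x, h2, h3, h4⟩ := h1 l hlp m hm
  have hL : 0 < L + 1 := Nat.succ_pos L
  have hB : 0 < (k0 + 1) * (L + 1) := by positivity
  have h5 := nr_families ((k0 + 1) * (L + 1)) hB
    (fun κ b => lamB p P n L k r f κ b * PowerSeries.coeff m (uB p P n L l κ b))
    (fun b => if b / (L + 1) = k then x (b % (L + 1)) else 0) (by
      intro b hb
      simp only [lamB, uB]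
      by_cases hbk : b / (L + 1) = k
      · simp only [if_pos hbk]
        have hlt : b % (L + 1) < L + 1 := Nat.mod_lt _ hL
        by_cases hbl : b % (L + 1) < L
        · simp only [if_pos hbl, hbk]
          exact h2 _ hbl
        · simp only [if_neg hbl, hbk]
          have : b % (L + 1) = L := by omega
          rw [this]
          exact h3
      · simp only [if_neg hbk, zero_mul]
        exact hasSum_zero)
  have h6 : ∑ b ∈ range ((k0 + 1) * (L + 1)), (if b / (L + 1) = k then x (b % (L + 1)) else 0) =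
      ∑ τ ∈ range (L + 1), x τ := by
    rw [nr_sum_divMod (k0 + 1) (L + 1) hL (fun u v => if u = k then x v else 0)]
    rw [Finset.sum_eq_single k]
    · simp
    · intro b _ hb
      exact Finset.sum_eq_zero fun _ _ => if_neg hb
    · intro hk'
      exact absurd (Finset.mem_range.2 (by omega)) hk'
  rw [h6, h4] at h5
  exact h5

end Pool.Agent.SI
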