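import Pool.Agent.SI.NRC
import Pool.Agent.ZC.BDG

/-!
# SI, near nodes: bounds for the near blocks
-/

namespace Pool.Agent.SI

open Finset Filter Pool.Agent.ZC

open scoped Topology

theorem nr_am_eval (M q : ℕ) (Y : ℝ) : (Am ℝ M q).eval Y =
    (2 : ℝ) ^ (2 * q - 1) * ((bf M (2 * q - 1) : ℕ) : ℝ)⁻¹ *
      ∏ μ ∈ range q, (Y - (2 * (μ : ℝ)) ^ 2) := by
  rw [Am, Ap, Polynomial.eval_mul, Polynomial.eval_C, Polynomial.eval_prod]
  simp

/-- value of the multiplier at a node `s ≥ 2 q` -/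
theorem nr_eval (M q j : ℕ) (hM : 0 < M) (hq : 0 < q) (s : ℝ) (hs : 2 * (q : ℝ) ≤ s)
    (hj : 2 * (j : ℝ) ≤ s) :
    |(Am ℝ M q * Cn ℝ M j).eval (s ^ 2)| ≤
      (2 * s * Real.exp 1 / M) ^ (2 * q - 1) * s * (s * Real.exp 1 / (2 * M)) ^ (2 * j) *
        Real.exp (2 * M) := by
  have hMR : (0 : ℝ) < M := by exact_mod_cast hM
  have hqR : (0 : ℝ) < q := by exact_mod_cast hq
  have hs0 : 0 < s := by linarith
  -- first factor
  have hA : |(Am ℝ M q).eval (s ^ 2)| ≤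
      (2 * s * Real.exp 1 / M) ^ (2 * q - 1) * s * Real.exp M := by
    have hb : (0 : ℝ) < ((bf M (2 * q - 1) : ℕ) : ℝ) := by exact_mod_cast bf_pos _ _
    rw [nr_am_eval, abs_mul, abs_of_pos (by positivity : (0 : ℝ) <
      (2 : ℝ) ^ (2 * q - 1) * ((bf M (2 * q - 1) : ℕ) : ℝ)⁻¹), abs_prod]
    have h1 : ∏ μ ∈ range q, |s ^ 2 - (2 * (μ : ℝ)) ^ 2| ≤ s ^ (2 * q - 1) * s := by
      have h3 : ∏ μ ∈ range q, (s ^ 2) = s ^ (2 * q - 1) * s := by
        rw [prod_const, card_range, ← pow_mul, ← pow_succ]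
        congr 1
        omega
      rw [← h3]
      apply prod_le_prod (fun _ _ => abs_nonneg _)
      intro μ hμ
      have hμ1 : (μ : ℝ) ≤ q := by exact_mod_cast (mem_range.1 hμ).le
      have hμ2 : (2 * (μ : ℝ)) ^ 2 ≤ s ^ 2 := pow_le_pow_left₀ (by positivity) (by linarith) 2
      rw [abs_of_nonneg (by linarith)]
      have : 0 ≤ (2 * (μ : ℝ)) ^ 2 := by positivity
      linarith
    have h2 := le_bf hM (2 * q - 1)
    have h4 : ((bf M (2 * q - 1) : ℕ) : ℝ)⁻¹ * (M : ℝ) ^ (2 * q - 1) ≤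
        (Real.exp 1) ^ (2 * q - 1) * Real.exp M := by
      rw [inv_mul_le_iff₀ hb]
      have e1 : Real.exp (-((2 * q - 1 + M : ℕ) : ℝ)) * ((Real.exp 1) ^ (2 * q - 1) *
          Real.exp M) = 1 := by
        rw [← Real.exp_nat_mul, ← Real.exp_add, ← Real.exp_add]
        have e0 : -((2 * q - 1 + M : ℕ) : ℝ) + (((2 * q - 1 : ℕ) : ℝ) * 1 + M) = 0 := by
          rw [Nat.cast_add]; ring
        rw [e0, Real.exp_zero]
      calc (M : ℝ) ^ (2 * q - 1) = (M : ℝ) ^ (2 * q - 1) * Real.exp (-((2 * q - 1 + M : ℕ) : ℝ)) *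
            ((Real.exp 1) ^ (2 * q - 1) * Real.exp M) := by rw [mul_assoc, e1, mul_one]
        _ ≤ _ := mul_le_mul_of_nonneg_right h2 (by positivity)
    calc (2 : ℝ) ^ (2 * q - 1) * ((bf M (2 * q - 1) : ℕ) : ℝ)⁻¹ *
          ∏ μ ∈ range q, |s ^ 2 - (2 * (μ : ℝ)) ^ 2|
        ≤ (2 : ℝ) ^ (2 * q - 1) * ((bf M (2 * q - 1) : ℕ) : ℝ)⁻¹ * (s ^ (2 * q - 1) * s) :=
          mul_le_mul_of_nonneg_left h1 (by positivity)
      _ = (((bf M (2 * q - 1) : ℕ) : ℝ)⁻¹ * (M : ℝ) ^ (2 * q - 1)) *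
          ((2 * s / M) ^ (2 * q - 1) * s) := by
          rw [div_pow, mul_pow]
          field_simp
      _ ≤ ((Real.exp 1) ^ (2 * q - 1) * Real.exp M) * ((2 * s / M) ^ (2 * q - 1) * s) :=
          mul_le_mul_of_nonneg_right h4 (by positivity)
      _ = _ := by
          rw [div_pow, div_pow, mul_pow (2 * s)]
          ring
  -- second factor
  have hC : |(Cn ℝ M j).eval (s ^ 2)| ≤
      (s * Real.exp 1 / (2 * M)) ^ (2 * j) * Real.exp M := by
    rw [cn_eval, abs_mul, abs_inv, abs_of_nonneg (Nat.cast_nonneg _), abs_prod]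
    have h1 : (∏ k ∈ range j, |s ^ 2 - (2 * (k : ℝ) + 1) ^ 2|) ≤ (s ^ 2) ^ j := by
      have h3 : ∏ k ∈ range j, (s ^ 2) = (s ^ 2) ^ j := by simp
      rw [← h3]
      apply prod_le_prod (fun _ _ => abs_nonneg _)
      intro k hk
      have hk1 : 2 * k + 1 ≤ 2 * j := by
        have := mem_range.1 hk
        omega
      have hk2 : 2 * (k : ℝ) + 1 ≤ 2 * j := by exact_mod_cast hk1
      have hk3 : (2 * (k : ℝ) + 1) ^ 2 ≤ s ^ 2 :=
        pow_le_pow_left₀ (by positivity) (by linarith) 2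
      rw [abs_of_nonneg (by linarith)]
      have : 0 ≤ (2 * (k : ℝ) + 1) ^ 2 := by positivity
      linarith
    refine (mul_le_mul_of_nonneg_left h1 (by positivity)).trans ?_
    refine (div_bf_le hM j s).trans (le_of_eq ?_)
    rw [← pow_mul]
  rw [Polynomial.eval_mul, abs_mul]
  have hexp : Real.exp (2 * (M : ℝ)) = Real.exp M * Real.exp M := by
    rw [← Real.exp_add]; ring_nf
  calc |(Am ℝ M q).eval (s ^ 2)| * |(Cn ℝ M j).eval (s ^ 2)|
      ≤ ((2 * s * Real.exp 1 / M) ^ (2 * q - 1) * s * Real.exp M) *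
        ((s * Real.exp 1 / (2 * M)) ^ (2 * j) * Real.exp M) :=
        mul_le_mul hA hC (abs_nonneg _) (by positivity)
    _ = _ := by rw [hexp]; ring

/-- polynomial factors against the geometric ones -/
theorem nr_poly (S a : ℕ) : ∃ K : ℝ, 0 < K ∧ ∀ κ r m : ℕ, r ≤ S → m ≤ a →
    (κ.choose r : ℝ) * ((κ + m).choose m : ℝ) * (1 / 3) ^ κ ≤ K * (1 / 2) ^ κ := by
  have h0 := tendsto_pow_const_mul_const_pow_of_abs_lt_one (S + a) (r := (2 / 3 : ℝ))
    (by rw [abs_of_pos (by norm_num)]; norm_num)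
  obtain ⟨B, hB⟩ := h0.bddAbove_range
  have hB' : ∀ n : ℕ, (n : ℝ) ^ (S + a) * (2 / 3) ^ n ≤ B := fun n => hB ⟨n, rfl⟩
  refine ⟨(3 / 2) ^ (a + 1) * (|B| + 1), by positivity, fun κ r m hr hm => ?_⟩
  have h1 : (κ.choose r : ℝ) ≤ ((κ + a + 1 : ℕ) : ℝ) ^ S := by
    have e1 : κ.choose r ≤ (κ + a + 1) ^ S := by
      refine (Nat.choose_le_pow κ r).trans ?_
      refine (Nat.pow_le_pow_left (by omega : κ ≤ κ + a + 1) r).trans ?_
      exact Nat.pow_le_pow_right (by omega) hr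
    exact_mod_cast e1
  have h2 : ((κ + m).choose m : ℝ) ≤ ((κ + a + 1 : ℕ) : ℝ) ^ a := by
    have e1 : (κ + m).choose m ≤ (κ + a + 1) ^ a := by
      refine (Nat.choose_le_pow (κ + m) m).trans ?_
      refine (Nat.pow_le_pow_left (by omega : κ + m ≤ κ + a + 1) m).trans ?_
      exact Nat.pow_le_pow_right (by omega) hm
    exact_mod_cast e1
  have h3 := hB' (κ + a + 1)
  have h4 : (κ.choose r : ℝ) * ((κ + m).choose m : ℝ) ≤ ((κ + a + 1 : ℕ) : ℝ) ^ (S + a) := by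
    rw [pow_add]
    exact mul_le_mul h1 h2 (Nat.cast_nonneg _) (by positivity)
  have h5 : ((1 : ℝ) / 3) ^ κ = (3 / 2) ^ (a + 1) * ((2 / 3) ^ (κ + a + 1)) * (1 / 2) ^ κ := by
    have e1 : ((1 : ℝ) / 3) ^ κ = (2 / 3) ^ κ * (1 / 2) ^ κ := by
      rw [← mul_pow]; norm_num
    have e2 : ((2 : ℝ) / 3) ^ (κ + a + 1) = (2 / 3) ^ κ * (2 / 3) ^ (a + 1) := by
      rw [← pow_add]; rfl
    have e3 : ((3 : ℝ) / 2) ^ (a + 1) * (2 / 3) ^ (a + 1) = 1 := by
      rw [← mul_pow]; norm_num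
    rw [e1, e2]
    calc (2 / 3 : ℝ) ^ κ * (1 / 2) ^ κ = (2 / 3 : ℝ) ^ κ * (1 / 2) ^ κ * 1 := by ring
      _ = (2 / 3 : ℝ) ^ κ * (1 / 2) ^ κ * ((3 / 2) ^ (a + 1) * (2 / 3) ^ (a + 1)) := by rw [e3]
      _ = _ := by ring
  calc (κ.choose r : ℝ) * ((κ + m).choose m : ℝ) * (1 / 3) ^ κ
      ≤ ((κ + a + 1 : ℕ) : ℝ) ^ (S + a) * (1 / 3) ^ κ :=
        mul_le_mul_of_nonneg_right h4 (by positivity)
    _ = (3 / 2) ^ (a + 1) * (((κ + a + 1 : ℕ) : ℝ) ^ (S + a) * (2 / 3) ^ (κ + a + 1)) *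
        (1 / 2) ^ κ := by rw [h5]; ring
    _ ≤ (3 / 2) ^ (a + 1) * (|B| + 1) * (1 / 2) ^ κ := by
        have h6 : ((κ + a + 1 : ℕ) : ℝ) ^ (S + a) * (2 / 3) ^ (κ + a + 1) ≤ |B| + 1 := by
          have := le_abs_self B
          linarith
        gcongr

/-- coefficients of the vectors of the near families -/
theorem nr_unear (p k l : ℕ) (c e : ℝ) (he : 1 ≤ e) (h1 : e ≤ c - (2 * (p : ℝ) - 1 - 2 * l))
    (h2 : e ≤ c + (2 * (p : ℝ) - 1 - 2 * l)) (κ m : ℕ) :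
    ∃ m' ≤ m, |PowerSeries.coeff m (unear p k l c e κ)| ≤
      2 ^ (m + 1) * ((κ + m').choose m' : ℝ) := by
  have he0 : 0 < e := by linarith
  rw [unear, PowerSeries.coeff_C_mul, PowerSeries.coeff_X_pow_mul']
  by_cases hk : k ≤ m
  · refine ⟨m - k, by omega, ?_⟩
    rw [if_pos hk, map_add, PowerSeries.coeff_C_mul, nr_hl_sub, nr_hl_add,
      nr_coeff _ _ (by linarith) κ, nr_coeff _ _ (by linarith) κ]
    set m' := m - k with hm'
    set u1 := c - (2 * (p : ℝ) - 1 - 2 * l) with hu1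
    set u2 := c + (2 * (p : ℝ) - 1 - 2 * l) with hu2
    have h2m : (2 : ℝ) ^ m' ≤ 2 ^ m := pow_le_pow_right₀ (by norm_num) (by omega)
    have key : ∀ (u t : ℝ), e ≤ u → |t| = 2 →
        |e ^ (κ + 1) * (((κ + m').choose m' : ℝ) * t ^ m' / u ^ (κ + 1 + m'))| ≤
          2 ^ m * ((κ + m').choose m' : ℝ) := by
      intro u t hu ht
      have hu0 : 0 < u := by linarith
      rw [abs_mul, abs_div, abs_mul, abs_of_pos (by positivity : 0 < e ^ (κ + 1)),
        abs_of_pos (by positivity : 0 < u ^ (κ + 1 + m')), abs_pow, ht, Nat.abs_cast]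
      have e1 : e ^ (κ + 1) ≤ u ^ (κ + 1 + m') := by
        calc e ^ (κ + 1) ≤ e ^ (κ + 1 + m') := pow_le_pow_right₀ he (by omega)
          _ ≤ _ := pow_le_pow_left₀ he0.le hu _
      calc e ^ (κ + 1) * (((κ + m').choose m' : ℝ) * 2 ^ m' / u ^ (κ + 1 + m'))
          = (e ^ (κ + 1) / u ^ (κ + 1 + m')) * (((κ + m').choose m' : ℝ) * 2 ^ m') := by ring
        _ ≤ 1 * (((κ + m').choose m' : ℝ) * 2 ^ m') := by
            apply mul_le_mul_of_nonneg_right _ (by positivity)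
            rw [div_le_one (by positivity)]
            exact e1
        _ ≤ _ := by
            rw [one_mul, mul_comm]
            exact mul_le_mul_of_nonneg_right h2m (Nat.cast_nonneg _)
    have k1 := key u1 (-(-2)) h1 (by norm_num)
    have k2 := key u2 (-2) h2 (by norm_num)
    rw [mul_add]
    refine (abs_add_le _ _).trans ?_
    have k3 : |e ^ (κ + 1) * ((-1) ^ k * (((κ + m').choose m' : ℝ) * (-2) ^ m' /
        u2 ^ (κ + 1 + m')))| = |e ^ (κ + 1) * (((κ + m').choose m' : ℝ) * (-2) ^ m' /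
        u2 ^ (κ + 1 + m'))| := by
      rw [mul_left_comm, abs_mul, abs_pow, abs_neg, abs_one, one_pow, one_mul]
    rw [k3]
    calc _ ≤ 2 ^ m * ((κ + m').choose m' : ℝ) + 2 ^ m * ((κ + m').choose m' : ℝ) :=
          add_le_add k1 k2
      _ = _ := by rw [pow_succ]; ring
  · refine ⟨0, Nat.zero_le _, ?_⟩
    rw [if_neg hk, mul_zero, abs_zero]
    positivity

/-- coefficients of one node -/
theorem nr_cnode (k r : ℕ) (c e N F0 : ℝ) (he : 1 ≤ e) (hN : 1 ≤ N) (h : |c - N| ≤ e / 3)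
    (κ : ℕ) :
    |cnode k r c e N F0 κ| ≤ 2 * |F0| * N * 6 ^ r * ((κ.choose r : ℝ) * (1 / 3) ^ κ) := by
  have he0 : 0 < e := by linarith
  have hN0 : 0 < N := by linarith
  rw [cnode]
  split_ifs with hr
  · rw [abs_div, abs_mul, abs_mul, abs_mul, abs_mul, abs_mul, abs_pow,
      abs_of_pos (by positivity : 0 < e ^ (κ + 1)), Nat.abs_cast, abs_pow, abs_pow,
      abs_of_pos hN0, abs_of_pos (by norm_num : (0 : ℝ) < 2)]
    have h1 : N ^ ((k + r) % 2) ≤ N := by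
      have h2 : (k + r) % 2 ≤ 1 := by omega
      calc N ^ ((k + r) % 2) ≤ N ^ 1 := pow_le_pow_right₀ hN h2
        _ = N := pow_one N
    have h3 : |c - N| ^ (κ - r) / e ^ (κ + 1) ≤ 3 ^ r * (1 / 3) ^ κ := by
      rw [div_le_iff₀ (by positivity)]
      calc |c - N| ^ (κ - r) ≤ (e / 3) ^ (κ - r) := pow_le_pow_left₀ (abs_nonneg _) h _
        _ = (1 / 3) ^ (κ - r) * e ^ (κ - r) := by rw [← mul_pow]; congr 1; ring
        _ ≤ (1 / 3) ^ (κ - r) * e ^ (κ + 1) := by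
            apply mul_le_mul_of_nonneg_left _ (by positivity)
            exact pow_le_pow_right₀ he (by omega)
        _ = 3 ^ r * (1 / 3) ^ κ * e ^ (κ + 1) := by
            congr 1
            obtain ⟨d, rfl⟩ := Nat.exists_eq_add_of_le hr
            rw [Nat.add_sub_cancel_left, pow_add, ← mul_assoc, ← mul_pow]
            norm_num
    calc 2 * |F0| * N ^ ((k + r) % 2) * ((κ.choose r : ℝ) * 2 ^ r) * |c - N| ^ (κ - r) /
          e ^ (κ + 1)
        = 2 * |F0| * N ^ ((k + r) % 2) * ((κ.choose r : ℝ) * 2 ^ r) *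
          (|c - N| ^ (κ - r) / e ^ (κ + 1)) := by ring
      _ ≤ 2 * |F0| * N * ((κ.choose r : ℝ) * 2 ^ r) * (3 ^ r * (1 / 3) ^ κ) := by
          apply mul_le_mul _ h3 (by positivity) (by positivity)
          apply mul_le_mul_of_nonneg_right _ (by positivity)
          exact mul_le_mul_of_nonneg_left h1 (by positivity)
      _ = _ := by
          have : (6 : ℝ) ^ r = 2 ^ r * 3 ^ r := by rw [← mul_pow]; norm_num
          rw [this]; ring
  · rw [abs_zero]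
    positivity

/-- the constants, for large `M` -/
theorem nr_fin (g c : ℕ) (hg : 1 ≤ g) (hc : 1 ≤ c) (K : ℝ) (hK : 0 < K) :
    ∃ M0 : ℕ, ∀ M ≥ M0, K * ((g * (c * M) : ℕ) : ℝ) ^ 3 *
      ((55 * (g : ℝ) * c) ^ (2 * ((g + 2) * (c * M))) * Real.exp (2 * M)) ≤
      (100 * ((g : ℝ) + 2) * c) ^ (4 * ((g + 2) * (c * M))) := by
  have h0 := tendsto_pow_const_mul_const_pow_of_abs_lt_one 3 (r := (1 / 10 : ℝ))
    (by rw [abs_of_pos (by norm_num)]; norm_num)
  have h1 : ∀ᶠ n : ℕ in atTop, (n : ℝ) ^ 3 * (1 / 10) ^ n < 1 / K :=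
    h0.eventually_lt_const (by positivity)
  obtain ⟨M0, hM0⟩ := eventually_atTop.1 h1
  refine ⟨M0, fun M hM => ?_⟩
  obtain ⟨n, hn⟩ : ∃ n, n = (g + 2) * (c * M) := ⟨_, rfl⟩
  have hgR : (1 : ℝ) ≤ g := by exact_mod_cast hg
  have hcR : (1 : ℝ) ≤ c := by exact_mod_cast hc
  have hMn : M ≤ n := by
    rw [hn]
    calc M = 1 * (1 * M) := by ring
      _ ≤ _ := Nat.mul_le_mul (by omega) (Nat.mul_le_mul_right _ hc)
  have hpn : g * (c * M) ≤ n := by
    rw [hn]; exact Nat.mul_le_mul_right _ (by omega)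
  have h2 := hM0 n (by omega)
  rw [← hn]
  have h3 : K * (n : ℝ) ^ 3 ≤ 10 ^ n := by
    rw [lt_div_iff₀ hK, div_pow, one_pow] at h2
    have h4 : (0 : ℝ) < 10 ^ n := by positivity
    rw [mul_one_div, div_mul_eq_mul_div, div_lt_one h4] at h2
    linarith
  have h5 : Real.exp (2 * (M : ℝ)) ≤ 10 ^ n := by
    have e1 : Real.exp (2 * (M : ℝ)) ≤ Real.exp (2 * (n : ℝ)) := by
      apply Real.exp_le_exp.2
      have : (M : ℝ) ≤ n := by exact_mod_cast hMn
      linarith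
    refine e1.trans ?_
    rw [mul_comm, Real.exp_nat_mul]
    apply pow_le_pow_left₀ (Real.exp_pos _).le
    have e2 : Real.exp 2 = Real.exp 1 ^ 2 := by
      rw [← Real.exp_nat_mul]; norm_num
    rw [e2]
    have := Real.exp_one_lt_d9
    have h0 := Real.exp_pos 1
    nlinarith
  have h6 : ((g * (c * M) : ℕ) : ℝ) ^ 3 ≤ (n : ℝ) ^ 3 := by
    have : ((g * (c * M) : ℕ) : ℝ) ≤ n := by exact_mod_cast hpn
    exact pow_le_pow_left₀ (Nat.cast_nonneg _) this 3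
  have h7 : (55 * (g : ℝ) * c) ^ (2 * n) * (100 : ℝ) ^ (2 * n) ≤
      (100 * ((g : ℝ) + 2) * c) ^ (4 * n) := by
    rw [← mul_pow, show 4 * n = 2 * (2 * n) by ring, pow_mul _ 2 (2 * n)]
    apply pow_le_pow_left₀ (by positivity)
    have e1 : (g : ℝ) * c ≤ ((g : ℝ) + 2) ^ 2 * (c : ℝ) ^ 2 := by
      apply mul_le_mul _ _ (by positivity) (by positivity)
      · nlinarith
      · nlinarith
    nlinarith
  have h8 : (100 : ℝ) ^ (2 * n) = 10 ^ n * 10 ^ n * (10 ^ n * 10 ^ n) := by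
    rw [pow_mul, ← mul_pow, ← mul_pow]
    norm_num
  have h9 : (1 : ℝ) ≤ 10 ^ n := one_le_pow₀ (by norm_num)
  calc K * ((g * (c * M) : ℕ) : ℝ) ^ 3 * ((55 * (g : ℝ) * c) ^ (2 * n) * Real.exp (2 * M))
      ≤ K * (n : ℝ) ^ 3 * ((55 * (g : ℝ) * c) ^ (2 * n) * 10 ^ n) := by gcongr
    _ ≤ 10 ^ n * ((55 * (g : ℝ) * c) ^ (2 * n) * 10 ^ n) := by gcongr
    _ ≤ (55 * (g : ℝ) * c) ^ (2 * n) * (100 : ℝ) ^ (2 * n) := by
        rw [h8]
        have h10 : (1 : ℝ) ≤ 10 ^ n * 10 ^ n := one_le_mul_of_one_le_of_one_le h9 h9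
        have h11 : 0 ≤ (55 * (g : ℝ) * c) ^ (2 * n) * (10 ^ n * 10 ^ n) := by positivity
        nlinarith
    _ ≤ _ := h7

/-- value of the multiplier at the nodes of the blocks -/
theorem nr_val (g c M P p q n j ν : ℕ) (hg : 1 ≤ g) (hc : 1 ≤ c) (hM : 0 < M) (hP : P = c * M)
    (hp : p = g * P) (hq : q = (g + 1) * P) (hn : n = (g + 2) * P) (hj : j < P)
    (hν1 : q ≤ ν) (hν2 : ν ≤ 5 * p) :
    |(Am ℝ M q * Cn ℝ M j).eval ((2 * (ν : ℝ)) ^ 2)| ≤
      10 * p * ((55 * (g : ℝ) * c) ^ (2 * n) * Real.exp (2 * M)) := by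
  have hMR : (0 : ℝ) < M := by exact_mod_cast hM
  have hPpos : 0 < P := by rw [hP]; exact Nat.mul_pos (by omega) hM
  have hqp : q = p + P := by rw [hq, hp]; ring
  have hnq : n = q + P := by rw [hn, hq]; ring
  have hgR : (1 : ℝ) ≤ g := by exact_mod_cast hg
  have hcR : (1 : ℝ) ≤ c := by exact_mod_cast hc
  have hpM : (p : ℝ) = g * c * M := by rw [hp, hP]; push_cast; ring
  have hνR : 2 * (ν : ℝ) ≤ 10 * p := by
    have : (ν : ℝ) ≤ 5 * p := by exact_mod_cast hν2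
    linarith
  have hνqR : (q : ℝ) ≤ ν := by exact_mod_cast hν1
  have hνjR : (j : ℝ) ≤ ν := by
    have : j ≤ ν := by omega
    exact_mod_cast this
  have hν0 : (1 : ℝ) ≤ ν := by
    have : 1 ≤ ν := by omega
    exact_mod_cast this
  have hev := nr_eval M q j hM (by omega) (2 * (ν : ℝ)) (by linarith) (by linarith)
  have he := Real.exp_one_lt_d9
  have he0 := Real.exp_pos 1
  have h0 : 0 < (g : ℝ) * c * M := by positivity
  have hB1 : 2 * (2 * (ν : ℝ)) * Real.exp 1 / M ≤ 55 * (g : ℝ) * c := by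
    rw [div_le_iff₀ hMR]
    have : 2 * (2 * (ν : ℝ)) * Real.exp 1 ≤ (20 * p) * 2.7182818286 :=
      mul_le_mul (by linarith) he.le he0.le (by positivity)
    rw [hpM] at this
    linarith
  have hB2 : 2 * (ν : ℝ) * Real.exp 1 / (2 * M) ≤ 55 * (g : ℝ) * c := by
    rw [div_le_iff₀ (by positivity)]
    have : 2 * (ν : ℝ) * Real.exp 1 ≤ (10 * p) * 2.7182818286 :=
      mul_le_mul hνR he.le he0.le (by positivity)
    rw [hpM] at this
    linarith
  have hB3 : (1 : ℝ) ≤ 55 * (g : ℝ) * c := by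
    have := one_le_mul_of_one_le_of_one_le hgR hcR
    linarith
  refine hev.trans ?_
  calc (2 * (2 * (ν : ℝ)) * Real.exp 1 / M) ^ (2 * q - 1) * (2 * (ν : ℝ)) *
        (2 * (ν : ℝ) * Real.exp 1 / (2 * M)) ^ (2 * j) * Real.exp (2 * M)
      ≤ (55 * (g : ℝ) * c) ^ (2 * q - 1) * (10 * p) * (55 * (g : ℝ) * c) ^ (2 * j) *
        Real.exp (2 * M) := by
        apply mul_le_mul_of_nonneg_right _ (Real.exp_pos _).le
        apply mul_le_mul _ (pow_le_pow_left₀ (by positivity) hB2 _) (by positivity) (by positivity)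
        exact mul_le_mul (pow_le_pow_left₀ (by positivity) hB1 _) hνR (by positivity)
          (by positivity)
    _ = 10 * p * ((55 * (g : ℝ) * c) ^ (2 * q - 1 + 2 * j) * Real.exp (2 * M)) := by
        rw [pow_add]; ring
    _ ≤ _ := by
        apply mul_le_mul_of_nonneg_left _ (by positivity)
        apply mul_le_mul_of_nonneg_right _ (Real.exp_pos _).le
        exact pow_le_pow_right₀ hB3 (by omega)

end Pool.Agent.SI
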