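import Mathlib

/-!
# SI: choice of the parameters, general part
-/

namespace Pool.Agent.SI

/-- general choice of `S` and `k0` -/
theorem num_gen (C1 : ℝ) (hC1 : 1 ≤ C1) : ∃ c > 0, ∀ (s W d m : ℕ) (K X : ℝ), 1 ≤ W → W ≤ s →
    1 ≤ K → K ≤ c * ((s : ℝ) * W) → K ≤ c * (W : ℝ) ^ 3 → (d : ℝ) ^ 2 * K ≤ c * (W : ℝ) ^ 2 →
    0 ≤ X → X ^ 3 * K ≤ (W : ℝ) ^ 3 → X * K ≤ (s : ℝ) * W → (d : ℝ) * X * K ≤ (W : ℝ) ^ 2 →
    (m : ℝ) < c * X →
    ∃ S k0 : ℕ, 16 * S ≤ W ∧ 64 * k0 ≤ W ∧ 16 * (m * (S + k0 + 1)) ≤ W ∧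
      16 * (d * ((k0 + 1) * (S + 1))) ≤ W ∧ 2 * ((k0 + 1) * (S + 1) + 1) ≤ s ∧
      C1 * K < ((k0 : ℝ) + 1) * ((S : ℝ) + 1) ^ 2 := by
  set B : ℝ := 1024 * C1 with hB
  have hB1 : 1024 ≤ B := by rw [hB]; linarith
  have hB0 : 0 < B := by linarith
  set c : ℝ := 1 / (65536 * B) with hc
  have hc0 : 0 < c := by rw [hc]; positivity
  have hcB : c * B = 1 / 65536 := by rw [hc]; field_simp
  have hcB' : c = 1 / 65536 * (1 / B) := by rw [hc]; field_simp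
  have hc1 : c ≤ 1 / (65536 * 1024) := by
    rw [hc]
    exact one_div_le_one_div_of_le (by norm_num) (by linarith)
  refine ⟨c, hc0, fun s W d m K X hW1 hWs hK hA hF hD2 hX hX3 hXK hdXK hm => ?_⟩
  have hWr : (1 : ℝ) ≤ W := by exact_mod_cast hW1
  have hWsr : (W : ℝ) ≤ s := by exact_mod_cast hWs
  have hW0 : (0 : ℝ) < W := by linarith
  have hs0 : (0 : ℝ) < s := by linarith
  have hd0 : (0 : ℝ) ≤ d := Nat.cast_nonneg d
  have hm0 : (0 : ℝ) ≤ m := Nat.cast_nonneg m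
  have hK0 : 0 < K := by linarith
  have hX0 : 0 < X := by
    by_contra h
    have : c * X ≤ 0 := mul_nonpos_of_nonneg_of_nonpos hc0.le (not_lt.1 h)
    linarith
  -- W is large
  have hW5 : (8 : ℝ) ≤ W := by
    by_contra h
    push Not at h
    have h1 : (W : ℝ) ^ 3 ≤ 8 ^ 3 := pow_le_pow_left₀ hW0.le h.le 3
    have h2 : c * (W : ℝ) ^ 3 ≤ c * 8 ^ 3 := mul_le_mul_of_nonneg_left h1 hc0.le
    linarith
  -- X ≤ W, d ≤ W/256
  have hXW : X ≤ W := by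
    by_contra h
    push Not at h
    have h1 : (W : ℝ) ^ 3 < X ^ 3 := pow_lt_pow_left₀ h hW0.le (by norm_num)
    have h2 : X ^ 3 * 1 ≤ X ^ 3 * K := mul_le_mul_of_nonneg_left hK (by positivity)
    linarith
  have hdW : (d : ℝ) ≤ W / 256 := by
    by_contra h
    push Not at h
    have h1 : ((W : ℝ) / 256) ^ 2 < (d : ℝ) ^ 2 := pow_lt_pow_left₀ h (by positivity) (by norm_num)
    have h2 : (d : ℝ) ^ 2 * 1 ≤ (d : ℝ) ^ 2 * K := mul_le_mul_of_nonneg_left hK (by positivity)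
    have h3 : c * (W : ℝ) ^ 2 ≤ 1 / (65536 * 1024) * (W : ℝ) ^ 2 :=
      mul_le_mul_of_nonneg_right hc1 (by positivity)
    have h4 : 0 < (W : ℝ) ^ 2 := by positivity
    nlinarith
  have hdd : (d : ℝ) ≤ (d : ℝ) ^ 2 := by
    have : d ≤ d ^ 2 := Nat.le_self_pow (by norm_num) d
    exact_mod_cast this
  have hd2K : (d : ℝ) * K ≤ c * (W : ℝ) ^ 2 :=
    (mul_le_mul_of_nonneg_right hdd hK0.le).trans hD2
  -- the parameter X'
  set Y : ℝ := max X (max B (3 * B * d)) with hY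
  have hYX : X ≤ Y := le_max_left _ _
  have hYB : B ≤ Y := (le_max_left _ _).trans (le_max_right _ _)
  have hYd : 3 * B * d ≤ Y := (le_max_right _ _).trans (le_max_right _ _)
  have hY0 : 0 < Y := lt_of_lt_of_le hB0 hYB
  have hYc : Y = X ∨ Y = B ∨ Y = 3 * B * d := by
    rcases max_choice X (max B (3 * B * d)) with h | h
    · exact Or.inl h
    · rcases max_choice B (3 * B * d) with h' | h'
      · exact Or.inr (Or.inl (by rw [hY, h, h']))
      · exact Or.inr (Or.inr (by rw [hY, h, h']))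
  -- estimates for Y
  have y1 : K * Y ^ 2 ≤ (W : ℝ) ^ 3 * (B / 16) := by
    rcases hYc with h | h | h
    · have h1 : Y ^ 2 * B ≤ Y ^ 3 := by nlinarith [sq_nonneg Y]
      have h2 : K * Y ^ 2 * B ≤ (W : ℝ) ^ 3 := by
        calc K * Y ^ 2 * B = (Y ^ 2 * B) * K := by ring
          _ ≤ Y ^ 3 * K := mul_le_mul_of_nonneg_right h1 hK0.le
          _ ≤ (W : ℝ) ^ 3 := by rw [h]; exact hX3
      have h3 : K * Y ^ 2 * 1024 ≤ K * Y ^ 2 * B := mul_le_mul_of_nonneg_left hB1 (by positivity)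
      have h4 : (W : ℝ) ^ 3 * 1 ≤ (W : ℝ) ^ 3 * (B / 16) :=
        mul_le_mul_of_nonneg_left (by linarith) (by positivity)
      have h5 : 0 ≤ K * Y ^ 2 := by positivity
      linarith
    · rw [h]
      calc K * B ^ 2 ≤ (c * (W : ℝ) ^ 3) * B ^ 2 := mul_le_mul_of_nonneg_right hF (by positivity)
        _ = (W : ℝ) ^ 3 * (B * (c * B)) := by ring
        _ ≤ (W : ℝ) ^ 3 * (B / 16) := by
            rw [hcB]
            exact mul_le_mul_of_nonneg_left (by linarith) (by positivity)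
    · rw [h]
      calc K * (3 * B * d) ^ 2 = 9 * B ^ 2 * ((d : ℝ) ^ 2 * K) := by ring
        _ ≤ 9 * B ^ 2 * (c * (W : ℝ) ^ 2) := mul_le_mul_of_nonneg_left hD2 (by positivity)
        _ = 9 * (W : ℝ) ^ 2 * (B * (c * B)) := by ring
        _ ≤ (W : ℝ) ^ 3 * (B / 16) := by
            rw [hcB]
            have h1 : (W : ℝ) ^ 2 ≤ (W : ℝ) ^ 3 := pow_le_pow_right₀ hWr (by norm_num)
            have h2 : (W : ℝ) ^ 2 * (9 * B / 65536) ≤ (W : ℝ) ^ 3 * (9 * B / 65536) :=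
              mul_le_mul_of_nonneg_right h1 (by positivity)
            have h3 : (W : ℝ) ^ 3 * (9 * B / 65536) ≤ (W : ℝ) ^ 3 * (B / 16) :=
              mul_le_mul_of_nonneg_left (by linarith) (by positivity)
            linarith
  have y2 : c * Y ^ 3 * K ≤ (W : ℝ) ^ 3 * (B / 16) := by
    have hW3 : 0 < (W : ℝ) ^ 3 := by positivity
    rcases hYc with h | h | h
    · have h1 : c * (Y ^ 3 * K) ≤ 1 * (W : ℝ) ^ 3 := by
        rw [h]
        exact mul_le_mul (by linarith) hX3 (by positivity) (by norm_num)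
      have h4 : (W : ℝ) ^ 3 * 1 ≤ (W : ℝ) ^ 3 * (B / 16) :=
        mul_le_mul_of_nonneg_left (by linarith) (by positivity)
      linarith
    · rw [h]
      calc c * B ^ 3 * K ≤ c * B ^ 3 * (c * (W : ℝ) ^ 3) :=
            mul_le_mul_of_nonneg_left hF (by positivity)
        _ = (c * B) ^ 2 * (B * (W : ℝ) ^ 3) := by ring
        _ ≤ (1 / 16) * (B * (W : ℝ) ^ 3) := by
            rw [hcB]
            exact mul_le_mul_of_nonneg_right (by norm_num) (by positivity)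
        _ = (W : ℝ) ^ 3 * (B / 16) := by ring
    · rw [h]
      have h1 : ((d : ℝ) ^ 2 * K) * d ≤ (c * (W : ℝ) ^ 2) * W :=
        mul_le_mul hD2 (by linarith) hd0 (by positivity)
      calc c * (3 * B * d) ^ 3 * K = 27 * c * B ^ 3 * (((d : ℝ) ^ 2 * K) * d) := by ring
        _ ≤ 27 * c * B ^ 3 * ((c * (W : ℝ) ^ 2) * W) :=
            mul_le_mul_of_nonneg_left h1 (by positivity)
        _ = (27 * (c * B) ^ 2) * (B * (W : ℝ) ^ 3) := by ring
        _ ≤ (1 / 16) * (B * (W : ℝ) ^ 3) := by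
            rw [hcB]
            exact mul_le_mul_of_nonneg_right (by norm_num) (by positivity)
        _ = (W : ℝ) ^ 3 * (B / 16) := by ring
  have y3 : c * Y ≤ W / 64 := by
    rcases hYc with h | h | h
    · rw [h]
      calc c * X ≤ (1 / (65536 * 1024)) * W := mul_le_mul hc1 hXW hX (by norm_num)
        _ ≤ W / 64 := by linarith
    · rw [h, hcB]
      linarith
    · rw [h]
      calc c * (3 * B * d) = 3 * (c * B) * d := by ring
        _ ≤ W / 64 := by rw [hcB]; linarith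
  have y4 : (d : ℝ) * Y * K ≤ (W : ℝ) ^ 2 := by
    have hW2 : 0 < (W : ℝ) ^ 2 := by positivity
    rcases hYc with h | h | h
    · rw [h]; exact hdXK
    · rw [h]
      calc (d : ℝ) * B * K = B * (d * K) := by ring
        _ ≤ B * (c * (W : ℝ) ^ 2) := mul_le_mul_of_nonneg_left hd2K hB0.le
        _ = (c * B) * (W : ℝ) ^ 2 := by ring
        _ ≤ (W : ℝ) ^ 2 := by rw [hcB]; linarith
    · rw [h]
      calc (d : ℝ) * (3 * B * d) * K = 3 * B * (d ^ 2 * K) := by ring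
        _ ≤ 3 * B * (c * (W : ℝ) ^ 2) := mul_le_mul_of_nonneg_left hD2 (by positivity)
        _ = 3 * (c * B) * (W : ℝ) ^ 2 := by ring
        _ ≤ (W : ℝ) ^ 2 := by rw [hcB]; linarith
  have y5 : Y * K ≤ (s : ℝ) * W := by
    have hsW : 0 < (s : ℝ) * W := by positivity
    rcases hYc with h | h | h
    · rw [h]; exact hXK
    · rw [h]
      calc B * K ≤ B * (c * ((s : ℝ) * W)) := mul_le_mul_of_nonneg_left hA hB0.le
        _ = (c * B) * ((s : ℝ) * W) := by ring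
        _ ≤ (s : ℝ) * W := by rw [hcB]; linarith
    · rw [h]
      have h1 : (W : ℝ) ^ 2 ≤ (s : ℝ) * W := by nlinarith
      calc (3 * B * d) * K = 3 * B * (d * K) := by ring
        _ ≤ 3 * B * (c * (W : ℝ) ^ 2) := mul_le_mul_of_nonneg_left hd2K (by positivity)
        _ = 3 * (c * B) * (W : ℝ) ^ 2 := by ring
        _ ≤ 1 * (W : ℝ) ^ 2 := by
            rw [hcB]
            exact mul_le_mul_of_nonneg_right (by norm_num) (by positivity)
        _ ≤ (s : ℝ) * W := by linarith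
  -- S and k0
  set S : ℕ := ⌊B * W / (16 * Y)⌋₊ with hS
  have hSle : (S : ℝ) ≤ B * W / (16 * Y) := Nat.floor_le (by positivity)
  have hSlt : B * W / (16 * Y) < (S : ℝ) + 1 := Nat.lt_floor_add_one _
  have hS0 : (0 : ℝ) ≤ S := Nat.cast_nonneg S
  have hSY : (S : ℝ) * Y ≤ B * W / 16 := by
    rw [le_div_iff₀ (by positivity)] at hSle
    linarith
  have hSY' : B * W / 16 < ((S : ℝ) + 1) * Y := by
    rw [div_lt_iff₀ (by positivity)] at hSlt
    linarith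
  set k0 : ℕ := ⌊C1 * K / ((S : ℝ) + 1) ^ 2⌋₊ with hk0
  have hkle : (k0 : ℝ) ≤ C1 * K / ((S : ℝ) + 1) ^ 2 := Nat.floor_le (by positivity)
  have hklt : C1 * K / ((S : ℝ) + 1) ^ 2 < (k0 : ℝ) + 1 := Nat.lt_floor_add_one _
  have hk00 : (0 : ℝ) ≤ k0 := Nat.cast_nonneg k0
  have hkS : (k0 : ℝ) * ((S : ℝ) + 1) ^ 2 ≤ C1 * K := by
    rwa [le_div_iff₀ (by positivity)] at hkle
  have hkS' : C1 * K < ((k0 : ℝ) + 1) * ((S : ℝ) + 1) ^ 2 := by
    rwa [div_lt_iff₀ (by positivity)] at hklt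
  have hBC : C1 = B / 1024 := by rw [hB]; ring
  -- k0 (S+1) ≤ K Y / (64 W)
  have hk1 : (k0 : ℝ) * ((S : ℝ) + 1) * (64 * W) ≤ K * Y := by
    have h1 : (k0 : ℝ) * ((S : ℝ) + 1) * (B * W / 16) ≤ (k0 : ℝ) * ((S : ℝ) + 1) ^ 2 * Y := by
      calc (k0 : ℝ) * ((S : ℝ) + 1) * (B * W / 16) ≤
            (k0 : ℝ) * ((S : ℝ) + 1) * (((S : ℝ) + 1) * Y) :=
            mul_le_mul_of_nonneg_left hSY'.le (by positivity)
        _ = (k0 : ℝ) * ((S : ℝ) + 1) ^ 2 * Y := by ring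
    have h2 : (k0 : ℝ) * ((S : ℝ) + 1) ^ 2 * Y ≤ C1 * K * Y :=
      mul_le_mul_of_nonneg_right hkS hY0.le
    have h3 : B * ((k0 : ℝ) * ((S : ℝ) + 1) * (64 * W)) ≤ B * (K * Y) := by
      calc B * ((k0 : ℝ) * ((S : ℝ) + 1) * (64 * W)) =
            1024 * ((k0 : ℝ) * ((S : ℝ) + 1) * (B * W / 16)) := by ring
        _ ≤ 1024 * (C1 * K * Y) := mul_le_mul_of_nonneg_left (h1.trans h2) (by norm_num)
        _ = B * (K * Y) := by rw [hBC]; ring
    exact le_of_mul_le_mul_left h3 hB0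
  -- k0 ≤ K Y^2 / (4 B W^2)
  have hk2 : (k0 : ℝ) * (4 * B * (W : ℝ) ^ 2) ≤ K * Y ^ 2 := by
    have h1 : (k0 : ℝ) * (64 * W) * (B * W / 16) ≤ K * Y * Y := by
      calc (k0 : ℝ) * (64 * W) * (B * W / 16) ≤
            (k0 : ℝ) * (64 * W) * (((S : ℝ) + 1) * Y) :=
            mul_le_mul_of_nonneg_left hSY'.le (by positivity)
        _ = ((k0 : ℝ) * ((S : ℝ) + 1) * (64 * W)) * Y := by ring
        _ ≤ K * Y * Y := mul_le_mul_of_nonneg_right hk1 hY0.le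
    calc (k0 : ℝ) * (4 * B * (W : ℝ) ^ 2) = (k0 : ℝ) * (64 * W) * (B * W / 16) := by ring
      _ ≤ K * Y * Y := h1
      _ = K * Y ^ 2 := by ring
  have r1 : 16 * (S : ℝ) ≤ W := by
    have h1 : (S : ℝ) * B ≤ S * Y := mul_le_mul_of_nonneg_left hYB hS0
    have h2 : B * (16 * (S : ℝ)) ≤ B * W := by linarith
    exact le_of_mul_le_mul_left h2 hB0
  have r2 : 64 * (k0 : ℝ) ≤ W := by
    have h1 : (k0 : ℝ) * (4 * B * (W : ℝ) ^ 2) ≤ (W : ℝ) ^ 3 * (B / 16) := hk2.trans y1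
    have h2 : (B * (W : ℝ) ^ 2 / 16) * (64 * (k0 : ℝ)) ≤ (B * (W : ℝ) ^ 2 / 16) * W := by
      calc (B * (W : ℝ) ^ 2 / 16) * (64 * (k0 : ℝ)) = (k0 : ℝ) * (4 * B * (W : ℝ) ^ 2) := by ring
        _ ≤ (W : ℝ) ^ 3 * (B / 16) := h1
        _ = (B * (W : ℝ) ^ 2 / 16) * W := by ring
    exact le_of_mul_le_mul_left h2 (by positivity)
  have hmY : (m : ℝ) ≤ c * Y := hm.le.trans (mul_le_mul_of_nonneg_left hYX hc0.le)
  have r3 : 16 * ((m : ℝ) * (S + k0 + 1)) ≤ W := by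
    have h1 : (m : ℝ) * S ≤ W / 64 := by
      calc (m : ℝ) * S ≤ (c * Y) * S := mul_le_mul_of_nonneg_right hmY hS0
        _ = c * (S * Y) := by ring
        _ ≤ c * (B * W / 16) := mul_le_mul_of_nonneg_left hSY hc0.le
        _ = (c * B) * (W / 16) := by ring
        _ ≤ W / 64 := by rw [hcB]; linarith
    have h2 : (m : ℝ) * k0 ≤ W / 64 := by
      have h3 : ((m : ℝ) * k0) * (4 * B * (W : ℝ) ^ 2) ≤ (W : ℝ) ^ 3 * (B / 16) := by
        calc ((m : ℝ) * k0) * (4 * B * (W : ℝ) ^ 2) = (m : ℝ) * (k0 * (4 * B * (W : ℝ) ^ 2)) := by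
              ring
          _ ≤ (c * Y) * (K * Y ^ 2) := mul_le_mul hmY hk2 (by positivity) (by positivity)
          _ = c * Y ^ 3 * K := by ring
          _ ≤ (W : ℝ) ^ 3 * (B / 16) := y2
      have h4 : (4 * B * (W : ℝ) ^ 2) * ((m : ℝ) * k0) ≤ (4 * B * (W : ℝ) ^ 2) * (W / 64) := by
        calc (4 * B * (W : ℝ) ^ 2) * ((m : ℝ) * k0) = ((m : ℝ) * k0) * (4 * B * (W : ℝ) ^ 2) := by
              ring
          _ ≤ (W : ℝ) ^ 3 * (B / 16) := h3
          _ = (4 * B * (W : ℝ) ^ 2) * (W / 64) := by ring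
      exact le_of_mul_le_mul_left h4 (by positivity)
    have h5 : (m : ℝ) ≤ W / 64 := hmY.trans y3
    calc 16 * ((m : ℝ) * (S + k0 + 1)) = 16 * (m * S + m * k0 + m) := by ring
      _ ≤ W := by linarith
  have r4 : 16 * ((d : ℝ) * ((k0 + 1) * (S + 1))) ≤ W := by
    have h1 : (d : ℝ) * S ≤ W / 48 := by
      have h2 : (3 * B) * ((d : ℝ) * S) ≤ (3 * B) * (W / 48) := by
        calc (3 * B) * ((d : ℝ) * S) = S * (3 * B * d) := by ring
          _ ≤ S * Y := mul_le_mul_of_nonneg_left hYd hS0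
          _ ≤ B * W / 16 := hSY
          _ = (3 * B) * (W / 48) := by ring
      exact le_of_mul_le_mul_left h2 (by positivity)
    have h3 : (d : ℝ) * (k0 * (S + 1)) ≤ W / 64 := by
      have h4 : (64 * (W : ℝ)) * ((d : ℝ) * (k0 * (S + 1))) ≤ (64 * (W : ℝ)) * (W / 64) := by
        calc (64 * (W : ℝ)) * ((d : ℝ) * (k0 * (S + 1))) =
              d * ((k0 : ℝ) * ((S : ℝ) + 1) * (64 * W)) := by ring
          _ ≤ d * (K * Y) := mul_le_mul_of_nonneg_left hk1 hd0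
          _ = d * Y * K := by ring
          _ ≤ (W : ℝ) ^ 2 := y4
          _ = (64 * (W : ℝ)) * (W / 64) := by ring
      exact le_of_mul_le_mul_left h4 (by positivity)
    calc 16 * ((d : ℝ) * ((k0 + 1) * (S + 1))) = 16 * (d * S + d + d * (k0 * (S + 1))) := by ring
      _ ≤ W := by linarith
  have r5 : 2 * (((k0 : ℝ) + 1) * (S + 1) + 1) ≤ s := by
    have h1 : (k0 : ℝ) * (S + 1) ≤ s / 64 := by
      have h4 : (64 * (W : ℝ)) * ((k0 : ℝ) * (S + 1)) ≤ (64 * (W : ℝ)) * (s / 64) := by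
        calc (64 * (W : ℝ)) * ((k0 : ℝ) * (S + 1)) = (k0 : ℝ) * ((S : ℝ) + 1) * (64 * W) := by ring
          _ ≤ K * Y := hk1
          _ = Y * K := by ring
          _ ≤ (s : ℝ) * W := y5
          _ = (64 * (W : ℝ)) * (s / 64) := by ring
      exact le_of_mul_le_mul_left h4 (by positivity)
    calc 2 * (((k0 : ℝ) + 1) * (S + 1) + 1) = 2 * (k0 * (S + 1) + S + 2) := by ring
      _ ≤ s := by linarith
  refine ⟨S, k0, ?_, ?_, ?_, ?_, ?_, hkS'⟩
  · exact_mod_cast r1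
  · exact_mod_cast r2
  · exact_mod_cast r3
  · exact_mod_cast r4
  · exact_mod_cast r5

/-- the main inequality -/
theorem num_ineq (s W S k0 m d g : ℕ) (hW1 : 8 ≤ W) (hWs : W ≤ s) (h1 : 16 * S ≤ W)
    (h2 : 64 * k0 ≤ W) (h3 : 16 * (m * (S + k0 + 1)) ≤ W)
    (h4 : 16 * (d * ((k0 + 1) * (S + 1))) ≤ W) (h5 : 2 * ((k0 + 1) * (S + 1) + 1) ≤ s)
    (hg : 8 * s ≤ g * W) :
    (g + 2) * (k0 + 1 + (s + k0 + m * (S + k0 + 1) + d * ((k0 + 1) * (S + 1)))) +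
      (k0 + 1) * (S + 1) + 1 ≤ g * (s + W - S - k0) := by
  have hg8 : 8 ≤ g := by
    by_contra h
    push Not at h
    have : g * W ≤ 7 * W := Nat.mul_le_mul_right _ (by omega)
    omega
  obtain ⟨T, hT⟩ : ∃ T, T = s + W - S - k0 := ⟨_, rfl⟩
  rw [← hT]
  have hT' : T + S + k0 = s + W := by omega
  generalize m * (S + k0 + 1) = M at *
  generalize d * ((k0 + 1) * (S + 1)) = D at *
  generalize (k0 + 1) * (S + 1) = E at *
  have r1 : 16 * (S : ℝ) ≤ W := by exact_mod_cast h1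
  have r2 : 64 * (k0 : ℝ) ≤ W := by exact_mod_cast h2
  have r3 : 16 * (M : ℝ) ≤ W := by exact_mod_cast h3
  have r4 : 16 * (D : ℝ) ≤ W := by exact_mod_cast h4
  have r5 : 2 * ((E : ℝ) + 1) ≤ s := by exact_mod_cast h5
  have r6 : 8 * (s : ℝ) ≤ g * W := by exact_mod_cast hg
  have r7 : (8 : ℝ) ≤ g := by exact_mod_cast hg8
  have r8 : (T : ℝ) + S + k0 = s + W := by exact_mod_cast hT'
  have r9 : (8 : ℝ) ≤ W := by exact_mod_cast hW1
  have key : ((g : ℝ) + 2) * (k0 + 1 + (s + k0 + M + D)) + E + 1 ≤ g * T := by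
    have e1 : (g : ℝ) * T = g * (s + W - S - k0) := by
      have : (T : ℝ) = s + W - S - k0 := by linarith
      rw [this]
    rw [e1]
    -- Q = 2 k0 + 1 + M + D
    have hQ : 2 * (k0 : ℝ) + 1 + M + D ≤ (9 / 32) * W := by linarith
    have hQ0 : 0 ≤ 2 * (k0 : ℝ) + 1 + M + D := by positivity
    have e2 : ((g : ℝ) + 2) * (2 * (k0 : ℝ) + 1 + M + D) ≤ (5 / 4 * g) * ((9 / 32) * W) :=
      mul_le_mul (by linarith) hQ hQ0 (by positivity)
    have e3 : (g : ℝ) * (S + k0) ≤ g * ((5 / 64) * W) :=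
      mul_le_mul_of_nonneg_left (by linarith) (by positivity)
    have e4 : 0 ≤ (g : ℝ) * W := by positivity
    nlinarith
  exact_mod_cast key

/-- choice of `g` and `a` -/
theorem num_fin (s W S k0 m d : ℕ) (hs : 64 ≤ s) (hsW : s ≤ W ^ 2) (hWs : W ≤ s)
    (h1 : 16 * S ≤ W) (h2 : 64 * k0 ≤ W) (h3 : 16 * (m * (S + k0 + 1)) ≤ W)
    (h4 : 16 * (d * ((k0 + 1) * (S + 1))) ≤ W) (h5 : 2 * ((k0 + 1) * (S + 1) + 1) ≤ s) :
    ∃ g a : ℕ, a + S = s + W ∧ 1 ≤ g ∧ 1 ≤ a ∧ g ≤ a ∧ S ≤ a ∧ 1 ≤ s ∧ S ≤ s ∧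
      (g + 2) * (k0 + 1 + (s + k0 + m * (S + k0 + 1) + d * ((k0 + 1) * (S + 1)))) +
        (k0 + 1) * (S + 1) + 1 ≤ g * (a - k0) ∧
      (g : ℝ) ≤ 9 * ((s : ℝ) / W) ∧ (a : ℝ) ≤ 2 * s ∧
      1 + Real.log a ≤ 2 * Real.log s := by
  have hW8 : 8 ≤ W := by
    by_contra h
    push Not at h
    have : W ^ 2 ≤ 7 ^ 2 := Nat.pow_le_pow_left (by omega) 2
    omega
  have hWr : (8 : ℝ) ≤ W := by exact_mod_cast hW8
  have hWsr : (W : ℝ) ≤ s := by exact_mod_cast hWs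
  have hsr : (64 : ℝ) ≤ s := by exact_mod_cast hs
  have hW0 : (0 : ℝ) < W := by linarith
  set g : ℕ := ⌈8 * (s : ℝ) / W⌉₊ with hg
  have hg1 : 8 * (s : ℝ) / W ≤ g := Nat.le_ceil _
  have hg2 : (g : ℝ) < 8 * (s : ℝ) / W + 1 := Nat.ceil_lt_add_one (by positivity)
  have hgW : 8 * s ≤ g * W := by
    rw [div_le_iff₀ hW0] at hg1
    exact_mod_cast hg1
  have hsW1 : 1 ≤ (s : ℝ) / W := by rwa [one_le_div hW0]
  have hg3 : (g : ℝ) ≤ 9 * ((s : ℝ) / W) := by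
    have : 8 * (s : ℝ) / W = 8 * ((s : ℝ) / W) := by ring
    linarith
  have hgs : g ≤ s + 1 := by
    have h6 : 8 * (s : ℝ) / W ≤ s := by
      rw [div_le_iff₀ hW0]
      nlinarith
    have h7 : (g : ℝ) ≤ ((s + 1 : ℕ) : ℝ) := by push_cast; linarith
    exact_mod_cast h7
  have hg0 : 1 ≤ g := by
    by_contra h
    have : g = 0 := by omega
    rw [this] at hgW
    omega
  refine ⟨g, s + W - S, by omega, hg0, by omega, by omega, by omega, by omega, by omega,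
    num_ineq s W S k0 m d g hW8 hWs h1 h2 h3 h4 h5 hgW, hg3, ?_, ?_⟩
  · have h6 : s + W - S ≤ 2 * s := by omega
    exact_mod_cast h6
  · have h6 : s + W - S ≤ 2 * s := by omega
    have h7 : ((s + W - S : ℕ) : ℝ) ≤ 2 * s := by exact_mod_cast h6
    have h8 : (0 : ℝ) < ((s + W - S : ℕ) : ℝ) := by
      have : 0 < s + W - S := by omega
      exact_mod_cast this
    have h9 : Real.log ((s + W - S : ℕ) : ℝ) ≤ Real.log (2 * s) := Real.log_le_log h8 h7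
    have h10 : (2 * Real.exp 1 : ℝ) ≤ s := by
      have := Real.exp_one_lt_d9
      linarith
    have h11 : Real.log (2 * Real.exp 1) ≤ Real.log s :=
      Real.log_le_log (by positivity) h10
    rw [Real.log_mul (by norm_num) (Real.exp_pos 1).ne', Real.log_exp] at h11
    rw [Real.log_mul (by norm_num) (by positivity)] at h9
    linarith

end Pool.Agent.SI
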