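import Mathlib

/-!
# SI2: integers of the projection along an arbitrary set of exponents
-/

namespace Pool.Agent.SI

open Finset

/-- integers of the triangular inversion -/
noncomputable def PIG_c (J : Finset ℕ) (k : ℕ) (j : ℕ) : ℤ :=
  if j = 0 then 1
  else - ∑ i : Fin j, if k + (i : ℕ) ∈ J then (j.choose i : ℤ) * PIG_c J k i else 0
termination_by j
decreasing_by exact i.2

theorem PIG_c_zero (J : Finset ℕ) (k : ℕ) : PIG_c J k 0 = 1 := by
  rw [PIG_c]; simp

theorem PIG_c_pos (J : Finset ℕ) (k : ℕ) {j : ℕ} (hj : j ≠ 0) :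
    PIG_c J k j = - ∑ i ∈ range j, if k + i ∈ J then (j.choose i : ℤ) * PIG_c J k i else 0 := by
  rw [PIG_c, if_neg hj]
  congr 1
  exact (Finset.sum_range (fun i => if k + i ∈ J then (j.choose i : ℤ) * PIG_c J k i else 0)).symm

theorem PIG_c_abs (J : Finset ℕ) (k : ℕ) (j : ℕ) : |PIG_c J k j| ≤ (j.factorial * 2 ^ j : ℕ) := by
  induction j using Nat.strong_induction_on with
  | _ j ih =>
    rcases Nat.eq_zero_or_pos j with h | h
    · subst h; rw [PIG_c_zero]; simp
    · rw [PIG_c_pos J k h.ne', abs_neg]
      calc |∑ i ∈ range j, if k + i ∈ J then (j.choose i : ℤ) * PIG_c J k i else 0|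
          ≤ ∑ i ∈ range j, |if k + i ∈ J then (j.choose i : ℤ) * PIG_c J k i else 0| :=
            abs_sum_le_sum_abs _ _
        _ ≤ ∑ i ∈ range j, ((j.factorial * 2 ^ i : ℕ) : ℤ) := by
            refine sum_le_sum fun i hi => ?_
            rw [mem_range] at hi
            split_ifs
            · rw [abs_mul, abs_of_nonneg (by positivity : (0 : ℤ) ≤ (j.choose i : ℤ))]
              calc (j.choose i : ℤ) * |PIG_c J k i| ≤ (j.choose i : ℤ) * (i.factorial * 2 ^ i : ℕ) :=
                    mul_le_mul_of_nonneg_left (ih i hi) (by positivity)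
                _ = ((j.choose i * i.factorial * 2 ^ i : ℕ) : ℤ) := by push_cast; ring
                _ ≤ _ := by
                    have h1 : j.choose i * i.factorial ≤ j.factorial := by
                      have h2 := Nat.choose_mul_factorial_mul_factorial hi.le
                      calc j.choose i * i.factorial ≤ j.choose i * i.factorial * (j - i).factorial :=
                            Nat.le_mul_of_pos_right _ (Nat.factorial_pos _)
                        _ = j.factorial := h2
                    exact_mod_cast Nat.mul_le_mul_right _ h1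
            · rw [abs_zero]; positivity
        _ = ((j.factorial * ∑ i ∈ range j, 2 ^ i : ℕ) : ℤ) := by
            push_cast; rw [mul_sum]
        _ ≤ _ := by
            have h3 : ∑ i ∈ range j, 2 ^ i ≤ 2 ^ j := (Nat.geomSum_lt (le_refl 2) (by
              intro k hk; exact mem_range.1 hk)).le
            exact_mod_cast Nat.mul_le_mul_left _ h3

/-- reindexing -/
theorem PIG_sum (J : Finset ℕ) (k m : ℕ) (hkm : k ≤ m) {R : Type*} [AddCommMonoid R] (F : ℕ → R) :
    ∑ e ∈ J, (if k ≤ e ∧ e ≤ m then F (e - k) else 0) =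
      ∑ i ∈ range (m - k + 1), if k + i ∈ J then F i else 0 := by
  rw [← sum_filter, ← sum_filter]
  refine Finset.sum_bij' (fun e _ => e - k) (fun i _ => k + i) ?_ ?_ ?_ ?_ ?_
  · intro e he
    rw [mem_filter] at he
    rw [mem_filter, mem_range]
    refine ⟨by omega, ?_⟩
    rw [Nat.add_sub_cancel' he.2.1]
    exact he.1
  · intro i hi
    rw [mem_filter, mem_range] at hi
    rw [mem_filter]
    exact ⟨hi.2, by omega, by omega⟩
  · intro e he
    rw [mem_filter] at he
    omega
  · intro i hi
    omega
  · intro e he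
    rfl

/-- the triangular identity -/
theorem PIG_c_tri (J : Finset ℕ) (k m : ℕ) (hkm : k < m) :
    ∑ e ∈ J, (if k ≤ e ∧ e ≤ m then ((m - k).choose (e - k) : ℤ) * PIG_c J k (e - k) else 0) =
      if m ∈ J then 0 else - PIG_c J k (m - k) := by
  rw [PIG_sum J k m hkm.le (fun i => ((m - k).choose i : ℤ) * PIG_c J k i), sum_range_succ]
  have h1 := PIG_c_pos J k (j := m - k) (by omega)
  have h2 : k + (m - k) = m := by omega
  rw [h2]
  split_ifs
  · rw [Nat.choose_self, Nat.cast_one, one_mul, h1]
    ring
  · rw [h1]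
    ring

end Pool.Agent.SI
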