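import Pool.Agent.SI.Defs
import Pool.Agent.ZC.ENT

/-!
# SI2: Lagrange elements at the `2p` points, integrality and size
-/

namespace Pool.Agent.SI

open Finset Pool.Agent.ZC
open scoped Nat

/-- signed product of the differences -/
noncomputable def PIG_D (p i : ℕ) : ℚ := (-1) ^ i * (i ! : ℚ) * ((2 * p - 1 - i)! : ℚ)

/-- Lagrange polynomial of the points `0, -1, .., -(2p-1)` for the point `-i`, at the pole `l'` -/
noncomputable def PIG_L (p i l' : ℕ) : PowerSeries ℚ :=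
  PowerSeries.C (PIG_D p i)⁻¹ * runx (-(l' : ℤ)) 1 (2 * p) i

theorem PIG_D_ne (p i : ℕ) : PIG_D p i ≠ 0 := by
  unfold PIG_D
  have h1 : ((-1 : ℚ)) ^ i ≠ 0 := pow_ne_zero _ (by norm_num)
  have h2 : (i ! : ℚ) ≠ 0 := by positivity
  have h3 : ((2 * p - 1 - i)! : ℚ) ≠ 0 := by positivity
  exact mul_ne_zero (mul_ne_zero h1 h2) h3

theorem PIG_cc_run (u c : ℤ) (z : ℕ) :
    PowerSeries.constantCoeff (run u c z) = ∏ k ∈ range z, ((u : ℚ) + k) := by
  rw [run, map_prod]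
  refine prod_congr rfl fun k _ => ?_
  simp

theorem PIG_prod_neg (i : ℕ) : ∏ k ∈ range i, (-(i : ℚ) + k) = (-1) ^ i * (i ! : ℚ) := by
  have h1 : ∏ k ∈ range i, (-(i : ℚ) + k) = ∏ k ∈ range i, ((-1) * ((i : ℚ) - k)) :=
    prod_congr rfl fun k _ => by ring
  rw [h1, prod_mul_distrib, prod_const, card_range]
  congr 1
  induction i with
  | zero => simp
  | succ i ih =>
    rw [prod_range_succ', Nat.factorial_succ]
    push_cast
    have h2 : ∏ k ∈ range i, ((i : ℚ) + 1 - (k + 1)) = ∏ k ∈ range i, ((i : ℚ) - k) :=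
      prod_congr rfl fun k _ => by ring
    rw [h2, ih (prod_congr rfl fun k _ => by ring)]
    ring

theorem PIG_prod_one (n : ℕ) : ∏ k ∈ range n, ((1 : ℚ) + k) = (n ! : ℚ) := by
  rw [← prod_range_add_one_eq_factorial]
  push_cast
  exact prod_congr rfl fun k _ => by ring

theorem PIG_L_self (p i : ℕ) : PowerSeries.constantCoeff (PIG_L p i i) = 1 := by
  rw [PIG_L, map_mul, runx, map_mul, PIG_cc_run, PIG_cc_run, PowerSeries.constantCoeff_C]
  push_cast
  rw [PIG_prod_neg]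
  have h1 : ∏ k ∈ range (2 * p - 1 - i), (-(i : ℚ) + i + 1 + k) = ((2 * p - 1 - i)! : ℚ) := by
    rw [← PIG_prod_one]
    exact prod_congr rfl fun k _ => by ring
  rw [h1]
  exact inv_mul_cancel₀ (PIG_D_ne p i)

theorem PIG_L_other (p i l' : ℕ) (hi : i < 2 * p) (hlp : l' < 2 * p) (h : l' ≠ i) :
    PowerSeries.constantCoeff (PIG_L p i l') = 0 := by
  have h1 := congrArg PowerSeries.constantCoeff (runx_mul (-(l' : ℤ)) 1 hi)
  rw [map_mul, PIG_cc_run] at h1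
  have h2 : ∏ k ∈ range (2 * p), (((-(l' : ℤ) : ℤ) : ℚ) + k) = 0 :=
    prod_eq_zero (mem_range.2 hlp) (by push_cast; ring)
  rw [h2] at h1
  have h3 : PowerSeries.constantCoeff
      (PowerSeries.C (((-(l' : ℤ) : ℤ) : ℚ) + i) + PowerSeries.C ((1 : ℤ) : ℚ) * PowerSeries.X) =
      (i : ℚ) - l' := by
    simp
    ring
  rw [h3] at h1
  have h4 : (i : ℚ) - l' ≠ 0 := by
    rw [sub_ne_zero]
    exact_mod_cast h.symm
  rw [PIG_L, map_mul, (mul_eq_zero.1 h1).resolve_right h4, mul_zero]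

theorem PIG_D_symm (p l : ℕ) (hlp : l < 2 * p) : PIG_D p (2 * p - 1 - l) = - PIG_D p l := by
  unfold PIG_D
  have h1 : 2 * p - 1 - (2 * p - 1 - l) = l := by omega
  have h2 : (-1 : ℚ) ^ (2 * p - 1 - l) = - (-1) ^ l := by
    have h3 : (-1 : ℚ) ^ (2 * p - 1 - l) * (-1) ^ l = -1 := by
      rw [← pow_add]
      have h4 : 2 * p - 1 - l + l = 2 * (p - 1) + 1 := by omega
      rw [h4, pow_add, pow_mul]
      norm_num
    have h5 : (-1 : ℚ) ^ l * (-1) ^ l = 1 := by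
      rw [← mul_pow]; norm_num
    calc (-1 : ℚ) ^ (2 * p - 1 - l) = (-1) ^ (2 * p - 1 - l) * ((-1) ^ l * (-1) ^ l) := by
          rw [h5, mul_one]
      _ = - (-1) ^ l := by rw [← mul_assoc, h3]; ring
  rw [h1, h2]
  ring

/-- the polynomial in `y` -/
noncomputable def PIG_f (p l σ : ℕ) : Polynomial ℚ :=
  Polynomial.C ((2 * (p : ℚ) - 1 - 2 * l) ^ (1 - σ) * (4 ^ (p - 1) * PIG_D p l)⁻¹) *
    ∏ k ∈ (range p).erase (p - 1 - l), (Polynomial.X - Polynomial.C ((2 * (k : ℚ) + 1) ^ 2))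

theorem PIG_f_mem (p l σ : ℕ) (hlp : l < p) : PIG_f p l σ ∈ Polynomial.degreeLT ℚ p := by
  rw [Polynomial.mem_degreeLT, PIG_f]
  have h1 : (∏ k ∈ (range p).erase (p - 1 - l),
      (Polynomial.X - Polynomial.C ((2 * (k : ℚ) + 1) ^ 2))).degree = ((p - 1 : ℕ) : WithBot ℕ) := by
    rw [Polynomial.degree_prod]
    simp only [Polynomial.degree_X_sub_C, sum_const, nsmul_eq_mul, mul_one]
    rw [card_erase_of_mem (mem_range.2 (by omega)), card_range]
  calc _ ≤ _ := Polynomial.degree_mul_le _ _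
    _ ≤ 0 + ((p - 1 : ℕ) : WithBot ℕ) := by
        rw [h1]
        gcongr
        exact Polynomial.degree_C_le
    _ < p := by
        rw [zero_add]
        exact_mod_cast (by omega : p - 1 < p)

/-- the elements with unit values at the poles -/
theorem PIG_f_eq (p l σ l' : ℕ) (hlp : l < p) (hσ : σ ≤ 1) :
    hl ℚ p l' ^ σ * ev ℚ p l' (PIG_f p l σ) =
      PIG_L p l l' + PowerSeries.C ((-1 : ℚ) ^ σ) * PIG_L p (2 * p - 1 - l) l' := by
  set α : PowerSeries ℚ := PowerSeries.C (((-(l' : ℤ) : ℤ) : ℚ) + l) +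
    PowerSeries.C ((1 : ℤ) : ℚ) * PowerSeries.X with hα
  set β : PowerSeries ℚ := PowerSeries.C (((-(l' : ℤ) : ℤ) : ℚ) + ((2 * p - 1 - l : ℕ) : ℚ)) +
    PowerSeries.C ((1 : ℤ) : ℚ) * PowerSeries.X with hβ
  have hne : ∀ c : ℚ, (PowerSeries.C c + PowerSeries.C ((1 : ℤ) : ℚ) * PowerSeries.X :
      PowerSeries ℚ) ≠ 0 := by
    intro c h
    have h1 := congrArg (PowerSeries.coeff 1) h
    simp at h1
  have hα0 : α ≠ 0 := hne _
  have hβ0 : β ≠ 0 := hne _
  set Φ : PowerSeries ℚ := run (-(l' : ℤ)) 1 (2 * p) with hΦ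
  have h1 : runx (-(l' : ℤ)) 1 (2 * p) l * α = Φ := runx_mul _ _ (by omega)
  have h2 : runx (-(l' : ℤ)) 1 (2 * p) (2 * p - 1 - l) * β = Φ := runx_mul _ _ (by omega)
  have hcast : ((2 * p - 1 - l : ℕ) : ℚ) = 2 * (p : ℚ) - 1 - l := by
    rw [Nat.cast_sub (by omega), Nat.cast_sub (by omega)]
    push_cast
    ring
  -- the polynomial side
  have h3 : ev ℚ p l' (Cp ℚ p) = PowerSeries.C ((4 : ℚ) ^ p) * Φ := by
    rw [ev_Cp_run, hΦ]
    congr 2
    ring
  have h4 : (∏ k ∈ (range p).erase (p - 1 - l),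
      (Polynomial.X - Polynomial.C ((2 * (k : ℚ) + 1) ^ 2))) *
      (Polynomial.X - Polynomial.C ((2 * ((p - 1 - l : ℕ) : ℚ) + 1) ^ 2)) = Cp ℚ p := by
    rw [Cp]
    exact prod_erase_mul _ _ (mem_range.2 (by omega))
  have hcast2 : 2 * ((p - 1 - l : ℕ) : ℚ) + 1 = 2 * (p : ℚ) - 1 - 2 * l := by
    rw [Nat.cast_sub (by omega), Nat.cast_sub (by omega)]
    push_cast
    ring
  have h5 : ev ℚ p l' (Polynomial.X - Polynomial.C ((2 * ((p - 1 - l : ℕ) : ℚ) + 1) ^ 2)) =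
      PowerSeries.C (4 : ℚ) * (α * β) := by
    rw [ev, map_sub, Polynomial.aeval_X, Polynomial.aeval_C, PowerSeries.algebraMap_apply,
      Algebra.algebraMap_self, RingHom.id_apply, hcast2, yl, hα, hβ, hcast]
    push_cast
    simp only [map_sub, map_add, map_mul, map_one, map_pow, map_natCast, map_ofNat, map_neg]
    ring
  set w : ℚ := 2 * (p : ℚ) - 1 - 2 * l with hw
  set D : ℚ := PIG_D p l with hD
  have hD0 : D ≠ 0 := PIG_D_ne p l
  have h6 : ev ℚ p l' (PIG_f p l σ) * (PowerSeries.C (4 : ℚ) * (α * β)) =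
      PowerSeries.C (4 * (w ^ (1 - σ) * D⁻¹)) * Φ := by
    rw [PIG_f, ← h5]
    have h7 : ∀ f g : Polynomial ℚ, ev ℚ p l' (f * g) = ev ℚ p l' f * ev ℚ p l' g := by
      intro f g; unfold ev; rw [map_mul]
    rw [← h7, mul_assoc, h4, h7, h3, ← mul_assoc]
    congr 1
    have h8 : ev ℚ p l' (Polynomial.C (w ^ (1 - σ) * (4 ^ (p - 1) * D)⁻¹)) =
        PowerSeries.C (w ^ (1 - σ) * (4 ^ (p - 1) * D)⁻¹) := by
      unfold ev
      rw [Polynomial.aeval_C]
      rfl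
    rw [h8, ← map_mul]
    congr 1
    have h9 : (4 : ℚ) ^ p = 4 ^ (p - 1) * 4 := by
      rw [← pow_succ]; congr 1; omega
    have h10 : (4 : ℚ) ^ (p - 1) ≠ 0 := by positivity
    rw [h9]
    field_simp
  have hR : (PIG_L p l l' + PowerSeries.C ((-1 : ℚ) ^ σ) * PIG_L p (2 * p - 1 - l) l') *
      (α * β) = PowerSeries.C D⁻¹ * (Φ * (β - PowerSeries.C ((-1 : ℚ) ^ σ) * α)) := by
    rw [PIG_L, PIG_L, PIG_D_symm p l (by omega), ← hD]
    have h11 : (PowerSeries.C (-D)⁻¹ : PowerSeries ℚ) = - PowerSeries.C D⁻¹ := by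
      rw [← map_neg, inv_neg]
    rw [h11]
    linear_combination (PowerSeries.C D⁻¹ * β) * h1 -
      (PowerSeries.C ((-1 : ℚ) ^ σ) * PowerSeries.C D⁻¹ * α) * h2
  have h4ne : (PowerSeries.C (4 : ℚ) : PowerSeries ℚ) ≠ 0 := by
    intro h
    have := congrArg PowerSeries.constantCoeff h
    simp at this
  have key : (hl ℚ p l' ^ σ * ev ℚ p l' (PIG_f p l σ)) * (PowerSeries.C (4 : ℚ) * (α * β)) =
      (PIG_L p l l' + PowerSeries.C ((-1 : ℚ) ^ σ) * PIG_L p (2 * p - 1 - l) l') *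
        (PowerSeries.C (4 : ℚ) * (α * β)) := by
    have e1 : (hl ℚ p l' ^ σ * ev ℚ p l' (PIG_f p l σ)) * (PowerSeries.C (4 : ℚ) * (α * β)) =
        hl ℚ p l' ^ σ * (PowerSeries.C (4 * (w ^ (1 - σ) * D⁻¹)) * Φ) := by
      rw [mul_assoc, h6]
    have e2 : (PIG_L p l l' + PowerSeries.C ((-1 : ℚ) ^ σ) * PIG_L p (2 * p - 1 - l) l') *
        (PowerSeries.C (4 : ℚ) * (α * β)) =
        PowerSeries.C (4 : ℚ) * (PowerSeries.C D⁻¹ *
          (Φ * (β - PowerSeries.C ((-1 : ℚ) ^ σ) * α))) := by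
      rw [← hR]; ring
    rw [e1, e2]
    rcases (by omega : σ = 0 ∨ σ = 1) with h | h
    · subst h
      have e3 : β - PowerSeries.C ((-1 : ℚ) ^ 0) * α = PowerSeries.C w := by
        rw [hα, hβ, hcast, hw]
        push_cast
        simp only [map_sub, map_add, map_mul, map_one, map_pow, map_natCast, map_ofNat, map_neg]
        ring
      rw [e3]
      simp only [map_mul, pow_zero, Nat.sub_zero, pow_one]
      ring
    · subst h
      have e3 : β - PowerSeries.C ((-1 : ℚ) ^ 1) * α = hl ℚ p l' := by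
        rw [hα, hβ, hcast, hl]
        push_cast
        simp only [map_sub, map_add, map_mul, map_one, map_pow, map_natCast, map_ofNat, map_neg]
        ring
      rw [e3]
      simp only [map_mul, pow_zero, Nat.sub_self, pow_one, map_one]
      ring
  exact mul_right_cancel₀ (mul_ne_zero h4ne (mul_ne_zero hα0 hβ0)) key

/-! ### integrality -/

theorem PIG_bf (M B : ℕ) (hM : 0 < M) : bf M (B * M) = M ! ^ B := by
  rw [bf, Nat.mul_div_cancel _ hM, Nat.mul_mod_left]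
  simp

theorem PIG_T (M B : ℕ) : ∃ T : ℕ, 0 < T ∧ T ≤ B ^ (B * M) ∧ (B * M)! = T * M ! ^ B := by
  induction B with
  | zero => exact ⟨1, one_pos, by simp, by simp⟩
  | succ B ih =>
    obtain ⟨T, hT0, hT1, hT2⟩ := ih
    refine ⟨((B + 1) * M).choose (B * M) * T, ?_, ?_, ?_⟩
    · refine Nat.mul_pos (Nat.choose_pos ?_) hT0
      exact Nat.mul_le_mul_right _ (Nat.le_succ B)
    · calc ((B + 1) * M).choose (B * M) * T ≤ ((B + 1) * M).choose (B * M) * B ^ (B * M) :=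
            Nat.mul_le_mul_left _ hT1
        _ ≤ (B + 1) ^ ((B + 1) * M) := by
            rw [add_pow]
            have h1 := Finset.single_le_sum (f := fun m => B ^ m * 1 ^ ((B + 1) * M - m) *
              ((B + 1) * M).choose m) (s := range ((B + 1) * M + 1)) (fun i _ => Nat.zero_le _)
              (mem_range.2 (by nlinarith : B * M < (B + 1) * M + 1))
            refine le_trans (le_of_eq ?_) h1
            simp only [one_pow, mul_one]
            ring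
    · have h2 : B * M ≤ (B + 1) * M := Nat.mul_le_mul_right _ (Nat.le_succ B)
      have h3 := Nat.choose_mul_factorial_mul_factorial h2
      have h4 : (B + 1) * M - B * M = M := by
        rw [Nat.succ_mul, Nat.add_sub_cancel_left]
      rw [h4, hT2] at h3
      rw [← h3, pow_succ]
      ring

theorem PIG_L_int {d M : ℕ} (B : ℕ) (hM : 0 < M) (hd : ∀ q : ℕ, 1 ≤ q → q ≤ M → q ∣ d) (p : ℕ)
    (hp : 2 * p = B * M) (T : ℕ) (hT : (B * M)! = T * M ! ^ B) (i l' : ℕ) (hi : i < 2 * p) :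
    PowerSeries.C ((T : ℚ) * d) * PIG_L p i l' ∈ dR d := by
  have h1 := runx_bf_mem hM 1 hd (2 * p) i hi (-(l' : ℤ))
  have h2 : bf M (2 * p) = M ! ^ B := by rw [hp]; exact PIG_bf M B hM
  have h3 : ∃ w : ℤ, ((T * M ! ^ B : ℕ) : ℚ) * (PIG_D p i)⁻¹ = w := by
    refine ⟨(-1) ^ i * ((2 * p * (2 * p - 1).choose i : ℕ) : ℤ), ?_⟩
    rw [← hT, ← hp, PIG_D]
    have h4 : (2 * p)! = 2 * p * (2 * p - 1)! := (Nat.mul_factorial_pred (by omega)).symm
    have h5 : i ≤ 2 * p - 1 := by omega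
    have h6 := Nat.choose_mul_factorial_mul_factorial h5
    rw [h4, ← h6]
    have h7 : (i ! : ℚ) ≠ 0 := by positivity
    have h8 : ((2 * p - 1 - i)! : ℚ) ≠ 0 := by positivity
    have h9 : ((-1 : ℚ) ^ i)⁻¹ = (-1) ^ i := by
      rw [← inv_pow]; norm_num
    push_cast
    rw [mul_inv, mul_inv, h9]
    field_simp
  have h10 : PowerSeries.C ((T : ℚ) * d) * PIG_L p i l' =
      PowerSeries.C (((T * M ! ^ B : ℕ) : ℚ) * (PIG_D p i)⁻¹) *
        (PowerSeries.C ((d : ℚ) * (bf M (2 * p) : ℚ)⁻¹) * runx (-(l' : ℤ)) 1 (2 * p) i) := by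
    rw [PIG_L, ← mul_assoc, ← mul_assoc, ← map_mul, ← map_mul]
    congr 2
    rw [h2]
    have h11 : (M ! : ℚ) ≠ 0 := by positivity
    push_cast
    field_simp
  rw [h10]
  exact smul_int_mem h3 h1

/-! ### size -/

theorem PIG_sup_step (c b : ℚ) (F : PowerSeries ℚ) (hF : ∀ j, |PowerSeries.coeff j F| ≤ b) (j : ℕ) :
    |PowerSeries.coeff j (F * (PowerSeries.C c + PowerSeries.C ((1 : ℤ) : ℚ) * PowerSeries.X))| ≤
      b * (|c| + 1) := by
  have h1 : F * (PowerSeries.C c + PowerSeries.C ((1 : ℤ) : ℚ) * PowerSeries.X) =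
      PowerSeries.C c * F + F * PowerSeries.X := by
    push_cast
    rw [map_one]
    ring
  rw [h1, map_add, PowerSeries.coeff_C_mul]
  have hb : 0 ≤ b := le_trans (abs_nonneg _) (hF 0)
  rcases j with _ | j
  · rw [PowerSeries.coeff_zero_mul_X, add_zero, abs_mul]
    nlinarith [hF 0, abs_nonneg c, mul_le_mul_of_nonneg_left (hF 0) (abs_nonneg c)]
  · rw [PowerSeries.coeff_succ_mul_X]
    refine (abs_add_le _ _).trans ?_
    rw [abs_mul]
    nlinarith [hF j, mul_le_mul_of_nonneg_left (hF (j + 1)) (abs_nonneg c)]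

theorem PIG_sup_run (u : ℤ) (z : ℕ) (b : ℚ) (F : PowerSeries ℚ)
    (hF : ∀ j, |PowerSeries.coeff j F| ≤ b) (j : ℕ) :
    |PowerSeries.coeff j (F * run u 1 z)| ≤ b * ∏ k ∈ range z, (|(u : ℚ) + k| + 1) := by
  induction z generalizing j with
  | zero => rw [run_zero, mul_one]; simpa using hF j
  | succ z ih =>
    rw [run_succ, ← mul_assoc, prod_range_succ, ← mul_assoc]
    exact PIG_sup_step _ _ _ ih j

theorem PIG_prod_fact (l' n : ℕ) :
    ∏ k ∈ range (l' + 1 + n), (|(((-(l' : ℤ) : ℤ)) : ℚ) + k| + 1) =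
      ((l' + 1)! : ℚ) * ((n + 1)! : ℚ) := by
  rw [prod_range_add]
  congr 1
  · rw [← prod_range_reflect, ← prod_range_add_one_eq_factorial]
    push_cast
    refine prod_congr rfl fun k hk => ?_
    rw [mem_range] at hk
    have h1 : ((l' - k : ℕ) : ℚ) = l' - k := Nat.cast_sub (by omega)
    rw [h1]
    have h2 : (0 : ℚ) ≤ k := by positivity
    rw [show (-(l' : ℚ) + (l' - k)) = -(k : ℚ) by ring, abs_neg, abs_of_nonneg h2]
  · rw [← prod_range_add_one_eq_factorial, prod_range_succ']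
    push_cast
    rw [mul_one]
    refine prod_congr rfl fun k hk => ?_
    have h2 : (0 : ℚ) ≤ (k : ℚ) + 1 := by positivity
    rw [show (-(l' : ℚ) + (l' + 1 + k)) = (k : ℚ) + 1 by ring, abs_of_nonneg h2]

theorem PIG_runx_bd (p i l' : ℕ) (hi : i < 2 * p) (hlp : l' < 2 * p) (j : ℕ) :
    |PowerSeries.coeff j (runx (-(l' : ℤ)) 1 (2 * p) i)| ≤ ((2 * p + 1)! : ℚ) := by
  have h1 : ∀ j, |PowerSeries.coeff j (1 : PowerSeries ℚ)| ≤ 1 := by
    intro j
    rw [PowerSeries.coeff_one]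
    split_ifs <;> simp
  have h2 := PIG_sup_run (-(l' : ℤ)) i 1 1 h1
  rw [one_mul, one_mul] at h2
  have h3 := PIG_sup_run (-(l' : ℤ) + i + 1) (2 * p - 1 - i) _ _ h2 j
  rw [runx]
  refine h3.trans ?_
  have h4 := PIG_prod_fact l' (2 * p - 1 - l')
  rw [show l' + 1 + (2 * p - 1 - l') = i + 1 + (2 * p - 1 - i) by omega, prod_range_add,
    prod_range_succ] at h4
  set A := ∏ k ∈ range i, (|(((-(l' : ℤ) : ℤ)) : ℚ) + k| + 1) with hA
  have h5 : ∏ k ∈ range (2 * p - 1 - i), (|((-(l' : ℤ) + i + 1 : ℤ) : ℚ) + k| + 1) =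
      ∏ k ∈ range (2 * p - 1 - i), (|(((-(l' : ℤ) : ℤ)) : ℚ) + ((i + 1 + k : ℕ) : ℚ)| + 1) := by
    refine prod_congr rfl fun k _ => ?_
    push_cast
    ring_nf
  rw [h5]
  set C' := ∏ k ∈ range (2 * p - 1 - i), (|(((-(l' : ℤ) : ℤ)) : ℚ) + ((i + 1 + k : ℕ) : ℚ)| + 1)
    with hC'
  have hA0 : 0 ≤ A := prod_nonneg fun k _ => by positivity
  have hC0 : 0 ≤ C' := prod_nonneg fun k _ => by positivity
  have h6 : A * C' ≤ ((l' + 1)! : ℚ) * ((2 * p - 1 - l' + 1)! : ℚ) := by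
    rw [← h4]
    have h7 : 0 ≤ |(((-(l' : ℤ) : ℤ)) : ℚ) + i| := abs_nonneg _
    nlinarith [mul_nonneg (mul_nonneg hA0 hC0) h7]
  refine h6.trans ?_
  have h8 : (l' + 1)! * (2 * p - 1 - l' + 1)! ≤ (2 * p + 1)! := by
    have h9 := Nat.factorial_mul_factorial_dvd_factorial_add (l' + 1) (2 * p - 1 - l' + 1)
    rw [show l' + 1 + (2 * p - 1 - l' + 1) = 2 * p + 1 by omega] at h9
    exact Nat.le_of_dvd (Nat.factorial_pos _) h9
  exact_mod_cast h8

theorem PIG_L_bd (p i l' : ℕ) (hi : i < 2 * p) (hlp : l' < 2 * p) (j : ℕ) :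
    |PowerSeries.coeff j (PIG_L p i l')| ≤ (2 * p + 1) ^ 2 * 4 ^ p / 2 := by
  rw [PIG_L, PowerSeries.coeff_C_mul, abs_mul]
  have h1 := PIG_runx_bd p i l' hi hlp j
  have h2 : |(PIG_D p i)⁻¹| * ((2 * p + 1)! : ℚ) = (2 * p + 1) * (2 * p) * (2 * p - 1).choose i := by
    rw [abs_inv, PIG_D, abs_mul, abs_mul, abs_pow, abs_neg, abs_one, one_pow, one_mul,
      abs_of_nonneg (by positivity : (0 : ℚ) ≤ (i ! : ℚ)),
      abs_of_nonneg (by positivity : (0 : ℚ) ≤ ((2 * p - 1 - i)! : ℚ))]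
    have h4 : (2 * p)! = 2 * p * (2 * p - 1)! := (Nat.mul_factorial_pred (by omega)).symm
    have h5 : i ≤ 2 * p - 1 := by omega
    have h6 := Nat.choose_mul_factorial_mul_factorial h5
    rw [Nat.factorial_succ, h4, ← h6]
    have h7 : (i ! : ℚ) ≠ 0 := by positivity
    have h8 : ((2 * p - 1 - i)! : ℚ) ≠ 0 := by positivity
    push_cast
    field_simp
  have h3 : ((2 * p - 1).choose i : ℚ) ≤ 2 ^ (2 * p - 1) := by
    exact_mod_cast Nat.choose_le_two_pow (2 * p - 1) i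
  have h9 : (2 : ℚ) ^ (2 * p - 1) * 2 = 4 ^ p := by
    rw [← pow_succ, show 2 * p - 1 + 1 = 2 * p by omega, pow_mul]
    norm_num
  calc |(PIG_D p i)⁻¹| * |PowerSeries.coeff j (runx (-(l' : ℤ)) 1 (2 * p) i)|
      ≤ |(PIG_D p i)⁻¹| * ((2 * p + 1)! : ℚ) := mul_le_mul_of_nonneg_left h1 (abs_nonneg _)
    _ = (2 * p + 1) * (2 * p) * (2 * p - 1).choose i := h2
    _ ≤ (2 * p + 1) * (2 * p) * 2 ^ (2 * p - 1) := mul_le_mul_of_nonneg_left h3 (by positivity)
    _ ≤ (2 * p + 1) * (2 * p + 1) * 2 ^ (2 * p - 1) := by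
        gcongr
        linarith
    _ = _ := by rw [← h9]; ring

end Pool.Agent.SI
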