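import Pool.Agent.SI.Defs
import Pool.Agent.SI.HSL
import Pool.Agent.SI.POL
import Pool.Agent.ZC.ENT
import Pool.Agent.ZC.CORA
import Pool.Agent.SI.PIGC
import Pool.Agent.SI.PIGL

/-!
# SI2: projection along `X^e h^(e%2) f(y)`, `e ∈ J`, `deg f < p`
-/

namespace Pool.Agent.SI

open Finset Pool.Agent.ZC

/-- the element with unit value at the pole `l`, order `k` -/
noncomputable def PIG_V (p l k l' : ℕ) : PowerSeries ℚ :=
  PIG_L p l l' + PowerSeries.C ((-1 : ℚ) ^ (k % 2)) * PIG_L p (2 * p - 1 - l) l'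

theorem PIG_V_zero (p l k l' : ℕ) (hlp : l < p) (hlp' : l' < p) :
    PowerSeries.coeff 0 (PIG_V p l k l') = if l' = l then 1 else 0 := by
  rw [PowerSeries.coeff_zero_eq_constantCoeff_apply, PIG_V, map_add, map_mul,
    PIG_L_other p (2 * p - 1 - l) l' (by omega) (by omega) (by omega), mul_zero, add_zero]
  split_ifs with h
  · rw [h]; exact PIG_L_self p l
  · exact PIG_L_other p l l' (by omega) (by omega) h

theorem PIG_V_bd (p l k l' : ℕ) (hlp : l < p) (hlp' : l' < p) (j : ℕ) :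
    |PowerSeries.coeff j (PIG_V p l k l')| ≤ (2 * p + 1) ^ 2 * 4 ^ p := by
  rw [PIG_V, map_add, PowerSeries.coeff_C_mul]
  have h1 := PIG_L_bd p l l' (by omega) (by omega) j
  have h2 := PIG_L_bd p (2 * p - 1 - l) l' (by omega) (by omega) j
  refine (abs_add_le _ _).trans ?_
  have h3 : |(-1 : ℚ) ^ (k % 2) * PowerSeries.coeff j (PIG_L p (2 * p - 1 - l) l')| =
      |PowerSeries.coeff j (PIG_L p (2 * p - 1 - l) l')| := by
    rw [abs_mul, abs_pow, abs_neg, abs_one, one_pow, one_mul]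
  rw [h3]
  linarith

theorem PIG_V_int {d M : ℕ} (B : ℕ) (hM : 0 < M) (hd : ∀ q : ℕ, 1 ≤ q → q ≤ M → q ∣ d) (p : ℕ)
    (hp : 2 * p = B * M) (T : ℕ) (hT : (B * M).factorial = T * M.factorial ^ B) (l k l' : ℕ)
    (hlp : l < p) (j : ℕ) :
    ∃ w : ℤ, ((T * d ^ (j + 1) : ℕ) : ℚ) * PowerSeries.coeff j (PIG_V p l k l') = w := by
  have h1 := PIG_L_int B hM hd p hp T hT l l' (by omega)
  have h2 := PIG_L_int B hM hd p hp T hT (2 * p - 1 - l) l' (by omega)
  have h3 : PowerSeries.C ((T : ℚ) * d) * PIG_V p l k l' ∈ dR d := by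
    have h4 : PowerSeries.C ((T : ℚ) * d) * PIG_V p l k l' =
        PowerSeries.C ((T : ℚ) * d) * PIG_L p l l' + PowerSeries.C (((-1 : ℤ) ^ (k % 2) : ℤ) : ℚ) *
          (PowerSeries.C ((T : ℚ) * d) * PIG_L p (2 * p - 1 - l) l') := by
      rw [PIG_V]
      push_cast
      ring
    rw [h4]
    exact add_mem h1 (mul_mem (C_int_mem d _) h2)
  rw [mem_dR] at h3
  obtain ⟨w, hw⟩ := h3 j
  refine ⟨w, ?_⟩
  rw [← hw, PowerSeries.coeff_C_mul]
  push_cast
  ring

theorem PIG_coeff (J : Finset ℕ) (k m : ℕ) (c : ℕ → ℤ) (V : PowerSeries ℚ) :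
    PowerSeries.coeff m (∑ e ∈ J, PowerSeries.X ^ e *
      (if k ≤ e then PowerSeries.C (c (e - k) : ℚ) * hs ℚ (e - k) V else 0)) =
      ((∑ e ∈ J, (if k ≤ e ∧ e ≤ m then ((m - k).choose (e - k) : ℤ) * c (e - k) else 0) : ℤ) : ℚ) *
        PowerSeries.coeff (m - k) V := by
  rw [map_sum, Int.cast_sum, sum_mul]
  refine sum_congr rfl fun e _ => ?_
  rw [PowerSeries.coeff_X_pow_mul']
  by_cases h1 : e ≤ m
  · rw [if_pos h1]
    by_cases h2 : k ≤ e
    · rw [if_pos h2, if_pos ⟨h2, h1⟩, PowerSeries.coeff_C_mul, coeff_hs]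
      have h3 : m - e + (e - k) = m - k := by omega
      rw [h3]
      push_cast
      ring
    · rw [if_neg h2, if_neg (fun h => h2 h.1)]
      simp
  · rw [if_neg h1, if_neg (fun h => h1 h.2)]
    simp

/-- projection along the exponents in `J`, everything needed for the determinant inequality -/
theorem pi_gen (J : Finset ℕ) (a : ℕ) (hJ : ∀ e ∈ J, e < a) (B M d p : ℕ) (hM : 0 < M)
    (hd : ∀ q : ℕ, 1 ≤ q → q ≤ M → q ∣ d) (hB : 2 * p = B * M) (hp : 1 ≤ p) :
    ∃ (T : ℕ) (ω : ℕ → ℕ → ℕ → ℕ → ℚ), 0 < T ∧ T ≤ B ^ (B * M) ∧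
      (∀ l < p, ∀ k ∈ J, ∃ Q : ℕ → Polynomial ℚ, (∀ e, Q e ∈ Polynomial.degreeLT ℚ p) ∧
        ∀ l' < p, ∀ m < a, PowerSeries.coeff m
          (∑ e ∈ J, PowerSeries.X ^ e * (hl ℚ p l' ^ (e % 2) * ev ℚ p l' (Q e))) =
            if m ∈ J then (if l' = l ∧ m = k then 1 else 0) else ω l k l' m) ∧
      (∀ l < p, ∀ k ∈ J, ∀ l' < p, ∀ m < a, m ∉ J →
        ∃ w : ℤ, ((T * d ^ a : ℕ) : ℚ) * ω l k l' m = w) ∧
      (∀ l < p, ∀ k ∈ J, ∀ l' < p, ∀ m < a, m ∉ J →
        |((ω l k l' m : ℚ) : ℝ)| ≤ ((a + 1).factorial * 2 ^ (a + 1) : ℕ) *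
          (2 ^ a * (2 * p + 1) ^ 2 * 4 ^ p)) := by
  obtain ⟨T, hT0, hT1, hT2⟩ := PIG_T M B
  refine ⟨T, fun l k l' m => if k < m then
    ((- PIG_c J k (m - k) : ℤ) : ℚ) * PowerSeries.coeff (m - k) (PIG_V p l k l') else 0,
    hT0, hT1, ?_, ?_, ?_⟩
  · intro l hlp k hk
    have hex : ∀ i, ∃ f' ∈ Polynomial.degreeLT ℚ p, ∀ p' l',
        hs ℚ i (hl ℚ p' l' ^ (k % 2) * ev ℚ p' l' (PIG_f p l (k % 2))) =
          hl ℚ p' l' ^ ((k % 2 + i) % 2) * ev ℚ p' l' f' := fun i =>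
      hs_hl_ev p (k % 2) i (by omega) _ (PIG_f_mem p l _ hlp)
    choose f' hf' hff' using hex
    refine ⟨fun e => if k ≤ e then Polynomial.C (PIG_c J k (e - k) : ℚ) * f' (e - k) else 0, ?_, ?_⟩
    · intro e
      simp only
      split_ifs
      · rw [← Polynomial.smul_eq_C_mul]
        exact Submodule.smul_mem _ _ (hf' _)
      · exact Submodule.zero_mem _
    · intro l' hlp' m hm
      have h1 : ∑ e ∈ J, PowerSeries.X ^ e * (hl ℚ p l' ^ (e % 2) * ev ℚ p l'
          (if k ≤ e then Polynomial.C (PIG_c J k (e - k) : ℚ) * f' (e - k) else 0)) =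
          ∑ e ∈ J, PowerSeries.X ^ e *
            (if k ≤ e then PowerSeries.C (PIG_c J k (e - k) : ℚ) *
              hs ℚ (e - k) (PIG_V p l k l') else 0) := by
        refine sum_congr rfl fun e _ => ?_
        congr 1
        split_ifs with h
        · have h2 : PIG_V p l k l' = hl ℚ p l' ^ (k % 2) * ev ℚ p l' (PIG_f p l (k % 2)) := by
            rw [PIG_V, PIG_f_eq p l (k % 2) l' hlp (by omega)]
          rw [h2, hff' (e - k) p l']
          have h3 : (k % 2 + (e - k)) % 2 = e % 2 := by omega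
          rw [h3]
          have h4 : ev ℚ p l' (Polynomial.C (PIG_c J k (e - k) : ℚ) * f' (e - k)) =
              PowerSeries.C (PIG_c J k (e - k) : ℚ) * ev ℚ p l' (f' (e - k)) := by
            unfold ev
            rw [map_mul, Polynomial.aeval_C]
            rfl
          rw [h4]
          ring
        · unfold ev
          rw [map_zero, mul_zero]
      simp only
      rw [h1, PIG_coeff J k m (PIG_c J k) (PIG_V p l k l')]
      rcases Nat.lt_trichotomy m k with h | h | h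
      · -- m < k
        have h5 : ∑ e ∈ J, (if k ≤ e ∧ e ≤ m then ((m - k).choose (e - k) : ℤ) *
            PIG_c J k (e - k) else 0) = 0 :=
          sum_eq_zero fun e _ => if_neg (by omega)
        rw [h5, if_neg (by omega : ¬ k < m)]
        have h6 : ¬ (l' = l ∧ m = k) := by omega
        rw [if_neg h6]
        simp
      · subst h
        have h5 : ∑ e ∈ J, (if m ≤ e ∧ e ≤ m then ((m - m).choose (e - m) : ℤ) *
            PIG_c J m (e - m) else 0) = 1 := by
          rw [PIG_sum J m m le_rfl (fun i => ((m - m).choose i : ℤ) * PIG_c J m i)]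
          simp [hk, PIG_c_zero]
        rw [h5, if_pos hk, Nat.sub_self, PIG_V_zero p l m l' hlp hlp']
        simp
      · rw [PIG_c_tri J k m h]
        split_ifs with h7 h8
        · omega
        · simp
        · rfl
  · intro l hlp k hk l' hlp' m hm _
    simp only
    split_ifs with h
    · obtain ⟨w, hw⟩ := PIG_V_int B hM hd p hB T hT2 l k l' hlp (m - k)
      refine ⟨(- PIG_c J k (m - k)) * (d ^ (a - (m - k + 1)) : ℕ) * w, ?_⟩
      have h1 : a = (m - k + 1) + (a - (m - k + 1)) := by omega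
      have h2 : d ^ a = d ^ (m - k + 1) * d ^ (a - (m - k + 1)) := by
        rw [← pow_add, ← h1]
      rw [h2]
      push_cast at hw ⊢
      rw [← hw]
      ring
    · exact ⟨0, by simp⟩
  · intro l hlp k hk l' hlp' m hm _
    simp only
    split_ifs with h
    · have h1 := PIG_V_bd p l k l' hlp hlp' (m - k)
      have h2 := PIG_c_abs J k (m - k)
      have h3 : |((- PIG_c J k (m - k) : ℤ) : ℚ)| ≤ ((a + 1).factorial * 2 ^ (a + 1) : ℕ) := by
        rw [Int.cast_neg, abs_neg, ← Int.cast_abs]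
        have h4 : ((m - k).factorial * 2 ^ (m - k) : ℕ) ≤ (a + 1).factorial * 2 ^ (a + 1) :=
          Nat.mul_le_mul (Nat.factorial_le (by omega)) (Nat.pow_le_pow_right (by norm_num) (by omega))
        have h5 : |PIG_c J k (m - k)| ≤ (((a + 1).factorial * 2 ^ (a + 1) : ℕ) : ℤ) :=
          h2.trans (by exact_mod_cast h4)
        exact_mod_cast h5
      have h6 : |((- PIG_c J k (m - k) : ℤ) : ℚ) * PowerSeries.coeff (m - k) (PIG_V p l k l')| ≤
          ((a + 1).factorial * 2 ^ (a + 1) : ℕ) * (2 ^ a * (2 * p + 1) ^ 2 * 4 ^ p) := by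
        rw [abs_mul]
        refine mul_le_mul h3 (h1.trans ?_) (abs_nonneg _) (by positivity)
        have h7 : (1 : ℚ) ≤ 2 ^ a := one_le_pow₀ (by norm_num)
        have h8 : (0 : ℚ) ≤ (2 * p + 1) ^ 2 * 4 ^ p := by positivity
        nlinarith
      have h9 : ((|((- PIG_c J k (m - k) : ℤ) : ℚ) *
          PowerSeries.coeff (m - k) (PIG_V p l k l')| : ℚ) : ℝ) ≤
          ((((a + 1).factorial * 2 ^ (a + 1) : ℕ) * (2 ^ a * (2 * p + 1) ^ 2 * 4 ^ p) : ℚ) : ℝ) := by
        exact_mod_cast h6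
      rw [Rat.cast_abs] at h9
      refine h9.trans (le_of_eq ?_)
      push_cast
      ring
    · rw [Rat.cast_zero, abs_zero]
      positivity

end Pool.Agent.SI
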