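import Pool.Agent.SI.LAP
import Pool.Agent.SI.PIG

/-!
# SI2: the determinant inequality with the columns in `J` projected away
-/

namespace Pool.Agent.SI

open Finset Pool.Agent.ZC

theorem det_ineq_pi {Cc Fi : Type} [Fintype Cc] [Fintype Fi] (p a B M d : ℕ) (J : Finset ℕ)
    (hp : 1 ≤ p) (hJ : ∀ e ∈ J, e < a) (hM : 0 < M) (hd0 : 0 < d)
    (hd : ∀ q : ℕ, 1 ≤ q → q ≤ M → q ∣ d)
    (hB : 2 * p = B * M) (v : Cc ⊕ Fi → ℕ → ℕ → ℚ)
    (hmod : ∀ (b : Cc → ℚ) (f : Fi → ℚ),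
      (∀ l < p, ∀ m < a, ∑ i, b i * v (.inl i) l m + ∑ j, f j * v (.inr j) l m = 0) →
        ∀ j, f j = 0)
    (hV : ∀ e ∈ J, ∀ f ∈ Polynomial.degreeLT ℚ p, ∃ β : Cc → ℚ, ∀ l < p, ∀ m < a,
      ∑ i, β i * v (.inl i) l m =
        PowerSeries.coeff m (PowerSeries.X ^ e * (hl ℚ p l ^ (e % 2) * ev ℚ p l f)))
    (D : ℕ) (hD : 0 < D) (hint : ∀ r, ∀ l < p, ∀ m < a, ∃ w : ℤ, (D : ℚ) * v r l m = w)
    (N t : ℝ) (hN : 0 ≤ N) (ht0 : 0 ≤ t) (ht1 : t < 1) (γ : Fi → ℕ → ℝ) (u : ℕ → ℕ → ℕ → ℝ)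
    (h1 : ∀ i, ∀ l < p, ∀ m < a, |(v (.inl i) l m : ℝ)| ≤ N)
    (h2 : ∀ j k, ∀ l < p, ∀ m < a, |γ j k * u k l m| ≤ N * t ^ (2 * k))
    (h3 : ∀ j, ∃ α : Cc → ℝ, ∀ l < p, ∀ m < a, HasSum (fun k => γ j k * u k l m)
      ((v (.inr j) l m : ℝ) - ∑ i, α i * (v (.inl i) l m : ℝ))) :
    ∃ R T : ℕ, Fintype.card Fi ≤ R ∧ R ≤ p * (a - J.card) ∧ 1 ≤ T ∧ T ≤ B ^ (B * M) ∧
      1 ≤ ((D * (T * d ^ a) : ℕ) : ℝ) ^ R * ((R.factorial : ℝ) *
        (N * (1 + ((p * J.card : ℕ) : ℝ) * (((a + 1).factorial * 2 ^ (a + 1) : ℕ) *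
          (2 ^ a * (2 * p + 1) ^ 2 * 4 ^ p)))) ^ R *
        t ^ (Fintype.card Fi * (Fintype.card Fi - 1) / 2) * (1 / (1 - t)) ^ Fintype.card Fi) := by
  classical
  obtain ⟨T, ω, hT0, hT1, hω1, hω2, hω3⟩ := pi_gen J a hJ B M d p hM hd hB hp
  obtain ⟨R, hR1, _, hR2, hR3⟩ := det_ineq_proj (CL := Fin p × {e // e ∈ J})
    (CH := Fin p × {m // m ∈ range a \ J})
    (fun r x => match x with
      | .inl x => v r x.1 x.2.1
      | .inr y => v r y.1 y.2.1) ∅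
    (by
      intro b f hbf
      refine hmod b f fun l hl m hm => ?_
      by_cases h : m ∈ J
      · exact hbf (.inl (⟨l, hl⟩, ⟨m, h⟩))
      · exact hbf (.inr (⟨l, hl⟩, ⟨m, mem_sdiff.2 ⟨mem_range.2 hm, h⟩⟩)))
    (fun x y => ω x.1 x.2.1 y.1 y.2.1)
    (fun i hi => absurd hi (Finset.notMem_empty i))
    (by
      rintro ⟨l0, k0⟩
      obtain ⟨Q, hQ, hQe⟩ := hω1 l0 l0.2 k0.1 k0.2
      choose! β hβ using hV
      have e1 : ∀ l < p, ∀ m < a, ∑ i, (∑ e ∈ J, β e (Q e) i) * v (Sum.inl i) l m =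
            PowerSeries.coeff m
              (∑ e ∈ J, PowerSeries.X ^ e * (hl ℚ p l ^ (e % 2) * ev ℚ p l (Q e))) := by
        intro l hl m hm
        simp only [sum_mul]
        rw [sum_comm, map_sum]
        exact sum_congr rfl fun e he => hβ e he (Q e) (hQ e) l hl m hm
      refine ⟨fun i => ∑ e ∈ J, β e (Q e) i, ?_, ?_⟩
      · rintro ⟨l, k⟩
        simp only
        rw [e1 l l.2 k.1 (hJ _ k.2), hQe l l.2 k.1 (hJ _ k.2), if_pos k.2]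
        simp only [Prod.mk.injEq, Fin.ext_iff, Subtype.ext_iff]
      · rintro ⟨l, ⟨m, hm⟩⟩
        simp only
        rw [mem_sdiff, mem_range] at hm
        rw [e1 l l.2 m hm.1, hQe l l.2 m hm.1, if_neg hm.2])
    D (T * d ^ a) hD (by positivity)
    (by
      rintro r (⟨l, k⟩ | ⟨l, ⟨m, hm⟩⟩)
      · exact hint r l l.2 k (hJ _ k.2)
      · exact hint r l l.2 m (mem_range.1 (mem_sdiff.1 hm).1))
    (by
      rintro ⟨l, k⟩ ⟨l', ⟨m, hm⟩⟩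
      rw [mem_sdiff, mem_range] at hm
      exact hω2 l l.2 k.1 k.2 l' l'.2 m hm.1 hm.2)
    N (((a + 1).factorial * 2 ^ (a + 1) : ℕ) * (2 ^ a * (2 * p + 1) ^ 2 * 4 ^ p)) t hN
    (by positivity) ht0 ht1
    (by
      rintro ⟨l, k⟩ ⟨l', ⟨m, hm⟩⟩
      rw [mem_sdiff, mem_range] at hm
      exact hω3 l l.2 k.1 k.2 l' l'.2 m hm.1 hm.2)
    (fun j k x => γ j k * match x with
      | .inl x => u k x.1 x.2.1
      | .inr y => u k y.1 y.2.1)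
    (fun k x => match x with
      | .inl x => u k x.1 x.2.1
      | .inr y => u k y.1 y.2.1)
    (by
      rintro i (⟨l, k⟩ | ⟨l, ⟨m, hm⟩⟩)
      · exact h1 i l l.2 k (hJ _ k.2)
      · exact h1 i l l.2 m (mem_range.1 (mem_sdiff.1 hm).1))
    (by
      rintro j κ (⟨l, k⟩ | ⟨l, ⟨m, hm⟩⟩)
      · exact h2 j κ l l.2 k (hJ _ k.2)
      · exact h2 j κ l l.2 m (mem_range.1 (mem_sdiff.1 hm).1))
    (by
      intro j k
      refine ⟨0, fun i => if i = k then γ j k else 0, fun x => ?_⟩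
      simp [Finset.sum_ite_eq', ite_mul])
    (by
      intro j
      obtain ⟨α, hα⟩ := h3 j
      refine ⟨α, ?_⟩
      rintro (⟨l, k⟩ | ⟨l, ⟨m, hm⟩⟩)
      · exact hα l l.2 k (hJ _ k.2)
      · exact hα l l.2 m (mem_range.1 (mem_sdiff.1 hm).1))
  have hcH : (range a \ J).card = a - J.card := by
    rw [card_sdiff_of_subset (fun e he => mem_range.2 (hJ e he)), card_range]
  refine ⟨R, T, hR1, ?_, hT0, hT1, ?_⟩
  · simpa only [Fintype.card_prod, Fintype.card_fin, Fintype.card_coe, hcH] using hR2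
  · simpa only [Fintype.card_prod, Fintype.card_fin, Fintype.card_coe] using hR3

end Pool.Agent.SI
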