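import Pool.Agent.SI.ONE
import Pool.Agent.SI.PRJ

/-!
# SI2: the determinant inequality for large M, near families and projection
-/

namespace Pool.Agent.SI

open Finset Pool.Agent.ZC

/-- merging the families `x < Lx` of the level `k` -/
theorem ONE2_hasSum (k0 k Lx : ℕ) (hk : k ≤ k0) (hL : 0 < Lx) (f : ℕ → ℕ → ℝ) (s : ℕ → ℝ)
    (h : ∀ x < Lx, HasSum (f x) (s x)) :
    HasSum (fun κ' : ℕ => if κ' % ((k0 + 1) * Lx) / Lx = k then
      f (κ' % ((k0 + 1) * Lx) % Lx) (κ' / ((k0 + 1) * Lx)) else 0) (∑ x ∈ range Lx, s x) := by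
  have hK : (k0 + 1) * Lx = ((k0 + 1) * Lx - 1) + 1 := by
    have : 0 < (k0 + 1) * Lx := by positivity
    omega
  have h1 : ∀ x ∈ range Lx, HasSum (fun κ' : ℕ => if κ' % ((k0 + 1) * Lx) = k * Lx + x then
      f x (κ' / ((k0 + 1) * Lx)) else 0) (s x) := by
    intro x hx
    rw [mem_range] at hx
    have h2 : k * Lx + x ≤ (k0 + 1) * Lx - 1 := by
      have : (k + 1) * Lx ≤ (k0 + 1) * Lx := Nat.mul_le_mul_right _ (by omega)
      have h3 : (k + 1) * Lx = k * Lx + Lx := by ring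
      omega
    have h3 := ONE_hasSum ((k0 + 1) * Lx - 1) (k * Lx + x) h2 (f x) (s x) (h x hx)
    rw [← hK] at h3
    exact h3
  have h4 := hasSum_sum h1
  convert h4 using 1
  funext κ'
  set e := κ' % ((k0 + 1) * Lx) with he
  by_cases h5 : e / Lx = k
  · rw [if_pos h5, Finset.sum_eq_single (e % Lx)]
    · rw [if_pos]
      rw [← h5]
      have := Nat.div_add_mod e Lx
      rw [mul_comm] at this
      exact this.symm
    · intro x hx hxe
      rw [mem_range] at hx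
      rw [if_neg]
      intro h6
      apply hxe
      rw [h6, Nat.add_comm, Nat.add_mul_mod_self_right, Nat.mod_eq_of_lt hx]
    · intro h6
      exact absurd (mem_range.2 (Nat.mod_lt _ hL)) h6
  · rw [if_neg h5, Finset.sum_eq_zero]
    intro x hx
    rw [mem_range] at hx
    rw [if_neg]
    intro h6
    apply h5
    rw [h6, Nat.add_comm, Nat.add_mul_div_right _ _ hL, Nat.div_eq_of_lt hx, zero_add]

theorem ONE2_rate (t : ℝ) (K κ' : ℕ) (hK : 0 < K) (ht0 : 0 ≤ t) (ht1 : t ≤ 1)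
    (ht : t ^ (2 * K) = 1 / 2) : (1 / 2 : ℝ) ^ (κ' / K) ≤ 2 * t ^ (2 * κ') := by
  have e1 : t ^ (2 * κ') = (1 / 2) ^ (κ' / K) * t ^ (2 * (κ' % K)) := by
    rw [← ht, ← pow_mul, ← pow_add]
    congr 1
    have := Nat.div_add_mod κ' K
    calc 2 * κ' = 2 * (K * (κ' / K) + κ' % K) := by rw [this]
      _ = _ := by ring
  have e2 : (1 / 2 : ℝ) ≤ t ^ (2 * (κ' % K)) := by
    rw [← ht]
    have := Nat.mod_lt κ' hK
    exact pow_le_pow_of_le_one ht0 ht1 (by omega)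
  rw [e1]
  have h3 : (0 : ℝ) ≤ (1 / 2) ^ (κ' / K) := by positivity
  nlinarith

/-- the near families of all levels and orders -/
def NRfam (g S k0 a Lx M : ℕ) (N0 : ℝ) : Prop :=
  ∃ (U : ℕ → ℕ → ℕ → ℕ → PowerSeries ℝ) (γ : ℕ → ℕ → ℕ → ℕ → ℕ → ℝ),
    (∀ k ≤ k0, ∀ r ≤ S, ∀ j < (a + S + 1) * M,
      ∃ Q ∈ Polynomial.degreeLT ℝ ((g + 2) * ((a + S + 1) * M)),
      ∀ l < g * ((a + S + 1) * M), ∀ m < a, ∃ s : ℕ → ℝ,
        (∀ x < Lx, HasSum (fun κ : ℕ => γ x k r j κ * PowerSeries.coeff m (U x k l κ)) (s x)) ∧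
        ∑ x ∈ range Lx, s x = PowerSeries.coeff m (PowerSeries.X ^ k *
          hs ℝ r (hl ℝ (g * ((a + S + 1) * M)) l ^ ((k + r) % 2) *
            ev ℝ (g * ((a + S + 1) * M)) l (Am ℝ M ((g + 1) * ((a + S + 1) * M)) * Cn ℝ M j) *
            Gh ℝ (g * ((a + S + 1) * M)) l (a + S) zr)) -
          PowerSeries.coeff m (PowerSeries.X ^ k * (hl ℝ (g * ((a + S + 1) * M)) l ^ (k % 2) *
            ev ℝ (g * ((a + S + 1) * M)) l Q))) ∧
    ∀ x < Lx, ∀ k ≤ k0, ∀ r ≤ S, ∀ j < (a + S + 1) * M, ∀ l < g * ((a + S + 1) * M), ∀ m < a,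
      ∀ κ : ℕ, |γ x k r j κ * PowerSeries.coeff m (U x k l κ)| ≤ N0 * (1 / 2) ^ κ

/-- for fixed data and `M` large: the determinant inequality -/
theorem si_one2 (g S k0 a Lx : ℕ) (Cst : ℝ) (hCst : 100 ≤ Cst) (hL : 0 < Lx)
    (hNR : ∃ M0 : ℕ, ∀ M ≥ M0, NRfam g S k0 a Lx M
      ((Cst * ((g : ℝ) + 2) * (a + S + 1)) ^ (4 * ((g + 2) * ((a + S + 1) * M)))))
    (hg : 1 ≤ g) (ha : 1 ≤ a) {J : Type} [Fintype J]
    (ψ : J → PowerSeries ℚ) (σ : J → ℕ) (hσ : ∀ j, σ j ≤ 1)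
    (hψ : ∀ j, PowerSeries.evalNegHom (ψ j) = PowerSeries.C ((-1 : ℚ) ^ σ j) * ψ j) (z : ℕ → ℚ)
    (hi : (g + 2) * (k0 + 1 + Fintype.card J) + (k0 + 1) * (S + 1) + 1 ≤ g * (a - k0))
    (J0 : Finset ℕ) (hJ0 : ∀ e ∈ J0, e < a)
    (hJ1 : ∀ e ∈ J0, ∃ j, σ j = e % 2 ∧ ψ j = PowerSeries.X ^ e)
    (H0 : ∀ k ≤ k0, ∃ j, σ j = k % 2 ∧ ψ j = PowerSeries.X ^ k)
    (H1 : ∀ k ≤ k0, ∀ r ≤ S, ∃ α : J → ℝ, (∀ j, α j ≠ 0 → σ j = (k + r) % 2) ∧ ∀ m < a,
      PowerSeries.coeff m (PowerSeries.X ^ k *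
        hs ℝ r (zp ℝ (a + S) (fun i => zr i - (z i : ℝ)))) =
          ∑ j, α j * ((PowerSeries.coeff m (ψ j) : ℚ) : ℝ)) :
    ∃ D0 : ℕ, 0 < D0 ∧ ∃ M0 : ℕ, ∀ M ≥ M0, ∃ R T : ℕ, 1 ≤ R ∧
      R ≤ g * ((a + S + 1) * M) * (a - J0.card) ∧
      1 ≤ T ∧ T ≤ (2 * g * (a + S + 1)) ^ (2 * g * (a + S + 1) * M) ∧
      1 ≤ ((D0 * Nat.lcmUpto (2 * M) ^ (a + S + 1) * (T * Nat.lcmUpto (2 * M) ^ a) : ℕ) : ℝ) ^ R *
        ((R.factorial : ℝ) *
        (2 * (Cst * ((g : ℝ) + 2) * (a + S + 1)) ^ (4 * ((g + 2) * ((a + S + 1) * M))) *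
          (1 + ((g * ((a + S + 1) * M) * J0.card : ℕ) : ℝ) *
            (((a + 1).factorial * 2 ^ (a + 1) : ℕ) *
              (2 ^ a * (2 * (g * ((a + S + 1) * M) : ℕ) + 1) ^ 2 *
                4 ^ (g * ((a + S + 1) * M)))))) ^ R *
        ((1 / 2) ^ ((1 : ℝ) / (2 * ((k0 + 1) * Lx : ℕ)))) ^
          (((k0 + 1) * ((S + 1) * ((a + S + 1) * M))) *
            ((k0 + 1) * ((S + 1) * ((a + S + 1) * M)) - 1) / 2) *
        (1 / (1 - (1 / 2) ^ ((1 : ℝ) / (2 * ((k0 + 1) * Lx : ℕ))))) ^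
          ((k0 + 1) * ((S + 1) * ((a + S + 1) * M)))) := by
  classical
  obtain ⟨D0, hD0, hDz, hDψ⟩ := ONE_den a (a + S) ψ z
  obtain ⟨P0, hP0⟩ := ONE_mod g S k0 a (a + S) hg ψ σ hσ hψ z hi
  obtain ⟨M1, hM1⟩ := bd_cRow g S a hg ha
    (fun j => PowerSeries.map (algebraMap ℚ ℝ) (ψ j)) σ hσ
  obtain ⟨M2, hM2⟩ := hNR
  refine ⟨D0, hD0, P0 + M1 + M2 + 1, fun M hM => ?_⟩
  have hMP0 : P0 ≤ M := by omega
  have hMM1 : M1 ≤ M := by omega
  have hMM2 : M2 ≤ M := by omega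
  have hMpos : 0 < M := by omega
  obtain ⟨P, hP⟩ : ∃ P, P = (a + S + 1) * M := ⟨_, rfl⟩
  have hPM : M ≤ P := by rw [hP]; exact Nat.le_mul_of_pos_left _ (by omega)
  have hPpos : 0 < P := by omega
  have hcr := hM1 M hMM1
  obtain ⟨U, γ, hfam, hbd⟩ := hM2 M hMM2
  have hmod := hP0 P (by omega) M
  have hB : 2 * (g * ((a + S + 1) * M)) = 2 * g * (a + S + 1) * M := by ring
  rw [← hP] at hcr hfam hbd hB ⊢
  set d := Nat.lcmUpto (2 * M) with hd
  have hd0 : 0 < d := Nat.lcmUpto_pos _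
  have hdd : ∀ q : ℕ, 1 ≤ q → q ≤ 2 * M → q ∣ d := fun q h1 h2 => dvd_lcmUpto h1 h2
  set p := g * P with hp
  set q := (g + 1) * P with hq
  set n := (g + 2) * P with hn
  have hpq : q = p + P := by rw [hq, hp]; ring
  have hqn : n = q + P := by rw [hn, hq]; ring
  have hpn : p ≤ n := by omega
  have hp1 : 1 ≤ p := Nat.mul_pos (by omega) hPpos
  set N0 : ℝ := (Cst * ((g : ℝ) + 2) * (a + S + 1)) ^ (4 * n) with hN0
  have hN0pos : 0 ≤ N0 := by positivity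
  have hN0' : (100 * ((g : ℝ) + 2) * (a + S + 1)) ^ (4 * n) ≤ N0 := by
    rw [hN0]
    gcongr
  set K := (k0 + 1) * Lx with hK
  have hKpos : 0 < K := by positivity
  set t : ℝ := (1 / 2) ^ ((1 : ℝ) / (2 * (K : ℕ))) with ht
  have hKr : (0 : ℝ) < K := by exact_mod_cast hKpos
  have htpos : 0 ≤ t := Real.rpow_nonneg (by norm_num) _
  have ht1 : t < 1 := Real.rpow_lt_one (by norm_num) (by norm_num) (by positivity)
  have htk : t ^ (2 * K) = 1 / 2 := by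
    rw [ht, ← Real.rpow_natCast, ← Real.rpow_mul (by norm_num)]
    have : (1 : ℝ) / (2 * (K : ℕ)) * ((2 * K : ℕ) : ℝ) = 1 := by
      push_cast
      field_simp
    rw [this, Real.rpow_one]
  have hf : ∀ j < P, (Am ℝ M q * Cn ℝ M j) ∈ Polynomial.degreeLT ℝ n := fun j hj => by
    rw [hqn]
    exact ONE_Am_mem ℝ M q P _ (ONE_Cn_mem ℝ M j P hj)
  obtain ⟨R, T, hR1, hR2, hT1, hT2, hR3⟩ := det_ineq_pi (Cc := J × Fin n)
    (Fi := Fin (k0 + 1) × Fin (S + 1) × Fin P) p a (2 * g * (a + S + 1)) M d J0 hp1 hJ0 hMpos hd0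
    (fun x h1 h2 => hdd x h1 (by omega)) hB
    (fun r l m => match r with
      | .inl x => PowerSeries.coeff m (cRow ℚ M p ψ σ l x.1 x.2)
      | .inr x => PowerSeries.coeff m (fRow ℚ M p q (a + S) z l x.1 x.2.1 x.2.2))
    (fun c f hcf => hmod c f fun l hl m hm => hcf l hl m hm)
    (by
      intro e he f hfe
      obtain ⟨je, hje1, hje2⟩ := hJ1 e he
      obtain ⟨β, hβ⟩ := exists_comb ℚ M p f hfe
      refine ⟨fun y => if y.1 = je then (if h : (y.2 : ℕ) < p then β ⟨y.2, h⟩ else 0) else 0,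
        fun l _ m _ => ?_⟩
      rw [Fintype.sum_prod_type, Finset.sum_eq_single je]
      · simp only [if_true]
        have e1 : PowerSeries.X ^ e * (hl ℚ p l ^ (e % 2) * ev ℚ p l f) =
            ∑ i : Fin p, PowerSeries.C (β i) * cRow ℚ M p ψ σ l je i := by
          rw [hβ, ONE_ev_sum, mul_sum, mul_sum]
          refine sum_congr rfl fun i _ => ?_
          rw [cRow, hje1, hje2, ONE_ev_mul, ONE_ev_C]
          ring
        rw [e1, map_sum]
        simp only [PowerSeries.coeff_C_mul]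
        have e2 : ∀ F : ℕ → ℚ, ∑ i : Fin n, (if h : (i : ℕ) < p then β ⟨i, h⟩ else 0) * F i =
            ∑ i : Fin p, β i * F i := by
          intro F
          have e3 := Fin.sum_univ_eq_sum_range
            (fun i => (if h : i < p then β ⟨i, h⟩ else 0) * F i) n
          have e4 := Fin.sum_univ_eq_sum_range
            (fun i => (if h : i < p then β ⟨i, h⟩ else 0) * F i) p
          rw [e3, ← Finset.sum_subset (range_mono hpn)]
          · rw [← e4]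
            exact sum_congr rfl fun i _ => by rw [dif_pos i.2]
          · intro i _ hi
            rw [mem_range, not_lt] at hi
            rw [dif_neg (by omega), zero_mul]
        exact e2 fun i => PowerSeries.coeff m (cRow ℚ M p ψ σ l je i)
      · intro j _ hj
        simp [hj]
      · intro h
        exact absurd (mem_univ _) h)
    (D0 * d ^ (a + S + 1)) (by positivity)
    (by
      rintro (x | x) l hl m hm
      · obtain ⟨w, hw⟩ := cRow_int hMpos hdd ψ σ D0 p l x.1 (hDψ x.1) x.2 m hm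
        refine ⟨w * (d ^ (S + 1) : ℕ), ?_⟩
        show ((D0 * d ^ (a + S + 1) : ℕ) : ℚ) *
          PowerSeries.coeff m (cRow ℚ M p ψ σ l x.1 x.2) = _
        push_cast at hw ⊢
        rw [← hw]
        ring
      · exact fRow_int hMpos hdd (a + S) z D0 hDz p l q hl (by omega) x.1 x.2.1 x.2.2 m
          (Nat.lt_succ_iff.1 x.2.1.2) hm)
    (2 * N0) t (by positivity) htpos ht1
    (fun x κ' => if κ' % K / Lx = (x.1 : ℕ) then
      γ (κ' % K % Lx) x.1 x.2.1 x.2.2 (κ' / K) else 0)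
    (fun κ' l m => PowerSeries.coeff m (U (κ' % K % Lx) (κ' % K / Lx) l (κ' / K)))
    (by
      intro x l hl m hm
      have h1 := hcr l hl x.2 x.2.2 x.1 m hm
      have h2 : cRow ℝ M p (fun j => PowerSeries.map (algebraMap ℚ ℝ) (ψ j)) σ l x.1 x.2 =
          PowerSeries.map (algebraMap ℚ ℝ) (cRow ℚ M p ψ σ l x.1 x.2) := by
        rw [ONE_map_cRow, cRow]
      rw [h2, PowerSeries.coeff_map] at h1
      refine le_trans h1 ?_
      linarith)
    (by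
      intro x κ' l hl m hm
      split_ifs with hκ
      · rw [hκ]
        refine (hbd (κ' % K % Lx) (Nat.mod_lt _ hL) x.1 (Nat.lt_succ_iff.1 x.1.2) x.2.1
          (Nat.lt_succ_iff.1 x.2.1.2) x.2.2 x.2.2.2 l hl m hm (κ' / K)).trans ?_
        have h3 := ONE2_rate t K κ' hKpos htpos ht1.le htk
        have h4 := mul_le_mul_of_nonneg_left h3 hN0pos
        linarith
      · rw [zero_mul, abs_zero]
        positivity)
    (by
      intro x
      obtain ⟨Q, hQ, hser⟩ := hfam x.1 (Nat.lt_succ_iff.1 x.1.2) x.2.1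
        (Nat.lt_succ_iff.1 x.2.1.2) x.2.2 x.2.2.2
      -- the companion part
      have hE := ONE_mem_E M p a n x.1 x.2.1 ψ σ (zp ℝ (a + S) (fun i => zr i - (z i : ℝ)))
        (fun r' hr' => H1 x.1 (Nat.lt_succ_iff.1 x.1.2) r' (hr'.trans (Nat.lt_succ_iff.1 x.2.1.2)))
        (Am ℝ M q * Cn ℝ M x.2.2) (hf _ x.2.2.2)
      obtain ⟨j0, hj0, hj0'⟩ := H0 x.1 (Nat.lt_succ_iff.1 x.1.2)
      have hQm := ONE_mem_psi M p a n ψ σ j0 Q hQ
      rw [hj0, hj0'] at hQm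
      have hV := Submodule.sub_mem _ hQm hE
      rw [ONE_span, Submodule.mem_span_range_iff_exists_fun] at hV
      obtain ⟨α, hα⟩ := hV
      refine ⟨α, fun l hlp m hm => ?_⟩
      have hαc := congrFun hα (⟨l, hlp⟩, ⟨m, hm⟩)
      rw [Finset.sum_apply] at hαc
      simp only [Pi.smul_apply, smul_eq_mul, Pi.sub_apply, ONE_jet, map_pow, PowerSeries.map_X,
        PowerSeries.coeff_map] at hαc
      obtain ⟨s, hs1, hs2⟩ := hser l hlp m hm
      have h5 := ONE2_hasSum k0 x.1 Lx (Nat.lt_succ_iff.1 x.1.2) hL _ _ hs1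
      rw [hs2] at h5
      have h6 : (fun κ' : ℕ => (if κ' % K / Lx = (x.1 : ℕ) then
          γ (κ' % K % Lx) x.1 x.2.1 x.2.2 (κ' / K) else 0) *
          PowerSeries.coeff m (U (κ' % K % Lx) (κ' % K / Lx) l (κ' / K))) =
          fun κ' : ℕ => if κ' % K / Lx = (x.1 : ℕ) then
            γ (κ' % K % Lx) x.1 x.2.1 x.2.2 (κ' / K) *
            PowerSeries.coeff m (U (κ' % K % Lx) x.1 l (κ' / K)) else 0 := by
        funext κ'
        split_ifs with hκ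
        · rw [hκ]
        · rw [zero_mul]
      rw [h6]
      convert h5 using 1
      have h7 : ((PowerSeries.coeff m
          (fRow ℚ M p q (a + S) z l x.1 x.2.1 x.2.2) : ℚ) : ℝ) =
          PowerSeries.coeff m (PowerSeries.X ^ (x.1 : ℕ) * hs ℝ x.2.1
            (hl ℝ p l ^ (((x.1 : ℕ) + x.2.1) % 2) * ev ℝ p l (Am ℝ M q * Cn ℝ M x.2.2) *
              Gh ℝ p l (a + S) (fun i => (z i : ℝ)))) := by
        rw [← ONE_map_fRow, PowerSeries.coeff_map]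
        rfl
      have h8 : PowerSeries.coeff m (PowerSeries.X ^ (x.1 : ℕ) * hs ℝ x.2.1
            (hl ℝ p l ^ (((x.1 : ℕ) + x.2.1) % 2) * ev ℝ p l (Am ℝ M q * Cn ℝ M x.2.2) *
              Gh ℝ p l (a + S) zr)) =
          PowerSeries.coeff m (PowerSeries.X ^ (x.1 : ℕ) * hs ℝ x.2.1
            (hl ℝ p l ^ (((x.1 : ℕ) + x.2.1) % 2) * ev ℝ p l (Am ℝ M q * Cn ℝ M x.2.2) *
              Gh ℝ p l (a + S) (fun i => (z i : ℝ)))) +
          PowerSeries.coeff m (PowerSeries.X ^ (x.1 : ℕ) * hs ℝ x.2.1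
            (hl ℝ p l ^ (((x.1 : ℕ) + x.2.1) % 2) * ev ℝ p l (Am ℝ M q * Cn ℝ M x.2.2) *
              zp ℝ (a + S) (fun i => zr i - (z i : ℝ)))) := by
        rw [ONE_Gh_split p l (a + S) (fun i => (z i : ℝ)), mul_add, hs_add, mul_add, map_add]
      rw [h8]
      show ((PowerSeries.coeff m
          (fRow ℚ M p q (a + S) z l x.1 x.2.1 x.2.2) : ℚ) : ℝ) -
        ∑ y : J × Fin n, α y * ((PowerSeries.coeff m
          (cRow ℚ M p ψ σ l y.1 y.2) : ℚ) : ℝ) = _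
      rw [h7]
      have h9 : ∑ y : J × Fin n, α y * ((PowerSeries.coeff m
          (cRow ℚ M p ψ σ l y.1 y.2) : ℚ) : ℝ) =
          PowerSeries.coeff m (PowerSeries.X ^ (x.1 : ℕ) *
            (hl ℝ p l ^ ((x.1 : ℕ) % 2) * ev ℝ p l Q)) -
          PowerSeries.coeff m (PowerSeries.X ^ (x.1 : ℕ) * hs ℝ x.2.1
            (hl ℝ p l ^ (((x.1 : ℕ) + x.2.1) % 2) * ev ℝ p l (Am ℝ M q * Cn ℝ M x.2.2) *
              zp ℝ (a + S) (fun i => zr i - (z i : ℝ)))) := by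
        rw [← hαc]
        rfl
      rw [h9]
      ring)
  have hcardF : Fintype.card (Fin (k0 + 1) × Fin (S + 1) × Fin P) = (k0 + 1) * ((S + 1) * P) := by
    simp only [Fintype.card_prod, Fintype.card_fin]
  rw [hcardF] at hR1 hR3
  refine ⟨R, T, ?_, hR2, hT1, hT2, hR3⟩
  have : 0 < (k0 + 1) * ((S + 1) * P) := by positivity
  omega

end Pool.Agent.SI
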