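import Pool.Agent.ZC.LA4
import Pool.Agent.SI.POL

/-!
# SI, second layer: the projection along the first `c` jet coordinates (part A)

`det_ineq_col`: the determinant inequality with `R ≤ card Col`.
`piW c m g = X^m ∑_{e < c-m} (-X)^e D_e g`: agrees with `g(0) X^m` modulo `X^c`.
-/

namespace Pool.Agent.SI

open Finset Pool.Agent.ZC

/-! ### number of rows at most number of columns -/

theorem det_ineq_col {Cc Fi Col : Type} [Fintype Cc] [Fintype Fi] [Fintype Col]
    (v : Cc ⊕ Fi → Col → ℚ)
    (hmod : ∀ (c : Cc → ℚ) (f : Fi → ℚ),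
      (∀ x, ∑ i, c i * v (.inl i) x + ∑ j, f j * v (.inr j) x = 0) → ∀ j, f j = 0)
    (D : ℕ) (hD : 0 < D) (hint : ∀ r x, ∃ w : ℤ, (D : ℚ) * v r x = w)
    (N t : ℝ) (hN : 0 ≤ N) (ht0 : 0 ≤ t) (ht1 : t < 1) (γ : Fi → ℕ → ℝ) (u : ℕ → Col → ℝ)
    (h1 : ∀ i x, |(v (.inl i) x : ℝ)| ≤ N)
    (h2 : ∀ j k x, |γ j k * u k x| ≤ N * t ^ (2 * k))
    (h3 : ∀ j, ∃ α : Cc → ℝ, ∀ x, HasSum (fun k => γ j k * u k x)
      ((v (.inr j) x : ℝ) - ∑ i, α i * (v (.inl i) x : ℝ))) :
    ∃ R : ℕ, Fintype.card Fi ≤ R ∧ R ≤ Fintype.card Col ∧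
      1 ≤ (D : ℝ) ^ R * ((R.factorial : ℝ) * N ^ R *
        t ^ (Fintype.card Fi * (Fintype.card Fi - 1) / 2) * (1 / (1 - t)) ^ Fintype.card Fi) := by
  classical
  obtain ⟨κ, a, ha, hspan, hli⟩ := exists_linearIndependent' ℚ (fun i : Cc => v (.inl i))
  have : Finite κ := Finite.of_injective a ha
  have : Fintype κ := Fintype.ofFinite κ
  have hcomb : ∀ i : Cc, ∃ c : κ → ℚ, ∀ x, v (.inl i) x = ∑ k, c k * v (.inl (a k)) x := by
    intro i
    have hmem : v (.inl i) ∈ Submodule.span ℚ (Set.range ((fun i : Cc => v (.inl i)) ∘ a)) := by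
      rw [hspan]
      exact Submodule.subset_span ⟨i, rfl⟩
    obtain ⟨c, hc⟩ := (Submodule.mem_span_range_iff_exists_fun ℚ).1 hmem
    refine ⟨c, fun x => ?_⟩
    have := congrFun hc x
    simp only [Finset.sum_apply, Pi.smul_apply, smul_eq_mul, Function.comp] at this
    exact this.symm
  choose cc hcc using hcomb
  -- push forward of coefficients
  have hpush : ∀ (c : κ → ℚ) (x : Col), ∑ k, c k * v (.inl (a k)) x =
      ∑ i, (∑ k, if a k = i then c k else 0) * v (.inl i) x := by
    intro c x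
    simp_rw [sum_mul]
    rw [sum_comm]
    refine sum_congr rfl fun k _ => ?_
    simp_rw [ite_mul, zero_mul]
    rw [Finset.sum_ite_eq]
    simp
  have hliF : LinearIndependent ℚ (fun j : Fi => v (.inr j)) := by
    rw [Fintype.linearIndependent_iff]
    intro f hf
    refine hmod 0 f fun x => ?_
    have := congrFun hf x
    simpa [Finset.sum_apply] using this
  have hli2 : LinearIndependent ℚ (Sum.elim (fun i : κ => v (.inl (a i))) (fun j : Fi => v (.inr j))) := by
    refine LinearIndependent.sum_type hli hliF ?_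
    rw [Submodule.disjoint_def]
    intro x hx1 hx2
    rw [show (fun i : κ => v (Sum.inl (a i))) = (fun i : Cc => v (.inl i)) ∘ a from rfl, hspan] at hx1
    obtain ⟨c, hc⟩ := (Submodule.mem_span_range_iff_exists_fun ℚ).1 hx1
    obtain ⟨f, hf⟩ := (Submodule.mem_span_range_iff_exists_fun ℚ).1 hx2
    have hf0 := hmod (fun i => - c i) f (fun y => by
      have e1 := congrFun hc y
      have e2 := congrFun hf y
      simp only [Finset.sum_apply, Pi.smul_apply, smul_eq_mul] at e1 e2
      rw [e2, ← e1, ← Finset.sum_add_distrib]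
      exact Finset.sum_eq_zero fun i _ => by ring)
    rw [← hf]
    exact Finset.sum_eq_zero fun j _ => by rw [hf0 j, zero_smul]
  have hcard : Fintype.card κ + Fintype.card Fi ≤ Fintype.card Col := by
    have := hli2.fintype_card_le_finrank
    rwa [Fintype.card_sum, Module.finrank_fintype_fun_eq_card] at this
  obtain ⟨R, hR1, hR2, hR3⟩ := det_ineq (Cc := κ) (Fi := Fi) (Col := Col)
    (fun r => match r with
      | .inl k => v (.inl (a k))
      | .inr j => v (.inr j))
    (fun c f h => hmod (fun i => ∑ k, if a k = i then c k else 0) f (fun x => by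
      rw [← hpush]
      exact h x))
    D hD
    (by
      rintro (k | j) x
      · exact hint _ _
      · exact hint _ _)
    N t hN ht0 ht1 γ u (fun k x => h1 _ _) h2
    (fun j => by
      obtain ⟨α, hα⟩ := h3 j
      refine ⟨fun k => ∑ i, α i * ((cc i k : ℚ) : ℝ), fun x => ?_⟩
      have e : ∑ i, α i * (v (.inl i) x : ℝ) =
          ∑ k, (∑ i, α i * ((cc i k : ℚ) : ℝ)) * (v (.inl (a k)) x : ℝ) := by
        simp_rw [sum_mul]
        rw [sum_comm]
        refine sum_congr rfl fun i _ => ?_
        have := congrArg (fun q : ℚ => (q : ℝ)) (hcc i x)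
        push_cast at this
        rw [this, mul_sum]
        exact sum_congr rfl fun k _ => by ring
      have := hα x
      rw [e] at this
      exact this)
  exact ⟨R, hR1, hR2.trans hcard, hR3⟩

/-! ### alternating sums -/

/-- truncated alternating sum of binomial coefficients -/
def zc (N n : ℕ) : ℤ := ∑ e ∈ range N, (-1) ^ e * (n.choose e : ℤ)

theorem zc_zero_of_lt {N n : ℕ} (h : n < N) (hn : n ≠ 0) : zc N n = 0 := by
  have h1 : zc N n = ∑ e ∈ range (n + 1), (-1) ^ e * (n.choose e : ℤ) := by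
    unfold zc
    symm
    apply sum_subset (range_mono (by omega))
    intro e _ he
    rw [mem_range, not_lt] at he
    rw [Nat.choose_eq_zero_of_lt (by omega)]
    simp
  rw [h1, Int.alternating_sum_range_choose_of_ne hn]

theorem zc_self {N : ℕ} (h : 0 < N) : zc N 0 = 1 := by
  unfold zc
  rw [sum_eq_single 0]
  · simp
  · intro b _ hb
    rw [Nat.choose_eq_zero_of_lt (by omega)]
    simp
  · intro h'
    exact absurd (mem_range.2 h) h'

theorem abs_zc_le (N n : ℕ) : |zc N n| ≤ 2 ^ n := by
  unfold zc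
  refine (abs_sum_le_sum_abs _ _).trans ?_
  have h1 : ∀ e ∈ range N, |(-1) ^ e * (n.choose e : ℤ)| = (n.choose e : ℤ) := by
    intro e _
    rw [abs_mul, abs_pow, abs_neg, abs_one, one_pow, one_mul, abs_of_nonneg (by positivity)]
  rw [sum_congr rfl h1]
  have h2 : ∑ e ∈ range N, n.choose e ≤ 2 ^ n := by
    rcases Nat.lt_or_ge N (n + 1) with h | h
    · rw [← Nat.sum_range_choose n]
      exact sum_le_sum_of_subset (range_mono h.le)
    · rw [← Nat.sum_range_choose n]
      refine le_of_eq (Eq.symm ?_)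
      apply sum_subset (range_mono h)
      intro e _ he
      rw [mem_range, not_lt] at he
      exact Nat.choose_eq_zero_of_lt (by omega)
  exact_mod_cast h2

section
variable (K : Type*) [Field K]

/-- `X^m ∑_{e < c-m} (-X)^e D_e g` -/
noncomputable def piW (c m : ℕ) (g : PowerSeries K) : PowerSeries K :=
  PowerSeries.X ^ m * ∑ e ∈ range (c - m), PowerSeries.C ((-1) ^ e) * (PowerSeries.X ^ e * hs K e g)

theorem coeff_piW (c m m' : ℕ) (g : PowerSeries K) :
    PowerSeries.coeff m' (piW K c m g) =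
      if m ≤ m' then ((zc (c - m) (m' - m) : ℤ) : K) * PowerSeries.coeff (m' - m) g else 0 := by
  rw [piW, PowerSeries.coeff_X_pow_mul']
  by_cases h : m ≤ m'
  · rw [if_pos h, if_pos h, map_sum, zc]
    push_cast
    rw [sum_mul]
    refine sum_congr rfl fun e _ => ?_
    rw [PowerSeries.coeff_C_mul, PowerSeries.coeff_X_pow_mul']
    by_cases h2 : e ≤ m' - m
    · rw [if_pos h2, coeff_hs, Nat.sub_add_cancel h2]
      ring
    · rw [if_neg h2, Nat.choose_eq_zero_of_lt (by omega)]
      simp
  · rw [if_neg h, if_neg h]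

theorem coeff_piW_lt (c m m' : ℕ) (hm : m < c) (hm' : m' < c) (g : PowerSeries K) :
    PowerSeries.coeff m' (piW K c m g) = if m' = m then PowerSeries.coeff 0 g else 0 := by
  rw [coeff_piW]
  by_cases h : m ≤ m'
  · rw [if_pos h]
    by_cases h2 : m' = m
    · rw [if_pos h2, h2, Nat.sub_self, zc_self (by omega)]
      simp
    · rw [if_neg h2, zc_zero_of_lt (by omega) (by omega)]
      simp
  · rw [if_neg h, if_neg (by omega)]

end

end Pool.Agent.SI
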