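import Pool.Agent.SI.Defs
import Pool.Agent.ZC.ENT

/-!
# SI, second layer: the Lagrange family (part B)

`lamv p i l`: the Lagrange basis polynomial of the nodes `0, -1, ..., -(2p-1)` at the pole `t = -l + X`.
`lamS p m l l'`: (anti)symmetrised, value `δ` at `X = 0` for `l, l' < p`.
-/

namespace Pool.Agent.SI

open Finset Pool.Agent.ZC

section
variable (K : Type*) [Field K]

/-- Lagrange polynomial `∏_{j ≠ i} (t + j)/(j - i)` at `t = -l + X` -/
noncomputable def lamv (p i l : ℕ) : PowerSeries K :=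
  ∏ j ∈ (range (2 * p)).erase i, (PowerSeries.C ((j : K) - i)⁻¹ *
    (PowerSeries.C ((j : K) - l) + PowerSeries.X))

/-- symmetrised, as a polynomial in `y` -/
noncomputable def lamf (p l : ℕ) : Polynomial K :=
  ∏ j ∈ (range p).erase l, (Polynomial.C (((2 * (p : K) - 1 - 2 * l) ^ 2 - (2 * (p : K) - 1 - 2 * j) ^ 2)⁻¹) *
    (Polynomial.X - Polynomial.C ((2 * (p : K) - 1 - 2 * j) ^ 2)))

theorem lamf_mem (p l : ℕ) (hl : l < p) : lamf K p l ∈ Polynomial.degreeLT K p := by
  rw [Polynomial.mem_degreeLT, lamf]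
  refine lt_of_le_of_lt (Polynomial.degree_prod_le _ _) ?_
  have h1 : ∀ j ∈ (range p).erase l, (Polynomial.C (((2 * (p : K) - 1 - 2 * l) ^ 2 -
      (2 * (p : K) - 1 - 2 * j) ^ 2)⁻¹) *
      (Polynomial.X - Polynomial.C ((2 * (p : K) - 1 - 2 * j) ^ 2))).degree ≤ ((1 : ℕ) : WithBot ℕ) := by
    intro j _
    refine (Polynomial.degree_mul_le _ _).trans ?_
    refine (add_le_add Polynomial.degree_C_le (Polynomial.degree_X_sub_C_le _)).trans ?_
    simp
  refine lt_of_le_of_lt (sum_le_sum h1) ?_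
  rw [sum_const, card_erase_of_mem (mem_range.2 hl), card_range]
  have : (p - 1) • ((1 : ℕ) : WithBot ℕ) = ((p - 1 : ℕ) : WithBot ℕ) := by
    simp
  rw [this]
  exact_mod_cast (by omega : p - 1 < p)

/-- symmetrised Lagrange polynomial at the pole `l'` -/
noncomputable def lamS (p m l l' : ℕ) : PowerSeries K :=
  PowerSeries.C ((2 * (p : K) - 1 - 2 * l)⁻¹ ^ (m % 2)) * (hl K p l' ^ (m % 2) * ev K p l' (lamf K p l))

/-- product of the two factors `j` and `2p-1-j` -/
theorem pair_factor (p j l : ℕ) (hj : j < p) (h2 : (2 : K) ≠ 0) :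
    (PowerSeries.C ((j : K) - l) + PowerSeries.X) *
      (PowerSeries.C (((2 * p - 1 - j : ℕ) : K) - l) + PowerSeries.X) =
      PowerSeries.C (4 : K)⁻¹ * (yl K p l - PowerSeries.C ((2 * (p : K) - 1 - 2 * j) ^ 2)) := by
  have hc : ((2 * p - 1 - j : ℕ) : K) = 2 * p - 1 - j := by
    rw [Nat.cast_sub (by omega), Nat.cast_sub (by omega)]
    push_cast
    ring
  have h4 : (4 : K) ≠ 0 := by
    have : (4 : K) = 2 * 2 := by norm_num
    rw [this]; exact mul_ne_zero h2 h2
  have e : yl K p l - PowerSeries.C ((2 * (p : K) - 1 - 2 * j) ^ 2) = PowerSeries.C (4 : K) *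
      ((PowerSeries.C ((j : K) - l) + PowerSeries.X) *
      (PowerSeries.C (2 * (p : K) - 1 - j - l) + PowerSeries.X)) := by
    rw [yl]
    simp only [map_sub, map_mul, map_pow, map_natCast, map_one, map_ofNat]
    ring
  rw [hc, e, ← mul_assoc, ← map_mul, inv_mul_cancel₀ h4, map_one, one_mul]

theorem prod_pairs {R : Type*} [CommRing R] (p : ℕ) (F : ℕ → R) :
    ∏ j ∈ range (2 * p), F j = ∏ j ∈ range p, (F j * F (2 * p - 1 - j)) := by
  rw [two_mul, prod_range_add, prod_mul_distrib]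
  congr 1
  rw [← prod_range_reflect]
  refine prod_congr rfl fun j hj => ?_
  have := mem_range.1 hj
  congr 1
  omega

theorem prod_erase_ite {R : Type*} [CommRing R] (n i : ℕ) (F : ℕ → R) :
    ∏ j ∈ (range n).erase i, F j = ∏ j ∈ range n, (if j = i then 1 else F j) := by
  by_cases h : i ∈ range n
  · rw [← mul_prod_erase (range n) (fun j => if j = i then 1 else F j) h, if_pos rfl, one_mul]
    refine prod_congr rfl fun j hj => ?_
    rw [if_neg (mem_erase.1 hj).1]
  · rw [erase_eq_of_notMem h]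
    refine prod_congr rfl fun j hj => ?_
    rw [if_neg]
    rintro rfl
    exact h hj

variable [CharZero K]

theorem lamv_aux (p l l' : ℕ) (hlp : l < p) (i i' : ℕ) (hi : (i = l ∧ i' = 2 * p - 1 - l) ∨
    (i = 2 * p - 1 - l ∧ i' = l)) :
    lamv K p i l' = ev K p l' (lamf K p l) * (PowerSeries.C ((i' : K) - i)⁻¹ *
      (PowerSeries.C ((i' : K) - l') + PowerSeries.X)) := by
  have hwc : ((2 * p - 1 - l : ℕ) : K) = 2 * p - 1 - l := by
    rw [Nat.cast_sub (by omega), Nat.cast_sub (by omega)]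
    push_cast
    ring
  rw [lamv, prod_erase_ite, prod_pairs, ← mul_prod_erase (range p) _ (mem_range.2 hlp)]
  have h1 : (if l = i then (1 : PowerSeries K) else (PowerSeries.C ((l : K) - i)⁻¹ *
      (PowerSeries.C ((l : K) - l') + PowerSeries.X))) *
      (if 2 * p - 1 - l = i then (1 : PowerSeries K) else (PowerSeries.C (((2 * p - 1 - l : ℕ) : K) - i)⁻¹ *
      (PowerSeries.C (((2 * p - 1 - l : ℕ) : K) - l') + PowerSeries.X))) =
      PowerSeries.C ((i' : K) - i)⁻¹ * (PowerSeries.C ((i' : K) - l') + PowerSeries.X) := by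
    rcases hi with ⟨rfl, rfl⟩ | ⟨rfl, rfl⟩
    · rw [if_pos rfl, if_neg (by omega), one_mul]
    · rw [if_neg (by omega), if_pos rfl, mul_one]
  rw [h1, mul_comm]
  congr 1
  rw [lamf, ev, map_prod]
  refine prod_congr rfl fun j hj => ?_
  rw [mem_erase, mem_range] at hj
  have hji : j ≠ i := by
    rcases hi with ⟨rfl, _⟩ | ⟨rfl, _⟩
    · exact hj.1
    · omega
  have hji2 : 2 * p - 1 - j ≠ i := by
    rcases hi with ⟨rfl, _⟩ | ⟨rfl, _⟩
    · omega
    · have := hj.1
      omega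
  rw [if_neg hji, if_neg hji2]
  have hae : ∀ c d : K, Polynomial.aeval (yl K p l') (Polynomial.C c * (Polynomial.X - Polynomial.C d)) =
      PowerSeries.C c * (yl K p l' - PowerSeries.C d) := by
    intro c d
    rw [map_mul, map_sub, Polynomial.aeval_C, Polynomial.aeval_C, Polynomial.aeval_X]
    rfl
  rw [hae]
  have e1 := pair_factor K p j l' hj.2 two_ne_zero
  have hjc : ((2 * p - 1 - j : ℕ) : K) = 2 * p - 1 - j := by
    rw [Nat.cast_sub (by omega), Nat.cast_sub (by omega)]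
    push_cast
    ring
  have e2 : ((j : K) - i) * (((2 * p - 1 - j : ℕ) : K) - i) =
      (4 : K)⁻¹ * ((2 * (p : K) - 1 - 2 * l) ^ 2 - (2 * (p : K) - 1 - 2 * j) ^ 2) := by
    rw [hjc]
    rcases hi with ⟨rfl, _⟩ | ⟨rfl, _⟩
    · field_simp; ring
    · rw [hwc]; field_simp; ring
  have e5 : PowerSeries.C ((j : K) - i)⁻¹ * (PowerSeries.C ((j : K) - l') + PowerSeries.X) *
      (PowerSeries.C (((2 * p - 1 - j : ℕ) : K) - i)⁻¹ *
        (PowerSeries.C (((2 * p - 1 - j : ℕ) : K) - l') + PowerSeries.X)) =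
      PowerSeries.C (((j : K) - i) * (((2 * p - 1 - j : ℕ) : K) - i))⁻¹ *
        ((PowerSeries.C ((j : K) - l') + PowerSeries.X) *
        (PowerSeries.C (((2 * p - 1 - j : ℕ) : K) - l') + PowerSeries.X)) := by
    rw [mul_inv, map_mul]
    ring
  rw [e5, e1, e2, ← mul_assoc, ← map_mul]
  congr 2
  rw [mul_inv, inv_inv]
  have h4 : (4 : K) ≠ 0 := by norm_num
  rw [mul_comm (4 : K), mul_assoc, mul_inv_cancel₀ h4, mul_one]

/-- `lamS = λ_l + (-1)^m λ_{2p-1-l}` -/
theorem lamS_eq (p m l l' : ℕ) (hlp : l < p) :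
    lamS K p m l l' = lamv K p l l' + PowerSeries.C ((-1) ^ m) * lamv K p (2 * p - 1 - l) l' := by
  have hwc : ((2 * p - 1 - l : ℕ) : K) = 2 * p - 1 - l := by
    rw [Nat.cast_sub (by omega), Nat.cast_sub (by omega)]
    push_cast
    ring
  have hw0 : (2 * (p : K) - 1 - 2 * l) ≠ 0 := by
    have h1 : ((2 * p - 1 - 2 * l : ℕ) : K) = 2 * p - 1 - 2 * l := by
      rw [Nat.cast_sub (by omega), Nat.cast_sub (by omega)]
      push_cast
      ring
    rw [← h1]
    exact Nat.cast_ne_zero.2 (by omega)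
  rw [lamv_aux K p l l' hlp l (2 * p - 1 - l) (Or.inl ⟨rfl, rfl⟩),
    lamv_aux K p l l' hlp (2 * p - 1 - l) l (Or.inr ⟨rfl, rfl⟩), lamS, hwc]
  have e1 : (2 * (p : K) - 1 - l - l) = 2 * (p : K) - 1 - 2 * l := by ring
  have e2 : ((l : K) - (2 * p - 1 - l)) = -(2 * (p : K) - 1 - 2 * l) := by ring
  rw [e1, e2, inv_neg]
  set W : K := 2 * (p : K) - 1 - 2 * l with hW
  set E := ev K p l' (lamf K p l)
  have hC : PowerSeries.C W⁻¹ * PowerSeries.C W = (1 : PowerSeries K) := by
    rw [← map_mul, inv_mul_cancel₀ hw0, map_one]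
  have hsum : (PowerSeries.C (2 * (p : K) - 1 - l - l') + PowerSeries.X) -
      (PowerSeries.C ((l : K) - l') + PowerSeries.X) = PowerSeries.C W := by
    rw [hW]
    simp only [map_sub, map_mul, map_natCast, map_one, map_ofNat]
    ring
  have hsum2 : (PowerSeries.C (2 * (p : K) - 1 - l - l') + PowerSeries.X) +
      (PowerSeries.C ((l : K) - l') + PowerSeries.X) = hl K p l' := by
    rw [hl]
    simp only [map_sub, map_mul, map_natCast, map_one, map_ofNat]
    ring
  rcases Nat.even_or_odd m with hm | hm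
  · rw [Nat.even_iff.1 hm, hm.neg_one_pow, pow_zero, pow_zero, map_one, map_neg]
    linear_combination (-(E * PowerSeries.C W⁻¹)) * hsum - E * hC
  · rw [Nat.odd_iff.1 hm, hm.neg_one_pow, pow_one, pow_one, map_neg, map_neg, map_one]
    linear_combination (-(E * PowerSeries.C W⁻¹)) * hsum2

/-- value at `X = 0` -/
theorem coeff_zero_lamv (p i l : ℕ) (hi : i < 2 * p) (hl : l < 2 * p) :
    PowerSeries.coeff 0 (lamv K p i l) = if l = i then 1 else 0 := by
  rw [PowerSeries.coeff_zero_eq_constantCoeff_apply, lamv, map_prod]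
  simp only [map_mul, map_add, PowerSeries.constantCoeff_C, PowerSeries.constantCoeff_X, add_zero]
  by_cases h : l = i
  · subst h
    rw [if_pos rfl]
    refine prod_eq_one fun j hj => ?_
    have : (j : K) - l ≠ 0 := by
      rw [sub_ne_zero]
      exact_mod_cast (mem_erase.1 hj).1
    exact inv_mul_cancel₀ this
  · rw [if_neg h]
    refine prod_eq_zero (i := l) (mem_erase.2 ⟨h, mem_range.2 hl⟩) ?_
    simp

theorem coeff_zero_lamS (p m l l' : ℕ) (hl : l < p) (hl' : l' < p) :
    PowerSeries.coeff 0 (lamS K p m l l') = if l' = l then 1 else 0 := by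
  rw [lamS_eq K p m l l' hl, map_add, PowerSeries.coeff_C_mul,
    coeff_zero_lamv K p _ _ (by omega) (by omega), coeff_zero_lamv K p _ _ (by omega) (by omega),
    if_neg (c := l' = 2 * p - 1 - l) (by omega), mul_zero, add_zero]

end

end Pool.Agent.SI
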