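import Pool.Agent.SI.PIB

/-!
# SI, second layer: size and denominators of the Lagrange family (part C)
-/

namespace Pool.Agent.SI

open Finset Pool.Agent.ZC
open scoped Nat

/-! ### the product of the differences -/

theorem pic_prod_erase {R : Type*} [CommRing R] (n i : ℕ) (hi : i < n) (F : ℕ → R) :
    ∏ j ∈ (range n).erase i, F j = (∏ j ∈ range i, F j) * ∏ j ∈ range (n - 1 - i), F (i + 1 + j) := by
  obtain ⟨w, rfl⟩ := Nat.exists_eq_add_of_lt hi
  have e : i + w + 1 - 1 - i = w := by omega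
  rw [e, prod_erase_ite, show i + w + 1 = i + (w + 1) by ring, prod_range_add, prod_range_succ']
  congr 1
  · refine prod_congr rfl fun j hj => ?_
    have := mem_range.1 hj
    rw [if_neg (by omega)]
  · rw [if_pos (by omega), mul_one]
    refine prod_congr rfl fun j hj => ?_
    rw [if_neg (by omega)]
    congr 1
    ring

theorem pic_prod_diff (n i : ℕ) (hi : i < n) :
    ∏ j ∈ (range n).erase i, ((j : ℚ) - i) = (-1) ^ i * (i ! : ℚ) * ((n - 1 - i)! : ℚ) := by
  rw [pic_prod_erase n i hi]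
  congr 1
  · rw [← prod_range_reflect]
    have h1 : ∀ j ∈ range i, (((i - 1 - j : ℕ) : ℚ) - i) = (-1) * ((j + 1 : ℕ) : ℚ) := by
      intro j hj
      have := mem_range.1 hj
      rw [Nat.cast_sub (by omega), Nat.cast_sub (by omega)]
      push_cast
      ring
    rw [prod_congr rfl h1, prod_mul_distrib, prod_const, card_range, ← Nat.cast_prod,
      prod_range_add_one_eq_factorial]
  · rw [← prod_range_add_one_eq_factorial, Nat.cast_prod]
    refine prod_congr rfl fun j _ => ?_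
    push_cast
    ring

/-! ### denominators -/

/-- `(2p)! / bf M (2p)` -/
def Tn (M p : ℕ) : ℕ := (2 * p)! / bf M (2 * p)

theorem bf_dvd {M : ℕ} (hM : 0 < M) (z : ℕ) : bf M z ∣ z ! := by
  induction z using Nat.strong_induction_on with
  | _ z ih =>
    rcases Nat.lt_or_ge z M with h | h
    · rw [bf_of_lt h]
    · obtain ⟨w, rfl⟩ := Nat.exists_eq_add_of_le h
      rw [bf_add hM]
      exact (mul_dvd_mul_left _ (ih w (by omega))).trans (Nat.factorial_mul_factorial_dvd_factorial_add _ _)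

theorem Tn_mul {M : ℕ} (hM : 0 < M) (p : ℕ) : Tn M p * bf M (2 * p) = (2 * p)! :=
  Nat.div_mul_cancel (bf_dvd hM _)

theorem Tn_pos {M : ℕ} (hM : 0 < M) (p : ℕ) : 0 < Tn M p := by
  rcases Nat.eq_zero_or_pos (Tn M p) with h | h
  · have := Tn_mul hM p
    rw [h, zero_mul] at this
    exact absurd this.symm (Nat.factorial_ne_zero _)
  · exact h

theorem Tn_le {M : ℕ} (hM : 0 < M) (p : ℕ) :
    (Tn M p : ℝ) ≤ ((2 * p : ℝ) / M) ^ (2 * p) * Real.exp (2 * p + M) := by
  have h1 := le_bf hM (2 * p)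
  have h2 : ((2 * p)! : ℝ) ≤ (2 * p : ℝ) ^ (2 * p) := by
    have := Nat.factorial_le_pow (2 * p)
    exact_mod_cast this
  have h3 : (Tn M p : ℝ) * (bf M (2 * p) : ℝ) = ((2 * p)! : ℝ) := by
    exact_mod_cast Tn_mul hM p
  have hM' : (0 : ℝ) < M := by exact_mod_cast hM
  have h4 : (Tn M p : ℝ) * ((M : ℝ) ^ (2 * p) * Real.exp (-(2 * p + M : ℕ))) ≤ (2 * p : ℝ) ^ (2 * p) := by
    calc _ ≤ (Tn M p : ℝ) * (bf M (2 * p) : ℝ) := mul_le_mul_of_nonneg_left h1 (by positivity)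
      _ ≤ _ := by rw [h3]; exact h2
  rw [Real.exp_neg, ← div_eq_mul_inv, mul_div_assoc', div_le_iff₀ (Real.exp_pos _)] at h4
  rw [div_pow, div_mul_eq_mul_div, le_div_iff₀ (by positivity)]
  push_cast at h4
  exact h4

theorem pic_lamv_run (p i l : ℕ) (hi : i < 2 * p) :
    lamv ℚ p i l = PowerSeries.C (∏ j ∈ (range (2 * p)).erase i, ((j : ℚ) - i)⁻¹) *
      runx (-(l : ℤ)) 1 (2 * p) i := by
  rw [lamv, prod_mul_distrib, map_prod]
  congr 1
  rw [pic_prod_erase (2 * p) i hi, runx, run, run]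
  congr 1
  · refine prod_congr rfl fun j _ => ?_
    push_cast
    rw [map_one, one_mul]
    congr 2
    ring
  · refine prod_congr rfl fun j _ => ?_
    push_cast
    rw [map_one, one_mul]
    congr 2
    ring

theorem lamv_mem {d M : ℕ} (hM : 0 < M) (hd : ∀ q : ℕ, 1 ≤ q → q ≤ M → q ∣ d) (p i l : ℕ)
    (hi : i < 2 * p) : PowerSeries.C ((Tn M p : ℚ) * d) * lamv ℚ p i l ∈ dR d := by
  have h1 := runx_bf_mem hM 1 hd (2 * p) i hi (-(l : ℤ))
  rw [pic_lamv_run p i l hi, prod_inv_distrib, pic_prod_diff _ _ hi]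
  have hT : (Tn M p : ℚ) * (bf M (2 * p) : ℚ) = ((2 * p)! : ℚ) := by exact_mod_cast Tn_mul hM p
  have hbf : (bf M (2 * p) : ℚ) ≠ 0 := bf_ne_zero' _ _
  have hch : ((2 * p - 1).choose i : ℚ) * (i ! : ℚ) * ((2 * p - 1 - i)! : ℚ) = ((2 * p - 1)! : ℚ) := by
    exact_mod_cast Nat.choose_mul_factorial_mul_factorial (show i ≤ 2 * p - 1 by omega)
  have hfac : ((2 * p)! : ℚ) = (2 * p : ℕ) * ((2 * p - 1)! : ℚ) := by
    exact_mod_cast (Nat.mul_factorial_pred (by omega : 2 * p ≠ 0)).symm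
  have hi0 : (i ! : ℚ) ≠ 0 := by positivity
  have hi1 : ((2 * p - 1 - i)! : ℚ) ≠ 0 := by positivity
  have hs : ((-1 : ℚ) ^ i) * ((-1 : ℚ) ^ i) = 1 := by
    rw [← mul_pow]; norm_num
  have hs0 : ((-1 : ℚ) ^ i) ≠ 0 := pow_ne_zero _ (by norm_num)
  have e : PowerSeries.C ((Tn M p : ℚ) * d) * (PowerSeries.C
      ((-1) ^ i * (i ! : ℚ) * ((2 * p - 1 - i)! : ℚ))⁻¹ * runx (-(l : ℤ)) 1 (2 * p) i) =
      PowerSeries.C ((((-1) ^ i * ((2 * p : ℕ) * (2 * p - 1).choose i : ℕ) : ℤ) : ℤ) : ℚ) *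
        (PowerSeries.C ((d : ℚ) * (bf M (2 * p) : ℚ)⁻¹) * runx (-(l : ℤ)) 1 (2 * p) i) := by
    rw [← mul_assoc, ← mul_assoc, ← map_mul, ← map_mul]
    congr 2
    have hTe : (Tn M p : ℚ) = ((2 * p : ℕ) : ℚ) * ((2 * p - 1).choose i : ℚ) * (i ! : ℚ) *
        ((2 * p - 1 - i)! : ℚ) / (bf M (2 * p) : ℚ) := by
      rw [eq_div_iff hbf, hT, hfac, ← hch]
      ring
    rw [hTe]
    push_cast
    field_simp
    rw [sq, hs, mul_one]
  rw [e]
  exact mul_mem (C_int_mem _ _) h1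

/-- denominators of the jets of `lamv` -/
theorem lamv_int {d M : ℕ} (hM : 0 < M) (hd : ∀ q : ℕ, 1 ≤ q → q ≤ M → q ∣ d) (p i l n : ℕ)
    (hi : i < 2 * p) :
    ∃ w : ℤ, ((Tn M p * d ^ (n + 1) : ℕ) : ℚ) * PowerSeries.coeff n (lamv ℚ p i l) = w := by
  have h1 := lamv_mem hM hd p i l hi
  rw [mem_dR] at h1
  obtain ⟨w, hw⟩ := h1 n
  refine ⟨w, ?_⟩
  rw [← hw, PowerSeries.coeff_C_mul]
  push_cast
  ring

theorem lamS_int {d M : ℕ} (hM : 0 < M) (hd : ∀ q : ℕ, 1 ≤ q → q ≤ M → q ∣ d) (p m l l' n : ℕ)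
    (hlp : l < p) :
    ∃ w : ℤ, ((Tn M p * d ^ (n + 1) : ℕ) : ℚ) * PowerSeries.coeff n (lamS ℚ p m l l') = w := by
  obtain ⟨w1, h1⟩ := lamv_int hM hd p l l' n (by omega)
  obtain ⟨w2, h2⟩ := lamv_int hM hd p (2 * p - 1 - l) l' n (by omega)
  refine ⟨w1 + (-1) ^ m * w2, ?_⟩
  rw [lamS_eq ℚ p m l l' hlp, map_add, PowerSeries.coeff_C_mul]
  push_cast at h1 h2 ⊢
  rw [← h1, ← h2]
  ring

/-! ### sizes -/

/-- all partial sums of the absolute values of the coefficients are at most `B` -/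
def L1 (f : PowerSeries ℚ) (B : ℚ) : Prop :=
  ∀ n, ∑ k ∈ range n, |PowerSeries.coeff k f| ≤ B

theorem L1.coeff_le {f : PowerSeries ℚ} {B : ℚ} (h : L1 f B) (n : ℕ) :
    |PowerSeries.coeff n f| ≤ B :=
  (single_le_sum (f := fun k => |PowerSeries.coeff k f|) (fun _ _ => abs_nonneg _)
    (mem_range.2 (Nat.lt_succ_self n))).trans (h (n + 1))

theorem L1.one : L1 1 1 := by
  intro n
  refine (sum_le_sum_of_subset_of_nonneg (range_mono (Nat.le_succ n)) fun _ _ _ => abs_nonneg _).trans ?_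
  rw [sum_range_succ']
  simp [PowerSeries.coeff_one]

theorem L1.lin {f : PowerSeries ℚ} {B : ℚ} (h : L1 f B) (a b : ℚ) :
    L1 (f * (PowerSeries.C a * (PowerSeries.C b + PowerSeries.X))) (B * (|a| * (|b| + 1))) := by
  intro n
  have h1 : ∀ k, PowerSeries.coeff k (f * (PowerSeries.C a * (PowerSeries.C b + PowerSeries.X))) =
      a * (b * PowerSeries.coeff k f) + a * (if k = 0 then 0 else PowerSeries.coeff (k - 1) f) := by
    intro k
    have e : f * (PowerSeries.C a * (PowerSeries.C b + PowerSeries.X)) =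
        PowerSeries.C a * (PowerSeries.C b * f) + PowerSeries.C a * (f * PowerSeries.X) := by ring
    rw [e, map_add, PowerSeries.coeff_C_mul, PowerSeries.coeff_C_mul, PowerSeries.coeff_C_mul]
    rcases k with _ | k
    · simp
    · rw [PowerSeries.coeff_succ_mul_X, if_neg (by omega), Nat.add_sub_cancel]
  have h2 : ∀ k ∈ range n, |PowerSeries.coeff k (f * (PowerSeries.C a *
      (PowerSeries.C b + PowerSeries.X)))| ≤ |a| * (|b| * |PowerSeries.coeff k f|) +
        |a| * (if k = 0 then 0 else |PowerSeries.coeff (k - 1) f|) := by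
    intro k _
    rw [h1]
    refine (abs_add_le _ _).trans (le_of_eq ?_)
    rw [abs_mul, abs_mul, abs_mul]
    split_ifs <;> simp
  refine (sum_le_sum h2).trans ?_
  rw [sum_add_distrib, ← mul_sum, ← mul_sum, ← mul_sum]
  have h3 : ∑ k ∈ range n, (if k = 0 then (0 : ℚ) else |PowerSeries.coeff (k - 1) f|) ≤ B := by
    rcases n with _ | n
    · simpa using h 0
    · rw [sum_range_succ']
      simp only [if_true, add_zero, Nat.add_sub_cancel]
      refine le_trans (le_of_eq (sum_congr rfl fun k _ => ?_)) (h n)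
      rw [if_neg (by omega)]
  have h4 := h n
  have ha := abs_nonneg a
  have hb := abs_nonneg b
  nlinarith [mul_le_mul_of_nonneg_left h4 (mul_nonneg ha hb), mul_le_mul_of_nonneg_left h3 ha]

theorem L1.prod {ι : Type*} (s : Finset ι) (a b : ι → ℚ) :
    L1 (∏ j ∈ s, (PowerSeries.C (a j) * (PowerSeries.C (b j) + PowerSeries.X)))
      (∏ j ∈ s, (|a j| * (|b j| + 1))) := by
  classical
  induction s using Finset.induction_on with
  | empty => simpa using L1.one
  | insert j s hj ih =>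
    rw [prod_insert hj, prod_insert hj, mul_comm, mul_comm (|a j| * (|b j| + 1))]
    exact ih.lin _ _

theorem pic_prod_abs (p l : ℕ) (hl : l < 2 * p) :
    ∏ j ∈ range (2 * p), (|(j : ℚ) - l| + 1) = ((l + 1)! : ℚ) * ((2 * p - l)! : ℚ) := by
  obtain ⟨w, hw⟩ := Nat.exists_eq_add_of_lt hl
  rw [hw, show l + w + 1 = (l + 1) + w by ring, prod_range_add]
  have e : (l + 1) + w - l = w + 1 := by omega
  rw [e]
  congr 1
  · rw [← prod_range_reflect, ← prod_range_add_one_eq_factorial, Nat.cast_prod]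
    refine prod_congr rfl fun j hj => ?_
    have := mem_range.1 hj
    rw [show l + 1 - 1 - j = l - j by omega, Nat.cast_sub (by omega)]
    have : ((l : ℚ) - j - l) = -(j : ℚ) := by ring
    rw [this, abs_neg, abs_of_nonneg (by positivity)]
    push_cast
    ring
  · rw [← prod_range_add_one_eq_factorial, prod_range_succ', Nat.cast_mul, Nat.cast_prod]
    simp only [zero_add, Nat.cast_one, mul_one]
    refine prod_congr rfl fun j _ => ?_
    have : (((l + 1 + j : ℕ) : ℚ) - l) = ((j + 1 : ℕ) : ℚ) := by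
      push_cast; ring
    rw [this, abs_of_nonneg (by positivity)]
    push_cast
    ring

theorem lamv_bound (p i l n : ℕ) (hi : i < 2 * p) (hl : l < 2 * p) :
    |PowerSeries.coeff n (lamv ℚ p i l)| ≤ (2 * p : ℚ) ^ 2 * 4 ^ p := by
  have h0 := L1.prod ((range (2 * p)).erase i) (fun j => ((j : ℚ) - i)⁻¹) (fun j => (j : ℚ) - l)
  refine (h0.coeff_le n).trans ?_
  rw [prod_mul_distrib]
  have h1 : ∏ j ∈ (range (2 * p)).erase i, |((j : ℚ) - i)⁻¹| =
      ((i ! : ℚ) * ((2 * p - 1 - i)! : ℚ))⁻¹ := by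
    rw [← Finset.abs_prod, prod_inv_distrib, pic_prod_diff _ _ hi, abs_inv, abs_mul, abs_mul, abs_pow,
      abs_neg, abs_one, one_pow, one_mul, abs_of_nonneg (by positivity), abs_of_nonneg (by positivity)]
  have h2 : ∏ j ∈ (range (2 * p)).erase i, (|(j : ℚ) - l| + 1) ≤
      ((l + 1)! : ℚ) * ((2 * p - l)! : ℚ) := by
    rw [← pic_prod_abs p l hl, ← mul_prod_erase (range (2 * p)) _ (mem_range.2 hi)]
    refine le_mul_of_one_le_left (prod_nonneg fun j _ => by positivity) ?_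
    have := abs_nonneg ((i : ℚ) - l)
    linarith
  have hch : ((2 * p - 1).choose i : ℚ) * (i ! : ℚ) * ((2 * p - 1 - i)! : ℚ) = ((2 * p - 1)! : ℚ) := by
    exact_mod_cast Nat.choose_mul_factorial_mul_factorial (show i ≤ 2 * p - 1 by omega)
  have hi0 : (0 : ℚ) < (i ! : ℚ) := by positivity
  have hi1 : (0 : ℚ) < ((2 * p - 1 - i)! : ℚ) := by positivity
  have hfac0 : (0 : ℚ) < ((2 * p - 1)! : ℚ) := by positivity
  have h3 : ((i ! : ℚ) * ((2 * p - 1 - i)! : ℚ))⁻¹ ≤ 4 ^ p / ((2 * p - 1)! : ℚ) := by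
    rw [inv_eq_one_div, div_le_div_iff₀ (by positivity) hfac0, one_mul, ← hch, mul_assoc]
    refine mul_le_mul_of_nonneg_right ?_ (by positivity)
    have e1 : (2 * p - 1).choose i ≤ 2 ^ (2 * p - 1) := Nat.choose_le_two_pow _ _
    have e2 : 2 ^ (2 * p - 1) ≤ 2 ^ (2 * p) := Nat.pow_le_pow_right (by norm_num) (by omega)
    have e3 : (2 : ℕ) ^ (2 * p) = 4 ^ p := by rw [pow_mul]; norm_num
    have e4 : (2 * p - 1).choose i ≤ 4 ^ p := by rw [← e3]; exact e1.trans e2
    exact_mod_cast e4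
  have h4 : ((l + 1)! : ℚ) * ((2 * p - l)! : ℚ) ≤ (2 * p : ℚ) ^ 2 * ((2 * p - 1)! : ℚ) := by
    have e1 : (l + 1)! = (l + 1) * l ! := Nat.factorial_succ l
    have e2 : (2 * p - l)! = (2 * p - l) * (2 * p - 1 - l)! := by
      have := Nat.factorial_succ (2 * p - 1 - l)
      rw [show 2 * p - 1 - l + 1 = 2 * p - l by omega] at this
      exact this
    have e3 : l ! * (2 * p - 1 - l)! ≤ (2 * p - 1)! := by
      have := Nat.factorial_mul_factorial_dvd_factorial_add l (2 * p - 1 - l)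
      rw [show l + (2 * p - 1 - l) = 2 * p - 1 by omega] at this
      exact Nat.le_of_dvd (Nat.factorial_pos _) this
    have e4 : (l + 1)! * (2 * p - l)! ≤ (2 * p) ^ 2 * (2 * p - 1)! := by
      rw [e1, e2]
      calc (l + 1) * l ! * ((2 * p - l) * (2 * p - 1 - l)!)
          = ((l + 1) * (2 * p - l)) * (l ! * (2 * p - 1 - l)!) := by ring
        _ ≤ ((2 * p) * (2 * p)) * (2 * p - 1)! :=
          Nat.mul_le_mul (Nat.mul_le_mul (by omega) (by omega)) e3
        _ = _ := by ring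
    exact_mod_cast e4
  rw [h1]
  have h5 : ((4 : ℚ) ^ p / ((2 * p - 1)! : ℚ)) * ((2 * p : ℚ) ^ 2 * ((2 * p - 1)! : ℚ)) =
      (2 * p : ℚ) ^ 2 * 4 ^ p := by
    generalize ((2 * p - 1)! : ℚ) = x at hfac0
    have hx := hfac0.ne'
    field_simp
  rw [← h5]
  exact mul_le_mul h3 (h2.trans h4) (prod_nonneg fun j _ => by positivity) (by positivity)

theorem lamS_bound (p m l l' n : ℕ) (hlp : l < p) (hl' : l' < p) :
    |PowerSeries.coeff n (lamS ℚ p m l l')| ≤ 2 * ((2 * p : ℚ) ^ 2 * 4 ^ p) := by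
  rw [lamS_eq ℚ p m l l' hlp, map_add, PowerSeries.coeff_C_mul]
  have h1 := lamv_bound p l l' n (by omega) (by omega)
  have h2 := lamv_bound p (2 * p - 1 - l) l' n (by omega) (by omega)
  have h3 : |(-1 : ℚ) ^ m * PowerSeries.coeff n (lamv ℚ p (2 * p - 1 - l) l')| =
      |PowerSeries.coeff n (lamv ℚ p (2 * p - 1 - l) l')| := by
    rw [abs_mul, abs_pow, abs_neg, abs_one, one_pow, one_mul]
  have h4 := abs_add_le (PowerSeries.coeff n (lamv ℚ p l l'))
    ((-1 : ℚ) ^ m * PowerSeries.coeff n (lamv ℚ p (2 * p - 1 - l) l'))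
  rw [h3] at h4
  linarith

end Pool.Agent.SI
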