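import Pool.Agent.SI.WM
import Pool.Agent.SI.MOD

/-!
# SI: the zero estimate, counting part
-/

namespace Pool.Agent.SI

open Polynomial Matrix Pool.Agent.ZC

/-- a basis taken among the vectors, the first family first -/
theorem exists_two_basis {K V : Type*} [Field K] [AddCommGroup V] [Module K V] {A J : Type*} [Fintype A]
    [Fintype J] (v : A → V) (w : J → V) :
    ∃ (dE dO : ℕ) (bE : Fin dE → A) (bO : Fin dO → J), dE ≤ Fintype.card A ∧ dO ≤ Fintype.card J ∧
      LinearIndependent K (Sum.elim (fun e => v (bE e)) (fun o => w (bO o))) ∧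
      (∃ c : A → Fin dE → K, (∀ i, v i = ∑ e, c i e • v (bE e)) ∧
        ∀ e e', c (bE e) e' = if e' = e then 1 else 0) ∧
      (∃ (c : J → Fin dE → K) (c' : J → Fin dO → K),
        ∀ j, w j = ∑ e, c j e • v (bE e) + ∑ o, c' j o • w (bO o)) := by
  classical
  obtain ⟨κ, a, ha, hsp, hli⟩ := exists_linearIndependent' K v
  have : Finite κ := Finite.of_injective a ha
  have := Fintype.ofFinite κ
  set W := Submodule.span K (Set.range v) with hW
  obtain ⟨κ', a', ha', hsp', hli'⟩ := exists_linearIndependent' K (fun j => (Submodule.Quotient.mk (w j) : V ⧸ W))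
  have : Finite κ' := Finite.of_injective a' ha'
  have := Fintype.ofFinite κ'
  set f := Fintype.equivFin κ with hf
  set f' := Fintype.equivFin κ' with hf'
  have hE : LinearIndependent K (fun e => v (a (f.symm e))) := hli.comp f.symm f.symm.injective
  have hmem : ∀ i, v i ∈ W := fun i => Submodule.subset_span ⟨i, rfl⟩
  have hspE : ∀ x ∈ W, ∃ c : Fin (Fintype.card κ) → K, x = ∑ e, c e • v (a (f.symm e)) := by
    intro x hx
    rw [← hsp] at hx
    obtain ⟨c, hc⟩ := (Submodule.mem_span_range_iff_exists_fun K).1 hx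
    refine ⟨fun e => c (f.symm e), ?_⟩
    rw [← hc]
    exact (Equiv.sum_comp f.symm (fun i => c i • (v ∘ a) i)).symm
  refine ⟨Fintype.card κ, Fintype.card κ', fun e => a (f.symm e), fun o => a' (f'.symm o),
    Fintype.card_le_of_injective a ha, Fintype.card_le_of_injective a' ha', ?_, ?_, ?_⟩
  · have h1 : LinearIndependent K (fun e => (⟨v (a (f.symm e)), hmem _⟩ : W)) := by
      apply LinearIndependent.of_comp W.subtype
      exact hE
    have h2 : LinearIndependent K (Submodule.Quotient.mk (p := W) ∘ fun o => w (a' (f'.symm o))) :=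
      hli'.comp f'.symm f'.symm.injective
    exact LinearIndependent.sumElim_of_quotient h1 _ h2
  · choose c hc using fun i => hspE (v i) (hmem i)
    refine ⟨c, hc, fun e e' => ?_⟩
    have h1 : ∑ e', (c (a (f.symm e)) e' - if e' = e then 1 else 0) • v (a (f.symm e')) = 0 := by
      simp only [sub_smul, Finset.sum_sub_distrib, ite_smul, one_smul, zero_smul, Finset.sum_ite_eq',
        Finset.mem_univ, if_true]
      rw [← hc, sub_self]
    have h2 := Fintype.linearIndependent_iff.1 hE _ h1 e'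
    exact sub_eq_zero.1 h2
  · have h3 : ∀ j, ∃ (c : Fin (Fintype.card κ) → K) (c' : Fin (Fintype.card κ') → K),
        w j = ∑ e, c e • v (a (f.symm e)) + ∑ o, c' o • w (a' (f'.symm o)) := by
      intro j
      have h4 : (Submodule.Quotient.mk (w j) : V ⧸ W) ∈
          Submodule.span K (Set.range ((fun j => (Submodule.Quotient.mk (w j) : V ⧸ W)) ∘ a')) := by
        rw [hsp']; exact Submodule.subset_span ⟨j, rfl⟩
      obtain ⟨c', hc'⟩ := (Submodule.mem_span_range_iff_exists_fun K).1 h4
      have h5 : w j - ∑ o, c' (f'.symm o) • w (a' (f'.symm o)) ∈ W := by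
        rw [← Submodule.Quotient.mk_eq_zero, Submodule.Quotient.mk_sub, sub_eq_zero, ← hc']
        rw [Equiv.sum_comp f'.symm (fun o => c' o • w (a' o))]
        rw [← Submodule.mkQ_apply, map_sum]
        simp only [map_smul, Submodule.mkQ_apply, Function.comp_apply]
      obtain ⟨c, hc⟩ := hspE _ h5
      refine ⟨c, fun o => c' (f'.symm o), ?_⟩
      rw [← hc, sub_add_cancel]
    choose c c' hcc using h3
    exact ⟨c, c', hcc⟩

variable {K : Type*} [Field K]

/-- denominator of the shifts -/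
noncomputable def dnS (K : Type*) [Field K] (L S : ℕ) : K[X] :=
  ((X - C (-(1 / 2) : K)) * (X - C (-(L : K) - 1 / 2))) ^ (S + 1)

/-- numerators of the shifts -/
noncomputable def nmS (K : Type*) [Field K] (L S k : ℕ) : K[X] :=
  C ((-1) ^ (k + 1)) * ((X - C (-(1 / 2) : K)) ^ (S - k) * (X - C (-(L : K) - 1 / 2)) ^ (S + 1) +
    (X - C (-(1 / 2) : K)) ^ (S + 1) * (X - C (-(L : K) - 1 / 2)) ^ (S - k))

theorem dnS_ne_zero (L S : ℕ) : dnS K L S ≠ 0 :=
  pow_ne_zero _ (mul_ne_zero (X_sub_C_ne_zero _) (X_sub_C_ne_zero _))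

theorem natDegree_dnS (L S : ℕ) : (dnS K L S).natDegree = 2 * (S + 1) := by
  unfold dnS
  rw [natDegree_pow, natDegree_mul (X_sub_C_ne_zero _) (X_sub_C_ne_zero _), natDegree_X_sub_C,
    natDegree_X_sub_C]
  ring

theorem natDegree_nmS_le (L S k : ℕ) : (nmS K L S k).natDegree ≤ (dnS K L S).natDegree := by
  rw [natDegree_dnS]
  unfold nmS
  refine (natDegree_C_mul_le _ _).trans ?_
  refine (natDegree_add_le _ _).trans (max_le ?_ ?_)
  · refine natDegree_mul_le.trans ?_
    rw [natDegree_pow, natDegree_pow, natDegree_X_sub_C, natDegree_X_sub_C]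
    omega
  · refine natDegree_mul_le.trans ?_
    rw [natDegree_pow, natDegree_pow, natDegree_X_sub_C, natDegree_X_sub_C]
    omega

theorem nmS_div (L S k : ℕ) (hk : k ≤ S) : emb K (nmS K L S k) / emb K (dnS K L S) =
    emb K (C ((-1) ^ (k + 1))) * (pin (-(1 / 2) : K) ^ (k + 1) + pin (-(L : K) - 1 / 2) ^ (k + 1)) := by
  have h1 : ∀ y : K, emb K (X - C y) * pin y = 1 := pin_mul_self
  have h2 : ∀ y : K, emb K ((X - C y) ^ (S + 1)) * pin y ^ (k + 1) = emb K ((X - C y) ^ (S - k)) := by
    intro y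
    have e : S + 1 = (S - k) + (k + 1) := by omega
    rw [e, pow_add, map_mul, map_pow _ _ (k + 1), mul_assoc, ← mul_pow, h1, one_pow, mul_one]
  rw [div_eq_iff (emb_ne_zero (dnS_ne_zero L S))]
  unfold nmS dnS
  rw [mul_pow]
  simp only [map_mul, map_add]
  rw [← h2, ← h2]
  ring

theorem nm_indep [CharZero K] (L S : ℕ) (γ : ℕ → K) (α : FractionRing K[X])
    (h : ∑ k ∈ Finset.range (S + 1), emb K (C (γ k)) * (emb K (nmS K L S k) / emb K (dnS K L S)) =
      α - shf K α) : ∀ k ≤ S, γ k = 0 := by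
  classical
  intro k hk
  set y : Bool → K := fun b => if b then -(1 / 2) else -(L : K) - 1 / 2 with hy
  have h1 : ∑ j : Bool, ppl (S + 1) (fun k => (-1) ^ (k + 1) * γ k) (pin (y j)) = α - shf K α := by
    rw [← h, Fintype.sum_bool]
    unfold ppl
    rw [← Finset.sum_add_distrib]
    refine Finset.sum_congr rfl fun k hk => ?_
    rw [Finset.mem_range] at hk
    rw [nmS_div L S k (by omega)]
    simp only [hy, if_true, Bool.false_eq_true, if_false, map_mul]
    ring
  have h2 := nonsum_multi (S + 1) (fun _ k => (-1) ^ (k + 1) * γ k) y (-(1 / 2)) α h1 k (by omega)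
  rw [Fintype.sum_bool, if_pos ⟨0, by simp [hy]⟩, if_pos ⟨-(L : ℤ), by simp [hy]; ring⟩] at h2
  have h3 : ((-1 : K) ^ (k + 1)) ≠ 0 := pow_ne_zero _ (neg_ne_zero.2 one_ne_zero)
  have h4 : (2 : K) * ((-1) ^ (k + 1) * γ k) = 0 := by rw [two_mul]; exact h2
  rcases mul_eq_zero.1 h4 with h5 | h5
  · exact absurd h5 two_ne_zero
  · exact (mul_eq_zero.1 h5).resolve_left h3

/-- the reindexing of the columns -/
def sig (m dE dO : ℕ) : Fin dE ⊕ (Fin m ⊕ Fin dO) ≃ Fin m ⊕ Fin (dE + dO) :=
  (((Equiv.sumAssoc (Fin dE) (Fin m) (Fin dO)).symm.trans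
    (Equiv.sumCongr (Equiv.sumComm (Fin dE) (Fin m)) (Equiv.refl (Fin dO)))).trans
      (Equiv.sumAssoc (Fin m) (Fin dE) (Fin dO))).trans (Equiv.sumCongr (Equiv.refl (Fin m)) finSumFinEquiv)

theorem sig_inl (m dE dO : ℕ) (e : Fin dE) : sig m dE dO (Sum.inl e) = Sum.inr (finSumFinEquiv (Sum.inl e)) := rfl

/-- **zero estimate**, counting part -/
theorem ze_core [CharZero K] {m S : ℕ} {J : Type*} [Fintype J] (D L a k0 : ℕ)
    (P : Fin m → ℕ → K[X]) (hPD : ∀ i, ∀ k ≤ S, (P i k).natDegree ≤ D)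
    (q : J → K[X]) (hqD : ∀ j, (q j).natDegree ≤ D) (ψ : J → PowerSeries K) (χ : Fin m → PowerSeries K)
    (H : ℕ → ℕ → PowerSeries K)
    (hrel : ∀ l ≤ L, (PowerSeries.X : PowerSeries K) ^ a ∣ ∑ j, ψ j * loc K l (q j) +
      ∑ i, χ i * ∑ k ∈ Finset.range (S + 1), loc K l (P i k) * H k l)
    (hshift : ∀ l < L, ∀ k ≤ S, loc K (l + 1) (dnS K L S) * (H k l - H k (l + 1)) =
      loc K (l + 1) (nmS K L S k))
    (hind : ∀ c : Fin m → K, (∀ k ≤ S, ∑ i, C (c i) * P i k = 0) → c = 0)
    (i0 : Fin m) (hχ : ¬ (PowerSeries.X : PowerSeries K) ^ (k0 + 1) ∣ χ i0)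
    (T : Finset K) (hT : ∀ l ≤ L, -(l : K) ∉ T) (N0 : ℕ)
    (hN0 : m + m * (S + 1) + Fintype.card J ≤ N0)
    (hdiv : ∀ x ∈ T, ∀ i, ∀ s < N0, (X - C x) ^ (S + 1) ∣
      ∑ k ∈ Finset.range (S + 1), (C x - X) ^ (S - k) * (P i k).comp (X + C (s : K))) :
    ∃ dP ≤ m * (S + 1), (a - k0) * (L + 2 - N0) + dP * T.card ≤
      (m + dP + Fintype.card J) * D + m * (N0 * (2 * (S + 1))) := by
  classical
  obtain ⟨dE, dO, bE, bO, hdE, hdO, hli, ⟨c, hc, hcb⟩, c1, c2, hc12⟩ :=
    exists_two_basis (K := K) (fun x : Fin m × Fin (S + 1) => P x.1 x.2) q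
  rw [Fintype.card_prod, Fintype.card_fin, Fintype.card_fin] at hdE
  set u : Fin (dE + dO) → K[X] := fun z => Sum.elim (fun e => P (bE e).1 (bE e).2) (fun o => q (bO o))
    (finSumFinEquiv.symm z) with hu
  have huli : LinearIndependent K u := hli.comp _ finSumFinEquiv.symm.injective
  have huD : ∀ z, (u z).natDegree ≤ D := by
    intro z
    simp only [hu]
    rcases finSumFinEquiv.symm z with e | o
    · exact hPD _ _ (Nat.lt_succ_iff.1 (bE e).2.2)
    · exact hqD _
  set cP : Fin m → ℕ → Fin (dE + dO) → K := fun i k z =>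
    if hk : k < S + 1 then Sum.elim (fun e => c (i, ⟨k, hk⟩) e) (fun _ => 0) (finSumFinEquiv.symm z) else 0 with hcP
  set cq : J → Fin (dE + dO) → K := fun j z => Sum.elim (c1 j) (c2 j) (finSumFinEquiv.symm z) with hcq
  have hsum : ∀ (g : Fin dE ⊕ Fin dO → K[X]), ∑ z, g (finSumFinEquiv.symm z) =
      ∑ e, g (Sum.inl e) + ∑ o, g (Sum.inr o) := by
    intro g
    rw [Equiv.sum_comp finSumFinEquiv.symm g, Fintype.sum_sum_type]
  have hPe : ∀ i, ∀ k ≤ S, P i k = ∑ z, C (cP i k z) * u z := by
    intro i k hk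
    have hk' : k < S + 1 := by omega
    set g : Fin dE ⊕ Fin dO → K[X] := fun y =>
        C (Sum.elim (fun e => c (i, ⟨k, hk'⟩) e) (fun _ => (0 : K)) y) *
        Sum.elim (fun e => P (bE e).1 (bE e).2) (fun o => q (bO o)) y with hg
    have h1 : ∑ z, C (cP i k z) * u z = ∑ z, g (finSumFinEquiv.symm z) := by
      refine Finset.sum_congr rfl fun z _ => ?_
      simp only [hcP, dif_pos hk', hu, hg]
    rw [h1, hsum g]
    simp only [hg, Sum.elim_inl, Sum.elim_inr, C_0, zero_mul, Finset.sum_const_zero, add_zero]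
    have h2 := hc (i, ⟨k, hk'⟩)
    simp only [smul_eq_C_mul] at h2
    exact h2
  have hqe : ∀ j, q j = ∑ z, C (cq j z) * u z := by
    intro j
    set g : Fin dE ⊕ Fin dO → K[X] := fun y => C (Sum.elim (c1 j) (c2 j) y) *
        Sum.elim (fun e => P (bE e).1 (bE e).2) (fun o => q (bO o)) y with hg
    have h1 : ∑ z, C (cq j z) * u z = ∑ z, g (finSumFinEquiv.symm z) := by
      refine Finset.sum_congr rfl fun z _ => ?_
      simp only [hcq, hu, hg]
    rw [h1, hsum g]
    have h2 := hc12 j
    simp only [smul_eq_C_mul] at h2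
    simp only [hg, Sum.elim_inl, Sum.elim_inr]
    exact h2
  set η : Fin (dE + dO) → ℕ → PowerSeries K := fun z l => ∑ j, PowerSeries.C (cq j z) * ψ j +
    ∑ i, χ i * ∑ k ∈ Finset.range (S + 1), PowerSeries.C (cP i k z) * H k l with hη
  set num : Fin m → Fin (dE + dO) → K[X] := fun i z =>
    ∑ k ∈ Finset.range (S + 1), C (cP i k z) * nmS K L S k with hnum
  have hlocC : ∀ (l : ℕ) (x : K), loc K l (C x) = PowerSeries.C x := by
    intro l x
    rw [loc_apply, Polynomial.C_comp, Polynomial.coe_C]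
  -- the relation
  have hrel' : ∀ l ≤ L, (PowerSeries.X : PowerSeries K) ^ a ∣ ∑ z, loc K l (u z) * η z l := by
    intro l hl
    have h1 : ∑ z, loc K l (u z) * η z l = ∑ j, ψ j * loc K l (q j) +
        ∑ i, χ i * ∑ k ∈ Finset.range (S + 1), loc K l (P i k) * H k l := by
      simp only [hη, mul_add, Finset.sum_add_distrib]
      congr 1
      · simp only [Finset.mul_sum]
        rw [Finset.sum_comm]
        refine Finset.sum_congr rfl fun j _ => ?_
        rw [hqe j, map_sum, Finset.mul_sum]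
        refine Finset.sum_congr rfl fun z _ => ?_
        rw [map_mul, hlocC]
        ring
      · simp only [Finset.mul_sum]
        rw [Finset.sum_comm]
        refine Finset.sum_congr rfl fun i _ => ?_
        rw [Finset.sum_comm]
        refine Finset.sum_congr rfl fun k hk => ?_
        rw [Finset.mem_range] at hk
        rw [hPe i k (by omega), map_sum, Finset.sum_mul, Finset.mul_sum]
        refine Finset.sum_congr rfl fun z _ => ?_
        rw [map_mul, hlocC]
        ring
    rw [h1]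
    exact hrel l hl
  have hshift' : ∀ l < L, ∀ z, loc K (l + 1) (dnS K L S) * (η z l - η z (l + 1)) =
      ∑ i, χ i * loc K (l + 1) (num i z) := by
    intro l hl z
    have h1 : η z l - η z (l + 1) = ∑ i, χ i * ∑ k ∈ Finset.range (S + 1),
        PowerSeries.C (cP i k z) * (H k l - H k (l + 1)) := by
      simp only [hη]
      rw [add_sub_add_left_eq_sub, ← Finset.sum_sub_distrib]
      refine Finset.sum_congr rfl fun i _ => ?_
      rw [← mul_sub, ← Finset.sum_sub_distrib]
      congr 1
      exact Finset.sum_congr rfl fun k _ => by ring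
    rw [h1, Finset.mul_sum]
    refine Finset.sum_congr rfl fun i _ => ?_
    simp only [hnum, map_sum, map_mul, hlocC, Finset.mul_sum]
    refine Finset.sum_congr rfl fun k hk => ?_
    rw [Finset.mem_range] at hk
    rw [← hshift l hl k (by omega)]
    ring
  have hnumD : ∀ i z, (num i z).natDegree ≤ (dnS K L S).natDegree := by
    intro i z
    refine Polynomial.natDegree_sum_le_of_forall_le _ _ fun k _ => ?_
    exact (natDegree_C_mul_le _ _).trans (natDegree_nmS_le L S k)
  -- the determinant is not zero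
  have hW0 : (wMat (dnS K L S) u num).det ≠ 0 := by
    intro h0
    obtain ⟨γ, β, hγ, hβ⟩ := wMat_det u huli (dnS K L S) (dnS_ne_zero L S) num h0
    apply hγ
    apply hind
    have h1 : ∀ z, ∀ k ≤ S, ∑ i, γ i * cP i k z = 0 := by
      intro z
      apply nm_indep L S (fun k => ∑ i, γ i * cP i k z) (β z)
      rw [← hβ z]
      simp only [map_sum, Finset.sum_mul, map_mul, hnum, Finset.sum_div, Finset.mul_sum]
      rw [Finset.sum_comm]
      refine Finset.sum_congr rfl fun i _ => Finset.sum_congr rfl fun k _ => ?_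
      ring
    intro k hk
    have h2 : ∑ i, C (γ i) * P i k = ∑ z, C (∑ i, γ i * cP i k z) * u z := by
      simp only [map_sum, Finset.sum_mul, C_mul]
      rw [Finset.sum_comm]
      refine Finset.sum_congr rfl fun i _ => ?_
      rw [hPe i k hk, Finset.mul_sum]
      exact Finset.sum_congr rfl fun z _ => by ring
    rw [h2]
    exact Finset.sum_eq_zero fun z _ => by rw [h1 z k hk, C_0, zero_mul]
  have hm : 0 < m := Fin.pos i0
  -- zeros at the poles
  have hz1 : ∀ l ∈ Finset.Icc (m + (dE + dO) - 1) L,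
      (PowerSeries.X : PowerSeries K) ^ (a - k0) ∣ loc K l (wMat (dnS K L S) u num).det := by
    intro l hl
    rw [Finset.mem_Icc] at hl
    exact pow_dvd_left_of_mul (wMat_dvd u (dnS K L S) num η χ a L hrel' hshift' i0 l (by omega) hl.2) hχ
  -- zeros at the other points
  have hz2 : ∀ x ∈ T, (X - C x) ^ dE ∣ (wMat (dnS K L S) u num).det := by
    intro x hx
    have h1 := MOD_half ((wMat (dnS K L S) u num).submatrix (sig m dE dO) (sig m dE dO)) S x
      (fun i k j => (P i k).comp (X + C (((finSumFinEquiv (sig m dE dO j) : Fin (m + (dE + dO))) : ℕ) : K)))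
      (fun e => (bE e).1) (fun e => ((bE e).2 : ℕ)) (fun e => Nat.lt_succ_iff.1 (bE e).2.2)
      (fun j e => by
        rw [Matrix.submatrix_apply, sig_inl]
        simp only [wMat, Matrix.of_apply, Sum.elim_inr, hu, Equiv.symm_apply_apply, Sum.elim_inl])
      (fun i k e => if hk : k < S + 1 then c (i, ⟨k, hk⟩) e else 0)
      (fun i k hk j => by
        have hk' : k < S + 1 := by omega
        have h2 := hc (i, ⟨k, hk'⟩)
        simp only [smul_eq_C_mul] at h2
        simp only [dif_pos hk']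
        conv_lhs => rw [h2]
        rw [Polynomial.sum_comp]
        refine Finset.sum_congr rfl fun e _ => ?_
        rw [Polynomial.mul_comp, Polynomial.C_comp])
      (fun e e' => by
        rw [dif_pos (bE e).2.2]
        exact hcb e e')
      (fun i j => by
        refine hdiv x hx i _ ?_
        have := (finSumFinEquiv (sig m dE dO j) : Fin (m + (dE + dO))).2
        omega)
    rw [Matrix.det_submatrix_equiv_self, Fintype.card_fin] at h1
    exact h1
  have hcount := count_two hW0 (Finset.Icc (m + (dE + dO) - 1) L) T (a - k0) dE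
    (fun l hl => hT l (Finset.mem_Icc.1 hl).2) hz1 hz2
  have hdeg := natDegree_wMat_le (dnS K L S) u num D huD hnumD
  rw [natDegree_dnS] at hdeg
  rw [Nat.card_Icc] at hcount
  refine ⟨dE, hdE, ?_⟩
  have h5 : L + 2 - N0 ≤ L + 1 - (m + (dE + dO) - 1) := by omega
  have h6 : m + (dE + dO) ≤ N0 := by omega
  calc (a - k0) * (L + 2 - N0) + dE * T.card
      ≤ (a - k0) * (L + 1 - (m + (dE + dO) - 1)) + dE * T.card :=
        Nat.add_le_add_right (Nat.mul_le_mul_left _ h5) _
    _ ≤ m * ((m + (dE + dO)) * (2 * (S + 1)) + D) + (dE + dO) * D := hcount.trans hdeg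
    _ ≤ m * (N0 * (2 * (S + 1)) + D) + (dE + Fintype.card J) * D := by gcongr
    _ = (m + dE + Fintype.card J) * D + m * (N0 * (2 * (S + 1))) := by ring

end Pool.Agent.SI
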