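import Pool.Agent.SI.ZER
import Pool.Agent.SI.Defs
import Pool.Agent.ZC.ZEB

/-!
# SI: zero estimate for the rows
-/

namespace Pool.Agent.SI

open Finset Pool.Agent.ZC

theorem ZES_wl {K : Type*} [Field K] (p l : ℕ) : wl K p l = hl K p l := rfl

theorem ZES_gh_shift {K : Type*} [Field K] (p l : ℕ) (h : l < 2 * p - 1) :
    gh K p (l + 1) - gh K p l = (PowerSeries.C ((2 * (l : K) + 1) / 2) - PowerSeries.X)⁻¹ -
      (PowerSeries.C ((2 * ((2 * (p : K) - 1) - l - 1) + 1) / 2) + PowerSeries.X)⁻¹ := by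
  obtain ⟨m, hm⟩ : ∃ m, 2 * p - 1 - l = m + 1 := ⟨2 * p - 1 - l - 1, by omega⟩
  have hm' : 2 * p - 1 - (l + 1) = m := by omega
  have hc : (2 * (p : K) - 1) - l - 1 = (m : K) := by
    have h1 : ((2 * p : ℕ) : K) = ((m + 1 + l + 1 : ℕ) : K) := by
      congr 1; omega
    push_cast at h1
    linear_combination h1
  unfold gh
  rw [hm, hm', hc, Finset.sum_range_succ, Finset.sum_range_succ _ m]
  ring

theorem ZES_sg_gh {K : Type*} [Field K] [CharZero K] (p l : ℕ) (h : l ≤ 2 * p - 1) :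
    PowerSeries.evalNegHom (gh K p l) = gh K p (2 * p - 1 - l) := by
  have hc : ∀ k : ℕ, ((2 * (k : K) + 1) / 2) ≠ 0 := by
    intro k
    have : ((2 * k + 1 : ℕ) : K) ≠ 0 := Nat.cast_ne_zero.2 (by omega)
    push_cast at this
    exact div_ne_zero this two_ne_zero
  unfold gh
  rw [show 2 * p - 1 - (2 * p - 1 - l) = l by omega, map_add, map_sum, map_sum, add_comm]
  congr 1
  · refine Finset.sum_congr rfl fun k _ => ?_
    rw [sg_inv]
    · rw [map_add, sg_C, sg_X, ← sub_eq_add_neg]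
    · simp only [map_add, PowerSeries.constantCoeff_C, PowerSeries.constantCoeff_X, add_zero]
      exact hc k
  · refine Finset.sum_congr rfl fun k _ => ?_
    rw [sg_inv]
    · rw [map_sub, sg_C, sg_X, sub_neg_eq_add]
    · simp only [map_sub, PowerSeries.constantCoeff_C, PowerSeries.constantCoeff_X, sub_zero]
      exact hc k

theorem ZES_sg_zp {K : Type*} [Field K] (T : ℕ) (z : ℕ → K) :
    PowerSeries.evalNegHom (zp K T z) = zp K T z := by
  unfold zp
  rw [map_sum]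
  refine Finset.sum_congr rfl fun i hi => ?_
  have h1 : Odd i := (Finset.mem_filter.1 hi).2
  rw [map_mul, sg_C, sg_X_pow h1]

theorem ZES_Ap_natDegree {K : Type*} [Field K] (q : ℕ) : (Ap K q).natDegree = q := by
  unfold Ap
  rw [Polynomial.natDegree_prod_of_monic _ _ (fun μ _ => Polynomial.monic_X_sub_C _)]
  simp only [Polynomial.natDegree_X_sub_C, Finset.sum_const, Finset.card_range, smul_eq_mul, mul_one]

theorem ZES_Ap_ne_zero {K : Type*} [Field K] (q : ℕ) : Ap K q ≠ 0 :=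
  (Polynomial.monic_prod_of_monic _ _ fun μ _ => Polynomial.monic_X_sub_C _).ne_zero

theorem ZES_Ap_eval {K : Type*} [Field K] (q : ℕ) (μ : ℕ) (hμ : μ < q) :
    (Ap K q).eval ((2 * (μ : K)) ^ 2) = 0 := by
  unfold Ap
  rw [Polynomial.eval_prod]
  refine Finset.prod_eq_zero (Finset.mem_range.2 hμ) ?_
  simp

theorem si_ze (g S k0 a T : ℕ) (hg : 1 ≤ g) {J : Type} [Fintype J] (ψ : J → PowerSeries ℚ)
    (σ : J → ℕ) (hσ : ∀ j, σ j ≤ 1)
    (hψ : ∀ j, PowerSeries.evalNegHom (ψ j) = PowerSeries.C ((-1 : ℚ) ^ σ j) * ψ j) (z : ℕ → ℚ)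
    (hi : (g + 2) * (k0 + 1 + Fintype.card J) + (k0 + 1) * (S + 1) + 1 ≤ g * (a - k0)) :
    ∃ P0 : ℕ, ∀ P ≥ P0, ∀ q : J → Polynomial ℚ,
      (∀ j, q j ∈ Polynomial.degreeLT ℚ ((g + 2) * P)) →
      ∀ f : Fin (k0 + 1) → Fin (S + 1) → Polynomial ℚ,
      (∀ k r, f k r ∈ Polynomial.degreeLT ℚ P) →
      (∀ l < g * P, ∀ m < a, PowerSeries.coeff m
        (∑ j, ψ j * (hl ℚ (g * P) l ^ σ j * ev ℚ (g * P) l (q j)) +
          ∑ k : Fin (k0 + 1), ∑ r : Fin (S + 1), PowerSeries.X ^ (k : ℕ) *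
            hs ℚ r (hl ℚ (g * P) l ^ (((k : ℕ) + r) % 2) *
              ev ℚ (g * P) l (Ap ℚ ((g + 1) * P) * f k r) * Gh ℚ (g * P) l T z)) = 0) →
      ∀ k r, f k r = 0 := by
  refine ⟨zeP S k0 a (Fintype.card J), fun P hP q hq f hf hrel => ?_⟩
  have hP1 : 1 ≤ P := le_trans (by unfold zeP; omega) hP
  have hdeg : ∀ (N : ℕ), 1 ≤ N → ∀ h : Polynomial ℚ, h ∈ Polynomial.degreeLT ℚ N → h.natDegree < N := by
    intro N hN h hh
    rw [Polynomial.mem_degreeLT] at hh
    by_cases h0 : h = 0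
    · rw [h0, Polynomial.natDegree_zero]; omega
    · exact (Polynomial.natDegree_lt_iff_degree_lt h0).2 hh
  set n : ℕ → ℕ → Polynomial ℚ := fun k r =>
    if h : k < k0 + 1 ∧ r < S + 1 then f ⟨k, h.1⟩ ⟨r, h.2⟩ else 0 with hn
  have hnf : ∀ (k : Fin (k0 + 1)) (r : Fin (S + 1)), n k r = f k r := by
    intro k r
    simp only [hn]
    rw [dif_pos ⟨k.2, r.2⟩]
  have hall := ze_num (K := ℚ) (S := S) (k0 := k0) g a P hi hP (Ap ℚ ((g + 1) * P)) (ZES_Ap_ne_zero _)
    (fun μ hμ => ZES_Ap_eval _ μ hμ) n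
    (by
      intro k hk r hr
      refine lt_of_le_of_lt Polynomial.natDegree_mul_le ?_
      rw [ZES_Ap_natDegree]
      have h1 : (n k r).natDegree < P := by
        have h2 := hnf ⟨k, by omega⟩ ⟨r, by omega⟩
        simp only at h2
        rw [h2]
        exact hdeg P hP1 _ (hf _ _)
      have h3 : (g + 2) * P = (g + 1) * P + P := by ring
      omega)
    q (fun j => hdeg _ (Nat.mul_pos (by omega) (by omega)) _ (hq j)) σ hσ ψ hψ
    (fun l => Gh ℚ (g * P) l T z)
    (by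
      intro l hl
      simp only [Gh, map_sub]
      rw [ZES_sg_zp, ZES_sg_gh _ _ hl])
    (by
      intro l hl
      simp only [Gh]
      rw [sub_sub_sub_cancel_left]
      exact ZES_gh_shift (g * P) l hl)
    (by
      intro l hl
      rw [PowerSeries.X_pow_dvd_iff]
      intro m hm
      have h1 := hrel l hl m hm
      simp only [ZES_wl]
      rw [← h1]
      congr 2
      rw [Finset.sum_range]
      refine Finset.sum_congr rfl fun k _ => ?_
      rw [Finset.sum_range, Finset.mul_sum]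
      refine Finset.sum_congr rfl fun r _ => ?_
      rw [hnf])
  intro k r
  rw [← hnf]
  exact hall k (Nat.lt_succ_iff.1 k.2) r (Nat.lt_succ_iff.1 r.2)

end Pool.Agent.SI
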